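import Pool.Agent.Lib.MP_41f445_an.Defs

/-!
# The amplification `H ⊗ L²(R)`: elementary facts
-/

set_option linter.unusedSectionVars false

open Topology Filter
open scoped InnerProductSpace ENNReal

namespace Pool.Agent.Lib.MP_41f445_an

section
variable {H : Type} [NormedAddCommGroup H] [InnerProductSpace ℂ H]

@[simp] lemma tensorOne_apply (x : H →L[ℂ] H) (f : Amp H) (i : PIdx) :
    (tensorOne x f) i = x (f i) := rfl

@[simp] lemma pauliX_apply (n : ℕ) (f : Amp H) (i : PIdx) :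
    (pauliX n f) i = f (addX n i) := rfl

@[simp] lemma pauliZ_apply (n : ℕ) (f : Amp H) (i : PIdx) :
    (pauliZ n f) i = sgn (i.1 n) • f (addZ n i) := rfl

lemma amp_ext {S T : Amp H →L[ℂ] Amp H} (h : ∀ f i, S f i = T f i) : S = T := by
  ext f
  exact h f _

lemma tensorOne_mul (x y : H →L[ℂ] H) : tensorOne (x * y) = tensorOne x * tensorOne y :=
  amp_ext fun _ _ => rfl

lemma tensorOne_one : tensorOne (1 : H →L[ℂ] H) = 1 := amp_ext fun _ _ => rfl

lemma tensorOne_add (x y : H →L[ℂ] H) : tensorOne (x + y) = tensorOne x + tensorOne y :=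
  amp_ext fun _ _ => rfl

lemma tensorOne_smul (c : ℂ) (x : H →L[ℂ] H) : tensorOne (c • x) = c • tensorOne x :=
  amp_ext fun _ _ => rfl

lemma addX_addX (n : ℕ) (i : PIdx) : addX n (addX n i) = i := by
  ext1
  · simp only [addX]
    rw [add_assoc, ← Finsupp.single_add]
    have : (1 : ZMod 2) + 1 = 0 := by decide
    rw [this, Finsupp.single_zero, add_zero]
  · rfl

lemma addZ_addZ (n : ℕ) (i : PIdx) : addZ n (addZ n i) = i := by
  ext1
  · rfl
  · simp only [addZ]
    rw [add_assoc, ← Finsupp.single_add]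
    have : (1 : ZMod 2) + 1 = 0 := by decide
    rw [this, Finsupp.single_zero, add_zero]

lemma sgn_mul_self (a : ZMod 2) : sgn a * sgn a = 1 := by
  unfold sgn; split_ifs <;> norm_num

lemma sgn_add_one (a : ZMod 2) : sgn (a + 1) = - sgn a := by
  fin_cases a
  · change sgn (0 + 1) = - sgn 0
    have : (0 + 1 : ZMod 2) ≠ 0 := by decide
    simp only [sgn, this, if_false, if_true]
  · change sgn (1 + 1) = - sgn 1
    have h1 : (1 + 1 : ZMod 2) = 0 := by decide
    have h2 : (1 : ZMod 2) ≠ 0 := by decide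
    simp only [sgn, h1, h2, if_false, if_true, neg_neg]

lemma pauliX_sq (n : ℕ) : (pauliX n : Amp H →L[ℂ] Amp H) * pauliX n = 1 :=
  amp_ext fun f i => by
    change f (addX n (addX n i)) = f i
    rw [addX_addX]

lemma pauliZ_sq (n : ℕ) : (pauliZ n : Amp H →L[ℂ] Amp H) * pauliZ n = 1 :=
  amp_ext fun f i => by
    change sgn (i.1 n) • (sgn ((addZ n i).1 n) • f (addZ n (addZ n i))) = f i
    rw [addZ_addZ, smul_smul]
    change (sgn (i.1 n) * sgn (i.1 n)) • f i = f i
    rw [sgn_mul_self, one_smul]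

lemma pauli_anti (n : ℕ) : (pauliX n : Amp H →L[ℂ] Amp H) * pauliZ n = - (pauliZ n * pauliX n) :=
  amp_ext fun f i => by
    change sgn ((addX n i).1 n) • f (addZ n (addX n i)) = - (sgn (i.1 n) • f (addX n (addZ n i)))
    have e1 : (addX n i).1 n = i.1 n + 1 := by simp [addX]
    rw [e1, sgn_add_one, neg_smul]
    rfl

lemma wop_norm_le {ι : Type} (τ : ι → ι) (hτ : Function.Injective τ) (x : ι → H →L[ℂ] H) (C : ℝ)
    (hx : ∀ i, ‖x i‖ ≤ C) : ‖wop τ hτ x C hx‖ ≤ |C| :=
  LinearMap.mkContinuous_norm_le _ (abs_nonneg C) _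

lemma pauliX_norm_le (n : ℕ) : ‖(pauliX n : Amp H →L[ℂ] Amp H)‖ ≤ 1 := by
  refine (wop_norm_le _ _ _ _ _).trans ?_
  simp

lemma pauliZ_norm_le (n : ℕ) : ‖(pauliZ n : Amp H →L[ℂ] Amp H)‖ ≤ 1 := by
  refine (wop_norm_le _ _ _ _ _).trans ?_
  simp

variable [CompleteSpace H]

lemma star_of_sq {K : Type*} [NormedAddCommGroup K] [InnerProductSpace ℂ K] [CompleteSpace K]
    {T : K →L[ℂ] K} (h1 : T * T = 1) (h2 : ‖T‖ ≤ 1) : star T = T := by
  have iso : ∀ x, ‖T x‖ = ‖x‖ := by
    intro x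
    apply le_antisymm
    · simpa using T.le_of_opNorm_le h2 x
    · have h3 : T (T x) = x := DFunLike.congr_fun h1 x
      have h4 := T.le_of_opNorm_le h2 (T x)
      rw [h3, one_mul] at h4
      exact h4
  have h3 : star T * T = 1 := by
    rw [ContinuousLinearMap.star_eq_adjoint]
    have := (ContinuousLinearMap.norm_map_iff_adjoint_comp_self T).1 iso
    exact this
  calc star T = star T * (T * T) := by rw [h1, mul_one]
    _ = T := by rw [← mul_assoc, h3, one_mul]

lemma pauliX_star (n : ℕ) : star (pauliX n : Amp H →L[ℂ] Amp H) = pauliX n :=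
  star_of_sq (pauliX_sq n) (pauliX_norm_le n)

lemma pauliZ_star (n : ℕ) : star (pauliZ n : Amp H →L[ℂ] Amp H) = pauliZ n :=
  star_of_sq (pauliZ_sq n) (pauliZ_norm_le n)

lemma tensorOne_star (x : H →L[ℂ] H) : tensorOne (star x) = star (tensorOne x) := by
  rw [ContinuousLinearMap.star_eq_adjoint (tensorOne x), ContinuousLinearMap.eq_adjoint_iff]
  intro f g
  rw [lp.inner_eq_tsum, lp.inner_eq_tsum]
  congr 1
  ext i
  rw [tensorOne_apply, tensorOne_apply, ContinuousLinearMap.star_eq_adjoint,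
    ContinuousLinearMap.adjoint_inner_left]

lemma tensorOne_pauliX (x : H →L[ℂ] H) (n : ℕ) :
    tensorOne x * pauliX n = pauliX n * tensorOne x := amp_ext fun _ _ => rfl

lemma tensorOne_pauliZ (x : H →L[ℂ] H) (n : ℕ) :
    tensorOne x * pauliZ n = pauliZ n * tensorOne x := amp_ext fun f i => by
  change x (sgn (i.1 n) • f (addZ n i)) = sgn (i.1 n) • x (f (addZ n i))
  rw [map_smul]

/-- Elements of a generated von Neumann algebra commute with everything that commutes with the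
generators and their adjoints. -/
lemma gen_comm {K : Type} [NormedAddCommGroup K] [InnerProductSpace ℂ K] [CompleteSpace K]
    {S : Set (K →L[ℂ] K)} {y : K →L[ℂ] K} (hy : y ∈ gen S) {z : K →L[ℂ] K}
    (hz : ∀ s ∈ S, s * z = z * s) (hz' : ∀ s ∈ S, star s * z = z * star s) : y * z = z * y := by
  have h1 : z ∈ StarSubalgebra.centralizer ℂ S := by
    rw [StarSubalgebra.mem_centralizer_iff]
    intro s hs
    exact ⟨hz s hs, hz' s hs⟩
  have h2 : y ∈ StarSubalgebra.centralizer ℂ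
      (StarSubalgebra.centralizer ℂ S : Set (K →L[ℂ] K)) := hy
  rw [StarSubalgebra.mem_centralizer_iff] at h2
  exact (h2 z h1).1.symm

lemma subset_gen {K : Type} [NormedAddCommGroup K] [InnerProductSpace ℂ K] [CompleteSpace K]
    {S : Set (K →L[ℂ] K)} {y : K →L[ℂ] K} (hy : y ∈ S) : y ∈ gen S := by
  change y ∈ StarSubalgebra.centralizer ℂ
      (StarSubalgebra.centralizer ℂ S : Set (K →L[ℂ] K))
  rw [StarSubalgebra.mem_centralizer_iff]
  intro g hg
  have hg1 : g ∈ StarSubalgebra.centralizer ℂ S := hg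
  have hg2 : star g ∈ StarSubalgebra.centralizer ℂ S := star_mem hg1
  rw [StarSubalgebra.mem_centralizer_iff] at hg1 hg2
  exact ⟨(hg1 y hy).1.symm, (hg2 y hy).1.symm⟩

lemma gen_mono {K : Type} [NormedAddCommGroup K] [InnerProductSpace ℂ K] [CompleteSpace K]
    {S T : Set (K →L[ℂ] K)} (hST : S ⊆ T) {y : K →L[ℂ] K} (hy : y ∈ gen S) : y ∈ gen T := by
  change y ∈ StarSubalgebra.centralizer ℂ
      (StarSubalgebra.centralizer ℂ T : Set (K →L[ℂ] K))
  rw [StarSubalgebra.mem_centralizer_iff]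
  intro g hg
  have hg1 : g ∈ StarSubalgebra.centralizer ℂ T := hg
  have hg2 : star g ∈ StarSubalgebra.centralizer ℂ T := star_mem hg1
  rw [StarSubalgebra.mem_centralizer_iff] at hg1 hg2
  exact ⟨(gen_comm hy (fun s hs => (hg1 s (hST hs)).1) (fun s hs => (hg1 s (hST hs)).2)).symm,
    (gen_comm hy (fun s hs => (hg2 s (hST hs)).1) (fun s hs => (hg2 s (hST hs)).2)).symm⟩

lemma oneR_comm (x : H →L[ℂ] H) {y : Amp H →L[ℂ] Amp H}
    (hy : y ∈ (oneR : VonNeumannAlgebra (Amp H))) : tensorOne x * y = y * tensorOne x := by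
  refine (gen_comm hy ?_ ?_).symm
  · rintro s ⟨n, rfl | rfl⟩
    · exact (tensorOne_pauliX x n).symm
    · exact (tensorOne_pauliZ x n).symm
  · rintro s ⟨n, rfl | rfl⟩
    · rw [pauliX_star]; exact (tensorOne_pauliX x n).symm
    · rw [pauliZ_star]; exact (tensorOne_pauliZ x n).symm

lemma pauliX_mem (n : ℕ) : pauliX n ∈ (oneR : VonNeumannAlgebra (Amp H)) :=
  subset_gen ⟨n, Or.inl rfl⟩

lemma pauliZ_mem (n : ℕ) : pauliZ n ∈ (oneR : VonNeumannAlgebra (Amp H)) :=
  subset_gen ⟨n, Or.inr rfl⟩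

lemma oneR_le {M : VonNeumannAlgebra H} {y : Amp H →L[ℂ] Amp H}
    (hy : y ∈ (oneR : VonNeumannAlgebra (Amp H))) : y ∈ ampR M :=
  gen_mono Set.subset_union_right hy

lemma tensorOne_mem {M : VonNeumannAlgebra H} {x : H →L[ℂ] H} (hx : x ∈ M) :
    tensorOne x ∈ ampR M := subset_gen (Or.inl ⟨x, hx, rfl⟩)

/-- `x ↦ x ⊗ 1` as a *-homomorphism `M → M ⊗ R`. -/
noncomputable def tHom (M : VonNeumannAlgebra H) :
    M.toStarSubalgebra →⋆ₐ[ℂ] (ampR M).toStarSubalgebra where
  toFun x := ⟨tensorOne (x : H →L[ℂ] H), tensorOne_mem x.2⟩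
  map_one' := Subtype.ext tensorOne_one
  map_mul' x y := Subtype.ext (tensorOne_mul _ _)
  map_zero' := Subtype.ext (amp_ext fun _ _ => rfl)
  map_add' x y := Subtype.ext (tensorOne_add _ _)
  commutes' c := Subtype.ext (by
    change tensorOne ((algebraMap ℂ (H →L[ℂ] H)) c) = algebraMap ℂ (Amp H →L[ℂ] Amp H) c
    rw [Algebra.algebraMap_eq_smul_one, Algebra.algebraMap_eq_smul_one, tensorOne_smul,
      tensorOne_one])
  map_star' x := Subtype.ext (tensorOne_star _)

/-- The inclusion `R → M ⊗ R`. -/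
noncomputable def rHom (M : VonNeumannAlgebra H) :
    (oneR : VonNeumannAlgebra (Amp H)).toStarSubalgebra →⋆ₐ[ℂ] (ampR M).toStarSubalgebra where
  toFun x := ⟨(x : Amp H →L[ℂ] Amp H), oneR_le x.2⟩
  map_one' := rfl
  map_mul' _ _ := rfl
  map_zero' := rfl
  map_add' _ _ := rfl
  commutes' _ := rfl
  map_star' _ := rfl

end

end Pool.Agent.Lib.MP_41f445_an
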