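import Mathlib

/-!
# The flip unitary

Two systems of `2 × 2` matrix units, in commuting algebras, give a unitary that exchanges
the off-diagonal corners.
-/

set_option linter.unusedSectionVars false

namespace Pool.Agent.Lib.MP_41f445_an

section
variable {M R B : Type*} [Ring M] [StarRing M] [Algebra ℂ M] [Ring R] [StarRing R] [Algebra ℂ R]
  [Ring B] [StarRing B] [Algebra ℂ B]

/-- The flip unitary. -/
theorem flip (T : M →⋆ₐ[ℂ] B) (J : R →⋆ₐ[ℂ] B) (hc : ∀ x y, T x * J y = J y * T x)
    {q v : M} (hq : IsStarProjection q) (hv1 : star v * v = q) (hv2 : v * star v = 1 - q)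
    (hvv : v * star v * v = v)
    {p s : R} (hp : IsStarProjection p) (hs1 : star s * s = 1 - p) (hs2 : s * star s = p)
    (hss : s * star s * s = s) :
    ∃ W : B, star W = W ∧ W * W = 1 ∧ ∀ x, q * x = x * q →
      T x = W * (T (q * x + v * x * star v) * J p + T ((1 - q) * x + star v * x * v) * J (1 - p))
        * W := by
  set q' := 1 - q with hq'
  set p' := 1 - p with hp'
  -- matrix unit relations in `M`
  have m1 : q * q = q := hq.isIdempotentElem.eq
  have m2 : q' * q' = q' := hq.one_sub.isIdempotentElem.eq
  have m3 : q * q' = 0 := hq.mul_one_sub_self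
  have m4 : q' * q = 0 := hq.one_sub_mul_self
  have m5 : q' * v = v := by rw [← hv2, hvv]
  have m6 : v * q = v := by rw [← hv1, ← mul_assoc, hvv]
  have m7 : q * v = 0 := by rw [← m5, ← mul_assoc, m3, zero_mul]
  have m8 : v * q' = 0 := by rw [← m6, mul_assoc, m3, mul_zero]
  have sq : star q = q := hq.isSelfAdjoint.star_eq
  have sq' : star q' = q' := hq.one_sub.isSelfAdjoint.star_eq
  have m9 : star v * q' = star v := by
    have := congrArg star m5; rwa [star_mul, sq'] at this
  have m10 : q * star v = star v := by
    have := congrArg star m6; rwa [star_mul, sq] at this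
  have m11 : star v * q = 0 := by
    have := congrArg star m7; rwa [star_mul, sq, star_zero] at this
  have m12 : q' * star v = 0 := by
    have := congrArg star m8; rwa [star_mul, sq', star_zero] at this
  have m13 : v * v = 0 := by
    calc v * v = v * q * v := by rw [m6]
      _ = 0 := by rw [mul_assoc, m7, mul_zero]
  have m14 : star v * star v = 0 := by
    calc star v * star v = star v * (q * star v) := by rw [m10]
      _ = 0 := by rw [← mul_assoc, m11, zero_mul]
  -- matrix unit relations in `R`
  have r1 : p * p = p := hp.isIdempotentElem.eq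
  have r2 : p' * p' = p' := hp.one_sub.isIdempotentElem.eq
  have r3 : p * p' = 0 := hp.mul_one_sub_self
  have r4 : p' * p = 0 := hp.one_sub_mul_self
  have r5 : p * s = s := by rw [← hs2, hss]
  have r6 : s * p' = s := by rw [← hs1, ← mul_assoc, hss]
  have r7 : p' * s = 0 := by rw [← r5, ← mul_assoc, r4, zero_mul]
  have r8 : s * p = 0 := by rw [← r6, mul_assoc, r4, mul_zero]
  have sp : star p = p := hp.isSelfAdjoint.star_eq
  have sp' : star p' = p' := hp.one_sub.isSelfAdjoint.star_eq
  have r9 : star s * p = star s := by
    have := congrArg star r5; rwa [star_mul, sp] at this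
  have r10 : p' * star s = star s := by
    have := congrArg star r6; rwa [star_mul, sp'] at this
  have r11 : star s * p' = 0 := by
    have := congrArg star r7; rwa [star_mul, sp', star_zero] at this
  have r12 : p * star s = 0 := by
    have := congrArg star r8; rwa [star_mul, sp, star_zero] at this
  have r13 : s * s = 0 := by
    calc s * s = s * p' * s := by rw [r6]
      _ = 0 := by rw [mul_assoc, r7, mul_zero]
  have r14 : star s * star s = 0 := by
    calc star s * star s = star s * (p' * star s) := by rw [r10]
      _ = 0 := by rw [← mul_assoc, r11, zero_mul]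
  have key : ∀ x y x' y', T x * J y * (T x' * J y') = T (x * x') * J (y * y') := by
    intro x y x' y'
    rw [map_mul, map_mul]
    calc _ = T x * (J y * T x') * J y' := by simp only [mul_assoc]
      _ = T x * (T x' * J y) * J y' := by rw [hc]
      _ = _ := by simp only [mul_assoc]
  -- the unitary
  set W : B := T q * J p + T q' * J p' + T v * J s + T (star v) * J (star s)
    with hW
  have hWs : star W = W := by
    rw [hW, star_add, star_add, star_add, star_mul, star_mul, star_mul, star_mul, ← map_star,
      ← map_star, ← map_star, ← map_star, ← map_star, ← map_star, ← map_star, ← map_star, sq, sq',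
      sp, sp', star_star, star_star, ← hc, ← hc, ← hc, ← hc]
    abel
  have hWW : W * W = 1 := by
    rw [hW]
    simp only [add_mul, mul_add, key, m1, m2, m3, m4, m5, m6, m7, m8, m9, m10, m11, m12, m13, m14,
      r1, r2, r3, r4, r5, r6, r7, r8, r9, r10, r11, r12, r13, r14, map_zero, zero_mul, mul_zero,
      add_zero, zero_add, hv1, hv2, hs1, hs2]
    have e1 : T q' = 1 - T q := by rw [hq', map_sub, map_one]
    have e2 : J p' = 1 - J p := by rw [hp', map_sub, map_one]
    rw [e1, e2]; noncomm_ring
  refine ⟨W, hWs, hWW, fun x c1 => ?_⟩
  have c2 : q' * x = x * q' := by rw [hq', sub_mul, mul_sub, c1, one_mul, mul_one]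
  have main : (T (q * x + v * x * star v) * J p +
      T (q' * x + star v * x * v) * J p') * W = W * (T x * J 1) := by
    rw [hW]
    simp only [map_add T, add_mul, mul_add, key, mul_one, r1, r2, r3, r4, r5, r7,
      r10, r12, mul_zero, map_zero, add_zero, zero_add]
    have a1 : q * x * q = q * x := by rw [mul_assoc, ← c1, ← mul_assoc, m1]
    have a2 : q * x * v = 0 := by rw [c1, mul_assoc, m7, mul_zero]
    have a3 : v * x * star v * q = 0 := by rw [mul_assoc, m11, mul_zero]
    have a4 : v * x * star v * v = v * x := by
      rw [mul_assoc, hv1, mul_assoc, ← c1, ← mul_assoc, m6]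
    have a5 : q' * x * q' = q' * x := by rw [mul_assoc, ← c2, ← mul_assoc, m2]
    have a6 : q' * x * star v = 0 := by rw [c2, mul_assoc, m12, mul_zero]
    have a7 : star v * x * v * q' = 0 := by rw [mul_assoc, m8, mul_zero]
    have a8 : star v * x * v * star v = star v * x := by
      rw [mul_assoc, hv2, mul_assoc, ← c2, ← mul_assoc, m9]
    simp only [a1, a2, a3, a4, a5, a6, a7, a8, map_zero, zero_mul, add_zero, zero_add]
  rw [mul_assoc, main, ← mul_assoc, hWW, one_mul, map_one, mul_one]

end

end Pool.Agent.Lib.MP_41f445_an
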