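import Pool.Agent.Lib.MP_41f445_an.Defs

/-!
# Tracial von Neumann algebras in standard form: elementary facts
-/

open Filter Topology
open scoped InnerProductSpace

namespace Pool.Agent.Lib.MP_41f445_an

variable {H : Type} [NormedAddCommGroup H] [InnerProductSpace ℂ H] [CompleteSpace H]

/-- Tracial von Neumann algebra with cyclic trace vector. -/
structure Std (M : VonNeumannAlgebra H) (Ω : H) : Prop where
  norm_one : ‖Ω‖ = 1
  cyclic : Dense {ξ : H | ∃ x ∈ M, x Ω = ξ}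
  trace : ∀ x ∈ M, ∀ y ∈ M, ⟪Ω, x (y Ω)⟫_ℂ = ⟪Ω, y (x Ω)⟫_ℂ

lemma IsII1Factor.std {M : VonNeumannAlgebra H} {Ω : H} (h : IsII1Factor M Ω) : Std M Ω :=
  ⟨h.norm_one, h.cyclic, h.trace⟩

lemma smul_memM {M : VonNeumannAlgebra H} (c : ℂ) {x : H →L[ℂ] H} (hx : x ∈ M) : c • x ∈ M :=
  M.toStarSubalgebra.smul_mem hx c

lemma mem_of_commutant {M : VonNeumannAlgebra H} {x : H →L[ℂ] H}
    (h : ∀ y ∈ M.commutant, y * x = x * y) : x ∈ M := by
  rw [← M.commutant_commutant, VonNeumannAlgebra.mem_commutant_iff]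
  exact h

lemma comm_commutant {M : VonNeumannAlgebra H} {x y : H →L[ℂ] H} (hx : x ∈ M)
    (hy : y ∈ M.commutant) : x * y = y * x :=
  VonNeumannAlgebra.mem_commutant_iff.1 hy x hx

lemma star_apply_inner (x : H →L[ℂ] H) (a b : H) : ⟪a, x b⟫_ℂ = ⟪(star x) a, b⟫_ℂ := by
  rw [ContinuousLinearMap.star_eq_adjoint, ContinuousLinearMap.adjoint_inner_left]

lemma star_apply_inner' (x : H →L[ℂ] H) (a b : H) : ⟪x a, b⟫_ℂ = ⟪a, (star x) b⟫_ℂ := by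
  rw [ContinuousLinearMap.star_eq_adjoint, ContinuousLinearMap.adjoint_inner_right]

namespace Std

variable {M : VonNeumannAlgebra H} {Ω : H} (h : Std M Ω)
include h

lemma norm_star_eq {x : H →L[ℂ] H} (hx : x ∈ M) : ‖(star x) Ω‖ = ‖x Ω‖ := by
  have e : ‖(star x) Ω‖ ^ 2 = ‖x Ω‖ ^ 2 := by
    rw [← inner_self_eq_norm_sq (𝕜 := ℂ), ← inner_self_eq_norm_sq (𝕜 := ℂ)]
    congr 1
    rw [star_apply_inner', star_star, h.trace x hx (star x) (star_mem hx), star_apply_inner,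
      star_star]
  have := norm_nonneg ((star x) Ω)
  have := norm_nonneg (x Ω)
  nlinarith [sq_nonneg (‖(star x) Ω‖ - ‖x Ω‖)]

lemma norm_mul_le {x y : H →L[ℂ] H} (hx : x ∈ M) (hy : y ∈ M) :
    ‖x (y Ω)‖ ≤ ‖y‖ * ‖x Ω‖ := by
  have e : x (y Ω) = (x * y) Ω := rfl
  rw [e, ← h.norm_star_eq (mul_mem hx hy), star_mul, mul_apply_eq_comp]
  calc ‖(star y) ((star x) Ω)‖ ≤ ‖star y‖ * ‖(star x) Ω‖ := (star y).le_opNorm _
    _ = ‖y‖ * ‖x Ω‖ := by rw [norm_star, h.norm_star_eq hx]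

lemma eq_zero {x : H →L[ℂ] H} (hx : x ∈ M) (h0 : x Ω = 0) : x = 0 := by
  have : ∀ ξ ∈ {ξ : H | ∃ x ∈ M, x Ω = ξ}, x ξ = (0 : H →L[ℂ] H) ξ := by
    rintro ξ ⟨y, hy, rfl⟩
    have := h.norm_mul_le hx hy
    rw [h0, norm_zero, mul_zero] at this
    simpa using this
  ext ξ
  exact congrFun (Continuous.ext_on h.cyclic x.continuous (0 : H →L[ℂ] H).continuous
    (fun ξ hξ => this ξ hξ)) ξ

lemma eq_of {x y : H →L[ℂ] H} (hx : x ∈ M) (hy : y ∈ M) (h0 : x Ω = y Ω) : x = y := by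
  have := h.eq_zero (sub_mem hx hy) (by simp [h0])
  exact sub_eq_zero.1 this

/-- The 2-norm is invariant under conjugation by unitaries. -/
lemma norm_conj {x u : H →L[ℂ] H} (hx : x ∈ M) (hu : u ∈ M) (huu : u ∈ unitary (H →L[ℂ] H)) :
    ‖(u * x * star u) Ω‖ = ‖x Ω‖ := by
  have e1 : (u * x * star u) Ω = u (x ((star u) Ω)) := rfl
  rw [e1, ContinuousLinearMap.norm_map_of_mem_unitary huu]
  have e2 : x ((star u) Ω) = (x * star u) Ω := rfl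
  rw [e2, ← h.norm_star_eq (mul_mem hx (star_mem hu)), star_mul, star_star]
  have e3 : (u * star x) Ω = u ((star x) Ω) := rfl
  rw [e3, ContinuousLinearMap.norm_map_of_mem_unitary huu, h.norm_star_eq hx]

/-- The linear map `x ↦ x Ω`. -/
noncomputable def _root_.Pool.Agent.Lib.MP_41f445_an.evΩ (M : VonNeumannAlgebra H) (Ω : H) :
    M.toStarSubalgebra →ₗ[ℂ] H where
  toFun x := (x : H →L[ℂ] H) Ω
  map_add' x y := by simp
  map_smul' c x := by simp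

/-- The linear map `x ↦ x y Ω`. -/
noncomputable def _root_.Pool.Agent.Lib.MP_41f445_an.evR (M : VonNeumannAlgebra H) (Ω : H)
    (y : H →L[ℂ] H) : M.toStarSubalgebra →ₗ[ℂ] H where
  toFun x := (x : H →L[ℂ] H) (y Ω)
  map_add' x y := by simp
  map_smul' c x := by simp

lemma dense_evΩ : DenseRange (evΩ M Ω) := by
  have : Set.range (evΩ M Ω) = {ξ : H | ∃ x ∈ M, x Ω = ξ} := by
    ext ξ
    constructor
    · rintro ⟨x, rfl⟩; exact ⟨x, x.2, rfl⟩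
    · rintro ⟨x, hx, rfl⟩; exact ⟨⟨x, hx⟩, rfl⟩
  rw [DenseRange, this]
  exact h.cyclic

omit h in
/-- Right multiplication by `y`. -/
noncomputable def _root_.Pool.Agent.Lib.MP_41f445_an.rm (M : VonNeumannAlgebra H) (Ω : H)
    (y : H →L[ℂ] H) : H →L[ℂ] H := (evR M Ω y).extendOfNorm (evΩ M Ω)

lemma rm_apply {y : H →L[ℂ] H} (hy : y ∈ M) {x : H →L[ℂ] H} (hx : x ∈ M) :
    rm M Ω y (x Ω) = x (y Ω) := by
  exact LinearMap.extendOfNorm_eq h.dense_evΩ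
    ⟨‖y‖, fun z => h.norm_mul_le (x := (z : H →L[ℂ] H)) z.2 hy⟩ (⟨x, hx⟩ : M.toStarSubalgebra)

/-- Two bounded operators that agree on `M Ω` are equal. -/
lemma op_ext' {S T : H →L[ℂ] H} (he : ∀ x ∈ M, S (x Ω) = T (x Ω)) : S = T := by
  ext ξ
  exact congrFun (Continuous.ext_on h.cyclic S.continuous T.continuous (by
    rintro ξ ⟨x, hx, rfl⟩; exact he x hx)) ξ

lemma rm_comm {y : H →L[ℂ] H} (hy : y ∈ M) {x : H →L[ℂ] H} (hx : x ∈ M) :
    x * rm M Ω y = rm M Ω y * x := by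
  apply h.op_ext'
  intro z hz
  rw [mul_apply_eq_comp, mul_apply_eq_comp, h.rm_apply hy hz]
  have : x (z Ω) = (x * z) Ω := rfl
  rw [this, h.rm_apply hy (mul_mem hx hz)]
  rfl

lemma rm_mul {y z : H →L[ℂ] H} (hy : y ∈ M) (hz : z ∈ M) :
    rm M Ω y * rm M Ω z = rm M Ω (z * y) := by
  apply h.op_ext'
  intro x hx
  rw [mul_apply_eq_comp, h.rm_apply hz hx, h.rm_apply (mul_mem hz hy) hx]
  have : x (z Ω) = (x * z) Ω := rfl
  rw [this, h.rm_apply hy (mul_mem hx hz)]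
  rfl

lemma rm_one : rm M Ω 1 = 1 := by
  apply h.op_ext'
  intro x hx
  rw [h.rm_apply (one_mem M) hx]; rfl

lemma rm_smul {y : H →L[ℂ] H} (hy : y ∈ M) (c : ℂ) : rm M Ω (c • y) = c • rm M Ω y := by
  apply h.op_ext'
  intro x hx
  rw [h.rm_apply (smul_memM c hy) hx]
  change x (c • y Ω) = c • rm M Ω y (x Ω)
  rw [h.rm_apply hy hx, map_smul]

lemma rm_star {y : H →L[ℂ] H} (hy : y ∈ M) : rm M Ω (star y) = star (rm M Ω y) := by
  rw [ContinuousLinearMap.star_eq_adjoint (rm M Ω y), ContinuousLinearMap.eq_adjoint_iff]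
  intro a b
  have cl : IsClosed {p : H × H | ⟪rm M Ω (star y) p.1, p.2⟫_ℂ = ⟪p.1, rm M Ω y p.2⟫_ℂ} :=
    isClosed_eq (by fun_prop) (by fun_prop)
  have dn : Dense ({ξ : H | ∃ x ∈ M, x Ω = ξ} ×ˢ {ξ : H | ∃ x ∈ M, x Ω = ξ}) :=
    h.cyclic.prod h.cyclic
  have : ∀ p ∈ ({ξ : H | ∃ x ∈ M, x Ω = ξ} ×ˢ {ξ : H | ∃ x ∈ M, x Ω = ξ}),
      p ∈ {p : H × H | ⟪rm M Ω (star y) p.1, p.2⟫_ℂ = ⟪p.1, rm M Ω y p.2⟫_ℂ} := by
    rintro ⟨_, _⟩ ⟨⟨x, hx, rfl⟩, ⟨z, hz, rfl⟩⟩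
    simp only [Set.mem_setOf_eq]
    rw [h.rm_apply (star_mem hy) hx, h.rm_apply hy hz]
    -- ⟪x y^* Ω, z Ω⟫ = ⟪x Ω, z y Ω⟫
    have e1 : ⟪x ((star y) Ω), z Ω⟫_ℂ = ⟪Ω, y ((star x * z) Ω)⟫_ℂ := by
      rw [star_apply_inner', star_apply_inner', star_star]; rfl
    have e2 : ⟪x Ω, z (y Ω)⟫_ℂ = ⟪Ω, (star x * z) (y Ω)⟫_ℂ := by
      rw [star_apply_inner']; rfl
    rw [e1, e2, h.trace y hy _ (mul_mem (star_mem hx) hz)]
  have hall := cl.closure_subset_iff.2 this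
  rw [dn.closure_eq] at hall
  exact hall (Set.mem_univ (a, b))

/-- Strong convergence from convergence at the trace vector. -/
lemma exists_limit (x : ℕ → H →L[ℂ] H) (hx : ∀ n, x n ∈ M) (C : ℝ) (hC : ∀ n, ‖x n‖ ≤ C)
    (hcau : CauchySeq fun n => x n Ω) :
    ∃ y ∈ M, ∀ ξ, Tendsto (fun n => x n ξ) atTop (𝓝 (y ξ)) := by
  have hC0 : 0 ≤ C := le_trans (norm_nonneg _) (hC 0)
  have hc : ∀ ξ : H, CauchySeq fun n => x n ξ := by
    intro ξ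
    rw [Metric.cauchySeq_iff]
    intro ε hε
    obtain ⟨ζ, ⟨z, hz, rfl⟩, hd⟩ := h.cyclic.exists_dist_lt ξ
      (show 0 < ε / (4 * (C + 1)) by positivity)
    obtain ⟨N, hN⟩ := Metric.cauchySeq_iff.1 hcau (ε / (4 * (‖z‖ + 1))) (by positivity)
    refine ⟨N, fun m hm n hn => ?_⟩
    have h1 := hN m hm n hn
    rw [dist_eq_norm] at h1 hd ⊢
    have e : x m ξ - x n ξ = (x m (ξ - z Ω) - x n (ξ - z Ω)) + (x m - x n) (z Ω) := by
      simp only [map_sub, sub_apply]; abel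
    rw [e]
    have b1 : ‖x m (ξ - z Ω)‖ ≤ C * ‖ξ - z Ω‖ := (x m).le_of_opNorm_le (hC m) _
    have b2 : ‖x n (ξ - z Ω)‖ ≤ C * ‖ξ - z Ω‖ := (x n).le_of_opNorm_le (hC n) _
    have b3 : ‖(x m - x n) (z Ω)‖ ≤ ‖z‖ * ‖(x m - x n) Ω‖ :=
      h.norm_mul_le (sub_mem (hx m) (hx n)) hz
    have b4 : ‖(x m - x n) Ω‖ < ε / (4 * (‖z‖ + 1)) := h1
    have c1 : C * ‖ξ - z Ω‖ ≤ ε / 4 := by
      calc C * ‖ξ - z Ω‖ ≤ (C + 1) * (ε / (4 * (C + 1))) := by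
            apply mul_le_mul (by linarith) hd.le (norm_nonneg _) (by linarith)
        _ = ε / 4 := by field_simp
    have c2 : ‖z‖ * ‖(x m - x n) Ω‖ ≤ ε / 4 := by
      calc ‖z‖ * ‖(x m - x n) Ω‖ ≤ (‖z‖ + 1) * (ε / (4 * (‖z‖ + 1))) := by
            apply mul_le_mul (by linarith) b4.le (norm_nonneg _) (by positivity)
        _ = ε / 4 := by field_simp
    calc _ ≤ ‖x m (ξ - z Ω) - x n (ξ - z Ω)‖ + ‖(x m - x n) (z Ω)‖ := norm_add_le _ _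
      _ ≤ (‖x m (ξ - z Ω)‖ + ‖x n (ξ - z Ω)‖) + ‖(x m - x n) (z Ω)‖ := by
        gcongr; exact norm_sub_le _ _
      _ < ε := by linarith
  choose y hy using fun ξ => cauchySeq_tendsto_of_complete (hc ξ)
  have hy' : Tendsto (fun n ξ => x n ξ) atTop (𝓝 y) := tendsto_pi_nhds.2 hy
  let Y : H →L[ℂ] H := continuousLinearMapOfTendsto (σ₁₂ := RingHom.id ℂ) x hy'
  refine ⟨Y, ?_, fun ξ => hy ξ⟩
  apply mem_of_commutant
  intro z hz
  ext ξ
  have t1 : Tendsto (fun n => z (x n ξ)) atTop (𝓝 (z (Y ξ))) :=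
    (z.continuous.tendsto _).comp (hy ξ)
  have t2 : Tendsto (fun n => x n (z ξ)) atTop (𝓝 (Y (z ξ))) := hy (z ξ)
  have : (fun n => z (x n ξ)) = fun n => x n (z ξ) := by
    funext n
    exact (DFunLike.congr_fun (comm_commutant (hx n) hz) ξ).symm
  rw [this] at t1
  exact tendsto_nhds_unique t1 t2

end Std

end Pool.Agent.Lib.MP_41f445_an
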