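import Pool.Agent.Lib.MP_41f445_an.Compare
import Pool.Agent.Lib.MP_41f445_an.Flip
import Pool.Agent.Lib.MP_41f445_an.Std

/-!
# Concrete von Neumann algebras in standard form satisfy the abstract hypotheses
-/

set_option linter.unusedSectionVars false

open Topology Filter
open scoped ComplexOrder InnerProductSpace

namespace Pool.Agent.Lib.MP_41f445_an

section
variable {H : Type} [NormedAddCommGroup H] [InnerProductSpace ℂ H] [CompleteSpace H]

lemma vn_isClosed (M : VonNeumannAlgebra H) :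
    IsClosed (M.toStarSubalgebra : Set (H →L[ℂ] H)) := by
  have : (M.toStarSubalgebra : Set (H →L[ℂ] H)) =
      Set.centralizer (Set.centralizer (M : Set (H →L[ℂ] H))) := by
    rw [VonNeumannAlgebra.centralizer_centralizer]; rfl
  rw [this]
  exact Set.isClosed_centralizer _

noncomputable instance vnCStar (M : VonNeumannAlgebra H) : CStarAlgebra M.toStarSubalgebra :=
  StarSubalgebra.cstarAlgebra M.toStarSubalgebra (h_closed := vn_isClosed M)

/-- The trace on `M`. -/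
noncomputable def trM (M : VonNeumannAlgebra H) (Ω : H) : M.toStarSubalgebra →ₗ[ℂ] ℂ where
  toFun x := ⟪Ω, (x : H →L[ℂ] H) Ω⟫_ℂ
  map_add' x y := by simp
  map_smul' c x := by simp

lemma trM_apply (M : VonNeumannAlgebra H) (Ω : H) (x : M.toStarSubalgebra) :
    trM M Ω x = ⟪Ω, (x : H →L[ℂ] H) Ω⟫_ℂ := rfl

lemma trM_star_mul (M : VonNeumannAlgebra H) (Ω : H) (x : M.toStarSubalgebra) :
    trM M Ω (star x * x) = ((‖(x : H →L[ℂ] H) Ω‖ ^ 2 : ℝ) : ℂ) := by
  have e : trM M Ω (star x * x) = ⟪Ω, (star (x : H →L[ℂ] H)) ((x : H →L[ℂ] H) Ω)⟫_ℂ := rfl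
  rw [e, star_apply_inner, star_star, inner_self_eq_norm_sq_to_K]
  simp

lemma n2_trM (M : VonNeumannAlgebra H) (Ω : H) (x : M.toStarSubalgebra) :
    n2 (trM M Ω) x = ‖(x : H →L[ℂ] H) Ω‖ := by
  rw [n2, trM_star_mul, Complex.ofReal_re, Real.sqrt_sq (norm_nonneg _)]

lemma Std.isFiniteVN {M : VonNeumannAlgebra H} {Ω : H} (h : Std M Ω) :
    IsFiniteVN (trM M Ω) where
  map_one := by
    rw [trM_apply]
    change ⟪Ω, Ω⟫_ℂ = 1
    rw [inner_self_eq_norm_sq_to_K, h.norm_one]; simp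
  pos x := by
    rw [trM_star_mul]
    exact Complex.zero_le_real.2 (sq_nonneg _)
  faithful x hx := by
    rw [trM_star_mul] at hx
    have h1 : (x : H →L[ℂ] H) Ω = 0 := by
      have : ‖(x : H →L[ℂ] H) Ω‖ ^ 2 = 0 := by exact_mod_cast hx
      simpa using this
    exact Subtype.ext (h.eq_zero x.2 h1)
  comm x y := h.trace _ x.2 _ y.2
  complete x hx hc := by
    obtain ⟨y, hy, hlim⟩ := h.exists_limit (fun n => (x n : H →L[ℂ] H)) (fun n => (x n).2) 1
      (fun n => hx n) (by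
        rw [Metric.cauchySeq_iff]
        intro ε hε
        obtain ⟨N, hN⟩ := hc ε hε
        refine ⟨N, fun m hm n hn => ?_⟩
        have := hN m hm n hn
        rw [n2_trM] at this
        rw [dist_eq_norm]
        exact this)
    refine ⟨⟨y, hy⟩, ?_, ?_⟩
    · change ‖y‖ ≤ 1
      apply ContinuousLinearMap.opNorm_le_bound _ zero_le_one
      intro ξ
      refine le_of_tendsto (hlim ξ).norm (Eventually.of_forall fun n => ?_)
      exact (x n : H →L[ℂ] H).le_of_opNorm_le (hx n) ξ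
    · have h1 := (hlim Ω).sub_const (y Ω)
      rw [sub_self] at h1
      have h2 := h1.norm
      rw [norm_zero] at h2
      refine h2.congr fun n => ?_
      rw [n2_trM]; rfl

lemma IsII1Factor.isFactor {M : VonNeumannAlgebra H} {Ω : H} (h : IsII1Factor M Ω) :
    IsFactor M.toStarSubalgebra := by
  intro x hx
  obtain ⟨c, hc⟩ := h.factor x x.2 (by
    rw [VonNeumannAlgebra.mem_commutant_iff]
    intro y hy
    exact (congrArg Subtype.val (hx ⟨y, hy⟩)).symm)
  exact ⟨c, Subtype.ext hc⟩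

/-- Projections of equal trace are equivalent. -/
theorem IsII1Factor.exists_equiv {M : VonNeumannAlgebra H} {Ω : H} (h : IsII1Factor M Ω)
    {p q : H →L[ℂ] H} (hp : IsStarProjection p) (hpM : p ∈ M) (hq : IsStarProjection q)
    (hqM : q ∈ M) (hpq : ⟪Ω, p Ω⟫_ℂ = ⟪Ω, q Ω⟫_ℂ) :
    ∃ v ∈ M, star v * v = p ∧ v * star v = q := by
  obtain ⟨v, h1, h2⟩ := Pool.Agent.Lib.MP_41f445_an.exists_equiv (M := M.toStarSubalgebra)
    h.std.isFiniteVN h.isFactor
    (p := ⟨p, hpM⟩) (q := ⟨q, hqM⟩) ⟨Subtype.ext hp.isIdempotentElem.eq,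
      Subtype.ext hp.isSelfAdjoint.star_eq⟩ ⟨Subtype.ext hq.isIdempotentElem.eq,
      Subtype.ext hq.isSelfAdjoint.star_eq⟩ hpq
  exact ⟨v, v.2, congrArg Subtype.val h1, congrArg Subtype.val h2⟩

/-- A self-adjoint element without atoms gives a projection of trace one half. -/
theorem Std.exists_half {M : VonNeumannAlgebra H} {Ω : H} (h : Std M Ω)
    {a : H →L[ℂ] H} (haM : a ∈ M) (ha : IsSelfAdjoint a)
    (hat : ∀ (t : ℝ) (e : H →L[ℂ] H), e ∈ M → IsStarProjection e →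
      (∀ y ∈ M, a * y = y * a → e * y = y * e) → a * e = (t : ℂ) • e → e = 0) :
    ∃ q ∈ M, IsStarProjection q ∧ (∀ y ∈ M, a * y = y * a → q * y = y * q) ∧
      ⟪Ω, q Ω⟫_ℂ = 1 / 2 ∧ ⟪Ω, (a * q) Ω⟫_ℂ ≠ ⟪Ω, (a * (1 - q)) Ω⟫_ℂ := by
  obtain ⟨q, h1, h2, h3, h4⟩ := Pool.Agent.Lib.MP_41f445_an.exists_half
    (M := M.toStarSubalgebra) h.isFiniteVN (a := ⟨a, haM⟩) (Subtype.ext ha) (by
      intro t e he hec hee
      refine Subtype.ext (hat t e e.2 ⟨congrArg Subtype.val he.isIdempotentElem,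
        congrArg Subtype.val he.isSelfAdjoint⟩ (fun y hy hay => ?_) (congrArg Subtype.val hee))
      exact congrArg Subtype.val (hec ⟨y, hy⟩ (Subtype.ext hay)))
  refine ⟨q, q.2, ⟨congrArg Subtype.val h1.isIdempotentElem,
    congrArg Subtype.val h1.isSelfAdjoint⟩, fun y hy hay => ?_, h3, h4⟩
  exact congrArg Subtype.val (h2 ⟨y, hy⟩ (Subtype.ext hay))

end

end Pool.Agent.Lib.MP_41f445_an
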