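import Pool.Agent.Lib.MP_41f445_an.Half

/-!
# Compact sets of spectral mass at least one half avoiding a countable set
-/

set_option linter.unusedSectionVars false

open Topology Filter
open scoped ComplexOrder

namespace Pool.Agent.Lib.MP_41f445_an

section
variable {M : Type*} [CStarAlgebra M] {τ : M →ₗ[ℂ] ℂ} (h : IsFiniteVN τ)
include h

/-- The eigenprojection of a self-adjoint element. -/
lemma atom_proj {a : M} (ha : IsSelfAdjoint a) (t : ℝ) :
    ∃ e : M, IsStarProjection e ∧ Tends τ (fun n => cfc (pt n t) a) e ∧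
      (∀ y, Commute a y → Commute e y) ∧ a * e = (t : ℂ) • e := by
  obtain ⟨e, he, het, hec⟩ := exists_step h ha (fun n x => 1 - pt n t x)
    (fun n => by fun_prop) (fun n x => by linarith [pt_le_one n t x])
    (fun n x => by linarith [pt_nonneg n t x])
    (fun n x => by nlinarith [pt_plateau n t x])
  have t1 : Tends τ (fun n => cfc (pt n t) a) (1 - e) := by
    have := h.tends_sub (h.tends_const 1) het
    refine this.congr fun n => ?_
    beta_reduce
    rw [cfc_sub _ _ a (by fun_prop) (by fun_prop), cfc_const_one ℝ a]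
    congr 1
    abel
  refine ⟨1 - e, he.one_sub, t1, fun y hy => (Commute.one_left y).sub_left (hec y hy), ?_⟩
  have t2 := h.tends_mul_left (a - (t : ℂ) • 1) t1
  have t3 : Tends τ (fun n => (a - (t : ℂ) • 1) * cfc (pt n t) a) 0 := by
    have lim : Tendsto (fun n : ℕ => 2 * (1 / 2 : ℝ) ^ n) atTop (𝓝 0) := by
      have := (tendsto_pow_atTop_nhds_zero_of_lt_one (r := (1 / 2 : ℝ)) (by norm_num)
        (by norm_num)).const_mul 2
      simpa using this
    refine squeeze_zero (fun n => h.n2_nonneg _) (fun n => ?_) lim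
    rw [sub_zero]
    have e1 : (a - (t : ℂ) • 1) * cfc (pt n t) a = cfc (fun x => (x - t) * pt n t x) a := by
      rw [cfc_mul _ _ a (by fun_prop) (by fun_prop), cfc_sub _ _ a (by fun_prop) (by fun_prop),
        cfc_id' ℝ a, cfc_const t a]
      congr 2
      rw [Algebra.algebraMap_eq_smul_one, Complex.coe_smul]
    beta_reduce
    rw [e1]
    apply cfc_n2_le h ha _ _ (by positivity)
    intro x _
    rw [abs_mul, abs_of_nonneg (pt_nonneg n t x)]
    by_cases hx : 2 ≤ 2 ^ n * |x - t|
    · rw [show pt n t x = 0 from clp_zero (by linarith), mul_zero]; positivity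
    · push Not at hx
      have h2n : (0 : ℝ) < 2 ^ n := by positivity
      have h3 : |x - t| ≤ 2 * (1 / 2 : ℝ) ^ n := by
        rw [one_div, inv_pow]
        rw [← div_eq_mul_inv, le_div_iff₀ h2n]; linarith
      calc |x - t| * pt n t x ≤ |x - t| * 1 :=
            mul_le_mul_of_nonneg_left (pt_le_one n t x) (abs_nonneg _)
        _ ≤ _ := by rw [mul_one]; exact h3
  have t4 := h.tends_unique t2 t3
  rw [sub_mul, smul_mul_assoc, one_mul] at t4
  exact sub_eq_zero.1 t4

/-- Real functions of a unitary. -/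
noncomputable def uf (w : M) (f : ℂ → ℝ) : M := cfc (fun z : ℂ => ((f z : ℝ) : ℂ)) w

variable {w : M} (hw : w ∈ unitary M)
include hw

omit h in
lemma unitary_normal : IsStarNormal w :=
  ⟨(Unitary.mem_iff.1 hw).1.trans (Unitary.mem_iff.1 hw).2.symm⟩

omit h hw in
lemma uf_sa (f : ℂ → ℝ) : IsSelfAdjoint (uf w f) := by
  rw [isSelfAdjoint_iff, uf, ← cfc_star]
  apply cfc_congr
  intro z _
  exact Complex.conj_ofReal _

omit h hw in
lemma uf_mul (f g : ℂ → ℝ) (hf : Continuous f) (hg : Continuous g) :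
    uf w (fun z => f z * g z) = uf w f * uf w g := by
  rw [uf, uf, uf, ← cfc_mul _ _ w (by fun_prop) (by fun_prop)]
  apply cfc_congr
  intro z _
  simp

omit h hw in
lemma uf_add (f g : ℂ → ℝ) (hf : Continuous f) (hg : Continuous g) :
    uf w (fun z => f z + g z) = uf w f + uf w g := by
  rw [uf, uf, uf, ← cfc_add w _ _ (by fun_prop) (by fun_prop)]
  apply cfc_congr
  intro z _
  simp

lemma uf_one : uf w (fun _ => 1) = 1 := by
  have := unitary_normal hw
  rw [uf]
  have e : (fun _ : ℂ => (((1 : ℝ)) : ℂ)) = fun _ => 1 := by ext; simp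
  rw [e, cfc_const_one ℂ w]

omit h in
lemma cfc_uf (g : ℝ → ℝ) (hg : Continuous g) (f : ℂ → ℝ) (hf : Continuous f) :
    cfc g (uf w f) = uf w (fun z => g (f z)) := by
  have := unitary_normal hw
  rw [cfc_real_eq_complex g (uf_sa f), uf, uf,
    ← cfc_comp' (fun x : ℂ => ((g x.re : ℝ) : ℂ)) (fun z : ℂ => ((f z : ℝ) : ℂ)) w
      (by fun_prop) (by fun_prop)]
  apply cfc_congr
  intro z _
  simp

omit h in
lemma uf_congr {f g : ℂ → ℝ} (hfg : ∀ z : ℂ, ‖z‖ = 1 → f z = g z) : uf w f = uf w g := by
  apply cfc_congr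
  intro z hz
  have : ‖z‖ = 1 := by
    have := spectrum.subset_circle_of_unitary (𝕜 := ℂ) hw hz
    simpa using this
  simp only
  rw [hfg z this]

lemma uf_nonneg {f : ℂ → ℝ} (hf : Continuous f) (h0 : ∀ z : ℂ, ‖z‖ = 1 → 0 ≤ f z) :
    0 ≤ (τ (uf w f)).re := by
  have : uf w f = star (uf w (fun z => Real.sqrt (f z))) * uf w (fun z => Real.sqrt (f z)) := by
    rw [(uf_sa _).star_eq, ← uf_mul _ _ (by fun_prop) (by fun_prop)]
    apply uf_congr hw
    intro z hz
    exact (Real.mul_self_sqrt (h0 z hz)).symm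
  exact h.trace_nonneg_of_eq this

lemma uf_mono {f g : ℂ → ℝ} (hf : Continuous f) (hg : Continuous g)
    (h0 : ∀ z : ℂ, ‖z‖ = 1 → f z ≤ g z) : (τ (uf w f)).re ≤ (τ (uf w g)).re := by
  have h1 := uf_nonneg h hw (f := fun z => g z - f z) (by fun_prop)
    (fun z hz => sub_nonneg.2 (h0 z hz))
  have h2 : uf w g = uf w f + uf w (fun z => g z - f z) := by
    rw [← uf_add _ _ hf (by fun_prop)]
    congr 1
    ext z; ring
  rw [h2, map_add, Complex.add_re]
  linarith

lemma uf_sum {ι : Type*} (s : Finset ι) (f : ι → ℂ → ℝ) (hf : ∀ i ∈ s, Continuous (f i)) :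
    uf w (fun z => ∑ i ∈ s, f i z) = ∑ i ∈ s, uf w (f i) := by
  classical
  induction s using Finset.induction_on with
  | empty =>
    simp only [Finset.sum_empty]
    have := uf_one h hw
    have h0 : uf w (fun _ => (0 : ℝ)) + uf w (fun _ => (0 : ℝ)) = uf w (fun _ => (0 : ℝ)) := by
      rw [← uf_add _ _ continuous_const continuous_const]; simp
    simpa using h0
  | insert i s his ih =>
    rw [Finset.sum_insert his, ← ih (fun j hj => hf j (Finset.mem_insert_of_mem hj)),
      ← uf_add _ _ (hf i (Finset.mem_insert_self i s))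
        (continuous_finset_sum _ fun j hj => hf j (Finset.mem_insert_of_mem hj))]
    congr 1
    ext z
    rw [Finset.sum_insert his]

/-- The bump function at `z`. -/
noncomputable def bump (n : ℕ) (z x : ℂ) : ℝ := pt n 0 ‖x - z‖

omit h hw in
lemma bump_cont (n : ℕ) (z : ℂ) : Continuous (bump n z) := by unfold bump; fun_prop

omit h hw in
lemma bump_nonneg (n : ℕ) (z x : ℂ) : 0 ≤ bump n z x := pt_nonneg _ _ _

omit h hw in
lemma bump_one (n : ℕ) (z x : ℂ) (hx : ‖x - z‖ < 1 / 2 ^ n) : bump n z x = 1 := by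
  unfold bump pt
  apply clp_one
  have h2n : (0 : ℝ) < 2 ^ n := by positivity
  rw [sub_zero, abs_of_nonneg (norm_nonneg _)]
  rw [lt_div_iff₀ h2n] at hx
  linarith

/-- Without eigenvectors, bump functions have small trace. -/
lemma bump_small (hat : ∀ (z : ℂ) (e : M), IsStarProjection e → w * e = z • e → e = 0)
    (z : ℂ) {ε : ℝ} (hε : 0 < ε) : ∃ n, (τ (uf w (bump n z))).re < ε := by
  have hnorm := unitary_normal hw
  have hd : Continuous fun x : ℂ => ‖x - z‖ := by fun_prop
  have ha : IsSelfAdjoint (uf w (fun x : ℂ => ‖x - z‖)) := uf_sa _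
  obtain ⟨e, he, het, -, hae⟩ := atom_proj h ha 0
  rw [Complex.ofReal_zero, zero_smul] at hae
  have he0 : e = 0 := by
    apply hat z e he
    have e1 : star ((w - z • 1) * e) * ((w - z • 1) * e) = 0 := by
      have e2 : star (w - z • 1) * (w - z • 1) =
          uf w (fun x : ℂ => ‖x - z‖) * uf w (fun x : ℂ => ‖x - z‖) := by
        rw [← uf_mul _ _ hd hd, uf]
        have e3 : w - z • 1 = cfc (fun x : ℂ => x - z) w := by
          rw [cfc_sub _ _ w (by fun_prop) (by fun_prop), cfc_id' ℂ w, cfc_const z w,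
            Algebra.algebraMap_eq_smul_one]
        rw [e3, ← cfc_star, ← cfc_mul _ _ w (by fun_prop) (by fun_prop)]
        apply cfc_congr
        intro x _
        simp only
        rw [Complex.star_def, ← Complex.normSq_eq_conj_mul_self, Complex.normSq_eq_norm_sq, sq]
      calc star ((w - z • 1) * e) * ((w - z • 1) * e)
          = star e * ((star (w - z • 1) * (w - z • 1)) * e) := by
            rw [star_mul]; simp only [mul_assoc]
        _ = 0 := by rw [e2, mul_assoc, hae, mul_zero, mul_zero]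
    have e4 := (CStarRing.star_mul_self_eq_zero_iff _).1 e1
    rw [sub_mul, smul_mul_assoc, one_mul] at e4
    exact sub_eq_zero.1 e4
  rw [he0] at het
  have t1 := (Complex.continuous_re.tendsto _).comp (h.tends_trace het)
  rw [map_zero, Complex.zero_re] at t1
  obtain ⟨n, hn⟩ := ((tendsto_order.1 t1).2 ε hε).exists
  refine ⟨n, ?_⟩
  have : uf w (bump n z) = cfc (pt n 0) (uf w (fun x : ℂ => ‖x - z‖)) := by
    rw [cfc_uf hw _ (by fun_prop) _ hd]; rfl
  rw [this]
  exact hn

/-- **Compact sets of large spectral mass avoiding a countable set.** -/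
theorem exists_compact
    (hat : ∀ (z : ℂ) (e : M), IsStarProjection e → w * e = z • e → e = 0)
    (D : Set ℂ) (hD : D.Countable) :
    ∃ K : Set ℂ, IsCompact K ∧ K.Nonempty ∧ Disjoint K D ∧ (∀ z ∈ K, ‖z‖ = 1) ∧
      ∃ p : M, IsStarProjection p ∧ uf w (fun z => Metric.infDist z K) * p = 0 ∧
        (∀ y, Commute (uf w (fun z => Metric.infDist z K)) y → Commute p y) ∧
        1 / 2 ≤ (τ p).re := by
  obtain ⟨z, hz⟩ := Set.countable_iff_exists_subset_range.1 hD
  have hsm : ∀ k : ℕ, ∃ n, (τ (uf w (bump n (z k)))).re < (1 / 8) * (1 / 2) ^ k := fun k =>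
    bump_small h hw hat (z k) (by positivity)
  choose n hn using hsm
  set O : Set ℂ := ⋃ k, Metric.ball (z k) (1 / 2 ^ n k) with hO
  have hOopen : IsOpen O := isOpen_iUnion fun k => Metric.isOpen_ball
  have hDO : D ⊆ O := by
    intro x hx
    obtain ⟨k, rfl⟩ := hz hx
    exact Set.mem_iUnion.2 ⟨k, Metric.mem_ball_self (by positivity)⟩
  set K : Set ℂ := Metric.sphere 0 1 \ O with hK
  have hKc : IsCompact K := (isCompact_sphere 0 1).diff hOopen
  have hK1 : ∀ z ∈ K, ‖z‖ = 1 := fun z hz => by simpa using hz.1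
  -- traces of finite sums of bumps
  have hsum : ∀ s : Finset ℕ, (τ (uf w (fun x => ∑ k ∈ s, bump (n k) (z k) x))).re ≤ 1 / 4 := by
    intro s
    rw [uf_sum h hw s _ (fun k _ => bump_cont _ _), map_sum, Complex.re_sum]
    have h1 : ∑ k ∈ s, (τ (uf w (bump (n k) (z k)))).re ≤ ∑ k ∈ s, (1 / 8 : ℝ) * (1 / 2) ^ k :=
      Finset.sum_le_sum fun k _ => (hn k).le
    have h2 : ∑ k ∈ s, (1 / 8 : ℝ) * (1 / 2) ^ k ≤ ∑' k : ℕ, (1 / 8 : ℝ) * (1 / 2) ^ k :=
      (summable_geometric_two.mul_left _).sum_le_tsum s (fun k _ => by positivity)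
    rw [tsum_mul_left, tsum_geometric_two] at h2
    linarith
  have hcover : ∀ C : Set ℂ, IsCompact C → C ⊆ O → ∃ s : Finset ℕ, ∀ x ∈ C,
      1 ≤ ∑ k ∈ s, bump (n k) (z k) x := by
    intro C hC hCO
    obtain ⟨s, hs⟩ := hC.elim_finite_subcover (fun k => Metric.ball (z k) (1 / 2 ^ n k))
      (fun k => Metric.isOpen_ball) hCO
    refine ⟨s, fun x hx => ?_⟩
    obtain ⟨k, hk, hxk⟩ := Set.mem_iUnion₂.1 (hs hx)
    have h1 : bump (n k) (z k) x = 1 := bump_one _ _ _ (by
      rw [Metric.mem_ball, dist_eq_norm] at hxk; exact hxk)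
    calc (1 : ℝ) = bump (n k) (z k) x := h1.symm
      _ ≤ ∑ k ∈ s, bump (n k) (z k) x :=
        Finset.single_le_sum (f := fun k => bump (n k) (z k) x)
          (fun k _ => bump_nonneg _ _ _) hk
  have sumc : ∀ s : Finset ℕ, Continuous fun x => ∑ k ∈ s, bump (n k) (z k) x := fun s =>
    continuous_finset_sum _ fun k _ => bump_cont _ _
  have hKne : K.Nonempty := by
    by_contra hne
    rw [Set.not_nonempty_iff_eq_empty] at hne
    obtain ⟨s, hs⟩ := hcover (Metric.sphere 0 1) (isCompact_sphere 0 1)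
      (Set.diff_eq_empty.1 hne)
    have h1 := uf_mono h hw (f := fun _ => 1) continuous_const (sumc s)
      (fun x hx => hs x (by simpa using hx))
    rw [uf_one h hw, h.map_one, Complex.one_re] at h1
    linarith [hsum s]
  have ha : IsSelfAdjoint (uf w (fun x : ℂ => Metric.infDist x K)) := uf_sa _
  have hd : Continuous fun x : ℂ => Metric.infDist x K := Metric.continuous_infDist_pt K
  obtain ⟨p, hp, hpt, hpc, hap⟩ := atom_proj h ha 0
  rw [Complex.ofReal_zero, zero_smul] at hap
  refine ⟨K, hKc, hKne, ?_, hK1, p, hp, hap, hpc, ?_⟩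
  · rw [Set.disjoint_left]
    intro x hx hxD
    exact hx.2 (hDO hxD)
  · have t1 := (Complex.continuous_re.tendsto _).comp (h.tends_trace hpt)
    refine ge_of_tendsto' t1 fun m => ?_
    simp only [Function.comp_apply]
    rw [cfc_uf hw _ (by fun_prop) _ hd]
    -- the compact set where the distance is not small
    set C : Set ℂ := Metric.sphere 0 1 ∩ {x | 1 / 2 ^ m ≤ Metric.infDist x K} with hC
    have hCc : IsCompact C :=
      (isCompact_sphere 0 1).inter_right (isClosed_le continuous_const hd)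
    have hCO : C ⊆ O := by
      intro x hx
      by_contra hxO
      have hxK : x ∈ K := ⟨hx.1, hxO⟩
      have h1 : Metric.infDist x K = 0 := Metric.infDist_zero_of_mem hxK
      have h2 : (1 : ℝ) / 2 ^ m ≤ Metric.infDist x K := hx.2
      rw [h1] at h2
      have : (0 : ℝ) < 1 / 2 ^ m := by positivity
      linarith
    obtain ⟨s, hs⟩ := hcover C hCc hCO
    have hgc : Continuous fun x => pt m 0 (Metric.infDist x K) := by fun_prop
    have h1 := uf_mono h hw (f := fun _ => 1)
      (g := fun x => pt m 0 (Metric.infDist x K) + ∑ k ∈ s, bump (n k) (z k) x)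
      continuous_const (hgc.add (sumc s)) (fun x hx => by
        by_cases hxC : 1 / 2 ^ m ≤ Metric.infDist x K
        · have := hs x ⟨by simpa using hx, hxC⟩
          linarith [pt_nonneg m 0 (Metric.infDist x K)]
        · push Not at hxC
          have h2 : pt m 0 (Metric.infDist x K) = 1 := by
            unfold pt
            apply clp_one
            have h2m : (0 : ℝ) < 2 ^ m := by positivity
            rw [sub_zero, abs_of_nonneg Metric.infDist_nonneg]
            rw [lt_div_iff₀ h2m] at hxC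
            linarith
          have h3 : 0 ≤ ∑ k ∈ s, bump (n k) (z k) x :=
            Finset.sum_nonneg fun k _ => bump_nonneg _ _ _
          linarith)
    rw [uf_one h hw, h.map_one, Complex.one_re, uf_add _ _ hgc (sumc s), map_add,
      Complex.add_re] at h1
    linarith [hsum s]

end

end Pool.Agent.Lib.MP_41f445_an
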