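import Pool.Agent.Lib.MP_41f445_an.Rp

/-!
# Projections of equal trace in a finite factor are equivalent
-/

open Filter Topology
open scoped InnerProductSpace

namespace Pool.Agent.Lib.MP_41f445_an

/-- Abstract maximality principle. -/
lemma exists_max {α : Type*} (le : α → α → Prop)
    (trans : ∀ a b c, le a b → le b c → le a c) (refl : ∀ a, le a a) (φ : α → ℝ) (B : ℝ)
    (hB : ∀ a, φ a ≤ B)
    (hseq : ∀ v : ℕ → α, (∀ n, le (v n) (v (n + 1))) → ∃ w, ∀ n, le (v n) w)
    (mono : ∀ a b, le a b → φ a ≤ φ b) (a₀ : α) :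
    ∃ w, ∀ w', le w w' → φ w' ≤ φ w := by
  have step : ∀ (a : α) (n : ℕ), ∃ b, le a b ∧ ∀ c, le a c → φ c ≤ φ b + 1 / (n + 1) := by
    intro a n
    have hne : ({x : ℝ | ∃ b, le a b ∧ x = φ b} : Set ℝ).Nonempty := ⟨φ a, a, refl a, rfl⟩
    have hbdd : BddAbove ({x : ℝ | ∃ b, le a b ∧ x = φ b} : Set ℝ) :=
      ⟨B, by rintro _ ⟨b, -, rfl⟩; exact hB b⟩
    obtain ⟨_, ⟨b, hb, rfl⟩, hlt⟩ := exists_lt_of_lt_csSup hne
      (show sSup ({x : ℝ | ∃ b, le a b ∧ x = φ b} : Set ℝ) - 1 / (n + 1 : ℝ) <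
        sSup ({x : ℝ | ∃ b, le a b ∧ x = φ b} : Set ℝ) by
        have : (0 : ℝ) < 1 / (n + 1) := by positivity
        linarith)
    refine ⟨b, hb, fun c hc => ?_⟩
    have := le_csSup hbdd (show φ c ∈ ({x : ℝ | ∃ b, le a b ∧ x = φ b} : Set ℝ) from ⟨c, hc, rfl⟩)
    linarith
  choose nx h1 h2 using step
  let v : ℕ → α := fun n => Nat.rec a₀ (fun k b => nx b k) n
  have hv : ∀ n, v (n + 1) = nx (v n) n := fun n => rfl
  obtain ⟨w, hw⟩ := hseq v (fun n => by rw [hv]; exact h1 _ _)
  refine ⟨w, fun w' hw' => ?_⟩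
  have hb : ∀ n : ℕ, φ w' ≤ φ w + 1 / (n + 1) := by
    intro n
    have a1 := h2 (v n) n w' (trans _ _ _ (hw n) hw')
    have a2 := mono _ _ (hw (n + 1))
    rw [hv] at a2
    linarith
  have hlim : Tendsto (fun n : ℕ => φ w + 1 / ((n : ℝ) + 1)) atTop (𝓝 (φ w + 0)) :=
    tendsto_const_nhds.add tendsto_one_div_add_atTop_nhds_zero_nat
  rw [add_zero] at hlim
  exact ge_of_tendsto' hlim hb

variable {H : Type} [NormedAddCommGroup H] [InnerProductSpace ℂ H] [CompleteSpace H]

omit [CompleteSpace H] in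
/-- Strong limits of products. -/
lemma tendsto_mul_strong (x y : ℕ → H →L[ℂ] H) (x' y' : H →L[ℂ] H) (C : ℝ)
    (hC : ∀ n, ‖x n‖ ≤ C)
    (hx : ∀ ξ, Tendsto (fun n => x n ξ) atTop (𝓝 (x' ξ)))
    (hy : ∀ ξ, Tendsto (fun n => y n ξ) atTop (𝓝 (y' ξ))) (ξ : H) :
    Tendsto (fun n => (x n * y n) ξ) atTop (𝓝 ((x' * y') ξ)) := by
  have hC0 : 0 ≤ C := le_trans (norm_nonneg _) (hC 0)
  have e : ∀ n, (x n * y n) ξ = x n (y n ξ - y' ξ) + x n (y' ξ) := by
    intro n; rw [mul_apply_eq_comp, ← map_add]; congr 1; abel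
  have t1 : Tendsto (fun n => x n (y n ξ - y' ξ)) atTop (𝓝 0) := by
    apply squeeze_zero_norm (a := fun n => C * ‖y n ξ - y' ξ‖)
    · intro n; exact (x n).le_of_opNorm_le (hC n) _
    · have : Tendsto (fun n => ‖y n ξ - y' ξ‖) atTop (𝓝 0) :=
        tendsto_iff_norm_sub_tendsto_zero.1 (hy ξ)
      simpa using this.const_mul C
  have t2 := t1.add (hx (y' ξ))
  simp only [zero_add] at t2
  simpa only [e, mul_apply_eq_comp] using t2

lemma norm_le_one_of_pi {v : H →L[ℂ] H} (hv : IsStarProjection (star v * v)) : ‖v‖ ≤ 1 := by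
  have h1 : ‖star v * v‖ = ‖v‖ * ‖v‖ := CStarRing.norm_star_mul_self
  have h2 : ‖star v * v‖ ≤ 1 := hv.norm_le
  rw [h1] at h2
  nlinarith [norm_nonneg v]

lemma pi_mul {v : H →L[ℂ] H} (hv : IsStarProjection (star v * v)) : v * (star v * v) = v := by
  have h : star (v * (star v * v) - v) * (v * (star v * v) - v) = 0 := by
    have hi := hv.isIdempotentElem.eq
    rw [star_sub, star_mul, star_mul, star_star]
    have e : (star v * v * star v - star v) * (v * (star v * v) - v) =
        (star v * v) * (star v * v) * (star v * v) - (star v * v) * (star v * v)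
        - (star v * v) * (star v * v) + star v * v := by
      noncomm_ring
    rw [e, hi, hi]
    simp
  exact sub_eq_zero.1 ((CStarRing.star_mul_self_eq_zero_iff _).1 h)

lemma pi_star {v : H →L[ℂ] H} (hv : IsStarProjection (star v * v)) :
    IsStarProjection (v * star v) := by
  refine ⟨?_, IsSelfAdjoint.mul_star_self v⟩
  change v * star v * (v * star v) = v * star v
  calc v * star v * (v * star v) = v * (star v * v) * star v := by simp only [mul_assoc]
    _ = v * star v := by rw [pi_mul hv]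

lemma norm_sq_eq_re {x : H →L[ℂ] H} (Ω : H) : ‖x Ω‖ ^ 2 = (⟪Ω, (star x * x) Ω⟫_ℂ).re := by
  rw [mul_apply_eq_comp, star_apply_inner, star_star, inner_self_eq_norm_sq_to_K]
  norm_cast

lemma proj_norm_sq {p : H →L[ℂ] H} (hp : IsStarProjection p) (Ω : H) :
    ‖p Ω‖ ^ 2 = (⟪Ω, p Ω⟫_ℂ).re := by
  rw [norm_sq_eq_re, hp.isSelfAdjoint.star_eq, hp.isIdempotentElem.eq]

namespace Std

variable {M : VonNeumannAlgebra H} {Ω : H} (h : Std M Ω)
include h

/-- Adjoints of strongly convergent bounded sequences. -/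
lemma tendsto_star (x : ℕ → H →L[ℂ] H) (hx : ∀ n, x n ∈ M) (C : ℝ) (hC : ∀ n, ‖x n‖ ≤ C)
    (y : H →L[ℂ] H) (hy : ∀ ξ, Tendsto (fun n => x n ξ) atTop (𝓝 (y ξ))) (ξ : H) :
    Tendsto (fun n => star (x n) ξ) atTop (𝓝 ((star y) ξ)) := by
  have hc : CauchySeq fun n => star (x n) Ω := by
    have hc0 := (hy Ω).cauchySeq
    rw [Metric.cauchySeq_iff] at hc0 ⊢
    intro ε hε
    obtain ⟨N, hN⟩ := hc0 ε hε
    refine ⟨N, fun m hm n hn => ?_⟩
    have := hN m hm n hn
    rw [dist_eq_norm] at this ⊢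
    have e : star (x m) Ω - star (x n) Ω = (star (x m - x n)) Ω := by rw [star_sub]; rfl
    rw [e, h.norm_star_eq (sub_mem (hx m) (hx n))]
    exact this
  obtain ⟨z, -, hz⟩ := h.exists_limit (fun n => star (x n)) (fun n => star_mem (hx n)) C
    (fun n => by rw [norm_star]; exact hC n) hc
  have : z = star y := by
    ext a
    apply ext_inner_right ℂ
    intro b
    have t1 : Tendsto (fun n => ⟪star (x n) a, b⟫_ℂ) atTop (𝓝 ⟪z a, b⟫_ℂ) :=
      (hz a).inner tendsto_const_nhds
    have t2 : Tendsto (fun n => ⟪a, x n b⟫_ℂ) atTop (𝓝 ⟪a, y b⟫_ℂ) :=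
      tendsto_const_nhds.inner (hy b)
    have e : (fun n => ⟪star (x n) a, b⟫_ℂ) = fun n => ⟪a, x n b⟫_ℂ := by
      funext n; rw [star_apply_inner]
    rw [e] at t1
    rw [tendsto_nhds_unique t1 t2, star_apply_inner]
  rw [← this]
  exact hz ξ

/-- Trace of a projection, symmetric form. -/
lemma norm_star_sq {v : H →L[ℂ] H} (hv : v ∈ M) :
    (⟪Ω, (v * star v) Ω⟫_ℂ).re = (⟪Ω, (star v * v) Ω⟫_ℂ).re := by
  have e1 := norm_sq_eq_re (x := v) Ω
  have e2 := norm_sq_eq_re (x := star v) Ω
  rw [star_star] at e2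
  rw [← e1, ← e2, h.norm_star_eq hv]

end Std

/-- Partial isometries from `e` to `f`. -/
def PIs (M : VonNeumannAlgebra H) (e f : H →L[ℂ] H) : Type :=
  {v : H →L[ℂ] H // v ∈ M ∧ IsStarProjection (star v * v) ∧ v * e = v ∧ f * v = v}

/-- **Comparison.** -/
theorem std_equiv {M : VonNeumannAlgebra H} {Ω : H} (h : Std M Ω)
    (hfac : ∀ z ∈ M, z ∈ M.commutant → ∃ c : ℂ, z = c • (1 : H →L[ℂ] H))
    {e f : H →L[ℂ] H} (he : IsStarProjection e) (hf : IsStarProjection f) (me : e ∈ M)
    (mf : f ∈ M) (heq : (⟪Ω, e Ω⟫_ℂ).re = (⟪Ω, f Ω⟫_ℂ).re) :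
    ∃ v ∈ M, star v * v = e ∧ v * star v = f := by
  let le : PIs M e f → PIs M e f → Prop := fun v w => w.1 * (star v.1 * v.1) = v.1
  have refl : ∀ v, le v v := fun v => pi_mul v.2.2.1
  -- domination of supports
  have supp : ∀ v w : PIs M e f, le v w →
      (star w.1 * w.1) * (star v.1 * v.1) = star v.1 * v.1 := by
    intro v w hvw
    have hr := v.2.2.1
    have hr' := w.2.2.1
    set r := star v.1 * v.1 with hrd
    set r' := star w.1 * w.1 with hrd'
    have e1 : r * r' * r = r := by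
      have : star (w.1 * r) * (w.1 * r) = r := by rw [hvw]
      rw [star_mul, hr.isSelfAdjoint.star_eq] at this
      rw [hrd']
      calc r * (star w.1 * w.1) * r = r * star w.1 * (w.1 * r) := by simp only [mul_assoc]
        _ = r := this
    have e2 : star ((1 - r') * r) * ((1 - r') * r) = 0 := by
      rw [star_mul, star_sub, star_one, hr.isSelfAdjoint.star_eq, hr'.isSelfAdjoint.star_eq]
      calc r * (1 - r') * ((1 - r') * r) = r * r - r * r' * r - r * r' * r
            + r * (r' * r') * r := by noncomm_ring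
        _ = 0 := by rw [hr'.isIdempotentElem.eq, e1, hr.isIdempotentElem.eq]; abel
    have e3 := (CStarRing.star_mul_self_eq_zero_iff _).1 e2
    rw [sub_mul, one_mul, sub_eq_zero] at e3
    exact e3.symm
  have trans : ∀ a b c, le a b → le b c → le a c := by
    intro a b c hab hbc
    change c.1 * (star a.1 * a.1) = a.1
    have hbc' : c.1 * (star b.1 * b.1) = b.1 := hbc
    have hab' : b.1 * (star a.1 * a.1) = a.1 := hab
    calc c.1 * (star a.1 * a.1) = c.1 * ((star b.1 * b.1) * (star a.1 * a.1)) := by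
          rw [supp a b hab]
      _ = c.1 * (star b.1 * b.1) * (star a.1 * a.1) := by simp only [mul_assoc]
      _ = a.1 := by rw [hbc', hab']
  -- difference formula
  have diff : ∀ v w : PIs M e f, le v w →
      ‖(w.1 - v.1) Ω‖ ^ 2 = ‖w.1 Ω‖ ^ 2 - ‖v.1 Ω‖ ^ 2 := by
    intro v w hvw
    have hvw' : w.1 * (star v.1 * v.1) = v.1 := hvw
    have e1 : star v.1 * w.1 = star v.1 * v.1 := by
      have h2 := supp v w hvw
      have h3 : star v.1 = (star v.1 * v.1) * star w.1 := by
        have := congrArg star hvw'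
        rw [star_mul, v.2.2.1.isSelfAdjoint.star_eq] at this
        exact this.symm
      have h4 : (star v.1 * v.1) * (star w.1 * w.1) = star v.1 * v.1 := by
        have := congrArg star h2
        rwa [star_mul, v.2.2.1.isSelfAdjoint.star_eq, w.2.2.1.isSelfAdjoint.star_eq] at this
      calc star v.1 * w.1 = (star v.1 * v.1) * star w.1 * w.1 := by rw [← h3]
        _ = (star v.1 * v.1) * (star w.1 * w.1) := by simp only [mul_assoc]
        _ = _ := h4
    have e2 : star w.1 * v.1 = star v.1 * v.1 := by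
      have := congrArg star e1
      rwa [star_mul, star_star, v.2.2.1.isSelfAdjoint.star_eq] at this
    have e3 : star (w.1 - v.1) * (w.1 - v.1) = star w.1 * w.1 - star v.1 * v.1 := by
      rw [star_sub]
      calc (star w.1 - star v.1) * (w.1 - v.1) = star w.1 * w.1 - star w.1 * v.1
            - star v.1 * w.1 + star v.1 * v.1 := by noncomm_ring
        _ = _ := by rw [e1, e2]; abel
    rw [norm_sq_eq_re, norm_sq_eq_re, norm_sq_eq_re, e3, sub_apply, inner_sub_right,
      Complex.sub_re]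
  have mono : ∀ a b, le a b → ‖a.1 Ω‖ ^ 2 ≤ ‖b.1 Ω‖ ^ 2 := by
    intro a b hab
    have := diff a b hab
    nlinarith [sq_nonneg ‖(b.1 - a.1) Ω‖]
  have bdd : ∀ a : PIs M e f, ‖a.1 Ω‖ ^ 2 ≤ 1 := by
    intro a
    have h1 : ‖a.1 Ω‖ ≤ 1 * ‖Ω‖ := a.1.le_of_opNorm_le (norm_le_one_of_pi a.2.2.1) _
    rw [h.norm_one, mul_one] at h1
    nlinarith [norm_nonneg (a.1 Ω)]
  have hseq : ∀ v : ℕ → PIs M e f, (∀ n, le (v n) (v (n + 1))) → ∃ w, ∀ n, le (v n) w := by
    intro v hv
    have hle : ∀ n m, n ≤ m → le (v n) (v m) := by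
      intro n m hnm
      induction m, hnm using Nat.le_induction with
      | base => exact refl _
      | succ m _ ih => exact trans _ _ _ ih (hv m)
    have hmon : Monotone fun n => ‖(v n).1 Ω‖ ^ 2 := fun n m hnm => mono _ _ (hle n m hnm)
    have hconv := tendsto_atTop_ciSup hmon ⟨1, by rintro _ ⟨n, rfl⟩; exact bdd _⟩
    have hcau : CauchySeq fun n => (v n).1 Ω := by
      have hc := hconv.cauchySeq
      rw [Metric.cauchySeq_iff'] at hc ⊢
      intro ε hε
      obtain ⟨N, hN⟩ := hc (ε ^ 2) (by positivity)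
      refine ⟨N, fun n hn => ?_⟩
      have h1 := hN n hn
      rw [Real.dist_eq, ← diff _ _ (hle N n hn), abs_of_nonneg (sq_nonneg _)] at h1
      rw [dist_eq_norm]
      have h2 : ‖(v n).1 Ω - (v N).1 Ω‖ ^ 2 < ε ^ 2 := h1
      exact lt_of_pow_lt_pow_left₀ 2 hε.le h2
    obtain ⟨w, hwM, hw⟩ := h.exists_limit (fun n => (v n).1) (fun n => (v n).2.1) 1
      (fun n => norm_le_one_of_pi (v n).2.2.1) hcau
    have hws := h.tendsto_star (fun n => (v n).1) (fun n => (v n).2.1) 1
      (fun n => norm_le_one_of_pi (v n).2.2.1) w hw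
    have hr := tendsto_mul_strong (fun n => star (v n).1) (fun n => (v n).1) (star w) w 1
      (fun n => by rw [norm_star]; exact norm_le_one_of_pi (v n).2.2.1) hws hw
    have hrr := tendsto_mul_strong (fun n => star (v n).1 * (v n).1)
      (fun n => star (v n).1 * (v n).1) (star w * w) (star w * w) 1
      (fun n => (v n).2.2.1.norm_le) hr hr
    have hproj : IsStarProjection (star w * w) := by
      refine ⟨?_, IsSelfAdjoint.star_mul_self w⟩
      change star w * w * (star w * w) = star w * w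
      ext ξ
      have e : (fun n => ((star (v n).1 * (v n).1) * (star (v n).1 * (v n).1)) ξ) =
          fun n => (star (v n).1 * (v n).1) ξ := by
        funext n; rw [(v n).2.2.1.isIdempotentElem.eq]
      have t1 := hrr ξ
      rw [e] at t1
      exact tendsto_nhds_unique t1 (hr ξ)
    have he' : w * e = w := by
      ext ξ
      have t1 := hw (e ξ)
      have e1 : (fun n => (v n).1 (e ξ)) = fun n => (v n).1 ξ := by
        funext n; exact DFunLike.congr_fun (v n).2.2.2.1 ξ
      rw [e1] at t1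
      exact tendsto_nhds_unique t1 (hw ξ)
    have hf' : f * w = w := by
      ext ξ
      have t1 : Tendsto (fun n => f ((v n).1 ξ)) atTop (𝓝 (f (w ξ))) :=
        (f.continuous.tendsto _).comp (hw ξ)
      have e1 : (fun n => f ((v n).1 ξ)) = fun n => (v n).1 ξ := by
        funext n; exact DFunLike.congr_fun (v n).2.2.2.2 ξ
      rw [e1] at t1
      exact tendsto_nhds_unique t1 (hw ξ)
    refine ⟨⟨w, hwM, hproj, he', hf'⟩, fun n => ?_⟩
    change w * (star (v n).1 * (v n).1) = (v n).1
    ext ξ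
    have t1 := hw ((star (v n).1 * (v n).1) ξ)
    have t2 : Tendsto (fun m => (v m).1 ((star (v n).1 * (v n).1) ξ)) atTop (𝓝 ((v n).1 ξ)) := by
      apply tendsto_const_nhds.congr'
      filter_upwards [eventually_ge_atTop n] with m hm
      exact (DFunLike.congr_fun (hle n m hm) ξ).symm
    exact tendsto_nhds_unique t1 t2
  have zero_mem' : (0 : H →L[ℂ] H) ∈ M ∧ IsStarProjection (star (0 : H →L[ℂ] H) * 0) ∧
      0 * e = 0 ∧ f * 0 = 0 :=
    ⟨zero_mem M, by rw [mul_zero]; exact IsStarProjection.zero _, zero_mul _, mul_zero _⟩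
  obtain ⟨v, hv⟩ := exists_max le trans refl (fun a => ‖a.1 Ω‖ ^ 2) 1 bdd hseq mono
    ⟨0, zero_mem'⟩
  have hr := v.2.2.1
  have hvM := v.2.1
  have hve := v.2.2.2.1
  have hfv := v.2.2.2.2
  have hpm := pi_mul hr
  have hr' := pi_star hr
  set r := star v.1 * v.1 with hrd
  set s := v.1 * star v.1 with hsd
  have mr : r ∈ M := mul_mem (star_mem hvM) hvM
  have ms : s ∈ M := mul_mem hvM (star_mem hvM)
  have re1 : r * e = r := by rw [hrd, mul_assoc, hve]
  have re2 : e * r = r := by
    have := congrArg star re1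
    rwa [star_mul, he.isSelfAdjoint.star_eq, hr.isSelfAdjoint.star_eq] at this
  have sf1 : f * s = s := by rw [hsd, ← mul_assoc, hfv]
  have sf2 : s * f = s := by
    have := congrArg star sf1
    rwa [star_mul, hf.isSelfAdjoint.star_eq, hr'.isSelfAdjoint.star_eq] at this
  have per : IsStarProjection (e - r) := by
    refine ⟨?_, he.isSelfAdjoint.sub hr.isSelfAdjoint⟩
    change (e - r) * (e - r) = e - r
    calc (e - r) * (e - r) = e * e - e * r - r * e + r * r := by noncomm_ring
      _ = e - r := by rw [he.isIdempotentElem.eq, hr.isIdempotentElem.eq, re1, re2]; abel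
  have pfs : IsStarProjection (f - s) := by
    refine ⟨?_, hf.isSelfAdjoint.sub hr'.isSelfAdjoint⟩
    change (f - s) * (f - s) = f - s
    calc (f - s) * (f - s) = f * f - f * s - s * f + s * s := by noncomm_ring
      _ = f - s := by rw [hf.isIdempotentElem.eq, hr'.isIdempotentElem.eq, sf1, sf2]; abel
  have trrs : (⟪Ω, s Ω⟫_ℂ).re = (⟪Ω, r Ω⟫_ℂ).re := h.norm_star_sq hvM
  have treq : ‖(e - r) Ω‖ ^ 2 = ‖(f - s) Ω‖ ^ 2 := by
    rw [proj_norm_sq per, proj_norm_sq pfs, sub_apply, sub_apply, inner_sub_right,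
      inner_sub_right, Complex.sub_re, Complex.sub_re, heq, trrs]
  by_cases h0 : e - r = 0
  · have h1 : ‖(f - s) Ω‖ ^ 2 = 0 := by rw [← treq, h0]; simp
    have h2 : (f - s) Ω = 0 := by
      rw [← norm_eq_zero]; exact pow_eq_zero_iff (two_ne_zero) |>.1 h1
    have h3 := h.eq_zero (sub_mem mf ms) h2
    exact ⟨v.1, hvM, (sub_eq_zero.1 h0).symm, (sub_eq_zero.1 h3).symm⟩
  · exfalso
    have h0' : f - s ≠ 0 := by
      intro h1
      rw [h1] at treq
      apply h0
      apply h.eq_zero (sub_mem me mr)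
      rw [← norm_eq_zero]
      apply pow_eq_zero_iff (two_ne_zero) |>.1
      rw [treq]; simp
    obtain ⟨y, hy, hne⟩ := connect hfac (sub_mem me mr) h0 h0'
    obtain ⟨u, huM, hu0, hup, hue, huf⟩ := partial_part (x := (f - s) * y * (e - r)) (e := e - r)
      (f := f - s) (mul_mem (mul_mem (sub_mem mf ms) hy) (sub_mem me mr)) hne per
      (by rw [mul_assoc _ (e - r), per.isIdempotentElem.eq])
      (by rw [← mul_assoc, ← mul_assoc, pfs.isIdempotentElem.eq])
    -- orthogonality
    have o1 : star v.1 * u = 0 := by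
      have a1 : star v.1 * s = star v.1 := by
        have := congrArg star hpm
        rw [star_mul, hr.isSelfAdjoint.star_eq] at this
        rw [hsd, ← mul_assoc, ← hrd]; exact this
      have a2 : star v.1 * f = star v.1 := by
        have := congrArg star hfv
        rwa [star_mul, hf.isSelfAdjoint.star_eq] at this
      rw [← huf, ← mul_assoc, mul_sub, a1, a2, sub_self, zero_mul]
    have o2 : star u * v.1 = 0 := by
      have := congrArg star o1
      rwa [star_mul, star_star, star_zero] at this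
    have o3 : u * r = 0 := by
      have : (e - r) * r = 0 := by rw [sub_mul, re2, hr.isIdempotentElem.eq, sub_self]
      rw [← hue, mul_assoc, this, mul_zero]
    have o4 : star u * u * r = 0 := by rw [mul_assoc, o3, mul_zero]
    have o5 : r * (star u * u) = 0 := by
      have := congrArg star o4
      rwa [star_mul, hr.isSelfAdjoint.star_eq, hup.isSelfAdjoint.star_eq, star_zero] at this
    have ww : star (v.1 + u) * (v.1 + u) = r + star u * u := by
      rw [star_add]
      calc (star v.1 + star u) * (v.1 + u) = star v.1 * v.1 + star v.1 * u + star u * v.1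
            + star u * u := by noncomm_ring
        _ = _ := by rw [o1, o2, ← hrd]; abel
    have hproj : IsStarProjection (star (v.1 + u) * (v.1 + u)) := by
      refine ⟨?_, IsSelfAdjoint.star_mul_self _⟩
      change star (v.1 + u) * (v.1 + u) * (star (v.1 + u) * (v.1 + u)) = _
      rw [ww]
      calc (r + star u * u) * (r + star u * u) = r * r + r * (star u * u) + star u * u * r
            + (star u * u) * (star u * u) := by noncomm_ring
        _ = _ := by rw [o4, o5, hr.isIdempotentElem.eq, hup.isIdempotentElem.eq]; abel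
    have hue' : (v.1 + u) * e = v.1 + u := by
      have : u * e = u := by
        have a1 : (e - r) * e = e - r := by rw [sub_mul, he.isIdempotentElem.eq, re1]
        rw [← hue, mul_assoc, a1]
      rw [add_mul, hve, this]
    have huf' : f * (v.1 + u) = v.1 + u := by
      have : f * u = u := by
        have a1 : f * (f - s) = f - s := by rw [mul_sub, hf.isIdempotentElem.eq, sf1]
        rw [← huf, ← mul_assoc, a1]
      rw [mul_add, hfv, this]
    let w : PIs M e f := ⟨v.1 + u, add_mem hvM huM, hproj, hue', huf'⟩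
    have hle : le v w := by
      change (v.1 + u) * (star v.1 * v.1) = v.1
      rw [← hrd, add_mul, hpm, o3, add_zero]
    have hfin := hv w hle
    have hd := diff v w hle
    have hw1 : w.1 - v.1 = u := by change v.1 + u - v.1 = u; abel
    rw [hw1] at hd
    have hupos : 0 < ‖u Ω‖ := by
      rw [norm_pos_iff]
      intro hz
      exact hu0 (h.eq_zero huM hz)
    have : 0 < ‖u Ω‖ ^ 2 := by positivity
    linarith

end Pool.Agent.Lib.MP_41f445_an
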