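import Pool.Agent.Lib.MP_41f445_an.Half

/-!
# Comparison of projections in a finite factor
-/

set_option linter.unusedSectionVars false

open Topology Filter
open scoped ComplexOrder

namespace Pool.Agent.Lib.MP_41f445_an

/-- Greedy maximality principle. -/
lemma greedy {S : Type*} (r : S → S → Prop) (hr : ∀ x, r x x)
    (ht : ∀ x y z, r x y → r y z → r x z) (ψ : S → ℝ) (hm : ∀ x y, r x y → ψ x ≤ ψ y)
    (B : ℝ) (hB : ∀ x, ψ x ≤ B)
    (hs : ∀ x : ℕ → S, (∀ n m, n ≤ m → r (x n) (x m)) → ∃ y, ∀ n, r (x n) y) (x0 : S) :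
    ∃ x, r x0 x ∧ ∀ y, r x y → ψ y ≤ ψ x := by
  classical
  set s : S → ℝ := fun x => sSup (ψ '' {y | r x y}) with hsdef
  have bdd : ∀ x, BddAbove (ψ '' {y | r x y}) := fun x => ⟨B, by rintro _ ⟨y, _, rfl⟩; exact hB y⟩
  have le_s : ∀ x y, r x y → ψ y ≤ s x := fun x y hxy => le_csSup (bdd x) ⟨y, hxy, rfl⟩
  have step : ∀ x, ∃ y, r x y ∧ (s x + ψ x) / 2 ≤ ψ y := by
    intro x
    rcases (le_s x x (hr x)).eq_or_lt with h1 | h1
    · exact ⟨x, hr x, by linarith⟩
    · obtain ⟨_, ⟨y, hy, rfl⟩, hy2⟩ := exists_lt_of_lt_csSup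
        (show (ψ '' {y | r x y}).Nonempty from ⟨ψ x, x, hr x, rfl⟩)
        (show (s x + ψ x) / 2 < sSup (ψ '' {y | r x y}) by change _ < s x; linarith)
      exact ⟨y, hy, hy2.le⟩
  choose f hf1 hf2 using step
  let x : ℕ → S := fun n => Nat.rec x0 (fun _ z => f z) n
  have hx1 : ∀ n, r (x n) (x (n + 1)) := fun n => hf1 (x n)
  have hx2 : ∀ n, (s (x n) + ψ (x n)) / 2 ≤ ψ (x (n + 1)) := fun n => hf2 (x n)
  have hx3 : ∀ n m, n ≤ m → r (x n) (x m) := by
    intro n m hnm
    induction m, hnm using Nat.le_induction with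
    | base => exact hr _
    | succ m _ ih => exact ht _ _ _ ih (hx1 m)
  obtain ⟨y, hy⟩ := hs x hx3
  refine ⟨y, hy 0, fun z hz => ?_⟩
  have mono : Monotone (fun n => ψ (x n)) := fun n m hnm => hm _ _ (hx3 n m hnm)
  have hlim := tendsto_atTop_ciSup mono ⟨B, by rintro _ ⟨n, rfl⟩; exact hB _⟩
  have hlim2 := hlim.comp (tendsto_add_atTop_nat 1)
  have h3 : Tendsto (fun n => 2 * ψ (x (n + 1)) - ψ (x n)) atTop
      (𝓝 (2 * (⨆ n, ψ (x n)) - ⨆ n, ψ (x n))) := (hlim2.const_mul 2).sub hlim
  have h4 : ψ z ≤ 2 * (⨆ n, ψ (x n)) - ⨆ n, ψ (x n) := by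
    refine ge_of_tendsto' h3 fun n => ?_
    have := le_s (x n) z (ht _ _ _ (hy n) hz)
    linarith [hx2 n]
  have h5 : (⨆ n, ψ (x n)) ≤ ψ y := ciSup_le fun n => hm _ _ (hy n)
  linarith

/-- The centre is trivial. -/
def IsFactor (M : Type*) [CStarAlgebra M] : Prop :=
  ∀ x : M, (∀ y, x * y = y * x) → ∃ c : ℂ, x = c • 1

section
variable {M : Type*} [CStarAlgebra M] {τ : M →ₗ[ℂ] ℂ} (h : IsFiniteVN τ)
include h

lemma nontriv : Nontrivial M := by
  rcases subsingleton_or_nontrivial M with hs | hs
  · exfalso
    have h1 := h.map_one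
    rw [Subsingleton.elim (1 : M) 0, map_zero] at h1
    exact zero_ne_one h1
  · exact hs

lemma parallelogram (x y : M) :
    n2 τ (x + y) ^ 2 + n2 τ (x - y) ^ 2 = 2 * (n2 τ x ^ 2 + n2 τ y ^ 2) := by
  have := parallelogram_law_with_norm ℂ (h.toL2 x) (h.toL2 y)
  rw [← map_add, ← map_sub, h.norm_toL2, h.norm_toL2, h.norm_toL2, h.norm_toL2] at this
  linarith

/-- Closed convex sets have a unique point of minimal 2-norm. -/
lemma exists_min (K : Set M) (hne : K.Nonempty)
    (hconv : ∀ x ∈ K, ∀ y ∈ K, (1 / 2 : ℂ) • (x + y) ∈ K) (hb : ∀ x ∈ K, ‖x‖ ≤ 1)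
    (hcl : ∀ x : ℕ → M, (∀ n, x n ∈ K) → ∀ y, Tends τ x y → ‖y‖ ≤ 1 → y ∈ K) :
    ∃ y ∈ K, ∀ x ∈ K, n2 τ x ≤ n2 τ y → x = y := by
  set D : Set ℝ := (fun x => n2 τ x ^ 2) '' K with hD
  have Dne : D.Nonempty := hne.image _
  have Dbd : BddBelow D := ⟨0, by rintro _ ⟨x, _, rfl⟩; positivity⟩
  set d := sInf D with hd
  have dle : ∀ x ∈ K, d ≤ n2 τ x ^ 2 := fun x hx => csInf_le Dbd ⟨x, hx, rfl⟩
  have close : ∀ x ∈ K, ∀ y ∈ K, ∀ ε, n2 τ x ^ 2 ≤ d + ε → n2 τ y ^ 2 ≤ d + ε →
      n2 τ (x - y) ^ 2 ≤ 4 * ε := by
    intro x hx y hy ε h1 h2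
    have h3 := dle _ (hconv x hx y hy)
    rw [h.n2_smul, mul_pow] at h3
    have h4 := parallelogram h x y
    norm_num at h3
    linarith
  have hseq : ∀ n : ℕ, ∃ x ∈ K, n2 τ x ^ 2 ≤ d + 1 / (n + 1) := by
    intro n
    obtain ⟨_, ⟨x, hx, rfl⟩, hx2⟩ := exists_lt_of_csInf_lt Dne
      (show sInf D < d + 1 / ((n : ℝ) + 1) by
        have : (0 : ℝ) < 1 / ((n : ℝ) + 1) := by positivity
        linarith)
    exact ⟨x, hx, hx2.le⟩
  choose x hxK hx using hseq
  have anti : ∀ N n : ℕ, N ≤ n → (1 : ℝ) / (n + 1) ≤ 1 / (N + 1) := by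
    intro N n hn
    apply one_div_le_one_div_of_le (by positivity)
    have : (N : ℝ) ≤ n := by exact_mod_cast hn
    linarith
  obtain ⟨y, hy, hxy⟩ := h.exists_tends 1 x (fun n => hb _ (hxK n)) (fun ε hε => by
    obtain ⟨N, hN⟩ := exists_nat_gt (4 / ε ^ 2)
    refine ⟨N, fun m hm n hn => ?_⟩
    have h1 := close _ (hxK m) _ (hxK n) (1 / (N + 1)) ((hx m).trans (by linarith [anti N m hm]))
      ((hx n).trans (by linarith [anti N n hn]))
    have h2 : 4 * (1 / ((N : ℝ) + 1)) < ε ^ 2 := by
      rw [div_lt_iff₀ (by positivity)] at hN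
      rw [mul_one_div, div_lt_iff₀ (by positivity)]
      nlinarith [sq_nonneg ε, pow_pos hε 2]
    exact lt_of_pow_lt_pow_left₀ 2 hε.le (h1.trans_lt h2))
  have hyK := hcl x hxK y hxy hy
  have hyd : n2 τ y ^ 2 ≤ d := by
    have t1 : Tendsto (fun n => n2 τ (x n) ^ 2) atTop (𝓝 (n2 τ y ^ 2)) := (h.tends_n2 hxy).pow 2
    have t2 : Tendsto (fun n : ℕ => d + 1 / ((n : ℝ) + 1)) atTop (𝓝 (d + 0)) :=
      tendsto_const_nhds.add tendsto_one_div_add_atTop_nhds_zero_nat
    rw [add_zero] at t2
    exact le_of_tendsto_of_tendsto' t1 t2 hx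
  refine ⟨y, hyK, fun z hz hle => ?_⟩
  have h1 : n2 τ z ^ 2 ≤ d + 0 := by
    rw [add_zero]
    exact (pow_le_pow_left₀ (h.n2_nonneg _) hle 2).trans hyd
  have h2 := close z hz y hyK 0 h1 (by rw [add_zero]; exact hyd)
  rw [mul_zero] at h2
  have h3 : n2 τ (z - y) = 0 := by
    have := sq_nonneg (n2 τ (z - y))
    exact pow_eq_zero_iff (two_ne_zero) |>.1 (le_antisymm h2 this)
  exact sub_eq_zero.1 ((h.n2_eq_zero).1 h3)

omit h in
lemma commute_of_unitary (x : M) (hx : ∀ u ∈ unitary M, u * x = x * u) (y : M) : x * y = y * x := by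
  have hy : y ∈ Submodule.span ℂ (unitary M : Set M) := by
    rw [CStarAlgebra.span_unitary]; trivial
  induction hy using Submodule.span_induction with
  | mem u hu => exact (hx u hu).symm
  | zero => simp
  | add a b _ _ iha ihb => rw [mul_add, add_mul, iha, ihb]
  | smul c a _ ih => rw [mul_smul_comm, smul_mul_assoc, ih]

lemma n2_unitary_conj {u : M} (hu : u ∈ unitary M) (x : M) : n2 τ (u * x * star u) = n2 τ x := by
  have e : star (u * x * star u) * (u * x * star u) = u * (star x * x) * star u := by
    rw [star_mul, star_mul, star_star]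
    have := (Unitary.mem_iff.1 hu).1
    calc u * (star x * star u) * (u * x * star u)
        = u * (star x * ((star u * u) * (x * star u))) := by simp only [mul_assoc]
      _ = _ := by rw [this, one_mul]; simp only [mul_assoc]
  rw [n2, n2, e, h.comm, ← mul_assoc, (Unitary.mem_iff.1 hu).1, one_mul]

/-- In a factor two nonzero projections are not centrally orthogonal. -/
theorem exists_mul_ne_zero (hF : IsFactor M) {p q : M} (hp : IsStarProjection p) (hp0 : p ≠ 0)
    (hq0 : q ≠ 0) : ∃ z, q * z * p ≠ 0 := by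
  by_contra hcon
  push Not at hcon
  set K : Set M := {x | ‖x‖ ≤ 1 ∧ (∀ y, q * y * x = 0) ∧ τ x = τ p} with hK
  obtain ⟨y, ⟨hy1, hy2, hy3⟩, hmin⟩ := exists_min h K
    ⟨p, hp.norm_le, hcon, rfl⟩
    (by
      rintro x ⟨x1, x2, x3⟩ y ⟨y1, y2, y3⟩
      refine ⟨?_, fun z => ?_, ?_⟩
      · rw [norm_smul]
        have := norm_add_le x y
        norm_num
        linarith
      · rw [mul_smul_comm, mul_add, x2, y2, add_zero, smul_zero]
      · rw [map_smul, map_add, x3, y3, smul_eq_mul]; ring)
    (fun x hx => hx.1)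
    (by
      intro x hx y hxy hy
      refine ⟨hy, fun z => ?_, ?_⟩
      · have := h.tends_mul_left (q * z) hxy
        simp only [(hx _).2.1 z] at this
        exact h.tends_unique this (h.tends_const 0)
      · have := h.tends_trace hxy
        simp only [(hx _).2.2] at this
        exact tendsto_nhds_unique this tendsto_const_nhds)
  have hcent : ∀ u ∈ unitary M, u * y = y * u := by
    intro u hu
    have hu1 := (Unitary.mem_iff.1 hu).1
    have hu2 := (Unitary.mem_iff.1 hu).2
    have hmem : u * y * star u ∈ K := by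
      refine ⟨?_, fun z => ?_, ?_⟩
      · have h1 : ‖u * y * star u‖ ≤ ‖u‖ * ‖y‖ * ‖star u‖ :=
          (norm_mul_le _ _).trans (mul_le_mul_of_nonneg_right (norm_mul_le _ _) (norm_nonneg _))
        have := nontriv h
        have h2 : ‖u‖ ≤ 1 := (CStarRing.norm_of_mem_unitary hu).le
        rw [norm_star] at h1
        have h3 : ‖u‖ * ‖y‖ * ‖u‖ ≤ 1 * 1 * 1 := by gcongr
        linarith
      · have : q * z * (u * y * star u) = (q * (z * u) * y) * star u := by simp only [mul_assoc]
        rw [this, hy2, zero_mul]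
      · rw [h.comm, ← mul_assoc, hu1, one_mul, hy3]
    have h2 := hmin _ hmem (n2_unitary_conj h hu y).le
    calc u * y = u * y * (star u * u) := by rw [hu1, mul_one]
      _ = (u * y * star u) * u := by simp only [mul_assoc]
      _ = y * u := by rw [h2]
  obtain ⟨c, hc⟩ := hF y (commute_of_unitary y hcent)
  have h1 : τ p = c := by
    rw [← hy3, hc, map_smul, h.map_one, smul_eq_mul, mul_one]
  have h2 := hy2 1
  rw [hc, mul_one, mul_smul_comm, mul_one] at h2
  rcases smul_eq_zero.1 h2 with h3 | h3
  · rw [h3] at h1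
    exact hp0 ((trace_proj_eq_zero h hp).1 (by rw [h1]; rfl))
  · exact hq0 h3

omit h in
/-- Partial isometries. -/
lemma pi_of_proj {v : M} (hv : IsStarProjection (star v * v)) : v * star v * v = v := by
  have h1 : star (v * star v * v - v) * (v * star v * v - v) = 0 := by
    have e := hv.isIdempotentElem.eq
    rw [star_sub, star_mul, star_mul, star_star, sub_mul, mul_sub, mul_sub]
    have e1 : star v * (v * star v) * (v * star v * v) = star v * v := by
      calc _ = (star v * v) * (star v * v) * (star v * v) := by simp only [mul_assoc]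
        _ = _ := by rw [e, e]
    have e2 : star v * (v * star v) * v = star v * v := by
      calc _ = (star v * v) * (star v * v) := by simp only [mul_assoc]
        _ = _ := e
    have e3 : star v * (v * star v * v) = star v * v := by
      calc _ = (star v * v) * (star v * v) := by simp only [mul_assoc]
        _ = _ := e
    rw [e1, e2, e3]; simp
  have h2 := CStarRing.star_mul_self_eq_zero_iff (v * star v * v - v) |>.1 h1
  exact sub_eq_zero.1 h2

/-- The partial isometry part of a nonzero element (cut away from zero). -/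
theorem exists_polar {x : M} (hx : x ≠ 0) :
    ∃ v : M, v ≠ 0 ∧ IsStarProjection (star v * v) ∧ (∃ b, v = x * b) ∧
      ∃ c, star v * v = star x * c := by
  set a := star x * x with hadef
  have ha : IsSelfAdjoint a := IsSelfAdjoint.star_mul_self x
  have hpos : 0 < (τ a).re := by
    rw [← h.n2_sq]
    have := (h.n2_eq_zero (x := x)).not.2 hx
    positivity
  -- choose the cut
  obtain ⟨t, ht0, ht⟩ : ∃ t : ℝ, 0 < t ∧ sp h ha t ≠ 1 := by
    refine ⟨(τ a).re / 2, by positivity, fun hsp => ?_⟩
    have h1 := trace_low h ha ((τ a).re / 2)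
    rw [hsp, mul_one, map_sub, map_smul, h.map_one, smul_eq_mul, mul_one, Complex.sub_re,
      Complex.ofReal_re] at h1
    linarith
  set e := 1 - sp h ha t with he
  have hep : IsStarProjection e := (sp_proj h ha t).one_sub
  have he0 : e ≠ 0 := fun h0 => ht (sub_eq_zero.1 h0).symm
  set φ : ℝ → ℝ := fun s => (Real.sqrt (max s t))⁻¹ with hφ
  have hmax : ∀ s : ℝ, 0 < max s t := fun s => lt_max_of_lt_right ht0
  have hφc : Continuous φ := by
    have : Continuous fun s : ℝ => Real.sqrt (max s t) := by fun_prop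
    exact this.inv₀ (fun s => (Real.sqrt_pos.2 (hmax s)).ne')
  have hφ2 : ∀ s, φ s * φ s = (max s t)⁻¹ := by
    intro s
    simp only [hφ]
    rw [← mul_inv, Real.mul_self_sqrt (hmax s).le]
  have hsa : IsSelfAdjoint (cfc φ a) := cfc_predicate φ a
  have hca : Commute a (cfc φ a) := ((Commute.refl a).cfc_real φ).symm
  have hce : Commute e (cfc φ a) := (Commute.one_left _).sub_left (sp_commute h ha t _ hca)
  have hcea : Commute e a := (Commute.one_left _).sub_left (sp_commute h ha t _ (Commute.refl a))
  -- the main identity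
  have main : cfc (fun s => s * (φ s * φ s)) a * e = e := by
    have z : cfc (fun s => s * (φ s * φ s) - 1) a * e = 0 := by
      rw [he, mul_sub, mul_one]
      have t1 := h.tends_sub (h.tends_const (cfc (fun s => s * (φ s * φ s) - 1) a))
        (cfc_mul_sp_tends h ha t (fun s => s * (φ s * φ s) - 1) (by fun_prop))
      refine h.tends_unique t1 ?_
      have lim : Tendsto (fun n : ℕ => (2 / t) * (1 / 2 : ℝ) ^ n) atTop (𝓝 0) := by
        have := (tendsto_pow_atTop_nhds_zero_of_lt_one (r := (1 / 2 : ℝ)) (by norm_num)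
          (by norm_num)).const_mul (2 / t)
        simpa using this
      refine squeeze_zero (fun n => h.n2_nonneg _) (fun n => ?_) lim
      rw [sub_zero]
      beta_reduce
      rw [← cfc_sub _ _ a (by fun_prop) (by fun_prop)]
      apply cfc_n2_le h ha _ _ (by positivity)
      intro s _
      rw [hφ2]
      have e1 : s * (max s t)⁻¹ - 1 - (s * (max s t)⁻¹ - 1) * lo n t s =
        (s * (max s t)⁻¹ - 1) * (1 - lo n t s) := by ring
      rw [e1]
      rcases le_total t s with hts | hts
      · rw [max_eq_left hts, mul_inv_cancel₀ (ht0.trans_le hts).ne', sub_self, zero_mul, abs_zero]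
        positivity
      · rw [max_eq_right hts]
        by_cases h2 : 2 ≤ 2 ^ n * (t - s)
        · rw [lo_one n h2, sub_self, mul_zero, abs_zero]; positivity
        · push Not at h2
          have h2n : (0 : ℝ) < 2 ^ n := by positivity
          have h3 : t - s ≤ 2 * (1 / 2 : ℝ) ^ n := by
            rw [one_div, inv_pow, ← div_eq_mul_inv, le_div_iff₀ h2n]; linarith
          have h4 : |s * t⁻¹ - 1| ≤ (2 / t) * (1 / 2 : ℝ) ^ n := by
            have : s * t⁻¹ - 1 = -((t - s) / t) := by field_simp; ring
            rw [this, abs_neg, abs_of_nonneg (div_nonneg (sub_nonneg.2 hts) ht0.le),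
              div_le_iff₀ ht0]
            calc t - s ≤ 2 * (1 / 2 : ℝ) ^ n := h3
              _ = 2 / t * (1 / 2) ^ n * t := by field_simp
          rw [abs_mul]
          have h5 : |1 - lo n t s| ≤ 1 := by
            rw [abs_le]; constructor <;> linarith [lo_nonneg n t s, lo_le_one n t s]
          calc _ ≤ |s * t⁻¹ - 1| * 1 := mul_le_mul_of_nonneg_left h5 (abs_nonneg _)
            _ ≤ _ := by rw [mul_one]; exact h4
    rw [cfc_sub _ _ a (by fun_prop) (by fun_prop), cfc_const_one ℝ a, sub_mul, one_mul] at z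
    exact sub_eq_zero.1 z
  have hprod : cfc (fun s => s * (φ s * φ s)) a = a * (cfc φ a * cfc φ a) := by
    rw [cfc_mul _ _ a (by fun_prop) (by fun_prop), cfc_mul _ _ a (by fun_prop) (by fun_prop),
      cfc_id' ℝ a]
  have hvv : star (x * cfc φ a * e) * (x * cfc φ a * e) = e := by
    rw [star_mul, star_mul, hep.isSelfAdjoint.star_eq, hsa.star_eq]
    calc e * (cfc φ a * star x) * (x * cfc φ a * e)
        = e * (cfc φ a * (a * cfc φ a)) * e := by rw [hadef]; simp only [mul_assoc]
      _ = e * (a * (cfc φ a * cfc φ a) * e) := by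
          rw [← mul_assoc (cfc φ a), ← hca.eq]; simp only [mul_assoc]
      _ = e * e := by rw [← hprod, main]
      _ = e := hep.isIdempotentElem.eq
  refine ⟨x * cfc φ a * e, ?_, ?_, ⟨cfc φ a * e, by rw [mul_assoc]⟩,
    ⟨x * (cfc φ a * cfc φ a) * e, ?_⟩⟩
  · intro h0
    rw [h0, mul_zero] at hvv
    exact he0 hvv.symm
  · rw [hvv]; exact hep
  · rw [hvv]
    have e1 : e = a * (cfc φ a * cfc φ a) * e := by rw [← hprod, main]
    have e2 : a * (cfc φ a * cfc φ a) * e = star x * (x * (cfc φ a * cfc φ a) * e) := by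
      have : ∀ b, a * b = star x * (x * b) := fun b => by rw [hadef, mul_assoc]
      rw [mul_assoc, this]; simp only [mul_assoc]
    exact e1.trans e2

/-- The partial isometries from below `p` to below `q`. -/
def PI (p q : M) : Set M := {v | v * star v * v = v ∧ v * p = v ∧ q * v = v}

omit h in
lemma PI.proj {p q v : M} (hv : v ∈ PI p q) : IsStarProjection (star v * v) :=
  ⟨by
    rw [IsIdempotentElem]
    calc star v * v * (star v * v) = star v * (v * star v * v) := by simp only [mul_assoc]
      _ = _ := by rw [hv.1], IsSelfAdjoint.star_mul_self v⟩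

omit h in
lemma PI.proj' {p q v : M} (hv : v ∈ PI p q) : IsStarProjection (v * star v) :=
  ⟨by
    rw [IsIdempotentElem]
    calc v * star v * (v * star v) = (v * star v * v) * star v := by simp only [mul_assoc]
      _ = _ := by rw [hv.1], IsSelfAdjoint.mul_star_self v⟩

lemma PI.norm_le {p q v : M} (hv : v ∈ PI p q) : ‖v‖ ≤ 1 := by
  have h1 := (PI.proj hv).norm_le
  rw [CStarRing.norm_star_mul_self] at h1
  nlinarith [norm_nonneg v]

/-- Extension of partial isometries. -/
def Ext (v w : M) : Prop := w * (star v * v) = v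

omit h in
lemma Ext.gf {p q v w : M} (hv : v ∈ PI p q) (hw : w ∈ PI p q) (hvw : Ext v w) :
    (star w * w) * (star v * v) = star v * v := by
  set f := star v * v with hf
  set g := star w * w with hg
  have hfp := (PI.proj hv)
  have hgp := (PI.proj hw)
  have e1 : f = f * g * f := by
    have : star (w * f) * (w * f) = f := by
      have h2 : w * f = v := hvw
      rw [h2]
    rw [star_mul, hfp.isSelfAdjoint.star_eq] at this
    calc f = f * star w * (w * f) := this.symm
      _ = _ := by rw [hg]; simp only [mul_assoc]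
  have hfs : star f = f := hfp.isSelfAdjoint.star_eq
  have hgs : star g = g := hgp.isSelfAdjoint.star_eq
  have hff : f * f = f := hfp.isIdempotentElem.eq
  have e2 : star (g * f - f) * (g * f - f) = 0 := by
    rw [star_sub, star_mul, hfs, hgs, sub_mul, mul_sub, mul_sub]
    have a1 : f * g * (g * f) = f := by
      calc f * g * (g * f) = f * (g * g) * f := by simp only [mul_assoc]
        _ = f := by rw [hgp.isIdempotentElem.eq]; exact e1.symm
    have a2 : f * (g * f) = f := by rw [← mul_assoc]; exact e1.symm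
    rw [a1, a2, ← e1, hff]; simp
  exact sub_eq_zero.1 ((CStarRing.star_mul_self_eq_zero_iff _).1 e2)

omit h in
lemma Ext.trans {p q v w u : M} (hv : v ∈ PI p q) (hw : w ∈ PI p q) (hvw : Ext v w)
    (hwu : Ext w u) : Ext v u := by
  have h1 := Ext.gf hv hw hvw
  have h2 : u * (star w * w) = w := hwu
  have h3 : w * (star v * v) = v := hvw
  change u * (star v * v) = v
  rw [← h1, ← mul_assoc, h2, h3]

/-- The 2-distance of an extension. -/
lemma Ext.dist {p q v w : M} (hv : v ∈ PI p q) (hw : w ∈ PI p q) (hvw : Ext v w) :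
    n2 τ (w - v) ^ 2 = (τ (star w * w)).re - (τ (star v * v)).re := by
  rw [h.n2_sq]
  have h1 := Ext.gf hv hw hvw
  have h1' : (star v * v) * (star w * w) = star v * v := by
    have := congrArg star h1
    rwa [star_mul, (PI.proj hv).isSelfAdjoint.star_eq, (PI.proj hw).isSelfAdjoint.star_eq] at this
  have h3 : w * (star v * v) = v := hvw
  have e1 : star w * v = star v * v := by
    conv_lhs => rw [← h3]
    rw [← mul_assoc, h1]
  have e2 : star v * w = star v * v := by
    have := congrArg star e1
    rwa [star_mul, star_star, (PI.proj hv).isSelfAdjoint.star_eq] at this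
  rw [star_sub, sub_mul, mul_sub, mul_sub, e1, e2, sub_self, sub_zero, map_sub, Complex.sub_re]

/-- **Comparison of projections**. -/
theorem exists_compare (hF : IsFactor M) {p q : M} (hp : IsStarProjection p)
    (hq : IsStarProjection q) (hpq : (τ p).re ≤ (τ q).re) :
    ∃ v : M, star v * v = p ∧ q * v = v ∧ v * star v * v = v := by
  classical
  have h0mem : (0 : M) ∈ PI p q := by simp [PI]
  obtain ⟨⟨v, hv⟩, -, hmax⟩ := greedy (S := PI p q) (fun a b => Ext (a : M) (b : M))
    (fun x => by
      change (x : M) * (star (x : M) * x) = x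
      rw [← mul_assoc]; exact x.2.1)
    (fun x y z hxy hyz => Ext.trans x.2 y.2 hxy hyz)
    (fun x => (τ (star (x : M) * x)).re)
    (fun x y hxy => by
      have := Ext.dist h x.2 y.2 hxy
      have h2 := sq_nonneg (n2 τ ((y : M) - x))
      linarith) 1
    (fun x => by
      have h1 := h.norm_trace_le (star (x : M) * x)
      have h2 := (PI.proj x.2).norm_le
      exact (Complex.re_le_norm _).trans (h1.trans h2))
    (fun x hx => by
      have mono : Monotone (fun n => (τ (star (x n : M) * x n)).re) := by
        intro n m hnm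
        have := Ext.dist h (x n).2 (x m).2 (hx n m hnm)
        have h2 := sq_nonneg (n2 τ ((x m : M) - x n))
        dsimp only
        linarith
      have bd : BddAbove (Set.range (fun n => (τ (star (x n : M) * x n)).re)) := by
        refine ⟨1, ?_⟩
        rintro _ ⟨n, rfl⟩
        have h1 := h.norm_trace_le (star (x n : M) * x n)
        have h2 := (PI.proj (x n).2).norm_le
        exact (Complex.re_le_norm _).trans (h1.trans h2)
      have cau := (tendsto_atTop_ciSup mono bd).cauchySeq
      obtain ⟨y, hy, hxy⟩ := h.exists_tends 1 (fun n => (x n : M))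
        (fun n => PI.norm_le h (x n).2) (fun ε hε => by
          obtain ⟨N, hN⟩ := Metric.cauchySeq_iff.1 cau (ε ^ 2) (by positivity)
          refine ⟨N, ?_⟩
          have main : ∀ n ≥ N, ∀ m ≥ n, n2 τ ((x m : M) - x n) < ε := by
            intro n hn m hm
            have h5 := Ext.dist h (x n).2 (x m).2 (hx n m hm)
            have h6 := hN m (hn.trans hm) n hn
            rw [Real.dist_eq] at h6
            have h7 := (le_abs_self _).trans_lt h6
            exact lt_of_pow_lt_pow_left₀ 2 hε.le (h5.le.trans_lt h7)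
          intro m hm n hn
          rcases le_total n m with h8 | h8
          · exact main n hn m h8
          · rw [h.n2_sub_comm]; exact main m hm n h8)
      have hnx : ∀ n, ‖(x n : M)‖ ≤ 1 := fun n => PI.norm_le h (x n).2
      have t1 := h.tends_star hxy
      have t2 := h.tends_mul 1 hnx hxy t1
      have t3 := h.tends_mul 1 (fun n => by
        have := norm_mul_le (x n : M) (star (x n : M))
        rw [norm_star] at this
        nlinarith [hnx n, norm_nonneg (x n : M)]) t2 hxy
      have hyPI : y ∈ PI p q := by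
        refine ⟨h.tends_unique t3 (hxy.congr fun n => ?_), h.tends_unique (h.tends_mul_right p hxy)
          (hxy.congr fun n => ?_), h.tends_unique (h.tends_mul_left q hxy)
          (hxy.congr fun n => ?_)⟩
        · beta_reduce; rw [(x n).2.1]
        · beta_reduce; rw [(x n).2.2.1]
        · beta_reduce; rw [(x n).2.2.2]
      refine ⟨⟨y, hyPI⟩, fun n => ?_⟩
      change y * (star (x n : M) * x n) = x n
      refine h.tends_unique (h.tends_mul_right _ hxy) ?_
      refine Tendsto.congr' ?_ (h.tends_const (x n : M))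
      filter_upwards [eventually_ge_atTop n] with m hm
      have : (x m : M) * (star (x n : M) * x n) = x n := hx n m hm
      rw [this]) ⟨0, h0mem⟩
  set f := star v * v with hf
  set g := v * star v with hg
  have hfp : IsStarProjection f := (PI.proj hv)
  have hgp : IsStarProjection g := (PI.proj' hv)
  have hvp : v * p = v := hv.2.1
  have hqv : q * v = v := hv.2.2
  have hfp1 : f * p = f := by rw [hf, mul_assoc, hvp]
  have hfp2 : p * f = f := by
    have := congrArg star hfp1
    rwa [star_mul, hp.isSelfAdjoint.star_eq, hfp.isSelfAdjoint.star_eq] at this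
  have hgq2 : q * g = g := by rw [hg, ← mul_assoc, hqv]
  have hgq1 : g * q = g := by
    have := congrArg star hgq2
    rwa [star_mul, hq.isSelfAdjoint.star_eq, hgp.isSelfAdjoint.star_eq] at this
  have hp' : IsStarProjection (p - f) := ⟨by
    rw [IsIdempotentElem, sub_mul, mul_sub, mul_sub, hp.isIdempotentElem.eq,
      hfp.isIdempotentElem.eq, hfp1, hfp2]; abel, hp.isSelfAdjoint.sub hfp.isSelfAdjoint⟩
  have hq' : IsStarProjection (q - g) := ⟨by
    rw [IsIdempotentElem, sub_mul, mul_sub, mul_sub, hq.isIdempotentElem.eq,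
      hgp.isIdempotentElem.eq, hgq1, hgq2]; abel, hq.isSelfAdjoint.sub hgp.isSelfAdjoint⟩
  have htr : τ f = τ g := h.comm _ _
  suffices hpf : p - f = 0 by
    refine ⟨v, (sub_eq_zero.1 hpf).symm, hqv, hv.1⟩
  by_contra hne
  have hq0 : q - g ≠ 0 := by
    intro h0
    have h1 : (τ (p - f)).re ≤ 0 := by
      have h2 : (τ (q - g)).re = 0 := by rw [h0]; simp
      rw [map_sub, Complex.sub_re] at h2 ⊢
      rw [← htr] at h2
      linarith
    exact hne ((trace_proj_eq_zero h hp').1 (le_antisymm h1 (trace_proj_nonneg h hp')))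
  obtain ⟨z, hz⟩ := exists_mul_ne_zero h hF hp' hne hq0
  obtain ⟨w, hw0, hwp, ⟨b, hb⟩, ⟨c, hc⟩⟩ := exists_polar h hz
  have hww : w * star w * w = w := pi_of_proj hwp
  have hqw : (q - g) * w = w := by
    rw [hb]
    calc (q - g) * ((q - g) * z * (p - f) * b) = ((q - g) * (q - g)) * z * (p - f) * b := by
          simp only [mul_assoc]
      _ = _ := by rw [hq'.isIdempotentElem.eq]
  have hwp' : w * (p - f) = w := by
    have e1 : (p - f) * (star w * w) = star w * w := by
      rw [hc, star_mul, hp'.isSelfAdjoint.star_eq, mul_assoc, ← mul_assoc (p - f) (p - f),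
        hp'.isIdempotentElem.eq]
    have e2 : (star w * w) * (p - f) = star w * w := by
      have := congrArg star e1
      rwa [star_mul, hp'.isSelfAdjoint.star_eq, hwp.isSelfAdjoint.star_eq] at this
    calc w * (p - f) = (w * star w * w) * (p - f) := by rw [hww]
      _ = w * ((star w * w) * (p - f)) := by simp only [mul_assoc]
      _ = w := by rw [e2, ← mul_assoc, hww]
  -- orthogonality relations
  have o1 : star v * w = 0 := by
    have e1 : star v * (q - g) = 0 := by
      have a1 : star v * q = star v := by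
        have := congrArg star hqv
        rwa [star_mul, hq.isSelfAdjoint.star_eq] at this
      have a2 : star v * g = star v := by
        have := congrArg star hv.1
        rw [star_mul, star_mul, star_star] at this
        exact this
      rw [mul_sub, a1, a2, sub_self]
    rw [← hqw, ← mul_assoc, e1, zero_mul]
  have o2 : w * star v = 0 := by
    have e1 : (p - f) * star v = 0 := by
      have a1 : p * star v = star v := by
        have := congrArg star hvp
        rwa [star_mul, hp.isSelfAdjoint.star_eq] at this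
      have a2 : f * star v = star v := by
        have := congrArg star hv.1
        rw [star_mul, star_mul, star_star, ← mul_assoc] at this
        exact this
      rw [sub_mul, a1, a2, sub_self]
    rw [← hwp', mul_assoc, e1, mul_zero]
  have o1' : star w * v = 0 := by
    have := congrArg star o1
    rwa [star_mul, star_star, star_zero] at this
  have o2' : v * star w = 0 := by
    have := congrArg star o2
    rwa [star_mul, star_star, star_zero] at this
  have s1 : star (v + w) * (v + w) = f + star w * w := by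
    rw [star_add, add_mul, mul_add, mul_add, o1, o1', add_zero, zero_add]
  have hmem : v + w ∈ PI p q := by
    refine ⟨?_, ?_, ?_⟩
    · rw [mul_assoc, s1, add_mul, mul_add, mul_add]
      have a1 : v * f = v := by rw [hf, ← mul_assoc, hv.1]
      have a2 : v * (star w * w) = 0 := by rw [← mul_assoc, o2', zero_mul]
      have a3 : w * f = 0 := by rw [hf, ← mul_assoc, o2, zero_mul]
      have a4 : w * (star w * w) = w := by rw [← mul_assoc, hww]
      rw [a1, a2, a3, a4, add_zero, zero_add]
    · have a1 : w * p = w := by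
        have a2 : w * f = 0 := by rw [hf, ← mul_assoc, o2, zero_mul]
        have := hwp'
        rwa [mul_sub, a2, sub_zero] at this
      rw [add_mul, hvp, a1]
    · have a1 : q * w = w := by
        have a2 : g * w = 0 := by rw [hg, mul_assoc, o1, mul_zero]
        have := hqw
        rwa [sub_mul, a2, sub_zero] at this
      rw [mul_add, hqv, a1]
  have hext : Ext v (v + w) := by
    change (v + w) * (star v * v) = v
    rw [add_mul, ← mul_assoc, hv.1, ← mul_assoc, o2, zero_mul, add_zero]
  have h1 := hmax ⟨v + w, hmem⟩ hext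
  dsimp only at h1
  rw [s1, map_add, Complex.add_re] at h1
  have h2 : (τ (star w * w)).re = 0 :=
    le_antisymm (by linarith) (trace_proj_nonneg h hwp)
  have h3 := (trace_proj_eq_zero h hwp).1 h2
  exact hw0 ((CStarRing.star_mul_self_eq_zero_iff w).1 h3)

/-- Projections of equal trace are equivalent. -/
theorem exists_equiv (hF : IsFactor M) {p q : M} (hp : IsStarProjection p)
    (hq : IsStarProjection q) (hpq : τ p = τ q) :
    ∃ v : M, star v * v = p ∧ v * star v = q := by
  obtain ⟨v, h1, h2, h3⟩ := exists_compare h hF hp hq (by rw [hpq])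
  refine ⟨v, h1, ?_⟩
  have hgp : IsStarProjection (v * star v) := ⟨by
    rw [IsIdempotentElem]
    calc v * star v * (v * star v) = (v * star v * v) * star v := by simp only [mul_assoc]
      _ = _ := by rw [h3], IsSelfAdjoint.mul_star_self v⟩
  have hgq2 : q * (v * star v) = v * star v := by rw [← mul_assoc, h2]
  have hgq1 : (v * star v) * q = v * star v := by
    have := congrArg star hgq2
    rwa [star_mul, hq.isSelfAdjoint.star_eq, hgp.isSelfAdjoint.star_eq] at this
  have hq' : IsStarProjection (q - v * star v) := ⟨by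
    rw [IsIdempotentElem, sub_mul, mul_sub, mul_sub, hq.isIdempotentElem.eq,
      hgp.isIdempotentElem.eq, hgq1, hgq2]; abel, hq.isSelfAdjoint.sub hgp.isSelfAdjoint⟩
  have h4 : (τ (q - v * star v)).re = 0 := by
    rw [map_sub, h.comm v, h1, hpq, sub_self, Complex.zero_re]
  exact (sub_eq_zero.1 ((trace_proj_eq_zero h hq').1 h4)).symm

end

end Pool.Agent.Lib.MP_41f445_an
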