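import Pool.Agent.Lib.MP_41f445_an.Compare

/-!
# Splitting a representation by a projection of trace one half
-/

set_option linter.unusedSectionVars false

open Topology Filter
open scoped ComplexOrder

namespace Pool.Agent.Lib.MP_41f445_an

section
variable {A M : Type*} [CStarAlgebra A] [CStarAlgebra M]

/-- Weak approximate unitary equivalence: `‖π(a) - u_n ρ(a) u_n^*‖₂ → 0` for all `a`. -/
def ApproxEquiv (τ : M →ₗ[ℂ] ℂ) (π ρ : A →⋆ₐ[ℂ] M) : Prop :=
  ∃ u : ℕ → M, (∀ n, u n ∈ unitary M) ∧
    ∀ a, Tendsto (fun n => n2 τ (π a - u n * ρ a * star (u n))) atTop (𝓝 0)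

variable {τ : M →ₗ[ℂ] ℂ}

variable (h : IsFiniteVN τ)
include h

lemma ApproxEquiv.trace_eq {π₁ π₂ : A →⋆ₐ[ℂ] M} (he : ApproxEquiv τ π₁ π₂) (a : A) :
    τ (π₁ a) = τ (π₂ a) := by
  obtain ⟨u, hu, hlim⟩ := he
  have h1 : ∀ n, τ (u n * π₂ a * star (u n)) = τ (π₂ a) := by
    intro n
    rw [h.comm, ← mul_assoc, (Unitary.mem_iff.1 (hu n)).1, one_mul]
  have h2 : ∀ n, ‖τ (π₁ a) - τ (π₂ a)‖ ≤ n2 τ (π₁ a - u n * π₂ a * star (u n)) := by
    intro n
    have := h.norm_trace_le_n2 (π₁ a - u n * π₂ a * star (u n))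
    rwa [map_sub, h1] at this
  have h3 : ‖τ (π₁ a) - τ (π₂ a)‖ ≤ 0 := ge_of_tendsto' (hlim a) h2
  exact sub_eq_zero.1 (norm_le_zero_iff.1 h3)

/-- The first half of a representation. -/
def halfHom (π : A →⋆ₐ[ℂ] M) {q v : M} (hq : IsStarProjection q) (hqc : ∀ a, Commute q (π a))
    (hv1 : star v * v = q) (hv2 : v * star v = 1 - q) : A →⋆ₐ[ℂ] M where
  toFun a := q * π a + v * π a * star v
  map_one' := by rw [map_one, mul_one, mul_one, hv2]; abel
  map_mul' a b := by
    have hvq : v * star v * v = v := pi_of_proj (by rw [hv1]; exact hq)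
    have hqv : q * v = 0 := by
      have : (1 - q) * v = v := by rw [← hv2, hvq]
      rwa [sub_mul, one_mul, sub_eq_self] at this
    have hvsq : star v * q = 0 := by
      have := congrArg star hqv
      rwa [star_mul, hq.isSelfAdjoint.star_eq, star_zero] at this
    have hvq2 : v * q = v := by rw [← hv1, ← mul_assoc, hvq]
    have hc := fun a => (hqc a).eq
    have e1 : q * π a * (q * π b) = q * (π a * π b) := by
      calc q * π a * (q * π b) = q * (π a * q) * π b := by simp only [mul_assoc]
        _ = q * (q * π a) * π b := by rw [← hc a]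
        _ = (q * q) * π a * π b := by simp only [mul_assoc]
        _ = _ := by rw [hq.isIdempotentElem.eq, mul_assoc]
    have e2 : q * π a * (v * π b * star v) = 0 := by
      rw [hc a, mul_assoc, ← mul_assoc q, ← mul_assoc q, hqv]; simp
    have e3 : v * π a * star v * (q * π b) = 0 := by
      rw [mul_assoc, ← mul_assoc (star v), hvsq]; simp
    have e4 : v * π a * star v * (v * π b * star v) = v * (π a * π b) * star v := by
      calc _ = v * π a * (star v * v) * π b * star v := by simp only [mul_assoc]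
        _ = v * (π a * q) * π b * star v := by rw [hv1]; simp only [mul_assoc]
        _ = (v * q) * π a * π b * star v := by rw [← hc a]; simp only [mul_assoc]
        _ = _ := by rw [hvq2]; simp only [mul_assoc]
    rw [add_mul, mul_add, mul_add, e1, e2, e3, e4, map_mul, add_zero, zero_add]
  map_zero' := by simp
  map_add' a b := by simp only [map_add, mul_add, add_mul]; abel
  commutes' c := by
    rw [AlgHomClass.commutes, Algebra.algebraMap_eq_smul_one, mul_smul_comm, mul_smul_comm,
      mul_one, mul_one, smul_mul_assoc, hv2, ← smul_add]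
    congr 1; abel
  map_star' a := by
    rw [star_add, star_mul, star_mul, star_mul, star_star, ← map_star, hq.isSelfAdjoint.star_eq,
      (hqc (star a)).eq]
    simp only [mul_assoc]

omit h in
lemma halfHom_apply (π : A →⋆ₐ[ℂ] M) {q v : M} (hq : IsStarProjection q)
    (hqc : ∀ a, Commute q (π a)) (hv1 : star v * v = q) (hv2 : v * star v = 1 - q) (a : A) :
    halfHom π hq hqc hv1 hv2 a = q * π a + v * π a * star v := rfl

lemma halfHom_trace (π : A →⋆ₐ[ℂ] M) {q v : M} (hq : IsStarProjection q)
    (hqc : ∀ a, Commute q (π a)) (hv1 : star v * v = q) (hv2 : v * star v = 1 - q) (a : A) :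
    τ (halfHom π hq hqc hv1 hv2 a) = 2 * τ (π a * q) := by
  rw [halfHom_apply, map_add, h.comm (v * π a), ← mul_assoc, hv1, h.comm q]; ring

end

end Pool.Agent.Lib.MP_41f445_an
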