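import Pool.Agent.Lib.MP_41f445_an.RelT

/-!
# The key rigidity lemma

Two almost invariant vectors for the rotation relations with opposite parameters
force the parameter to be trivial.
-/

open Topology Filter UniformSpace
open scoped InnerProductSpace TensorProduct

namespace Pool.Agent.Lib.MP_41f445_an

section compl
variable {E : Type*} [NormedAddCommGroup E] [InnerProductSpace ℂ E]

/-- Extension of a linear isometric equivalence to the completion. -/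
noncomputable def complEquiv (e : E ≃ₗᵢ[ℂ] E) : Completion E ≃ₗᵢ[ℂ] Completion E where
  toFun := Completion.map e
  invFun := Completion.map e.symm
  map_add' := by
    intro x y
    induction x, y using Completion.induction_on₂ with
    | hp => exact isClosed_eq (by fun_prop) (by fun_prop)
    | ih a b =>
      rw [← Completion.coe_add, Completion.map_coe e.isometry.uniformContinuous,
        Completion.map_coe e.isometry.uniformContinuous,
        Completion.map_coe e.isometry.uniformContinuous, map_add, Completion.coe_add]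
  map_smul' := by
    intro c x
    induction x using Completion.induction_on with
    | hp =>
      exact isClosed_eq (Completion.continuous_map.comp (continuous_const_smul c))
        ((continuous_const_smul _).comp Completion.continuous_map)
    | ih a =>
      rw [← Completion.coe_smul, Completion.map_coe e.isometry.uniformContinuous,
        Completion.map_coe e.isometry.uniformContinuous, map_smul, Completion.coe_smul]
      rfl
  left_inv := by
    intro x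
    induction x using Completion.induction_on with
    | hp => exact isClosed_eq (Completion.continuous_map.comp Completion.continuous_map) continuous_id
    | ih a =>
      rw [Completion.map_coe e.isometry.uniformContinuous,
        Completion.map_coe e.symm.isometry.uniformContinuous]
      simp
  right_inv := by
    intro x
    induction x using Completion.induction_on with
    | hp => exact isClosed_eq (Completion.continuous_map.comp Completion.continuous_map) continuous_id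
    | ih a =>
      rw [Completion.map_coe e.symm.isometry.uniformContinuous,
        Completion.map_coe e.isometry.uniformContinuous]
      simp
  norm_map' := by
    intro x
    induction x using Completion.induction_on with
    | hp =>
      exact isClosed_eq (continuous_norm.comp Completion.continuous_map) continuous_norm
    | ih a =>
      change ‖Completion.map e (a : Completion E)‖ = _
      rw [Completion.map_coe e.isometry.uniformContinuous]
      simp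

lemma complEquiv_coe (e : E ≃ₗᵢ[ℂ] E) (x : E) :
    complEquiv e (x : Completion E) = ((e x : E) : Completion E) :=
  Completion.map_coe e.isometry.uniformContinuous x

/-- The extension as a bounded operator. -/
noncomputable def opc (e : E ≃ₗᵢ[ℂ] E) : Completion E →L[ℂ] Completion E :=
  ((complEquiv e : Completion E ≃L[ℂ] Completion E) : Completion E →L[ℂ] Completion E)

lemma opc_coe (e : E ≃ₗᵢ[ℂ] E) (x : E) : opc e (x : Completion E) = ((e x : E) : Completion E) :=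
  complEquiv_coe e x

lemma opc_mem (e : E ≃ₗᵢ[ℂ] E) : opc e ∈ unitary (Completion E →L[ℂ] Completion E) :=
  (Unitary.linearIsometryEquiv.symm (complEquiv e)).2

/-- Equality of bounded operators on a completion. -/
lemma op_ext (S T : Completion E →L[ℂ] Completion E)
    (h : ∀ x : E, S (x : Completion E) = T (x : Completion E)) : S = T := by
  ext x
  induction x using Completion.induction_on with
  | hp => exact isClosed_eq S.continuous T.continuous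
  | ih a => exact h a

end compl

/-- A point of the circle all of whose powers are close to one is one. -/
lemma eq_one_of_pow_close (ω : ℂ) (h : ∀ k : ℕ, ‖ω ^ k - 1‖ ≤ 1 / 2) : ω = 1 := by
  by_contra hne
  have hd : 0 < ‖ω - 1‖ := norm_pos_iff.2 (sub_ne_zero.2 hne)
  have grow : ∀ j : ℕ, (3 / 2 : ℝ) ^ j * ‖ω - 1‖ ≤ ‖ω ^ (2 ^ j) - 1‖ := by
    intro j
    induction j with
    | zero => simp
    | succ j ih =>
      have e : ω ^ (2 ^ (j + 1)) - 1 = (ω ^ (2 ^ j) - 1) * (ω ^ (2 ^ j) + 1) := by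
        rw [pow_succ 2 j, pow_mul]; ring
      have b : 3 / 2 ≤ ‖ω ^ (2 ^ j) + 1‖ := by
        have e2 : ω ^ (2 ^ j) + 1 = 2 - -(ω ^ (2 ^ j) - 1) := by ring
        have := norm_sub_norm_le (2 : ℂ) (-(ω ^ (2 ^ j) - 1))
        rw [← e2, norm_neg] at this
        have h2 := h (2 ^ j)
        have h3 : ‖(2 : ℂ)‖ = 2 := by norm_num
        rw [h3] at this
        linarith
      rw [e, norm_mul, pow_succ]
      nlinarith [norm_nonneg (ω ^ (2 ^ j) - 1), pow_pos (show (0 : ℝ) < 3 / 2 by norm_num) j]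
  obtain ⟨j, hj⟩ := pow_unbounded_of_one_lt (1 / ‖ω - 1‖) (show (1 : ℝ) < 3 / 2 by norm_num)
  have h1 := grow j
  have h2 := h (2 ^ j)
  rw [div_lt_iff₀ hd] at hj
  linarith

section key
variable {K K' : Type*} [NormedAddCommGroup K] [InnerProductSpace ℂ K]
  [NormedAddCommGroup K'] [InnerProductSpace ℂ K']

/-- The tensor product operator. -/
noncomputable def tn (S : K ≃ₗᵢ[ℂ] K) (S' : K' ≃ₗᵢ[ℂ] K') :
    Completion (K ⊗[ℂ] K') →L[ℂ] Completion (K ⊗[ℂ] K') :=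
  opc (TensorProduct.congrIsometry S S')

lemma tn_apply (S : K ≃ₗᵢ[ℂ] K) (S' : K' ≃ₗᵢ[ℂ] K') (x : K) (y : K') :
    tn S S' ((x ⊗ₜ[ℂ] y : K ⊗[ℂ] K') : Completion (K ⊗[ℂ] K')) =
      ((S x ⊗ₜ[ℂ] S' y : K ⊗[ℂ] K') : Completion (K ⊗[ℂ] K')) := by
  rw [tn, opc_coe]; simp

lemma tn_mem (S : K ≃ₗᵢ[ℂ] K) (S' : K' ≃ₗᵢ[ℂ] K') :
    tn S S' ∈ unitary (Completion (K ⊗[ℂ] K') →L[ℂ] Completion (K ⊗[ℂ] K')) := opc_mem _

/-- Equality of operators on the completed tensor product. -/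
lemma tn_ext (S T : Completion (K ⊗[ℂ] K') →L[ℂ] Completion (K ⊗[ℂ] K'))
    (h : ∀ (x : K) (y : K'), S ((x ⊗ₜ[ℂ] y : K ⊗[ℂ] K') : Completion (K ⊗[ℂ] K')) =
      T ((x ⊗ₜ[ℂ] y : K ⊗[ℂ] K') : Completion (K ⊗[ℂ] K'))) : S = T := by
  apply op_ext
  intro z
  induction z using TensorProduct.induction_on with
  | zero => rw [Completion.coe_zero, map_zero, map_zero]
  | tmul x y => exact h x y
  | add a b ha hb => rw [Completion.coe_add, map_add, map_add, ha, hb]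

lemma disp_tensor (S : K ≃ₗᵢ[ℂ] K) (S' : K' ≃ₗᵢ[ℂ] K') (x : K) (y : K') (hx : ‖x‖ = 1)
    (hy : ‖y‖ = 1) (ε : ℝ) (h1 : ‖S x - x‖ ≤ ε) (h2 : ‖S' y - y‖ ≤ ε) :
    ‖tn S S' ((x ⊗ₜ[ℂ] y : K ⊗[ℂ] K') : Completion (K ⊗[ℂ] K')) -
      ((x ⊗ₜ[ℂ] y : K ⊗[ℂ] K') : Completion (K ⊗[ℂ] K'))‖ ≤ 2 * ε := by
  rw [tn_apply, ← Completion.coe_sub, Completion.norm_coe]
  have e : S x ⊗ₜ[ℂ] S' y - x ⊗ₜ[ℂ] y = (S x - x) ⊗ₜ[ℂ] S' y + x ⊗ₜ[ℂ] (S' y - y) := by
    rw [TensorProduct.sub_tmul, TensorProduct.tmul_sub]; abel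
  rw [e]
  refine le_trans (norm_add_le _ _) ?_
  rw [TensorProduct.norm_tmul, TensorProduct.norm_tmul, S'.norm_map, hx, hy]
  linarith

/-- **Key lemma.** -/
theorem key (S₁ S₂ A B : K ≃ₗᵢ[ℂ] K) (S₁' S₂' A' B' : K' ≃ₗᵢ[ℂ] K') (ω : ℂ) (hω : ω ≠ 0)
    (h12 : ∀ x, S₁ (S₂ x) = ω • S₂ (S₁ x)) (h12' : ∀ x, S₁' (S₂' x) = ω⁻¹ • S₂' (S₁' x))
    (hA1 : ∀ x, A (S₁ x) = S₁ (A x)) (hA1' : ∀ x, A' (S₁' x) = S₁' (A' x))
    (hA2 : ∀ x, A (S₂ x) = S₁ (S₂ (A x))) (hA2' : ∀ x, A' (S₂' x) = S₁' (S₂' (A' x)))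
    (hB2 : ∀ x, B (S₂ x) = S₂ (B x)) (hB2' : ∀ x, B' (S₂' x) = S₂' (B' x))
    (hB1 : ∀ x, B (S₁ x) = S₁ (S₂ (B x))) (hB1' : ∀ x, B' (S₁' x) = S₁' (S₂' (B' x)))
    (ξ : K) (ξ' : K') (hξ : ‖ξ‖ = 1) (hξ' : ‖ξ'‖ = 1) (ε : ℝ) (hε : ε ≤ 1 / 1000000)
    (d1 : ‖S₁ ξ - ξ‖ ≤ ε) (d1' : ‖S₁' ξ' - ξ'‖ ≤ ε)
    (d2 : ‖S₂ ξ - ξ‖ ≤ ε) (d2' : ‖S₂' ξ' - ξ'‖ ≤ ε)
    (d3 : ‖A ξ - ξ‖ ≤ ε) (d3' : ‖A' ξ' - ξ'‖ ≤ ε)
    (d4 : ‖B ξ - ξ‖ ≤ ε) (d4' : ‖B' ξ' - ξ'‖ ≤ ε) : ω = 1 := by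
  have hε0 : 0 ≤ ε := le_trans (norm_nonneg _) d1
  set η : Completion (K ⊗[ℂ] K') := ((ξ ⊗ₜ[ℂ] ξ' : K ⊗[ℂ] K') : Completion (K ⊗[ℂ] K')) with hη
  have hηn : ‖η‖ = 1 := by
    rw [hη, Completion.norm_coe, TensorProduct.norm_tmul, hξ, hξ', mul_one]
  have hrel := relT (tn S₁ S₁') (tn S₂ S₂') (tn A A') (tn B B') (tn_mem _ _) (tn_mem _ _)
    (tn_mem _ _) (tn_mem _ _)
    (tn_ext _ _ (fun x y => by
      simp only [mul_apply_eq_comp, tn_apply, h12, h12']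
      rw [TensorProduct.smul_tmul_smul, mul_inv_cancel₀ hω, one_smul]))
    (tn_ext _ _ (fun x y => by simp only [mul_apply_eq_comp, tn_apply, hA1, hA1']))
    (tn_ext _ _ (fun x y => by simp only [mul_apply_eq_comp, tn_apply, hA2, hA2']))
    (tn_ext _ _ (fun x y => by simp only [mul_apply_eq_comp, tn_apply, hB2, hB2']))
    (tn_ext _ _ (fun x y => by simp only [mul_apply_eq_comp, tn_apply, hB1, hB1']))
    η hηn (2 * ε) (disp_tensor _ _ _ _ hξ hξ' ε d1 d1') (disp_tensor _ _ _ _ hξ hξ' ε d2 d2')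
    (disp_tensor _ _ _ _ hξ hξ' ε d3 d3') (disp_tensor _ _ _ _ hξ hξ' ε d4 d4')
  set κ := 2 * Real.sqrt (24 * (2 * ε) + 40 * (2 * ε) ^ 2) with hκ
  have hκ0 : 0 ≤ κ := by positivity
  have hκs : κ ≤ 1 / 50 := by
    have : Real.sqrt (24 * (2 * ε) + 40 * (2 * ε) ^ 2) ≤ 1 / 100 := by
      apply Real.sqrt_le_iff.2
      constructor
      · norm_num
      · nlinarith
    rw [hκ]; linarith
  have powtn : ∀ k : ℕ, ((tn S₁ S₁') ^ k) η =
      (((S₁ ^ k) ξ ⊗ₜ[ℂ] (S₁' ^ k) ξ' : K ⊗[ℂ] K') : Completion (K ⊗[ℂ] K')) := by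
    intro k
    induction k with
    | zero => simp [hη]
    | succ k ih =>
      rw [pow_succ', mul_apply_eq_comp, ih, tn_apply, pow_succ', pow_succ']
      rfl
  apply eq_one_of_pow_close
  intro k
  have hk := hrel k
  rw [powtn k] at hk
  set a := (S₁ ^ k) ξ with ha
  set b := (S₁' ^ k) ξ' with hb
  have han : ‖a‖ = 1 := by rw [ha, (S₁ ^ k).norm_map, hξ]
  have hbn : ‖b‖ = 1 := by rw [hb, (S₁' ^ k).norm_map, hξ']
  set c := ⟪ξ, a⟫_ℂ with hc
  -- real part of the inner product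
  have hre : 1 - κ ^ 2 / 2 ≤ ‖c‖ := by
    rw [hη, ← Completion.coe_sub, Completion.norm_coe] at hk
    have h1 : ‖a ⊗ₜ[ℂ] b - ξ ⊗ₜ[ℂ] ξ'‖ ^ 2 ≤ κ ^ 2 := pow_le_pow_left₀ (norm_nonneg _) hk 2
    rw [norm_sub_sq (𝕜 := ℂ)] at h1
    rw [TensorProduct.norm_tmul, TensorProduct.norm_tmul, han, hbn, hξ, hξ',
      TensorProduct.inner_tmul] at h1
    have h2 : RCLike.re (⟪a, ξ⟫_ℂ * ⟪b, ξ'⟫_ℂ) ≤ ‖c‖ * 1 := by
      calc RCLike.re (⟪a, ξ⟫_ℂ * ⟪b, ξ'⟫_ℂ) ≤ ‖⟪a, ξ⟫_ℂ * ⟪b, ξ'⟫_ℂ‖ := RCLike.re_le_norm _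
        _ = ‖⟪a, ξ⟫_ℂ‖ * ‖⟪b, ξ'⟫_ℂ‖ := norm_mul _ _
        _ ≤ ‖c‖ * 1 := by
          apply mul_le_mul
          · rw [hc, norm_inner_symm]
          · calc _ ≤ ‖b‖ * ‖ξ'‖ := norm_inner_le_norm _ _
              _ = 1 := by rw [hbn, hξ', mul_one]
          · exact norm_nonneg _
          · exact norm_nonneg _
    linarith
  have hcle : ‖c‖ ≤ 1 := by
    calc ‖c‖ ≤ ‖ξ‖ * ‖a‖ := norm_inner_le_norm _ _
      _ = 1 := by rw [hξ, han, mul_one]
  have hres : ‖a - c • ξ‖ ≤ κ := by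
    have e : ‖a - c • ξ‖ ^ 2 = 1 - ‖c‖ ^ 2 := by
      rw [norm_sub_sq (𝕜 := ℂ), han, norm_smul, hξ, inner_smul_right]
      have : ⟪a, ξ⟫_ℂ = (starRingEnd ℂ) c := by rw [hc, inner_conj_symm]
      rw [this, Complex.mul_conj']
      have : RCLike.re ((‖c‖ : ℂ) ^ 2) = ‖c‖ ^ 2 := by
        rw [← Complex.ofReal_pow]; exact Complex.ofReal_re _
      rw [this]; ring
    have : ‖a - c • ξ‖ ^ 2 ≤ κ ^ 2 := by
      rw [e]
      have h5 : 0 ≤ 1 - κ ^ 2 / 2 := by nlinarith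
      nlinarith [norm_nonneg c]
    exact le_of_sq_le_sq this hκ0
  -- the commutation relation for powers
  have hcomm : ∀ (j : ℕ) (x : K), (S₁ ^ j) (S₂ x) = ω ^ j • S₂ ((S₁ ^ j) x) := by
    intro j
    induction j with
    | zero => intro x; simp
    | succ j ih =>
      intro x
      have e1 : (S₁ ^ (j + 1)) (S₂ x) = S₁ ((S₁ ^ j) (S₂ x)) := by rw [pow_succ']; rfl
      have e2 : (S₁ ^ (j + 1)) x = S₁ ((S₁ ^ j) x) := by rw [pow_succ']; rfl
      rw [e1, e2, ih, map_smul, h12, smul_smul, pow_succ]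
  have q1 : ‖S₂ a - c • ξ‖ ≤ ε + κ := by
    have e : S₂ a - c • ξ = S₂ (a - c • ξ) + c • (S₂ ξ - ξ) := by
      rw [map_sub, map_smul, smul_sub]; abel
    rw [e]
    calc _ ≤ ‖S₂ (a - c • ξ)‖ + ‖c • (S₂ ξ - ξ)‖ := norm_add_le _ _
      _ ≤ κ + 1 * ε := by
        rw [S₂.norm_map, norm_smul]
        exact add_le_add hres (mul_le_mul hcle d2 (norm_nonneg _) zero_le_one)
      _ = ε + κ := by ring
  have q2 : ‖(S₁ ^ k) (S₂ ξ) - c • ξ‖ ≤ ε + κ := by
    have e : (S₁ ^ k) (S₂ ξ) - c • ξ = (S₁ ^ k) (S₂ ξ - ξ) + (a - c • ξ) := by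
      rw [map_sub]; abel
    rw [e]
    calc _ ≤ ‖(S₁ ^ k) (S₂ ξ - ξ)‖ + ‖a - c • ξ‖ := norm_add_le _ _
      _ ≤ ε + κ := by rw [(S₁ ^ k).norm_map]; exact add_le_add d2 hres
  have q3 : ‖(ω ^ k - 1) • S₂ a‖ ≤ 2 * (ε + κ) := by
    have e : (ω ^ k - 1) • S₂ a = ((S₁ ^ k) (S₂ ξ) - c • ξ) - (S₂ a - c • ξ) := by
      rw [hcomm, sub_smul, one_smul]; abel
    rw [e]
    calc _ ≤ ‖(S₁ ^ k) (S₂ ξ) - c • ξ‖ + ‖S₂ a - c • ξ‖ := norm_sub_le _ _
      _ ≤ 2 * (ε + κ) := by linarith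
  rw [norm_smul, S₂.norm_map, han, mul_one] at q3
  linarith

end key

end Pool.Agent.Lib.MP_41f445_an
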