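import Pool.Agent.Lib.MP_41f445_an.Std
import Pool.Agent.Lib.MP_41f445_an.Key

/-!
# Only countably many parameters are realised in corners of a separable factor
-/

open Filter Topology
open scoped InnerProductSpace

namespace Pool.Agent.Lib.MP_41f445_an

variable {H : Type} [NormedAddCommGroup H] [InnerProductSpace ℂ H] [CompleteSpace H]

/-- `U` is a unitary of the corner `q M q`. -/
structure CU (M : VonNeumannAlgebra H) (q U : H →L[ℂ] H) : Prop where
  mem : U ∈ M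
  mul_star : U * star U = q
  star_mul : star U * U = q
  left : q * U = U
  right : U * q = U

/-- Unitaries of the corner `q M q` satisfying the rotation relations with parameter `ω`. -/
structure Tup (M : VonNeumannAlgebra H) (ω : ℂ) (q U V a b : H →L[ℂ] H) : Prop where
  qm : q ∈ M
  proj : IsStarProjection q
  cU : CU M q U
  cV : CU M q V
  ca : CU M q a
  cb : CU M q b
  r1 : U * V = ω • (V * U)
  r2 : a * U = U * a
  r3 : a * V = U * V * a
  r4 : b * V = V * b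
  r5 : b * U = U * V * b

/-- Fixed space of an operator. -/
def Kp (P : H →L[ℂ] H) : Submodule ℂ H := LinearMap.eqLocus (P : H →ₗ[ℂ] H) LinearMap.id

omit [CompleteSpace H] in
lemma mem_Kp {P : H →L[ℂ] H} {x : H} : x ∈ Kp P ↔ P x = x := by
  simp [Kp, LinearMap.mem_eqLocus]

/-- Restriction of a partial isometry to a linear isometric equivalence. -/
noncomputable def restrE (P T : H →L[ℂ] H) (h1 : star T * T = P) (h2 : T * star T = P)
    (h3 : P * T = T) (h4 : P * star T = star T) : Kp P ≃ₗᵢ[ℂ] Kp P where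
  toFun ζ := ⟨T ζ, mem_Kp.2 (by rw [← mul_apply_eq_comp, h3])⟩
  invFun ζ := ⟨(star T) ζ, mem_Kp.2 (by rw [← mul_apply_eq_comp, h4])⟩
  map_add' x y := by ext; simp
  map_smul' c x := by ext; simp
  left_inv x := by
    ext
    change (star T) (T x) = x
    rw [← mul_apply_eq_comp, h1]; exact mem_Kp.1 x.2
  right_inv x := by
    ext
    change T ((star T) x) = x
    rw [← mul_apply_eq_comp, h2]; exact mem_Kp.1 x.2
  norm_map' x := by
    change ‖T x‖ = ‖(x : H)‖
    have e : ‖T x‖ ^ 2 = ‖(x : H)‖ ^ 2 := by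
      rw [← inner_self_eq_norm_sq (𝕜 := ℂ), ← inner_self_eq_norm_sq (𝕜 := ℂ)]
      congr 1
      rw [star_apply_inner', ← mul_apply_eq_comp, h1, mem_Kp.1 x.2]
    have a := norm_nonneg (T x)
    have b := norm_nonneg (x : H)
    nlinarith [sq_nonneg (‖T x‖ - ‖(x : H)‖)]

lemma restrE_coe (P T : H →L[ℂ] H) (h1 : star T * T = P) (h2 : T * star T = P)
    (h3 : P * T = T) (h4 : P * star T = star T) (x : Kp P) :
    ((restrE P T h1 h2 h3 h4 x : Kp P) : H) = T x := rfl

lemma CU.norm_le {M : VonNeumannAlgebra H} {q U : H →L[ℂ] H} (hq : IsStarProjection q)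
    (h : CU M q U) : ‖U‖ ≤ 1 := by
  have h1 : ‖star U * U‖ = ‖U‖ * ‖U‖ := CStarRing.norm_star_mul_self
  rw [h.star_mul] at h1
  have h2 : ‖q‖ ≤ 1 := hq.norm_le
  nlinarith [norm_nonneg U]

section pair
variable {M : VonNeumannAlgebra H} {Ω : H} (h : Std M Ω)
include h

/-- The operator `x ↦ U x U'^*` on the standard space. -/
lemma two_sided {q q' U U' : H →L[ℂ] H} (hq : IsStarProjection q) (hq' : IsStarProjection q')
    (mq : q ∈ M) (mq' : q' ∈ M) (hU : CU M q U) (hU' : CU M q' U') :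
    star (U * rm M Ω (star U')) * (U * rm M Ω (star U')) = q * rm M Ω q' ∧
    (U * rm M Ω (star U')) * star (U * rm M Ω (star U')) = q * rm M Ω q' ∧
    (q * rm M Ω q') * (U * rm M Ω (star U')) = U * rm M Ω (star U') ∧
    (q * rm M Ω q') * star (U * rm M Ω (star U')) = star (U * rm M Ω (star U')) := by
  have m1 := hU.mem
  have m2 := hU'.mem
  have s1 : star (rm M Ω (star U')) = rm M Ω U' := by
    rw [← h.rm_star (star_mem m2), star_star]
  have c1 : ∀ {x y : H →L[ℂ] H}, x ∈ M → y ∈ M → x * rm M Ω y = rm M Ω y * x :=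
    fun hx hy => h.rm_comm hy hx
  rw [star_mul, s1]
  have eq1 : q' * star U' = star U' := by
    have := congrArg star hU'.right
    rw [star_mul, hq'.isSelfAdjoint.star_eq] at this
    exact this
  have eq2 : star U' * q' = star U' := by
    have := congrArg star hU'.left
    rw [star_mul, hq'.isSelfAdjoint.star_eq] at this
    exact this
  have eq3 : q * star U = star U := by
    have := congrArg star hU.right
    rw [star_mul, hq.isSelfAdjoint.star_eq] at this
    exact this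
  refine ⟨?_, ?_, ?_, ?_⟩
  · calc rm M Ω U' * star U * (U * rm M Ω (star U'))
        = rm M Ω U' * (star U * U) * rm M Ω (star U') := by simp only [mul_assoc]
      _ = (q * rm M Ω U') * rm M Ω (star U') := by rw [hU.star_mul, c1 mq m2]
      _ = q * (rm M Ω U' * rm M Ω (star U')) := by rw [mul_assoc]
      _ = q * rm M Ω q' := by rw [h.rm_mul m2 (star_mem m2), hU'.star_mul]
  · calc U * rm M Ω (star U') * (rm M Ω U' * star U)
        = U * (rm M Ω (star U') * rm M Ω U') * star U := by simp only [mul_assoc]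
      _ = U * rm M Ω q' * star U := by rw [h.rm_mul (star_mem m2) m2, hU'.mul_star]
      _ = U * (rm M Ω q' * star U) := by rw [mul_assoc]
      _ = U * (star U * rm M Ω q') := by rw [c1 (star_mem m1) mq']
      _ = q * rm M Ω q' := by rw [← mul_assoc, hU.mul_star]
  · calc q * rm M Ω q' * (U * rm M Ω (star U'))
        = q * (rm M Ω q' * U) * rm M Ω (star U') := by simp only [mul_assoc]
      _ = q * (U * rm M Ω q') * rm M Ω (star U') := by rw [c1 m1 mq']
      _ = (q * U) * (rm M Ω q' * rm M Ω (star U')) := by simp only [mul_assoc]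
      _ = U * rm M Ω (star U') := by rw [hU.left, h.rm_mul mq' (star_mem m2), eq2]
  · calc q * rm M Ω q' * (rm M Ω U' * star U)
        = q * ((rm M Ω q' * rm M Ω U') * star U) := by simp only [mul_assoc]
      _ = q * (rm M Ω U' * star U) := by rw [h.rm_mul mq' m2, hU'.right]
      _ = (q * rm M Ω U') * star U := by rw [mul_assoc]
      _ = rm M Ω U' * (q * star U) := by rw [c1 mq m2, mul_assoc]
      _ = rm M Ω U' * star U := by rw [eq3]

/-- Two tuples of corner unitaries that are close in 2-norm. -/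
theorem close_tuples {ω ω' : ℂ} (hω' : ω' ≠ 0) (hω1 : ‖ω'‖ = 1) (hω0 : ‖ω‖ = 1)
    {q U V a b q' U' V' a' b' : H →L[ℂ] H}
    (t : Tup M ω q U V a b) (t' : Tup M ω' q' U' V' a' b') (d : ℝ) (hd : 0 < d)
    (hdq : d ≤ ‖q Ω‖) (hdq' : d ≤ ‖q' Ω‖)
    (nq : ‖(q - q') Ω‖ ≤ d / 10000000) (nU : ‖(U - U') Ω‖ ≤ d / 10000000)
    (nV : ‖(V - V') Ω‖ ≤ d / 10000000) (na : ‖(a - a') Ω‖ ≤ d / 10000000)
    (nb : ‖(b - b') Ω‖ ≤ d / 10000000) : ω = ω' := by
  -- displacement estimate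
  have disp : ∀ {q q' U U' : H →L[ℂ] H}, IsStarProjection q → IsStarProjection q' → q ∈ M →
      q' ∈ M → CU M q U → CU M q' U' → ‖(q - q') Ω‖ ≤ d / 10000000 →
      ‖(U - U') Ω‖ ≤ d / 10000000 → d ≤ ‖q Ω‖ →
      ‖(U * rm M Ω (star U')) (q (q' Ω)) - q (q' Ω)‖ ≤ 2 * (d / 10000000) ∧
      d - d / 10000000 ≤ ‖q (q' Ω)‖ := by
    intro q q' U U' hq hq' mq mq' cU cU' nq nU dq
    have e1 : (U * rm M Ω (star U')) (q (q' Ω)) = U ((star U') Ω) := by
      have : q (q' Ω) = (q * q') Ω := rfl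
      rw [mul_apply_eq_comp, this, h.rm_apply (star_mem cU'.mem) (mul_mem mq mq')]
      have eq1 : q' * star U' = star U' := by
        have := congrArg star cU'.right
        rw [star_mul, hq'.isSelfAdjoint.star_eq] at this
        exact this
      change (U * (q * q')) ((star U') Ω) = _
      rw [← mul_assoc, cU.right]
      change U ((q' * star U') Ω) = _
      rw [eq1]
    have e2 : U ((star U) Ω) = q Ω := by
      rw [← mul_apply_eq_comp, cU.mul_star]
    have b1 : ‖U ((star U') Ω) - q Ω‖ ≤ d / 10000000 := by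
      rw [← e2, ← map_sub]
      calc ‖U ((star U') Ω - (star U) Ω)‖ ≤ 1 * ‖(star U') Ω - (star U) Ω‖ :=
            U.le_of_opNorm_le (cU.norm_le hq) _
        _ = ‖(star (U - U')) Ω‖ := by
            rw [one_mul, norm_sub_rev, star_sub]; rfl
        _ = ‖(U - U') Ω‖ := h.norm_star_eq (sub_mem cU.mem cU'.mem)
        _ ≤ _ := nU
    have b2 : ‖q (q' Ω) - q Ω‖ ≤ d / 10000000 := by
      have e3 : q Ω = q (q Ω) := by
        rw [← mul_apply_eq_comp, hq.isIdempotentElem.eq]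
      rw [e3, ← map_sub]
      calc ‖q (q' Ω - q Ω)‖ ≤ 1 * ‖q' Ω - q Ω‖ := q.le_of_opNorm_le hq.norm_le _
        _ = ‖(q - q') Ω‖ := by rw [one_mul, norm_sub_rev]; rfl
        _ ≤ _ := nq
    constructor
    · rw [e1]
      have : U ((star U') Ω) - q (q' Ω) = (U ((star U') Ω) - q Ω) - (q (q' Ω) - q Ω) := by abel
      rw [this]
      refine le_trans (norm_sub_le _ _) ?_
      linarith
    · have := norm_sub_norm_le (q Ω) (q (q' Ω))
      rw [norm_sub_rev] at this
      linarith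
  -- the two spaces
  have hq := t.proj
  have hq' := t'.proj
  have mq := t.qm
  have mq' := t'.qm
  have sym : ∀ {x y : H →L[ℂ] H} {c : ℝ}, ‖(x - y) Ω‖ ≤ c → ‖(y - x) Ω‖ ≤ c := by
    intro x y c hxy
    have : (y - x) Ω = -((x - y) Ω) := by simp
    rw [this, norm_neg]; exact hxy
  let mkE := fun {q q' U U' : H →L[ℂ] H} (hq : IsStarProjection q) (hq' : IsStarProjection q')
      (mq : q ∈ M) (mq' : q' ∈ M) (cU : CU M q U) (cU' : CU M q' U') =>
      restrE (q * rm M Ω q') (U * rm M Ω (star U'))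
        (two_sided h hq hq' mq mq' cU cU').1 (two_sided h hq hq' mq mq' cU cU').2.1
        (two_sided h hq hq' mq mq' cU cU').2.2.1 (two_sided h hq hq' mq mq' cU cU').2.2.2
  have mkE_coe : ∀ {q q' U U' : H →L[ℂ] H} (hq : IsStarProjection q) (hq' : IsStarProjection q')
      (mq : q ∈ M) (mq' : q' ∈ M) (cU : CU M q U) (cU' : CU M q' U')
      (x : Kp (q * rm M Ω q')), ((mkE hq hq' mq mq' cU cU' x : Kp (q * rm M Ω q')) : H) =
        (U * rm M Ω (star U')) x := fun _ _ _ _ _ _ _ => rfl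
  -- vectors
  have vec : ∀ {q q' : H →L[ℂ] H}, IsStarProjection q → IsStarProjection q' → q ∈ M → q' ∈ M →
      q (q' Ω) ∈ Kp (q * rm M Ω q') := by
    intro q q' hq hq' mq mq'
    rw [mem_Kp, mul_apply_eq_comp]
    have : q (q' Ω) = (q * q') Ω := rfl
    rw [this, h.rm_apply mq' (mul_mem mq mq')]
    change ((q * (q * q' * q')) Ω) = _
    have : q * (q * q' * q') = q * q' := by
      rw [mul_assoc q q' q', hq'.isIdempotentElem.eq, ← mul_assoc, hq.isIdempotentElem.eq]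
    rw [this]
  have compmul : ∀ {x y x' y' : H →L[ℂ] H}, x ∈ M → y ∈ M → x' ∈ M → y' ∈ M →
      (x * rm M Ω (star x')) * (y * rm M Ω (star y')) = (x * y) * rm M Ω (star (x' * y')) := by
    intro x y x' y' hx hy hx' hy'
    calc (x * rm M Ω (star x')) * (y * rm M Ω (star y'))
        = x * (rm M Ω (star x') * y) * rm M Ω (star y') := by simp only [mul_assoc]
      _ = x * (y * rm M Ω (star x')) * rm M Ω (star y') := by
          rw [h.rm_comm (star_mem hx') hy]
      _ = (x * y) * (rm M Ω (star x') * rm M Ω (star y')) := by simp only [mul_assoc]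
      _ = (x * y) * rm M Ω (star (x' * y')) := by
          rw [h.rm_mul (star_mem hx') (star_mem hy'), star_mul]
  -- generic relation transfer
  have rel12 : ∀ {ω ω' : ℂ} {q U V a b q' U' V' a' b' : H →L[ℂ] H}, ‖ω'‖ = 1 →
      Tup M ω q U V a b → Tup M ω' q' U' V' a' b' →
      (U * rm M Ω (star U')) * (V * rm M Ω (star V')) =
        (ω * ω'⁻¹) • ((V * rm M Ω (star V')) * (U * rm M Ω (star U'))) := by
    intro ω ω' q U V a b q' U' V' a' b' hn t t'
    rw [compmul t.cU.mem t.cV.mem t'.cU.mem t'.cV.mem,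
      compmul t.cV.mem t.cU.mem t'.cV.mem t'.cU.mem, t.r1, t'.r1, star_smul,
      h.rm_smul (star_mem (mul_mem t'.cV.mem t'.cU.mem)), smul_mul_assoc, mul_smul_comm, smul_smul]
    congr 2
    have : star ω' = ω'⁻¹ := by
      have h2 : Complex.normSq ω' = 1 := by rw [Complex.normSq_eq_norm_sq, hn]; norm_num
      rw [Complex.inv_def, h2]; simp
    rw [this]
  have rel2 : ∀ {x y x' y' : H →L[ℂ] H}, x ∈ M → y ∈ M → x' ∈ M → y' ∈ M → x * y = y * x →
      x' * y' = y' * x' →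
      (x * rm M Ω (star x')) * (y * rm M Ω (star y')) =
        (y * rm M Ω (star y')) * (x * rm M Ω (star x')) := by
    intro x y x' y' hx hy hx' hy' e e'
    rw [compmul hx hy hx' hy', compmul hy hx hy' hx', e, e']
  have rel3 : ∀ {x y u v x' y' u' v' : H →L[ℂ] H}, x ∈ M → y ∈ M → u ∈ M → v ∈ M → x' ∈ M →
      y' ∈ M → u' ∈ M → v' ∈ M → x * y = u * v * x → x' * y' = u' * v' * x' →
      (x * rm M Ω (star x')) * (y * rm M Ω (star y')) =
        (u * rm M Ω (star u')) * ((v * rm M Ω (star v')) * (x * rm M Ω (star x'))) := by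
    intro x y u v x' y' u' v' hx hy hu hv hx' hy' hu' hv' e e'
    rw [compmul hx hy hx' hy', compmul hv hx hv' hx', compmul hu (mul_mem hv hx) hu'
      (mul_mem hv' hx'), e, e']
    simp only [mul_assoc]
  -- normalised vectors
  set ξ₀ := q (q' Ω) with hξ₀
  set ξ₀' := q' (q Ω) with hξ₀'
  have nq' := sym nq
  obtain ⟨D1, L1⟩ := disp hq hq' mq mq' t.cU t'.cU nq nU hdq
  obtain ⟨D2, -⟩ := disp hq hq' mq mq' t.cV t'.cV nq nV hdq
  obtain ⟨D3, -⟩ := disp hq hq' mq mq' t.ca t'.ca nq na hdq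
  obtain ⟨D4, -⟩ := disp hq hq' mq mq' t.cb t'.cb nq nb hdq
  obtain ⟨D1', L1'⟩ := disp hq' hq mq' mq t'.cU t.cU nq' (sym nU) hdq'
  obtain ⟨D2', -⟩ := disp hq' hq mq' mq t'.cV t.cV nq' (sym nV) hdq'
  obtain ⟨D3', -⟩ := disp hq' hq mq' mq t'.ca t.ca nq' (sym na) hdq'
  obtain ⟨D4', -⟩ := disp hq' hq mq' mq t'.cb t.cb nq' (sym nb) hdq'
  have Lpos : 0 < ‖ξ₀‖ := by linarith
  have Lpos' : 0 < ‖ξ₀'‖ := by linarith
  let ξ : Kp (q * rm M Ω q') := ((‖ξ₀‖⁻¹ : ℝ) : ℂ) • ⟨ξ₀, vec hq hq' mq mq'⟩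
  let ξ' : Kp (q' * rm M Ω q) := ((‖ξ₀'‖⁻¹ : ℝ) : ℂ) • ⟨ξ₀', vec hq' hq mq' mq⟩
  have hξ : ‖ξ‖ = 1 := by
    change ‖((‖ξ₀‖⁻¹ : ℝ) : ℂ) • ξ₀‖ = 1
    rw [norm_smul, Complex.norm_real, Real.norm_eq_abs, abs_of_pos (inv_pos.2 Lpos),
      inv_mul_cancel₀ Lpos.ne']
  have hξ' : ‖ξ'‖ = 1 := by
    change ‖((‖ξ₀'‖⁻¹ : ℝ) : ℂ) • ξ₀'‖ = 1
    rw [norm_smul, Complex.norm_real, Real.norm_eq_abs, abs_of_pos (inv_pos.2 Lpos'),
      inv_mul_cancel₀ Lpos'.ne']
  have dd : ∀ (T : H →L[ℂ] H) (ζ : H), 0 < ‖ζ‖ → d - d / 10000000 ≤ ‖ζ‖ →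
      ‖T ζ - ζ‖ ≤ 2 * (d / 10000000) →
      ‖T (((‖ζ‖⁻¹ : ℝ) : ℂ) • ζ) - ((‖ζ‖⁻¹ : ℝ) : ℂ) • ζ‖ ≤ 1 / 1000000 := by
    intro T ζ hz hl hdp
    rw [map_smul, ← smul_sub, norm_smul, Complex.norm_real, Real.norm_eq_abs,
      abs_of_pos (inv_pos.2 hz), inv_mul_le_iff₀ hz]
    refine le_trans hdp ?_
    linarith
  have hk := key (mkE hq hq' mq mq' t.cU t'.cU) (mkE hq hq' mq mq' t.cV t'.cV)
    (mkE hq hq' mq mq' t.ca t'.ca) (mkE hq hq' mq mq' t.cb t'.cb)
    (mkE hq' hq mq' mq t'.cU t.cU) (mkE hq' hq mq' mq t'.cV t.cV)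
    (mkE hq' hq mq' mq t'.ca t.ca) (mkE hq' hq mq' mq t'.cb t.cb)
    (ω * ω'⁻¹) (by
      have : ω ≠ 0 := by
        intro h0; rw [h0, norm_zero] at hω0; norm_num at hω0
      exact mul_ne_zero this (inv_ne_zero hω'))
    (fun x => Subtype.ext (DFunLike.congr_fun (rel12 hω1 t t') (x : H)))
    (fun x => Subtype.ext (by
      have := DFunLike.congr_fun (rel12 hω0 t' t) (x : H)
      have e : (ω * ω'⁻¹)⁻¹ = ω' * ω⁻¹ := by rw [mul_inv, inv_inv, mul_comm]
      rw [e]; exact this))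
    (fun x => Subtype.ext (DFunLike.congr_fun
      (rel2 t.ca.mem t.cU.mem t'.ca.mem t'.cU.mem t.r2 t'.r2) (x : H)))
    (fun x => Subtype.ext (DFunLike.congr_fun
      (rel2 t'.ca.mem t'.cU.mem t.ca.mem t.cU.mem t'.r2 t.r2) (x : H)))
    (fun x => Subtype.ext (DFunLike.congr_fun
      (rel3 t.ca.mem t.cV.mem t.cU.mem t.cV.mem t'.ca.mem t'.cV.mem t'.cU.mem t'.cV.mem
        t.r3 t'.r3) (x : H)))
    (fun x => Subtype.ext (DFunLike.congr_fun
      (rel3 t'.ca.mem t'.cV.mem t'.cU.mem t'.cV.mem t.ca.mem t.cV.mem t.cU.mem t.cV.mem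
        t'.r3 t.r3) (x : H)))
    (fun x => Subtype.ext (DFunLike.congr_fun
      (rel2 t.cb.mem t.cV.mem t'.cb.mem t'.cV.mem t.r4 t'.r4) (x : H)))
    (fun x => Subtype.ext (DFunLike.congr_fun
      (rel2 t'.cb.mem t'.cV.mem t.cb.mem t.cV.mem t'.r4 t.r4) (x : H)))
    (fun x => Subtype.ext (DFunLike.congr_fun
      (rel3 t.cb.mem t.cU.mem t.cU.mem t.cV.mem t'.cb.mem t'.cU.mem t'.cU.mem t'.cV.mem
        t.r5 t'.r5) (x : H)))
    (fun x => Subtype.ext (DFunLike.congr_fun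
      (rel3 t'.cb.mem t'.cU.mem t'.cU.mem t'.cV.mem t.cb.mem t.cU.mem t.cU.mem t.cV.mem
        t'.r5 t.r5) (x : H)))
    ξ ξ' hξ hξ' (1 / 1000000) le_rfl
    (dd _ _ Lpos L1 D1) (dd _ _ Lpos' L1' D1') (dd _ _ Lpos L1 D2) (dd _ _ Lpos' L1' D2')
    (dd _ _ Lpos L1 D3) (dd _ _ Lpos' L1' D3') (dd _ _ Lpos L1 D4) (dd _ _ Lpos' L1' D4')
  field_simp at hk
  exact hk

end pair

/-- The set of parameters realised in corners of `M`. -/
def Dset (M : VonNeumannAlgebra H) : Set ℂ :=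
  {ω | ‖ω‖ = 1 ∧ ∃ q U V a b : H →L[ℂ] H, q ≠ 0 ∧ Tup M ω q U V a b}

/-- **Countability.** -/
theorem Dset_countable {M : VonNeumannAlgebra H} {Ω : H} (h : Std M Ω)
    [TopologicalSpace.SeparableSpace H] : (Dset M).Countable := by
  classical
  let Dn : ℕ → Set ℂ := fun n => {ω | ‖ω‖ = 1 ∧ ∃ q U V a b : H →L[ℂ] H,
    (1 : ℝ) / (n + 1) ≤ ‖q Ω‖ ∧ Tup M ω q U V a b}
  have hsub : Dset M ⊆ ⋃ n, Dn n := by
    rintro ω ⟨h1, q, U, V, a, b, hq, t⟩
    have hpos : 0 < ‖q Ω‖ := by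
      rw [norm_pos_iff]
      intro h0
      exact hq (h.eq_zero t.qm h0)
    obtain ⟨n, hn⟩ := exists_nat_one_div_lt hpos
    exact Set.mem_iUnion.2 ⟨n, h1, q, U, V, a, b, hn.le, t⟩
  refine Set.Countable.mono hsub (Set.countable_iUnion fun n => ?_)
  have hch : ∀ ω : Dn n, ∃ q U V a b : H →L[ℂ] H,
    (1 : ℝ) / (n + 1) ≤ ‖q Ω‖ ∧ Tup M ω q U V a b := fun ω => ω.2.2
  choose q U V a b hd ht using hch
  let f : Dn n → H × H × H × H × H := fun ω => (q ω Ω, U ω Ω, V ω Ω, a ω Ω, b ω Ω)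
  set d : ℝ := 1 / (n + 1) with hdd
  have hdpos : 0 < d := by positivity
  have sep : ∀ x y : Dn n, dist (f x) (f y) ≤ d / 10000000 → x = y := by
    intro x y hxy
    simp only [f, Prod.dist_eq, max_le_iff] at hxy
    simp only [dist_eq_norm] at hxy
    obtain ⟨d1, d2, d3, d4, d5⟩ := hxy
    have hy0 : (y : ℂ) ≠ 0 := by
      intro h0
      have := y.2.1
      rw [h0, norm_zero] at this; norm_num at this
    exact Subtype.ext (close_tuples h hy0 y.2.1 x.2.1 (ht x) (ht y) d hdpos (hd x) (hd y)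
      d1 d2 d3 d4 d5)
  -- countability from a dense sequence
  let u := TopologicalSpace.denseSeq (H × H × H × H × H)
  have hu : DenseRange u := TopologicalSpace.denseRange_denseSeq _
  have hch2 : ∀ x : Dn n, ∃ k : ℕ, dist (f x) (u k) < d / 20000000 := fun x =>
    hu.exists_dist_lt (f x) (by positivity)
  choose k hk using hch2
  have hinj : Function.Injective k := by
    intro x y hxy
    apply sep
    have h1 := hk x
    have h2 := hk y
    rw [← hxy] at h2
    calc dist (f x) (f y) ≤ dist (f x) (u (k x)) + dist (u (k x)) (f y) := dist_triangle _ _ _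
      _ ≤ d / 20000000 + d / 20000000 := by
        rw [dist_comm (u (k x))]; linarith
      _ = d / 10000000 := by ring
  exact Set.countable_coe_iff.1 hinj.countable

end Pool.Agent.Lib.MP_41f445_an
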