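import Mathlib

/-!
# Definitions for the statement on extreme points of `Hom_w(A, M)`

All Hilbert spaces are complex.  Inner products are conjugate linear in the first variable.
-/

open Filter Topology
open scoped InnerProductSpace ENNReal

namespace Pool.Agent.Lib.MP_41f445_an

section general
variable {H : Type} [NormedAddCommGroup H] [InnerProductSpace ℂ H] [CompleteSpace H]

/-- A separable `II_1` factor in standard form: `M` is a von Neumann algebra on the separable
Hilbert space `H`, it is infinite dimensional, its centre is trivial, and `Ω` is a unit vector,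
cyclic for `M`, for which `x ↦ ⟪Ω, x Ω⟫` is a trace (it is then the unique faithful normal
tracial state of `M`, and `‖x Ω‖` is the 2-norm of `x`). -/
structure IsII1Factor (M : VonNeumannAlgebra H) (Ω : H) : Prop where
  separable : TopologicalSpace.SeparableSpace H
  infinite : ¬ FiniteDimensional ℂ M.toStarSubalgebra
  factor : ∀ z ∈ M, z ∈ M.commutant → ∃ c : ℂ, z = c • (1 : H →L[ℂ] H)
  norm_one : ‖Ω‖ = 1
  cyclic : Dense {ξ : H | ∃ x ∈ M, x Ω = ξ}
  trace : ∀ x ∈ M, ∀ y ∈ M, ⟪Ω, x (y Ω)⟫_ℂ = ⟪Ω, y (x Ω)⟫_ℂ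

/-- The von Neumann algebra generated by a set `S` of operators, i.e. the double commutant
of `S ∪ S^*`. -/
noncomputable def gen (S : Set (H →L[ℂ] H)) : VonNeumannAlgebra H where
  toStarSubalgebra := StarSubalgebra.centralizer ℂ
    (StarSubalgebra.centralizer ℂ S : Set (H →L[ℂ] H))
  centralizer_centralizer' := by
    have h : ∀ T : StarSubalgebra ℂ (H →L[ℂ] H),
        ((StarSubalgebra.centralizer ℂ (T : Set (H →L[ℂ] H)) : StarSubalgebra ℂ (H →L[ℂ] H)) :
          Set (H →L[ℂ] H)) = Set.centralizer (T : Set (H →L[ℂ] H)) := by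
      intro T
      rw [StarSubalgebra.coe_centralizer]
      congr 1
      ext x
      simp only [Set.mem_union, SetLike.mem_coe, Set.mem_star]
      constructor
      · rintro (h | h)
        · exact h
        · simpa using star_mem h
      · exact Or.inl
    have := h (StarSubalgebra.centralizer ℂ S)
    change Set.centralizer (Set.centralizer
      ((StarSubalgebra.centralizer ℂ (StarSubalgebra.centralizer ℂ S : Set (H →L[ℂ] H)) :
        StarSubalgebra ℂ (H →L[ℂ] H)) : Set (H →L[ℂ] H))) =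
      ((StarSubalgebra.centralizer ℂ (StarSubalgebra.centralizer ℂ S : Set (H →L[ℂ] H)) :
        StarSubalgebra ℂ (H →L[ℂ] H)) : Set (H →L[ℂ] H))
    rw [this, Set.centralizer_centralizer_centralizer]

/-- Weak approximate unitary equivalence, inside `M`, of two maps `f, g` from `α` to operators:
there are unitaries `u n` of `M` with `‖f a - u n * g a * (u n)^*‖_2 → 0` for all `a`, the
2-norm being that of the trace vector `Ω`. -/
def WAE (M : VonNeumannAlgebra H) (Ω : H) {α : Type} (f g : α → H →L[ℂ] H) : Prop :=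
  ∃ u : ℕ → H →L[ℂ] H, (∀ n, u n ∈ M ∧ u n ∈ unitary (H →L[ℂ] H)) ∧
    ∀ a, Tendsto (fun n => ‖(f a - u n * g a * star (u n)) Ω‖) atTop (𝓝 0)

end general

/-- The index set of the orthonormal basis `X^a Z^b` of `L^2` of the infinite tensor product
`⊗ M_2(ℂ)`: pairs `(a, b)` of finitely supported functions `ℕ → ℤ/2`. -/
abbrev PIdx : Type := (ℕ →₀ ZMod 2) × (ℕ →₀ ZMod 2)

/-- The Hilbert space `H ⊗ L^2(R) = ℓ^2(PIdx; H)`. -/
abbrev Amp (H : Type) [NormedAddCommGroup H] : Type := lp (fun _ : PIdx => H) 2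

section ops
variable {ι : Type} {H : Type} [NormedAddCommGroup H] [InnerProductSpace ℂ H]

/-- The operator `(T f)(i) = x_i (f (τ i))` on `ℓ^2(ι; H)`, for a permutation `τ` of `ι` and a
uniformly bounded family `x` of operators. -/
noncomputable def wop (τ : ι → ι) (hτ : Function.Injective τ) (x : ι → H →L[ℂ] H) (C : ℝ)
    (hx : ∀ i, ‖x i‖ ≤ C) : lp (fun _ : ι => H) 2 →L[ℂ] lp (fun _ : ι => H) 2 :=
  LinearMap.mkContinuous
    { toFun := fun f => ⟨fun i => x i (f (τ i)), by
        have h1 : Summable fun i => ‖f (τ i)‖ ^ (2 : ℝ) := by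
          have := (lp.memℓp f).summable (by norm_num)
          simp only [ENNReal.toReal_ofNat] at this
          exact this.comp_injective hτ
        apply memℓp_gen
        simp only [ENNReal.toReal_ofNat]
        refine Summable.of_nonneg_of_le (fun i => by positivity) (fun i => ?_)
          (h1.mul_left (C ^ (2 : ℝ)))
        have hC : 0 ≤ C := le_trans (norm_nonneg _) (hx i)
        rw [← Real.mul_rpow hC (norm_nonneg _)]
        apply Real.rpow_le_rpow (norm_nonneg _) _ (by norm_num)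
        exact (x i).le_of_opNorm_le (hx i) _⟩
      map_add' := fun f g => by
        ext i; simp
      map_smul' := fun c f => by
        ext i; simp }
    |C| (by
      intro f
      apply lp.norm_le_of_forall_sum_le (by norm_num) (by positivity)
      intro s
      simp only [ENNReal.toReal_ofNat]
      have h2 := lp.sum_rpow_le_norm_rpow (p := 2) (by norm_num) f (s.map ⟨τ, hτ⟩)
      simp only [ENNReal.toReal_ofNat, Finset.sum_map, Function.Embedding.coeFn_mk] at h2
      calc ∑ i ∈ s, ‖x i (f (τ i))‖ ^ (2 : ℝ) ≤ ∑ i ∈ s, |C| ^ (2 : ℝ) * ‖f (τ i)‖ ^ (2 : ℝ) := by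
            apply Finset.sum_le_sum
            intro i _
            rw [← Real.mul_rpow (abs_nonneg _) (norm_nonneg _)]
            apply Real.rpow_le_rpow (norm_nonneg _) _ (by norm_num)
            exact (x i).le_of_opNorm_le (le_trans (hx i) (le_abs_self C)) _
        _ = |C| ^ (2 : ℝ) * ∑ i ∈ s, ‖f (τ i)‖ ^ (2 : ℝ) := by rw [Finset.mul_sum]
        _ ≤ |C| ^ (2 : ℝ) * ‖f‖ ^ (2 : ℝ) := by
            apply mul_le_mul_of_nonneg_left h2 (by positivity)
        _ = (|C| * ‖f‖) ^ (2 : ℝ) := by rw [Real.mul_rpow (abs_nonneg _) (norm_nonneg _)])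

@[simp] lemma wop_apply (τ : ι → ι) (hτ : Function.Injective τ) (x : ι → H →L[ℂ] H) (C : ℝ)
    (hx : ∀ i, ‖x i‖ ≤ C) (f : lp (fun _ : ι => H) 2) (i : ι) :
    (wop τ hτ x C hx f) i = x i (f (τ i)) := rfl

end ops

section amp
variable {H : Type} [NormedAddCommGroup H] [InnerProductSpace ℂ H]

/-- `x ⊗ 1` on `H ⊗ L^2(R)`. -/
noncomputable def tensorOne (x : H →L[ℂ] H) : Amp H →L[ℂ] Amp H :=
  wop id Function.injective_id (fun _ => x) ‖x‖ (fun _ => le_rfl)

/-- Addition of the `n`-th unit vector to the first component. -/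
noncomputable def addX (n : ℕ) (i : PIdx) : PIdx := (i.1 + Finsupp.single n 1, i.2)

/-- Addition of the `n`-th unit vector to the second component. -/
noncomputable def addZ (n : ℕ) (i : PIdx) : PIdx := (i.1, i.2 + Finsupp.single n 1)

lemma addX_injective (n : ℕ) : Function.Injective (addX n) := by
  rintro ⟨a, b⟩ ⟨c, d⟩ h
  simpa [addX] using h

lemma addZ_injective (n : ℕ) : Function.Injective (addZ n) := by
  rintro ⟨a, b⟩ ⟨c, d⟩ h
  simpa [addZ] using h

/-- The sign `(-1)^a` for `a : ℤ/2`. -/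
noncomputable def sgn (a : ZMod 2) : ℂ := if a = 0 then 1 else -1

lemma norm_sgn (a : ZMod 2) : ‖sgn a‖ = 1 := by
  unfold sgn; split_ifs <;> simp

/-- `1 ⊗ X_n`, where `X_n` is the Pauli matrix `X` of the `n`-th tensor factor of `R = ⊗ M_2(ℂ)`,
acting by left multiplication on the basis `X^a Z^b`: it maps `(a, b)` to `(a + e_n, b)`. -/
noncomputable def pauliX (n : ℕ) : Amp H →L[ℂ] Amp H :=
  wop (addX n) (addX_injective n) (fun _ => 1) 1 (fun _ => ContinuousLinearMap.norm_id_le)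

/-- `1 ⊗ Z_n`, where `Z_n` is the Pauli matrix `Z` of the `n`-th tensor factor of
`R = ⊗ M_2(ℂ)`, acting by left multiplication on the basis `X^a Z^b`: it maps `(a, b)` to
`(-1)^{a_n} (a, b + e_n)`. -/
noncomputable def pauliZ (n : ℕ) : Amp H →L[ℂ] Amp H :=
  wop (addZ n) (addZ_injective n) (fun i => sgn (i.1 n) • 1) 1 (fun i => by
    rw [norm_smul, norm_sgn, one_mul]; exact ContinuousLinearMap.norm_id_le)

/-- The vector `Ω ⊗ 1` of `H ⊗ L^2(R)`. -/
noncomputable def ampVec (Ω : H) : Amp H := lp.single 2 (0 : PIdx) Ω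

variable [CompleteSpace H]

/-- `M ⊗ R`: the von Neumann algebra on `H ⊗ L^2(R)` generated by `x ⊗ 1`, `x ∈ M`, and
`1 ⊗ R`, where `R` is the hyperfinite `II_1` factor, generated by the `X_n` and `Z_n`. -/
noncomputable def ampR (M : VonNeumannAlgebra H) : VonNeumannAlgebra (Amp H) :=
  gen ({T | ∃ x ∈ M, T = tensorOne x} ∪ {T | ∃ n, T = pauliX n ∨ T = pauliZ n})

/-- `1 ⊗ R`. -/
noncomputable def oneR : VonNeumannAlgebra (Amp H) :=
  gen {T | ∃ n, T = pauliX n ∨ T = pauliZ n}

/-- A McDuff factor: `M ⊗ R ≅ M`. -/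
def IsMcDuff (M : VonNeumannAlgebra H) : Prop :=
  Nonempty ((ampR M).toStarSubalgebra ≃⋆ₐ[ℂ] M.toStarSubalgebra)

/-- The admissible isomorphisms `σ : M ⊗ R → M`: those for which `x ↦ σ (x ⊗ 1)` is weakly
approximately unitarily equivalent to the identity of `M`. -/
def Admissible (M : VonNeumannAlgebra H) (Ω : H)
    (σ : (ampR M).toStarSubalgebra ≃⋆ₐ[ℂ] M.toStarSubalgebra) : Prop :=
  ∃ j : M.toStarSubalgebra → (ampR M).toStarSubalgebra,
    (∀ x, (j x : Amp H →L[ℂ] Amp H) = tensorOne (x : H →L[ℂ] H)) ∧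
    WAE M Ω (fun x : M.toStarSubalgebra => (σ (j x) : H →L[ℂ] H))
      (fun x : M.toStarSubalgebra => (x : H →L[ℂ] H))

section hom
variable {A : Type} [CStarAlgebra A]

/-- `[π] = t [π₁] + (1 - t) [π₂]` in `Hom_w(A, M)`: for some projection `p` of `R` of trace `t`
the map `a ↦ σ (π₁ a ⊗ p + π₂ a ⊗ (1 - p))` is weakly approximately unitarily equivalent
to `π`. -/
def IsComb (M : VonNeumannAlgebra H) (Ω : H)
    (σ : (ampR M).toStarSubalgebra ≃⋆ₐ[ℂ] M.toStarSubalgebra) (t : ℝ)
    (π₁ π₂ π : A →⋆ₐ[ℂ] M.toStarSubalgebra) : Prop :=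
  ∃ (p : Amp H →L[ℂ] Amp H) (c : A → (ampR M).toStarSubalgebra),
    IsStarProjection p ∧ p ∈ (oneR : VonNeumannAlgebra (Amp H)) ∧
    ⟪ampVec Ω, p (ampVec Ω)⟫_ℂ = (t : ℂ) ∧
    (∀ a, (c a : Amp H →L[ℂ] Amp H) = tensorOne (π₁ a : H →L[ℂ] H) * p +
      tensorOne (π₂ a : H →L[ℂ] H) * (1 - p)) ∧
    WAE M Ω (fun a => (σ (c a) : H →L[ℂ] H)) (fun a => (π a : H →L[ℂ] H))

/-- `[π]` is an extreme point of `Hom_w(A, M)`: whenever `[π] = t [π₁] + (1 - t) [π₂]` with
`0 < t < 1`, one has `[π₁] = [π₂] = [π]`. -/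
def IsExtremePt (M : VonNeumannAlgebra H) (Ω : H)
    (σ : (ampR M).toStarSubalgebra ≃⋆ₐ[ℂ] M.toStarSubalgebra)
    (π : A →⋆ₐ[ℂ] M.toStarSubalgebra) : Prop :=
  ∀ (t : ℝ) (π₁ π₂ : A →⋆ₐ[ℂ] M.toStarSubalgebra), 0 < t → t < 1 →
    IsComb M Ω σ t π₁ π₂ π →
    WAE M Ω (fun a => (π₁ a : H →L[ℂ] H)) (fun a => (π a : H →L[ℂ] H)) ∧
    WAE M Ω (fun a => (π₂ a : H →L[ℂ] H)) (fun a => (π a : H →L[ℂ] H))

end hom

end amp

end Pool.Agent.Lib.MP_41f445_an
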