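import Pool.Agent.Lib.MP_41f445_an.Std

/-!
# Weighted permutation operators on `ℓ^2(ι)`
-/

open Filter Topology
open scoped InnerProductSpace ENNReal

namespace Pool.Agent.Lib.MP_41f445_an

/-- The Hilbert space `ℓ^2(ι)`. -/
abbrev EL2 (ι : Type) : Type := lp (fun _ : ι => ℂ) 2

section l2
variable {ι : Type}

open Classical in
/-- Basis vectors. -/
noncomputable def dl (i : ι) : EL2 ι := lp.single 2 i (1 : ℂ)

lemma dl_same (i : ι) : dl i i = 1 := by
  classical
  exact lp.single_apply_self (E := fun _ : ι => ℂ) 2 i (1 : ℂ)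

lemma dl_ne {i j : ι} (h : j ≠ i) : dl i j = 0 := by
  classical
  exact lp.single_apply_ne (E := fun _ : ι => ℂ) 2 i (1 : ℂ) h

lemma norm_dl (i : ι) : ‖dl i‖ = 1 := by
  classical
  unfold dl
  rw [lp.norm_single (by norm_num)]
  simp

lemma inner_dl (i : ι) (f : EL2 ι) : ⟪dl i, f⟫_ℂ = f i := by
  classical
  unfold dl
  have := lp.inner_single_left (𝕜 := ℂ) i (1 : ℂ) f
  rw [show (lp.single 2 i (1 : ℂ) : EL2 ι) = lp.single 2 i (1 : ℂ) from rfl] at this
  convert this using 1
  simp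

lemma hasSum_dl (f : EL2 ι) : HasSum (fun i => f i • dl i) f := by
  classical
  have := lp.hasSum_single (p := 2) (by norm_num) f
  convert this using 1
  funext i
  ext j
  by_cases h : j = i
  · subst h
    rw [lp.coeFn_smul, Pi.smul_apply, dl_same, lp.single_apply_self]; simp
  · rw [lp.coeFn_smul, Pi.smul_apply, dl_ne h, lp.single_apply_ne _ _ _ h]; simp

lemma l2_ext {f g : EL2 ι} (h : ∀ i, f i = g i) : f = g := by
  ext i; exact h i

lemma dense_span_dl : Dense (Submodule.span ℂ (Set.range (dl : ι → EL2 ι)) : Set (EL2 ι)) := by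
  intro f
  refine mem_closure_of_tendsto (hasSum_dl f) (Eventually.of_forall fun s => ?_)
  exact Submodule.sum_mem _ fun i _ => Submodule.smul_mem _ _ (Submodule.subset_span ⟨i, rfl⟩)

lemma l2_separable [Countable ι] : TopologicalSpace.SeparableSpace (EL2 ι) := by
  have h1 : TopologicalSpace.IsSeparable (Set.range (dl : ι → EL2 ι)) :=
    (Set.countable_range _).isSeparable
  have h2 := h1.span (R := ℂ)
  have h3 := h2.closure
  rw [dense_span_dl.closure_eq] at h3
  exact TopologicalSpace.isSeparable_univ_iff.1 h3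

lemma l2_summable (f : EL2 ι) : Summable fun i => ‖f i‖ ^ 2 := by
  have := (lp.memℓp f).summable (by norm_num)
  simpa using this

/-- A function in `ℓ^2` with constant modulus on an infinite set vanishes there. -/
lemma l2_const_zero (f : EL2 ι) (S : Set ι) (hS : S.Infinite) (c : ℂ) (h : ∀ i ∈ S, f i = c) :
    c = 0 := by
  by_contra hc
  have hpos : 0 < ‖c‖ ^ 2 := by
    have : 0 < ‖c‖ := norm_pos_iff.2 hc
    positivity
  have ht := (l2_summable f).tendsto_cofinite_zero
  have hev := ht.eventually (gt_mem_nhds hpos)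
  rw [Filter.eventually_cofinite] at hev
  apply hS
  apply hev.subset
  intro i hi
  change ¬ (‖f i‖ ^ 2 < ‖c‖ ^ 2)
  rw [h i hi]
  exact lt_irrefl _

lemma dl_linearIndependent : LinearIndependent ℂ (dl : ι → EL2 ι) := by
  classical
  apply (orthonormal_iff_ite.2 _ : Orthonormal ℂ (dl : ι → EL2 ι)).linearIndependent
  intro i j
  rw [inner_dl]
  by_cases h : i = j
  · subst h; rw [dl_same, if_pos rfl]
  · rw [dl_ne h, if_neg h]

/-- The operator `(T f)(i) = s_i f (τ i)`. -/
noncomputable def mop (τ : ι → ι) (hτ : Function.Injective τ) (s : ι → ℂ) (hs : ∀ i, ‖s i‖ = 1) :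
    EL2 ι →L[ℂ] EL2 ι :=
  wop τ hτ (fun i => s i • (1 : ℂ →L[ℂ] ℂ)) 1 (fun i => by
    rw [norm_smul, hs, one_mul]; exact ContinuousLinearMap.norm_id_le)

lemma mop_apply (τ : ι → ι) (hτ : Function.Injective τ) (s : ι → ℂ) (hs : ∀ i, ‖s i‖ = 1)
    (f : EL2 ι) (i : ι) : mop τ hτ s hs f i = s i * f (τ i) := rfl

lemma mop_norm_le (τ : ι → ι) (hτ : Function.Injective τ) (s : ι → ℂ) (hs : ∀ i, ‖s i‖ = 1) :
    ‖mop τ hτ s hs‖ ≤ 1 := by
  unfold mop wop
  refine le_trans (LinearMap.mkContinuous_norm_le _ (abs_nonneg _) _) ?_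
  simp

end l2

section star
variable {H : Type} [NormedAddCommGroup H] [InnerProductSpace ℂ H] [CompleteSpace H]

/-- An invertible contraction with contractive inverse is unitary. -/
lemma star_eq_of_contr {T S : H →L[ℂ] H} (hTS : T * S = 1) (hST : S * T = 1) (hT : ‖T‖ ≤ 1)
    (hS : ‖S‖ ≤ 1) : star T = S := by
  have h1 : ∀ x, ‖T x‖ = ‖x‖ := by
    intro x
    apply le_antisymm
    · calc ‖T x‖ ≤ 1 * ‖x‖ := T.le_of_opNorm_le hT x
        _ = _ := one_mul _
    · calc ‖x‖ = ‖S (T x)‖ := by rw [← mul_apply_eq_comp, hST]; rfl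
        _ ≤ 1 * ‖T x‖ := S.le_of_opNorm_le hS _
        _ = _ := one_mul _
  have h2 := (ContinuousLinearMap.norm_map_iff_adjoint_comp_self T).1 h1
  have h3 : star T * T = 1 := h2
  calc star T = star T * (T * S) := by rw [hTS, mul_one]
    _ = S := by rw [← mul_assoc, h3, one_mul]

end star

section gen
variable {H : Type} [NormedAddCommGroup H] [InnerProductSpace ℂ H] [CompleteSpace H]

lemma mem_gen_iff {S : Set (H →L[ℂ] H)} {x : H →L[ℂ] H} : x ∈ gen S ↔
    ∀ y : H →L[ℂ] H, (∀ s ∈ S, s * y = y * s) → (∀ s ∈ S, star s * y = y * star s) →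
      y * x = x * y := by
  change x ∈ StarSubalgebra.centralizer ℂ (StarSubalgebra.centralizer ℂ S : Set (H →L[ℂ] H)) ↔ _
  rw [StarSubalgebra.mem_centralizer_iff]
  constructor
  · intro h y h1 h2
    have hy : y ∈ StarSubalgebra.centralizer ℂ S := by
      rw [StarSubalgebra.mem_centralizer_iff]
      exact fun s hs => ⟨h1 s hs, h2 s hs⟩
    exact (h y hy).1
  · intro h y hy
    have hy' : y ∈ StarSubalgebra.centralizer ℂ S := hy
    rw [StarSubalgebra.mem_centralizer_iff] at hy'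
    have hys' : star y ∈ StarSubalgebra.centralizer ℂ S := star_mem hy
    rw [StarSubalgebra.mem_centralizer_iff] at hys'
    exact ⟨h y (fun s hs => (hy' s hs).1) (fun s hs => (hy' s hs).2),
      h (star y) (fun s hs => (hys' s hs).1) (fun s hs => (hys' s hs).2)⟩

lemma mem_gen_of {S : Set (H →L[ℂ] H)} {x : H →L[ℂ] H} (hx : x ∈ S) : x ∈ gen S := by
  rw [mem_gen_iff]
  intro y h1 _
  exact (h1 x hx).symm

lemma mem_gen_commutant {S : Set (H →L[ℂ] H)} {y : H →L[ℂ] H} (h1 : ∀ s ∈ S, s * y = y * s)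
    (h2 : ∀ s ∈ S, star s * y = y * star s) : y ∈ (gen S).commutant := by
  rw [VonNeumannAlgebra.mem_commutant_iff]
  intro x hx
  exact (mem_gen_iff.1 hx y h1 h2).symm

lemma gen_le {S : Set (H →L[ℂ] H)} {N : VonNeumannAlgebra H} (h : ∀ s ∈ S, s ∈ N)
    {x : H →L[ℂ] H} (hx : x ∈ gen S) : x ∈ N := by
  apply mem_of_commutant
  intro y hy
  exact mem_gen_iff.1 hx y (fun s hs => comm_commutant (h s hs) hy)
    (fun s hs => comm_commutant (star_mem (h s hs)) hy)

end gen

end Pool.Agent.Lib.MP_41f445_an
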