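import Pool.Agent.Lib.MP_41f445_an.Std

/-!
# Range projections and partial isometries in a von Neumann algebra
-/

open Filter Topology
open scoped InnerProductSpace

namespace Pool.Agent.Lib.MP_41f445_an

variable {H : Type} [NormedAddCommGroup H] [InnerProductSpace ℂ H] [CompleteSpace H]

/-- A closed subspace invariant under `y` and `y^*` has projection commuting with `y`. -/
lemma commute_starProjection (K : Submodule ℂ H) [K.HasOrthogonalProjection] (y : H →L[ℂ] H)
    (h1 : ∀ x ∈ K, y x ∈ K) (h2 : ∀ x ∈ K, (star y) x ∈ K) :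
    y * K.starProjection = K.starProjection * y := by
  ext ξ
  rw [mul_apply_eq_comp, mul_apply_eq_comp]
  symm
  refine Submodule.eq_starProjection_of_mem_of_inner_eq_zero
    (h1 _ (K.starProjection_apply_mem ξ)) ?_
  intro w hw
  rw [← map_sub, star_apply_inner']
  exact Submodule.starProjection_inner_eq_zero _ _ (h2 w hw)

/-- The projection onto a closed subspace invariant under the commutant lies in `M`. -/
lemma starProjection_mem {M : VonNeumannAlgebra H} (K : Submodule ℂ H)
    [K.HasOrthogonalProjection] (h1 : ∀ y ∈ M.commutant, ∀ x ∈ K, y x ∈ K) :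
    K.starProjection ∈ M :=
  mem_of_commutant fun y hy => commute_starProjection K y (h1 y hy) (h1 _ (star_mem hy))

/-- Range projection of an operator. -/
noncomputable def rp (T : H →L[ℂ] H) : H →L[ℂ] H :=
  (LinearMap.range (T : H →ₗ[ℂ] H)).topologicalClosure.starProjection

lemma rp_proj (T : H →L[ℂ] H) : IsStarProjection (rp T) := isStarProjection_starProjection

lemma rp_fix (T : H →L[ℂ] H) : rp T * T = T := by
  ext ξ
  rw [mul_apply_eq_comp]
  apply Submodule.starProjection_eq_self_iff.2
  exact Submodule.le_topologicalClosure _ ⟨ξ, rfl⟩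

lemma rp_ind (T : H →L[ℂ] H) (S S' : H →L[ℂ] H) (h : S * T = S' * T) : S * rp T = S' * rp T := by
  ext ξ
  rw [mul_apply_eq_comp, mul_apply_eq_comp]
  have hm : rp T ξ ∈ (LinearMap.range (T : H →ₗ[ℂ] H)).topologicalClosure :=
    Submodule.starProjection_apply_mem _ ξ
  have hcl : IsClosed {ζ : H | S ζ = S' ζ} := isClosed_eq S.continuous S'.continuous
  have hsub : (LinearMap.range (T : H →ₗ[ℂ] H) : Set H) ⊆ {ζ : H | S ζ = S' ζ} := by
    rintro _ ⟨ζ, rfl⟩
    exact DFunLike.congr_fun h ζ
  exact closure_minimal hsub hcl hm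

lemma rp_commute (T y : H →L[ℂ] H) (h1 : ∀ ξ, ∃ ζ, y (T ξ) = T ζ)
    (h2 : ∀ ξ, ∃ ζ, (star y) (T ξ) = T ζ) : y * rp T = rp T * y := by
  have inv : ∀ z : H →L[ℂ] H, (∀ ξ, ∃ ζ, z (T ξ) = T ζ) →
      ∀ x ∈ (LinearMap.range (T : H →ₗ[ℂ] H)).topologicalClosure,
        z x ∈ (LinearMap.range (T : H →ₗ[ℂ] H)).topologicalClosure := by
    intro z hz x hx
    have : Set.MapsTo z (LinearMap.range (T : H →ₗ[ℂ] H) : Set H)
        (LinearMap.range (T : H →ₗ[ℂ] H) : Set H) := by
      rintro _ ⟨ξ, rfl⟩
      obtain ⟨ζ, hζ⟩ := hz ξ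
      exact ⟨ζ, hζ.symm⟩
    exact this.closure z.continuous hx
  exact commute_starProjection _ y (inv y h1) (inv _ h2)

lemma rp_commute' (T y : H →L[ℂ] H) (h1 : y * T = T * y) (h2 : star y * T = T * star y) :
    y * rp T = rp T * y :=
  rp_commute T y (fun ξ => ⟨y ξ, DFunLike.congr_fun h1 ξ⟩)
    (fun ξ => ⟨(star y) ξ, DFunLike.congr_fun h2 ξ⟩)

lemma rp_mem {M : VonNeumannAlgebra H} {T : H →L[ℂ] H} (hT : T ∈ M) : rp T ∈ M := by
  apply mem_of_commutant
  intro y hy
  exact rp_commute' T y (comm_commutant hT hy).symm (comm_commutant hT (star_mem hy)).symm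

lemma rp_eq_zero {T : H →L[ℂ] H} (h : rp T = 0) : T = 0 := by
  rw [← rp_fix T, h, zero_mul]

/-- If `p T = T` then `p ≥ rp T`. -/
lemma rp_le {p T : H →L[ℂ] H} (h : p * T = T) : p * rp T = rp T := by
  have := rp_ind T p 1 (by rw [h, one_mul])
  rwa [one_mul] at this

lemma rp_le' {p T : H →L[ℂ] H} (hp : IsStarProjection p) (h : p * T = T) :
    rp T * p = rp T := by
  have := congrArg star (rp_le h)
  rwa [star_mul, hp.isSelfAdjoint.star_eq, (rp_proj T).isSelfAdjoint.star_eq] at this

/-- Two nonzero elements of a factor are connected. -/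
lemma connect {M : VonNeumannAlgebra H}
    (hfac : ∀ z ∈ M, z ∈ M.commutant → ∃ c : ℂ, z = c • (1 : H →L[ℂ] H))
    {e f : H →L[ℂ] H} (he : e ∈ M) (e0 : e ≠ 0) (f0 : f ≠ 0) :
    ∃ y ∈ M, f * y * e ≠ 0 := by
  by_contra hcon
  push Not at hcon
  let K : Submodule ℂ H := (Submodule.span ℂ {ζ : H | ∃ y ∈ M, ∃ ξ, ζ = y (e ξ)}).topologicalClosure
  have inv : ∀ z : H →L[ℂ] H, (∀ y ∈ M, ∀ ξ, ∃ y' ∈ M, ∃ ξ', z (y (e ξ)) = y' (e ξ')) →
      ∀ x ∈ K, z x ∈ K := by
    intro z hz x hx
    have : Set.MapsTo z (Submodule.span ℂ {ζ : H | ∃ y ∈ M, ∃ ξ, ζ = y (e ξ)} : Set H)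
        (Submodule.span ℂ {ζ : H | ∃ y ∈ M, ∃ ξ, ζ = y (e ξ)} : Set H) := by
      intro x hx
      have : Submodule.span ℂ {ζ : H | ∃ y ∈ M, ∃ ξ, ζ = y (e ξ)} ≤
          (Submodule.span ℂ {ζ : H | ∃ y ∈ M, ∃ ξ, ζ = y (e ξ)}).comap (z : H →ₗ[ℂ] H) := by
        rw [Submodule.span_le]
        rintro _ ⟨y, hy, ξ, rfl⟩
        obtain ⟨y', hy', ξ', h'⟩ := hz y hy ξ
        exact Submodule.subset_span ⟨y', hy', ξ', h'⟩
      exact this hx
    exact this.closure z.continuous hx
  have hPM : K.starProjection ∈ M := by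
    apply starProjection_mem
    intro z hz
    apply inv
    intro y hy ξ
    refine ⟨y, hy, z ξ, ?_⟩
    have := DFunLike.congr_fun (comm_commutant (mul_mem hy he) hz) ξ
    exact this.symm
  have hPM' : K.starProjection ∈ M.commutant := by
    rw [VonNeumannAlgebra.mem_commutant_iff]
    intro z hz
    exact commute_starProjection K z
      (inv z fun y hy ξ => ⟨z * y, mul_mem hz hy, ξ, rfl⟩)
      (inv _ fun y hy ξ => ⟨star z * y, mul_mem (star_mem hz) hy, ξ, rfl⟩)
  obtain ⟨c, hc⟩ := hfac _ hPM hPM'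
  have hfP : f * K.starProjection = 0 := by
    ext ξ
    have hm : K.starProjection ξ ∈ K := Submodule.starProjection_apply_mem _ ξ
    have hsub : K ≤ LinearMap.ker (f : H →ₗ[ℂ] H) := by
      apply Submodule.topologicalClosure_minimal
      · rw [Submodule.span_le]
        rintro _ ⟨y, hy, ζ, rfl⟩
        exact DFunLike.congr_fun (hcon y hy) ζ
      · exact f.isClosed_ker
    exact hsub hm
  rw [hc, mul_smul_comm, mul_one] at hfP
  have hc0 : c = 0 := by
    rcases smul_eq_zero.1 hfP with h | h
    · exact h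
    · exact absurd h f0
  apply e0
  ext ξ
  have hm : e ξ ∈ K := Submodule.le_topologicalClosure _
    (Submodule.subset_span ⟨1, one_mem M, ξ, rfl⟩)
  have : K.starProjection (e ξ) = e ξ := Submodule.starProjection_eq_self_iff.2 hm
  rw [hc, hc0, zero_smul] at this
  exact this.symm

/-- Functional calculus stays in `M`. -/
lemma cfc_mem {M : VonNeumannAlgebra H} {T : H →L[ℂ] H} (hT : T ∈ M) (f : ℝ → ℝ) :
    cfc f T ∈ M := by
  apply mem_of_commutant
  intro y hy
  have : Commute T y := comm_commutant hT hy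
  exact (this.cfc_real f).symm

/-- Nonzero elements have partially isometric parts. -/
lemma partial_part {M : VonNeumannAlgebra H} {x e f : H →L[ℂ] H} (hx : x ∈ M)
    (x0 : x ≠ 0) (he : IsStarProjection e) (hxe : x * e = x) (hfx : f * x = x) :
    ∃ v ∈ M, v ≠ 0 ∧ IsStarProjection (star v * v) ∧ v * e = v ∧ f * v = v := by
  set h : H →L[ℂ] H := star x * x with hh
  have hsa : IsSelfAdjoint h := IsSelfAdjoint.star_mul_self x
  have hnn : 0 ≤ h := star_mul_self_nonneg x
  have hM : h ∈ M := mul_mem (star_mem hx) hx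
  have h0 : h ≠ 0 := by
    intro h0
    apply x0
    exact CStarRing.star_mul_self_eq_zero_iff x |>.1 h0
  have hpos : 0 < ‖h‖ := norm_pos_iff.2 h0
  set δ := ‖h‖ / 2 with hδ
  have δpos : 0 < δ := by positivity
  set k1 : H →L[ℂ] H := cfc (fun t : ℝ => 1 / Real.sqrt (max t δ)) h with hk1
  set k2 : H →L[ℂ] H := cfc (fun t : ℝ => max (t - δ) 0) h with hk2
  have c1 : Continuous (fun t : ℝ => 1 / Real.sqrt (max t δ)) := by
    apply Continuous.div continuous_const (by fun_prop)
    intro t
    have : 0 < max t δ := lt_max_of_lt_right δpos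
    positivity
  have c2 : Continuous (fun t : ℝ => max (t - δ) 0) := by fun_prop
  have k20 : k2 ≠ 0 := by
    intro hz
    have hn : ‖h - k2‖ ≤ δ := by
      have e1 : h - k2 = cfc (fun t : ℝ => t - max (t - δ) 0) h := by
        rw [cfc_sub (fun t : ℝ => t) (fun t : ℝ => max (t - δ) 0) h
          continuous_id.continuousOn c2.continuousOn, cfc_id' ℝ h]
      rw [e1]
      apply norm_cfc_le δpos.le
      intro t ht
      have ht0 : 0 ≤ t := spectrum_nonneg_of_nonneg hnn ht
      rw [Real.norm_eq_abs, abs_le]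
      rcases le_total (t - δ) 0 with h1 | h1
      · rw [max_eq_right h1]; constructor <;> linarith
      · rw [max_eq_left h1]; constructor <;> linarith
    rw [hz, sub_zero] at hn
    linarith
  set r := rp k2 with hr
  have key : (k1 * h * k1) * k2 = 1 * k2 := by
    have e1 : k1 * h * k1 * k2 = cfc (fun t : ℝ => 1 / Real.sqrt (max t δ) * t *
        (1 / Real.sqrt (max t δ)) * max (t - δ) 0) h := by
      rw [cfc_mul (fun t : ℝ => 1 / Real.sqrt (max t δ) * t * (1 / Real.sqrt (max t δ)))
          (fun t : ℝ => max (t - δ) 0) h ((c1.mul continuous_id).mul c1).continuousOn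
          c2.continuousOn,
        cfc_mul (fun t : ℝ => 1 / Real.sqrt (max t δ) * t) (fun t : ℝ => 1 / Real.sqrt (max t δ))
          h (c1.mul continuous_id).continuousOn c1.continuousOn,
        cfc_mul (fun t : ℝ => 1 / Real.sqrt (max t δ)) (fun t : ℝ => t) h c1.continuousOn
          continuous_id.continuousOn, cfc_id' ℝ h]
    rw [e1, one_mul]
    congr 1
    funext t
    rcases le_total (t - δ) 0 with h1 | h1
    · rw [max_eq_right h1, mul_zero]
    · rw [max_eq_left h1, max_eq_left (by linarith : δ ≤ t)]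
      have ht : 0 < t := by linarith
      have hs : Real.sqrt t * Real.sqrt t = t := Real.mul_self_sqrt ht.le
      have hs0 : Real.sqrt t ≠ 0 := by positivity
      have : 1 / Real.sqrt t * t * (1 / Real.sqrt t) = 1 := by
        field_simp
        rw [sq, hs]
      rw [this, one_mul]
  have key2 : (k1 * h * k1) * r = r := by
    have := rp_ind k2 _ _ key
    rwa [one_mul] at this
  have hk1sa : star k1 = k1 := IsSelfAdjoint.star_eq (cfc_predicate _ _)
  have rsa : star r = r := (rp_proj k2).isSelfAdjoint.star_eq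
  have hek2 : e * k2 = k2 := by
    -- k2 = h * k3
    have c3 : Continuous (fun t : ℝ => max (t - δ) 0 / max t δ) := by
      apply Continuous.div c2 (by fun_prop)
      intro t
      have : 0 < max t δ := lt_max_of_lt_right δpos
      positivity
    have e1 : k2 = h * cfc (fun t : ℝ => max (t - δ) 0 / max t δ) h := by
      have e2 : h * cfc (fun t : ℝ => max (t - δ) 0 / max t δ) h =
          cfc (fun t : ℝ => t * (max (t - δ) 0 / max t δ)) h := by
        rw [cfc_mul (fun t : ℝ => t) _ h continuous_id.continuousOn c3.continuousOn,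
          cfc_id' ℝ h]
      rw [e2, hk2]
      congr 1
      funext t
      rcases le_total (t - δ) 0 with h1 | h1
      · rw [max_eq_right h1, zero_div, mul_zero]
      · rw [max_eq_left h1, max_eq_left (by linarith : δ ≤ t)]
        have ht : 0 < t := by linarith
        field_simp
    have eh : e * h = h := by
      have : e * star x = star x := by
        have := congrArg star hxe
        rwa [star_mul, he.isSelfAdjoint.star_eq] at this
      rw [hh, ← mul_assoc, this]
    rw [e1, ← mul_assoc, eh]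
  refine ⟨x * k1 * r, ?_, ?_, ?_, ?_, ?_⟩
  · exact mul_mem (mul_mem hx (cfc_mem hM _)) (rp_mem (cfc_mem hM _))
  · intro hz
    apply k20
    apply rp_eq_zero
    change r = 0
    rw [← key2]
    calc k1 * h * k1 * r = k1 * star x * (x * k1 * r) := by rw [hh]; simp only [mul_assoc]
      _ = 0 := by rw [hz, mul_zero]
  · have : star (x * k1 * r) * (x * k1 * r) = r := by
      rw [star_mul, star_mul, hk1sa, rsa]
      calc r * (k1 * star x) * (x * k1 * r) = r * ((k1 * (star x * x) * k1) * r) := by
            simp only [mul_assoc]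
        _ = r := by rw [← hh, key2, (rp_proj k2).isIdempotentElem.eq]
    rw [this]
    exact rp_proj k2
  · rw [mul_assoc, rp_le' he hek2]
  · rw [← mul_assoc, ← mul_assoc, hfx]

end Pool.Agent.Lib.MP_41f445_an
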