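import Pool.Agent.Lib.MP_41f445_an.NotExtreme
import Pool.Agent.Lib.MP_41f445_an.Count
import Pool.Agent.Lib.MP_41f445_an.Rp

/-!
# No extreme points: the abstract conclusion
-/

open Filter Topology
open scoped InnerProductSpace

namespace Pool.Agent.Lib.MP_41f445_an

section
variable {H : Type} [NormedAddCommGroup H] [InnerProductSpace ℂ H] [CompleteSpace H]
variable {M : VonNeumannAlgebra H} {Ω : H}

/-- Elements of a unital C*-algebra satisfying the relations, with central parameter `w`. -/
structure Rels {A : Type} [CStarAlgebra A] (u v w a b : A) : Prop where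
  uu : u ∈ unitary A
  uv : v ∈ unitary A
  uw : w ∈ unitary A
  ua : a ∈ unitary A
  ub : b ∈ unitary A
  cen : ∀ x : A, w * x = x * w
  r1 : u * v = w * (v * u)
  r2 : a * u = u * a
  r3 : a * v = u * v * a
  r4 : b * v = v * b
  r5 : b * u = u * v * b

lemma corner_CU {f x : H →L[ℂ] H} (hfM : f ∈ M) (hf : IsStarProjection f) (hx : x ∈ M)
    (hu : x ∈ unitary (H →L[ℂ] H)) (hc : f * x = x * f) : CU M f (x * f) := by
  have h1 := Unitary.star_mul_self_of_mem hu
  have h2 := Unitary.mul_star_self_of_mem hu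
  have hff := hf.isIdempotentElem.eq
  have hfs := hf.isSelfAdjoint.star_eq
  have hc' : star x * f = f * star x := by
    have := congrArg star hc
    rw [star_mul, star_mul, hfs] at this
    exact this
  refine ⟨mul_mem hx hfM, ?_, ?_, ?_, ?_⟩
  · rw [star_mul, hfs]
    calc x * f * (f * star x) = x * (f * f) * star x := by simp only [mul_assoc]
      _ = f * (x * star x) := by rw [hff, ← hc, mul_assoc]
      _ = f := by rw [h2, mul_one]
  · rw [star_mul, hfs]
    calc f * star x * (x * f) = f * (star x * x) * f := by simp only [mul_assoc]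
      _ = f := by rw [h1, mul_one, hff]
  · rw [← mul_assoc, hc, mul_assoc, hff]
  · rw [mul_assoc, hff]

/-- Corner products. -/
lemma corner_mul {f x y : H →L[ℂ] H} (hf : IsStarProjection f) (hc : f * y = y * f) :
    x * f * (y * f) = x * y * f := by
  calc x * f * (y * f) = x * (f * y) * f := by simp only [mul_assoc]
    _ = x * y * (f * f) := by rw [hc]; simp only [mul_assoc]
    _ = x * y * f := by rw [hf.isIdempotentElem.eq]

/-- An eigenprojection of the central parameter produces a parameter realised in a corner. -/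
lemma mem_Dset_of_eigen {A : Type} [CStarAlgebra A] {u v w a b : A} (R : Rels u v w a b)
    (π : A →⋆ₐ[ℂ] M.toStarSubalgebra) {f : H →L[ℂ] H} (hfM : f ∈ M) (hf : IsStarProjection f)
    (hf0 : f ≠ 0) (hfc : ∀ x : A, f * (π x : H →L[ℂ] H) = (π x : H →L[ℂ] H) * f) {z : ℂ}
    (hz : (π w : H →L[ℂ] H) * f = z • f) : z ∈ Dset M := by
  have hun : ∀ x ∈ unitary A, (π x : H →L[ℂ] H) ∈ unitary (H →L[ℂ] H) := by
    intro x hx
    rw [Unitary.mem_iff]
    constructor
    · have h1 : π (star x * x) = 1 := by rw [Unitary.star_mul_self_of_mem hx, map_one]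
      rw [map_mul, map_star] at h1
      exact congrArg Subtype.val h1
    · have h1 : π (x * star x) = 1 := by rw [Unitary.mul_star_self_of_mem hx, map_one]
      rw [map_mul, map_star] at h1
      exact congrArg Subtype.val h1
  have hmul : ∀ x y : A, (π (x * y) : H →L[ℂ] H) = (π x : H →L[ℂ] H) * (π y : H →L[ℂ] H) := by
    intro x y; rw [map_mul]; rfl
  refine ⟨?_, f, (π u : H →L[ℂ] H) * f, (π v : H →L[ℂ] H) * f, (π a : H →L[ℂ] H) * f,
    (π b : H →L[ℂ] H) * f, hf0, ?_⟩
  · -- the norm of z
    have hex : ∃ ξ, f ξ ≠ 0 := by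
      by_contra hcon
      push Not at hcon
      exact hf0 (ContinuousLinearMap.ext hcon)
    obtain ⟨ξ, hξ⟩ := hex
    have h1 := ContinuousLinearMap.norm_map_of_mem_unitary (hun w R.uw) (f ξ)
    have h2 : (π w : H →L[ℂ] H) (f ξ) = z • f ξ := DFunLike.congr_fun hz ξ
    rw [h2, norm_smul] at h1
    have h3 : 0 < ‖f ξ‖ := norm_pos_iff.2 hξ
    exact (mul_eq_right₀ h3.ne').1 h1
  · refine ⟨hfM, hf, corner_CU hfM hf (π u).2 (hun u R.uu) (hfc u),
      corner_CU hfM hf (π v).2 (hun v R.uv) (hfc v), corner_CU hfM hf (π a).2 (hun a R.ua) (hfc a),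
      corner_CU hfM hf (π b).2 (hun b R.ub) (hfc b), ?_, ?_, ?_, ?_, ?_⟩
    · rw [corner_mul hf (hfc v), corner_mul hf (hfc u), ← hmul, R.r1, hmul, hmul]
      calc (π w : H →L[ℂ] H) * ((π v : H →L[ℂ] H) * (π u : H →L[ℂ] H)) * f
          = (π (w * (v * u)) : H →L[ℂ] H) * f := by rw [hmul, hmul]
        _ = (π ((v * u) * w) : H →L[ℂ] H) * f := by rw [R.cen]
        _ = (π v : H →L[ℂ] H) * (π u : H →L[ℂ] H) * ((π w : H →L[ℂ] H) * f) := by
            rw [hmul, hmul]; simp only [mul_assoc]
        _ = z • ((π v : H →L[ℂ] H) * (π u : H →L[ℂ] H) * f) := by rw [hz, mul_smul_comm]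
    · rw [corner_mul hf (hfc u), corner_mul hf (hfc a), ← hmul, R.r2, hmul]
    · rw [corner_mul hf (hfc v), corner_mul hf (hfc v), corner_mul hf (hfc a), ← hmul, R.r3,
        hmul, hmul]
    · rw [corner_mul hf (hfc v), corner_mul hf (hfc b), ← hmul, R.r4, hmul]
    · rw [corner_mul hf (hfc u), corner_mul hf (hfc v), corner_mul hf (hfc b), ← hmul, R.r5,
        hmul, hmul]

/-- An eigenvalue of the image lies in the spectrum. -/
lemma mem_spectrum_of_eigen {A : Type} [CStarAlgebra A] (w : A)
    (π : A →⋆ₐ[ℂ] M.toStarSubalgebra) {f : H →L[ℂ] H}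
    (hf0 : f ≠ 0) {z : ℂ} (hz : (π w : H →L[ℂ] H) * f = z • f) : z ∈ spectrum ℂ w := by
  rw [spectrum.mem_iff]
  intro hun
  obtain ⟨c, hc⟩ := hun.exists_left_inv
  apply hf0
  have h1 : (π c : H →L[ℂ] H) * (z • (1 : H →L[ℂ] H) - (π w : H →L[ℂ] H)) = 1 := by
    have h2 : π (c * (algebraMap ℂ A z - w)) = 1 := by rw [hc, map_one]
    rw [map_mul, map_sub, Algebra.algebraMap_eq_smul_one, map_smul, map_one] at h2
    exact congrArg Subtype.val h2
  calc f = (π c : H →L[ℂ] H) * (z • (1 : H →L[ℂ] H) - (π w : H →L[ℂ] H)) * f := by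
        rw [h1, one_mul]
    _ = (π c : H →L[ℂ] H) * (z • f - (π w : H →L[ℂ] H) * f) := by
        rw [mul_assoc, sub_mul, smul_mul_assoc, one_mul]
    _ = 0 := by rw [hz, sub_self, mul_zero]

/-- **No extreme points.** -/
theorem no_extreme (h : IsII1Factor M Ω)
    (σ : (ampR M).toStarSubalgebra ≃⋆ₐ[ℂ] M.toStarSubalgebra) (hσ : Admissible M Ω σ)
    {A : Type} [CStarAlgebra A] {u v w a b : A} (R : Rels u v w a b)
    (hK : Disjoint (spectrum ℂ w) (Dset M)) (π : A →⋆ₐ[ℂ] M.toStarSubalgebra) :
    ¬ IsExtremePt M Ω σ π := by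
  have hmul : ∀ x y : A, (π (x * y) : H →L[ℂ] H) = (π x : H →L[ℂ] H) * (π y : H →L[ℂ] H) := by
    intro x y; rw [map_mul]; rfl
  refine not_isExtremePt h σ hσ π (w + star w) (IsSelfAdjoint.add_star_self w) ?_ ?_
  · intro x
    have h1 : star w * x = x * star w := by
      have := congrArg star (R.cen (star x))
      rw [star_mul, star_mul, star_star] at this
      exact this.symm
    rw [add_mul, mul_add, R.cen, h1]
  · intro t e heM he hec het
    by_contra he0
    set W : H →L[ℂ] H := (π w : H →L[ℂ] H) with hW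
    have hWW : W * star W = 1 := by
      have h1 : π (w * star w) = 1 := by rw [Unitary.mul_star_self_of_mem R.uw, map_one]
      rw [map_mul, map_star] at h1
      exact congrArg Subtype.val h1
    have hadd : (π (w + star w) : H →L[ℂ] H) = W + star W := by
      rw [map_add, map_star]; rfl
    rw [hadd] at het
    -- factor the quadratic
    obtain ⟨z, hz⟩ := IsAlgClosed.exists_pow_nat_eq ((t : ℂ) ^ 2 - 4) (n := 2) (by norm_num)
    set z₁ : ℂ := ((t : ℂ) + z) / 2 with hz₁
    set z₂ : ℂ := ((t : ℂ) - z) / 2 with hz₂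
    have hs : z₁ + z₂ = t := by rw [hz₁, hz₂]; ring
    have hp : z₁ * z₂ = 1 := by
      rw [hz₁, hz₂]
      linear_combination (-1 / 4 : ℂ) * hz
    have hfac : W * ((W - z₂ • (1 : H →L[ℂ] H)) * e) = z₁ • (1 : H →L[ℂ] H) *
        ((W - z₂ • (1 : H →L[ℂ] H)) * e) := by
      have e1 : W * ((W - z₂ • (1 : H →L[ℂ] H)) * e) - z₁ • (1 : H →L[ℂ] H) *
        ((W - z₂ • (1 : H →L[ℂ] H)) * e) = W * (W * e) - (z₁ + z₂) • (W * e)
          + (z₁ * z₂) • e := by
        simp only [sub_mul, mul_sub, smul_mul_assoc, one_mul, mul_smul_comm, add_smul,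
          smul_smul]
        rw [mul_comm z₂ z₁]
        abel
      have e2 : (W * star W) * e = e := by rw [hWW, one_mul]
      have e3 : W * ((W + star W) * e) = (t : ℂ) • (W * e) := by rw [het, mul_smul_comm]
      rw [add_mul, mul_add, ← mul_assoc W (star W), e2] at e3
      rw [← sub_eq_zero, e1, hs, hp, one_smul, ← e3]
      abel
    -- the eigenprojection
    have hex : ∃ (f : H →L[ℂ] H) (ζ : ℂ), f ∈ M ∧ IsStarProjection f ∧ f ≠ 0 ∧
        (∀ x : A, f * (π x : H →L[ℂ] H) = (π x : H →L[ℂ] H) * f) ∧ W * f = ζ • f := by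
      by_cases hc : (W - z₂ • (1 : H →L[ℂ] H)) * e = 0
      · refine ⟨e, z₂, heM, he, he0, hec, ?_⟩
        rw [sub_mul, smul_mul_assoc, one_mul, sub_eq_zero] at hc
        exact hc
      · set T := (W - z₂ • (1 : H →L[ℂ] H)) * e with hT
        have hTM : T ∈ M := mul_mem (sub_mem (π w).2 (smul_memM _ (one_mem M))) heM
        have hTc : ∀ x : A, (π x : H →L[ℂ] H) * T = T * (π x : H →L[ℂ] H) := by
          intro x
          have h1 : (π x : H →L[ℂ] H) * W = W * (π x : H →L[ℂ] H) := by
            rw [hW, ← hmul, ← hmul, R.cen]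
          have h2 : (π x : H →L[ℂ] H) * (W - z₂ • (1 : H →L[ℂ] H)) =
              (W - z₂ • (1 : H →L[ℂ] H)) * (π x : H →L[ℂ] H) := by
            rw [mul_sub, sub_mul, h1, mul_smul_comm, smul_mul_assoc, mul_one, one_mul]
          rw [hT, ← mul_assoc, h2, mul_assoc, ← hec, ← mul_assoc]
        refine ⟨rp T, z₁, rp_mem hTM, rp_proj T, fun h0 => hc (rp_eq_zero h0), ?_, ?_⟩
        · intro x
          symm
          apply rp_commute' T _ (hTc x)
          have := hTc (star x)
          rw [map_star] at this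
          exact this
        · have := rp_ind T W (z₁ • (1 : H →L[ℂ] H)) hfac
          rw [this, smul_mul_assoc, one_mul]
    obtain ⟨f, ζ, hfM, hf, hf0, hfc, hζ⟩ := hex
    exact Set.disjoint_left.1 hK (mem_spectrum_of_eigen w π hf0 hζ)
      (mem_Dset_of_eigen R π hfM hf hf0 hfc hζ)

end

section alg
variable {B : Type} [CStarAlgebra B]

/-- The closed *-subalgebra generated by a set. -/
noncomputable def csub (s : Set B) : StarSubalgebra ℂ B :=
  (StarAlgebra.adjoin ℂ s).topologicalClosure

lemma csub_closed (s : Set B) : IsClosed (csub s : Set B) :=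
  StarSubalgebra.isClosed_topologicalClosure _

noncomputable instance csubCStar (s : Set B) : CStarAlgebra (csub s) :=
  StarSubalgebra.cstarAlgebra (csub s) (h_closed := csub_closed s)

lemma mem_csub {s : Set B} {x : B} (hx : x ∈ s) : x ∈ csub s :=
  StarSubalgebra.le_topologicalClosure _ (StarAlgebra.subset_adjoin ℂ s hx)

lemma csub_le {s : Set B} {N : StarSubalgebra ℂ B} (hN : IsClosed (N : Set B)) (h : s ⊆ N) :
    csub s ≤ N :=
  StarSubalgebra.topologicalClosure_minimal (StarAlgebra.adjoin_le h) hN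

lemma csub_separable {s : Set B} (hs : s.Countable) :
    TopologicalSpace.SeparableSpace (csub s) := by
  have h1 : (Submonoid.closure (s ∪ star s) : Set B).Countable := by
    have hc : Countable ↑(s ∪ star s) := by
      have h2 : (star s).Countable := by
        have : star s = star '' s := (Set.image_star).symm
        rw [this]; exact hs.image _
      exact (hs.union h2).to_subtype
    rw [Submonoid.closure_eq_mrange]
    have : Countable (FreeMonoid ↑(s ∪ star s)) :=
      inferInstanceAs (Countable (List ↑(s ∪ star s)))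
    exact Set.countable_range _
  have h2 : TopologicalSpace.IsSeparable (csub s : Set B) := by
    have h3 := (h1.isSeparable.span (R := ℂ)).closure
    have h4 : (Submodule.span ℂ (Submonoid.closure (s ∪ star s) : Set B) : Set B) =
        (StarAlgebra.adjoin ℂ s : Set B) := by
      rw [← StarAlgebra.adjoin_eq_span]; rfl
    rw [h4] at h3
    exact h3
  exact h2.separableSpace

end alg

section concrete
variable {H : Type} [NormedAddCommGroup H] [InnerProductSpace ℂ H] [CompleteSpace H]
variable {M : VonNeumannAlgebra H} {Ω : H}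

/-- Conclusion for a concrete tuple of unitaries of `M`. -/
theorem final (h : IsII1Factor M Ω) {U V W a b : H →L[ℂ] H}
    (hU : U ∈ M ∧ U ∈ unitary (H →L[ℂ] H)) (hV : V ∈ M ∧ V ∈ unitary (H →L[ℂ] H))
    (hW : W ∈ M ∧ W ∈ unitary (H →L[ℂ] H)) (ha : a ∈ M ∧ a ∈ unitary (H →L[ℂ] H))
    (hb : b ∈ M ∧ b ∈ unitary (H →L[ℂ] H))
    (c1 : W * U = U * W) (c2 : W * V = V * W) (c3 : W * a = a * W) (c4 : W * b = b * W)
    (r1 : U * V = W * (V * U)) (r2 : a * U = U * a) (r3 : a * V = U * V * a)
    (r4 : b * V = V * b) (r5 : b * U = U * V * b)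
    (hK : Disjoint (spectrum ℂ W) (Dset M)) :
    ∃ (A : Type) (_ : CStarAlgebra A), TopologicalSpace.SeparableSpace A ∧
      Nonempty (A →⋆ₐ[ℂ] M.toStarSubalgebra) ∧
      ∀ σ : (ampR M).toStarSubalgebra ≃⋆ₐ[ℂ] M.toStarSubalgebra, Admissible M Ω σ →
        ∀ π : A →⋆ₐ[ℂ] M.toStarSubalgebra, ¬ IsExtremePt M Ω σ π := by
  set s : Set (H →L[ℂ] H) := {U, V, W, a, b} with hs
  have hfin : s.Finite := by rw [hs]; simp
  have hle : csub s ≤ M.toStarSubalgebra := by
    apply csub_le (vn_isClosed M)
    rintro x (rfl | rfl | rfl | rfl | rfl)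
    · exact hU.1
    · exact hV.1
    · exact hW.1
    · exact ha.1
    · exact hb.1
  have mU : U ∈ csub s := mem_csub (by simp [hs])
  have mV : V ∈ csub s := mem_csub (by simp [hs])
  have mW : W ∈ csub s := mem_csub (by simp [hs])
  have ma : a ∈ csub s := mem_csub (by simp [hs])
  have mb : b ∈ csub s := mem_csub (by simp [hs])
  have un : ∀ {x : H →L[ℂ] H} (hx : x ∈ csub s), x ∈ unitary (H →L[ℂ] H) →
      (⟨x, hx⟩ : csub s) ∈ unitary (csub s) := by
    intro x hx hux
    rw [Unitary.mem_iff]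
    exact ⟨Subtype.ext (Unitary.star_mul_self_of_mem hux),
      Subtype.ext (Unitary.mul_star_self_of_mem hux)⟩
  have hcen : ∀ x : csub s, (⟨W, mW⟩ : csub s) * x = x * ⟨W, mW⟩ := by
    have key : csub s ≤ StarSubalgebra.centralizer ℂ ({W} : Set (H →L[ℂ] H)) := by
      apply csub_le
      · rw [StarSubalgebra.coe_centralizer]
        exact Set.isClosed_centralizer _
      · have hst : ∀ x : H →L[ℂ] H, x ∈ unitary (H →L[ℂ] H) → W * x = x * W →
            x ∈ StarSubalgebra.centralizer ℂ ({W} : Set (H →L[ℂ] H)) := by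
          intro x _ hx
          rw [StarSubalgebra.mem_centralizer_iff]
          rintro g rfl
          refine ⟨hx, ?_⟩
          have h1 := Unitary.star_mul_self_of_mem hW.2
          have h2 := Unitary.mul_star_self_of_mem hW.2
          calc star g * x = star g * (x * g) * star g := by
                rw [mul_assoc, mul_assoc, h2, mul_one]
            _ = (star g * g) * x * star g := by rw [← hx]; simp only [mul_assoc]
            _ = x * star g := by rw [h1, one_mul]
        rintro x (rfl | rfl | rfl | rfl | rfl)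
        · exact hst _ hU.2 c1
        · exact hst _ hV.2 c2
        · exact hst _ hW.2 rfl
        · exact hst _ ha.2 c3
        · exact hst _ hb.2 c4
    intro x
    have hx := key x.2
    rw [StarSubalgebra.mem_centralizer_iff] at hx
    exact Subtype.ext (hx W rfl).1
  have R : Rels (⟨U, mU⟩ : csub s) ⟨V, mV⟩ ⟨W, mW⟩ ⟨a, ma⟩ ⟨b, mb⟩ :=
    ⟨un mU hU.2, un mV hV.2, un mW hW.2, un ma ha.2, un mb hb.2, hcen, Subtype.ext r1,
      Subtype.ext r2, Subtype.ext r3, Subtype.ext r4, Subtype.ext r5⟩
  have hspec : spectrum ℂ (⟨W, mW⟩ : csub s) = spectrum ℂ W :=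
    StarSubalgebra.spectrum_eq (csub s) (hS := csub_closed s)
  refine ⟨csub s, csubCStar s, csub_separable hfin.countable, ⟨StarSubalgebra.inclusion hle⟩, ?_⟩
  intro σ hσ π
  exact no_extreme h σ hσ R (by rw [hspec]; exact hK) π

end concrete

end Pool.Agent.Lib.MP_41f445_an
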