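import Mathlib

/-!
# A countable group with infinite conjugacy classes containing the rotation relations
-/

namespace Pool.Agent.Lib.MP_41f445_an

/-- The set on which the group acts. -/
abbrev Pt : Type := ℤ × ℤ × ℤ

/-- The permutation `(x, y, c) ↦ (x + 1, y, c)`. -/
def pU : Equiv.Perm Pt where
  toFun q := (q.1 + 1, q.2.1, q.2.2)
  invFun q := (q.1 - 1, q.2.1, q.2.2)
  left_inv q := by simp
  right_inv q := by simp

/-- The permutation `(x, y, c) ↦ (x, y + 1, c - x)`. -/
def pV : Equiv.Perm Pt where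
  toFun q := (q.1, q.2.1 + 1, q.2.2 - q.1)
  invFun q := (q.1, q.2.1 - 1, q.2.2 + q.1)
  left_inv q := by simp
  right_inv q := by simp

/-- The permutation `(x, y, c) ↦ (x, y, c + 1)`. -/
def pW : Equiv.Perm Pt where
  toFun q := (q.1, q.2.1, q.2.2 + 1)
  invFun q := (q.1, q.2.1, q.2.2 - 1)
  left_inv q := by simp
  right_inv q := by simp

/-- Triangular numbers. -/
def tri (x : ℤ) : ℤ := x * (x - 1) / 2

lemma tri_succ (x : ℤ) : tri (x + 1) = tri x + x := by
  unfold tri
  have : (x + 1) * (x + 1 - 1) = x * (x - 1) + x * 2 := by ring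
  rw [this, Int.add_mul_ediv_right _ _ (by norm_num)]

/-- The permutation `(x, y, c) ↦ (x + y, y, c - tri y)`. -/
def pA : Equiv.Perm Pt where
  toFun q := (q.1 + q.2.1, q.2.1, q.2.2 - tri q.2.1)
  invFun q := (q.1 - q.2.1, q.2.1, q.2.2 + tri q.2.1)
  left_inv q := by simp
  right_inv q := by simp

/-- The permutation `(x, y, c) ↦ (x, x + y, c - tri x)`. -/
def pB : Equiv.Perm Pt where
  toFun q := (q.1, q.1 + q.2.1, q.2.2 - tri q.1)
  invFun q := (q.1, q.2.1 - q.1, q.2.2 + tri q.1)
  left_inv q := by simp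
  right_inv q := by simp

lemma rel_UV : pU * pV = pW * (pV * pU) := by
  ext q <;> simp [pU, pV, pW] <;> ring

lemma rel_AU : pA * pU = pU * pA := by
  ext q <;> simp [pU, pA] <;> ring

lemma rel_AV : pA * pV = pU * pV * pA := by
  ext q
  · simp [pU, pV, pA]; ring
  · simp [pU, pV, pA]
  · simp [pU, pV, pA, tri_succ]; ring

lemma rel_BV : pB * pV = pV * pB := by
  ext q <;> simp [pV, pB] <;> ring

lemma rel_BU : pB * pU = pU * pV * pB := by
  ext q
  · simp [pU, pV, pB]
  · simp [pU, pV, pB]; ring
  · simp [pU, pV, pB, tri_succ]; ring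

lemma rel_WU : pW * pU = pU * pW := by
  ext q <;> simp [pU, pW]

lemma rel_WV : pW * pV = pV * pW := by
  ext q <;> simp [pV, pW]; ring

lemma rel_WA : pW * pA = pA * pW := by
  ext q <;> simp [pA, pW]; ring

lemma rel_WB : pW * pB = pB * pW := by
  ext q <;> simp [pB, pW]; ring

/-- Generators. -/
def genSet : Set (Equiv.Perm Pt) :=
  ({pU, pV, pW, pA, pB} : Set (Equiv.Perm Pt)) ∪ Set.range fun q : Pt × Pt => Equiv.swap q.1 q.2

/-- The group. -/
def Lam : Subgroup (Equiv.Perm Pt) := Subgroup.closure genSet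

lemma genSet_countable : genSet.Countable := by
  apply Set.Countable.union
  · exact Set.Finite.countable (by simp)
  · exact Set.countable_range _

instance : Countable Lam := by
  have : Countable genSet := genSet_countable.to_subtype
  have hc : Countable (FreeGroup genSet) := by
    have : Function.Surjective (FreeGroup.mk : List (genSet × Bool) → FreeGroup genSet) :=
      Quot.mk_surjective
    exact this.countable
  have h : Lam = (FreeGroup.lift ((↑) : genSet → Equiv.Perm Pt)).range :=
    FreeGroup.closure_eq_range _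
  rw [h]
  exact (MonoidHom.rangeRestrict_surjective _).countable

/-- The elements as members of the group. -/
def eU : Lam := ⟨pU, Subgroup.subset_closure (by simp [genSet])⟩
/-- The elements as members of the group. -/
def eV : Lam := ⟨pV, Subgroup.subset_closure (by simp [genSet])⟩
/-- The elements as members of the group. -/
def eW : Lam := ⟨pW, Subgroup.subset_closure (by simp [genSet])⟩
/-- The elements as members of the group. -/
def eA : Lam := ⟨pA, Subgroup.subset_closure (by simp [genSet])⟩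
/-- The elements as members of the group. -/
def eB : Lam := ⟨pB, Subgroup.subset_closure (by simp [genSet])⟩
/-- The transpositions as members of the group. -/
def eS (a b : Pt) : Lam := ⟨Equiv.swap a b, Subgroup.subset_closure (Or.inr ⟨(a, b), rfl⟩)⟩

lemma g_UV : eU * eV = eW * (eV * eU) := Subtype.ext rel_UV
lemma g_AU : eA * eU = eU * eA := Subtype.ext rel_AU
lemma g_AV : eA * eV = eU * eV * eA := Subtype.ext rel_AV
lemma g_BV : eB * eV = eV * eB := Subtype.ext rel_BV
lemma g_BU : eB * eU = eU * eV * eB := Subtype.ext rel_BU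
lemma g_WU : eW * eU = eU * eW := Subtype.ext rel_WU
lemma g_WV : eW * eV = eV * eW := Subtype.ext rel_WV
lemma g_WA : eW * eA = eA * eW := Subtype.ext rel_WA
lemma g_WB : eW * eB = eB * eW := Subtype.ext rel_WB

lemma pW_zpow (n : ℤ) : (pW ^ n) (0, 0, 0) = (0, 0, n) := by
  have hn : ∀ n : ℕ, ∀ q : Pt, (pW ^ n) q = (q.1, q.2.1, q.2.2 + n) := by
    intro n
    induction n with
    | zero => intro q; simp
    | succ n ih =>
      intro q
      rw [pow_succ', Equiv.Perm.mul_apply, ih]
      simp [pW]; ring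
  rcases Int.eq_nat_or_neg n with ⟨m, rfl | rfl⟩
  · rw [zpow_natCast, hn]; simp
  · rw [zpow_neg, zpow_natCast, Equiv.Perm.inv_eq_iff_eq, hn]; simp

lemma eW_zpow_ne {n : ℤ} (hn : n ≠ 0) : eW ^ n ≠ 1 := by
  intro h
  have h1 : (pW ^ n) = 1 := by
    have := congrArg (Subtype.val) h
    simpa [eW] using this
  have h2 := pW_zpow n
  rw [h1] at h2
  simp at h2
  exact hn h2.symm

/-- Infinite conjugacy classes. -/
lemma icc (g : Lam) (hg : g ≠ 1) : (Set.range fun h : Lam => h * g * h⁻¹).Infinite := by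
  have hex : ∃ x : Pt, g.1 x ≠ x := by
    by_contra hcon
    push Not at hcon
    apply hg
    apply Subtype.ext
    ext1 x
    simpa using hcon x
  obtain ⟨x, hx⟩ := hex
  -- conjugates by transpositions
  have hval : ∀ y : Pt, y ≠ x → y ≠ g.1 x →
      (eS (g.1 x) y * g * (eS (g.1 x) y)⁻¹ : Lam).1 x = y := by
    intro y hy1 hy2
    change (Equiv.swap (g.1 x) y) (g.1 ((Equiv.swap (g.1 x) y)⁻¹ x)) = y
    rw [Equiv.swap_inv, Equiv.swap_apply_of_ne_of_ne hx.symm hy1.symm, Equiv.swap_apply_left]
  have hinf : (({x, g.1 x} : Set Pt)ᶜ).Infinite := (Set.toFinite _).infinite_compl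
  refine Set.infinite_of_injOn_mapsTo (f := fun y => eS (g.1 x) y * g * (eS (g.1 x) y)⁻¹) ?_ ?_ hinf
  · intro y hy z hz hyz
    simp only [Set.mem_compl_iff, Set.mem_insert_iff, Set.mem_singleton_iff, not_or] at hy hz
    have h1 := hval y hy.1 hy.2
    have h2 := hval z hz.1 hz.2
    rw [← h1, ← h2]
    simp only at hyz
    rw [hyz]
  · intro y _
    exact ⟨_, rfl⟩

end Pool.Agent.Lib.MP_41f445_an
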