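import Pool.Agent.Lib.MP_41f445_an.Spectral

/-!
# Halving projections
-/

set_option linter.unusedSectionVars false

open Topology Filter
open scoped ComplexOrder

namespace Pool.Agent.Lib.MP_41f445_an

section
variable {M : Type*} [CStarAlgebra M] {τ : M →ₗ[ℂ] ℂ} (h : IsFiniteVN τ) {a : M}

include h in
lemma trace_proj_eq {e : M} (he : IsStarProjection e) : τ e = ((n2 τ e ^ 2 : ℝ) : ℂ) := by
  have := h.trace_star_mul_self e
  rwa [he.isSelfAdjoint.star_eq, he.isIdempotentElem.eq] at this

include h in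
lemma trace_proj_re {e : M} (he : IsStarProjection e) : τ e = (((τ e).re : ℝ) : ℂ) := by
  rw [trace_proj_eq h he, Complex.ofReal_re]

include h in
lemma trace_proj_nonneg {e : M} (he : IsStarProjection e) : 0 ≤ (τ e).re := by
  rw [trace_proj_eq h he, Complex.ofReal_re]; positivity

include h in
lemma trace_proj_eq_zero {e : M} (he : IsStarProjection e) : (τ e).re = 0 ↔ e = 0 := by
  constructor
  · intro h0
    rw [trace_proj_eq h he, Complex.ofReal_re] at h0
    exact (h.n2_eq_zero).1 (by simpa using h0)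
  · rintro rfl; simp

variable (ha : IsSelfAdjoint a)
include h ha

lemma sub_eq_cfc (t : ℝ) : (t : ℂ) • (1 : M) - a = cfc (fun x : ℝ => t - x) a := by
  rw [cfc_sub _ _ a (by fun_prop) (by fun_prop), cfc_id' ℝ a, cfc_const t a,
    Algebra.algebraMap_eq_smul_one, Complex.coe_smul]

lemma trace_low (t : ℝ) : 0 ≤ (τ (((t : ℂ) • 1 - a) * sp h ha t)).re := by
  rw [sub_eq_cfc h ha]
  have t1 := (Complex.continuous_re.tendsto _).comp
    (h.tends_trace (cfc_mul_sp_tends h ha t (fun x => t - x) (by fun_prop)))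
  refine ge_of_tendsto' t1 fun n => ?_
  refine cfc_trace_nonneg h ha _ (by fun_prop) (fun x _ => ?_)
  rcases le_total t x with hx | hx
  · rw [lo_zero n hx, mul_zero]
  · exact mul_nonneg (sub_nonneg.2 hx) (lo_nonneg _ _ _)

lemma trace_high (t : ℝ) : (τ (((t : ℂ) • 1 - a) * (1 - sp h ha t))).re ≤ 0 := by
  rw [sub_eq_cfc h ha]
  have t0 : Tends τ (fun n => cfc (fun x => (t - x) * (1 - lo n t x)) a)
      (cfc (fun x : ℝ => t - x) a * (1 - sp h ha t)) := by
    have := h.tends_sub (h.tends_const (cfc (fun x : ℝ => t - x) a))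
      (cfc_mul_sp_tends h ha t (fun x => t - x) (by fun_prop))
    rw [mul_sub, mul_one]
    refine this.congr fun n => ?_
    beta_reduce
    rw [← cfc_sub _ _ a (by fun_prop) (by fun_prop)]
    congr 3
    ext x; ring
  have t1 := (Complex.continuous_re.tendsto _).comp (h.tends_trace t0)
  have lim : Tendsto (fun n : ℕ => 2 * (1 / 2 : ℝ) ^ n) atTop (𝓝 0) := by
    have := (tendsto_pow_atTop_nhds_zero_of_lt_one (r := (1 / 2 : ℝ)) (by norm_num)
      (by norm_num)).const_mul 2
    simpa using this
  refine le_of_tendsto_of_tendsto' t1 lim fun n => ?_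
  have := cfc_trace_mono h ha (fun x => (t - x) * (1 - lo n t x)) (fun _ => 2 * (1 / 2 : ℝ) ^ n)
    (by fun_prop) (by fun_prop) (fun x _ => by
      rcases le_total t x with hx | hx
      · have h1 : 0 ≤ 1 - lo n t x := by linarith [lo_le_one n t x]
        have h2 : (0 : ℝ) < 2 * (1 / 2) ^ n := by positivity
        nlinarith
      · by_cases hx2 : 2 ≤ 2 ^ n * (t - x)
        · rw [lo_one n hx2, sub_self, mul_zero]; positivity
        · push Not at hx2
          have h2n : (0 : ℝ) < 2 ^ n := by positivity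
          have h3 : t - x ≤ 2 * (1 / 2 : ℝ) ^ n := by
            rw [one_div, inv_pow, ← div_eq_mul_inv, le_div_iff₀ h2n]; linarith
          have h4 := lo_nonneg n t x
          nlinarith)
  refine this.trans ?_
  rw [cfc_const _ a, Algebra.algebraMap_eq_smul_one, ← Complex.coe_smul, map_smul, h.map_one,
    smul_eq_mul, mul_one, Complex.ofReal_re]

lemma low_eq_zero (t : ℝ) (h0 : (τ (((t : ℂ) • 1 - a) * sp h ha t)).re = 0) :
    a * sp h ha t = (t : ℂ) • sp h ha t := by
  set q := sp h ha t with hq
  have hqp := sp_proj h ha t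
  set ψ : ℝ → ℝ := fun x => Real.sqrt (max 0 (t - x)) with hψ
  have hψc : Continuous ψ := by fun_prop
  have hsa : IsSelfAdjoint (cfc ψ a) := cfc_predicate ψ a
  have hcomm : Commute (cfc ψ a) q := by
    have : Commute a (cfc ψ a) := ((Commute.refl a).cfc_real ψ).symm
    exact (sp_commute h ha t _ this).symm
  have e1 : star (cfc ψ a * q) * (cfc ψ a * q) = ((t : ℂ) • 1 - a) * q := by
    rw [star_mul, hsa.star_eq, hqp.isSelfAdjoint.star_eq]
    have : q * cfc ψ a * (cfc ψ a * q) = (cfc ψ a * cfc ψ a) * q := by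
      rw [← hcomm.eq, mul_assoc, ← mul_assoc q, ← hcomm.eq, mul_assoc (cfc ψ a) q q,
        hqp.isIdempotentElem.eq, mul_assoc]
    rw [this, ← cfc_mul _ _ a (by fun_prop) (by fun_prop), sub_eq_cfc h ha]
    have t1 := cfc_mul_sp_tends h ha t (fun x => ψ x * ψ x) (by fun_prop)
    have t2 := cfc_mul_sp_tends h ha t (fun x => t - x) (by fun_prop)
    refine h.tends_unique t1 ?_
    refine t2.congr fun n => ?_
    congr 2
    apply cfc_congr
    intro x _
    simp only [hψ]
    rw [Real.mul_self_sqrt (le_max_left _ _)]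
    rcases le_total t x with hx | hx
    · rw [lo_zero n hx, mul_zero, mul_zero]
    · rw [max_eq_right (sub_nonneg.2 hx)]
  have e2 : τ (star (cfc ψ a * q) * (cfc ψ a * q)) = 0 := by
    rw [h.trace_star_mul_self]
    have := h.n2_sq (cfc ψ a * q)
    rw [e1, h0] at this
    rw [this]; simp
  have e3 := h.faithful _ e2
  rw [e3, mul_zero, sub_mul, smul_mul_assoc, one_mul] at e1
  exact (sub_eq_zero.1 e1.symm).symm

/-- A self-adjoint element without atoms gives a projection of trace one half, commuting with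
everything that commutes with the element, which separates it. -/
theorem exists_half
    (hat : ∀ (t : ℝ) (e : M), IsStarProjection e → (∀ y, Commute a y → Commute e y) →
      a * e = (t : ℂ) • e → e = 0) :
    ∃ q : M, IsStarProjection q ∧ (∀ y, Commute a y → Commute q y) ∧ τ q = 1 / 2 ∧
      τ (a * q) ≠ τ (a * (1 - q)) := by
  obtain ⟨t, ht⟩ := exists_sp_trace h ha hat (1 / 2) (by norm_num) (by norm_num)
  have hqp := sp_proj h ha t
  have hq : τ (sp h ha t) = 1 / 2 := by
    rw [trace_proj_re h hqp, ht]; norm_num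
  refine ⟨sp h ha t, hqp, fun y hy => sp_commute h ha t y hy, hq, fun heq => ?_⟩
  have h1 := trace_low h ha t
  have h2 := trace_high h ha t
  have h3 : τ (((t : ℂ) • 1 - a) * sp h ha t) = τ (((t : ℂ) • 1 - a) * (1 - sp h ha t)) := by
    rw [sub_mul, sub_mul, map_sub, map_sub, heq, smul_mul_assoc, one_mul, smul_mul_assoc, one_mul,
      map_smul, map_smul, map_sub, hq, h.map_one]
    congr 2
    norm_num
  rw [← h3] at h2
  have h4 := low_eq_zero h ha t (le_antisymm h2 h1)
  have h5 := hat t _ hqp (fun y hy => sp_commute h ha t y hy) h4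
  rw [h5, map_zero] at hq
  norm_num at hq

end

end Pool.Agent.Lib.MP_41f445_an
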