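import Mathlib

/-!
# Joint continuous functional calculus of two commuting unitaries
-/

open Topology Filter WeakDual
open scoped CStarAlgebra

namespace Pool.Agent.Lib.MP_41f445_an

/-- The torus. -/
abbrev Tor : Type := Circle × Circle

/-- First coordinate as a continuous function. -/
def cz1 : C(Tor, ℂ) := ⟨fun p => (p.1 : ℂ), by fun_prop⟩

/-- Second coordinate as a continuous function. -/
def cz2 : C(Tor, ℂ) := ⟨fun p => (p.2 : ℂ), by fun_prop⟩

@[simp] lemma cz1_apply (p : Tor) : cz1 p = (p.1 : ℂ) := rfl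
@[simp] lemma cz2_apply (p : Tor) : cz2 p = (p.2 : ℂ) := rfl

lemma adjoin_cz_dense :
    (StarAlgebra.adjoin ℂ ({cz1, cz2} : Set C(Tor, ℂ))).topologicalClosure = ⊤ := by
  apply ContinuousMap.starSubalgebra_topologicalClosure_eq_top_of_separatesPoints
  intro p q hpq
  by_cases h : p.1 = q.1
  · have h2 : p.2 ≠ q.2 := fun h2 => hpq (Prod.ext h h2)
    refine ⟨cz2, ⟨cz2, ?_, rfl⟩, ?_⟩
    · exact StarAlgebra.subset_adjoin ℂ _ (by simp)
    · simpa using fun h3 => h2 (Circle.ext h3)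
  · refine ⟨cz1, ⟨cz1, ?_, rfl⟩, ?_⟩
    · exact StarAlgebra.subset_adjoin ℂ _ (by simp)
    · simpa using fun h3 => h (Circle.ext h3)

/-- Two star homomorphisms on `C(T^2)` that agree on the coordinates are equal. -/
lemma starHom_ext {B : Type*} [CStarAlgebra B] (φ ψ : C(Tor, ℂ) →⋆ₐ[ℂ] B)
    (h1 : φ cz1 = ψ cz1) (h2 : φ cz2 = ψ cz2) : φ = ψ := by
  have hφ : Continuous φ := map_continuous φ
  have hψ : Continuous ψ := map_continuous ψ
  have key : ∀ f ∈ StarAlgebra.adjoin ℂ ({cz1, cz2} : Set C(Tor, ℂ)), φ f = ψ f := by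
    intro f hf
    have : StarAlgebra.adjoin ℂ ({cz1, cz2} : Set C(Tor, ℂ)) ≤ StarAlgHom.equalizer φ ψ := by
      apply StarAlgebra.adjoin_le
      rintro x (rfl | rfl)
      · exact h1
      · exact h2
    exact this hf
  ext f
  have hf : f ∈ (StarAlgebra.adjoin ℂ ({cz1, cz2} : Set C(Tor, ℂ))).topologicalClosure := by
    rw [adjoin_cz_dense]; trivial
  have hf' : f ∈ closure ((StarAlgebra.adjoin ℂ ({cz1, cz2} : Set C(Tor, ℂ)) :
      StarSubalgebra ℂ C(Tor, ℂ)) : Set C(Tor, ℂ)) := hf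
  have hcl : IsClosed {f : C(Tor, ℂ) | φ f = ψ f} := isClosed_eq hφ hψ
  exact closure_minimal (fun f hf => key f hf) hcl hf'

/-- Joint functional calculus of two commuting unitaries of a C*-algebra. -/
theorem exists_joint {B : Type*} [CStarAlgebra B] (r₁ r₂ : B)
    (h1 : r₁ ∈ unitary B) (h2 : r₂ ∈ unitary B) (hc : r₁ * r₂ = r₂ * r₁) :
    ∃ Ψ : C(Tor, ℂ) →⋆ₐ[ℂ] B, Ψ cz1 = r₁ ∧ Ψ cz2 = r₂ := by
  classical
  have hs1 := Unitary.star_mul_self_of_mem h1
  have hs1' := Unitary.mul_star_self_of_mem h1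
  have hs2 := Unitary.star_mul_self_of_mem h2
  have hs2' := Unitary.mul_star_self_of_mem h2
  have c12 : r₁ * star r₂ = star r₂ * r₁ := by
    calc r₁ * star r₂ = (star r₂ * r₂) * (r₁ * star r₂) := by rw [hs2, one_mul]
      _ = star r₂ * (r₂ * r₁) * star r₂ := by simp only [mul_assoc]
      _ = star r₂ * (r₁ * r₂) * star r₂ := by rw [hc]
      _ = star r₂ * r₁ * (r₂ * star r₂) := by simp only [mul_assoc]
      _ = star r₂ * r₁ := by rw [hs2', mul_one]
  have c21 : r₂ * star r₁ = star r₁ * r₂ := by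
    have := congrArg star c12
    simpa using this
  have hcomm : ∀ x ∈ ({r₁, r₂} : Set B), ∀ y ∈ ({r₁, r₂} : Set B), x * y = y * x := by
    rintro x (rfl | rfl) y (rfl | rfl) <;> first | rfl | exact hc | exact hc.symm
  have hcs : ∀ x ∈ ({r₁, r₂} : Set B), ∀ y ∈ ({r₁, r₂} : Set B), x * star y = star y * x := by
    rintro x (rfl | rfl) y (rfl | rfl)
    · rw [hs1, hs1']
    · exact c12
    · exact c21
    · rw [hs2, hs2']
  set S₀ := StarAlgebra.adjoin ℂ ({r₁, r₂} : Set B) with hS₀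
  have hmc : IsMulCommutative S₀ := StarAlgebra.isMulCommutative_adjoin ℂ hcomm hcs
  set S := S₀.topologicalClosure with hS
  have hcl : IsClosed (S : Set B) := S₀.isClosed_topologicalClosure
  have hSc : ∀ x ∈ S, ∀ y ∈ S, x * y = y * x := by
    have hx0 : ∀ x ∈ S₀, ∀ y ∈ S₀, x * y = y * x := fun x hx y hy =>
      congrArg Subtype.val (hmc.is_comm.comm (⟨x, hx⟩ : S₀) ⟨y, hy⟩)
    have hx1 : ∀ x ∈ S, ∀ y ∈ S₀, x * y = y * x := by
      intro x hx y hy
      have hcl' : IsClosed {x : B | x * y = y * x} := isClosed_eq (by fun_prop) (by fun_prop)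
      exact closure_minimal (fun z hz => hx0 z hz y hy) hcl' hx
    intro x hx y hy
    have hcl' : IsClosed {y : B | x * y = y * x} := isClosed_eq (by fun_prop) (by fun_prop)
    exact closure_minimal (fun z hz => hx1 x hx z hz) hcl' hy
  have : CompleteSpace S := hcl.completeSpace_coe
  let cS : CStarAlgebra S := StarSubalgebra.cstarAlgebra S (h_closed := hcl)
  let ccS : CommCStarAlgebra S :=
    { cS with mul_comm := fun x y => Subtype.ext (hSc _ x.2 _ y.2) }
  have m1 : r₁ ∈ S := S₀.le_topologicalClosure (StarAlgebra.subset_adjoin ℂ _ (by simp))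
  have m2 : r₂ ∈ S := S₀.le_topologicalClosure (StarAlgebra.subset_adjoin ℂ _ (by simp))
  let s1 : S := ⟨r₁, m1⟩
  let s2 : S := ⟨r₂, m2⟩
  have us1 : star s1 * s1 = 1 := Subtype.ext hs1
  have us2 : star s2 * s2 = 1 := Subtype.ext hs2
  have circ : ∀ (s : S), star s * s = 1 → ∀ χ : characterSpace ℂ S, χ s ∈ Submonoid.unitSphere ℂ := by
    intro s hs χ
    have h : χ (star s) * χ s = 1 := by rw [← map_mul, hs, map_one]
    have h' : χ (star s) = star (χ s) := map_star χ s
    rw [h'] at h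
    have h3 : ‖χ s‖ * ‖χ s‖ = 1 := by
      have := congrArg norm h
      simpa using this
    have h4 : ‖χ s‖ = 1 := by nlinarith [norm_nonneg (χ s)]
    change (χ s) ∈ Metric.sphere (0 : ℂ) 1
    simpa using h4
  let j : C(characterSpace ℂ S, Tor) :=
    ⟨fun χ => (⟨χ s1, circ s1 us1 χ⟩, ⟨χ s2, circ s2 us2 χ⟩), by
      refine Continuous.prodMk ?_ ?_
      · exact Continuous.subtype_mk (gelfandTransform ℂ S s1).continuous _
      · exact Continuous.subtype_mk (gelfandTransform ℂ S s2).continuous _⟩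
  let Φ : C(Tor, ℂ) →⋆ₐ[ℂ] C(characterSpace ℂ S, ℂ) := ContinuousMap.compStarAlgHom' ℂ ℂ j
  let G : C(characterSpace ℂ S, ℂ) →⋆ₐ[ℂ] S := (gelfandStarTransform S).symm
  let Ψ : C(Tor, ℂ) →⋆ₐ[ℂ] B := (S.subtype).comp (G.comp Φ)
  refine ⟨Ψ, ?_, ?_⟩
  · have : Φ cz1 = gelfandStarTransform S s1 := by
      ext χ; rfl
    change ((G (Φ cz1) : S) : B) = r₁
    rw [this]
    change (((gelfandStarTransform S).symm (gelfandStarTransform S s1) : S) : B) = r₁
    rw [StarAlgEquiv.symm_apply_apply]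
  · have : Φ cz2 = gelfandStarTransform S s2 := by
      ext χ; rfl
    change ((G (Φ cz2) : S) : B) = r₂
    rw [this]
    change (((gelfandStarTransform S).symm (gelfandStarTransform S s2) : S) : B) = r₂
    rw [StarAlgEquiv.symm_apply_apply]

end Pool.Agent.Lib.MP_41f445_an
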