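import Pool.Agent.Lib.MP_41f445_an.Swap
import Pool.Agent.Lib.MP_41f445_an.Amp

/-!
# The model is a McDuff factor, with an admissible isomorphism
-/

open Filter Topology
open scoped InnerProductSpace ENNReal

namespace Pool.Agent.Lib.MP_41f445_an

/-! ## Interleaving -/

/-- Interleaving of two finitely supported functions. -/
noncomputable def ilv : ((ℕ →₀ ZMod 2) × (ℕ →₀ ZMod 2)) ≃+ (ℕ →₀ ZMod 2) :=
  Finsupp.sumFinsuppAddEquivProdFinsupp.symm.trans (Finsupp.domCongr Equiv.natSumNatEquivNat)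

lemma ilv_even (a b : ℕ →₀ ZMod 2) (n : ℕ) : ilv (a, b) (2 * n) = a n := by
  unfold ilv
  simp only [AddEquiv.trans_apply, Finsupp.domCongr_apply, Finsupp.equivMapDomain_apply]
  have : Equiv.natSumNatEquivNat.symm (2 * n) = Sum.inl n := by
    rw [Equiv.symm_apply_eq]; rfl
  rw [this]
  rfl

lemma ilv_odd (a b : ℕ →₀ ZMod 2) (n : ℕ) : ilv (a, b) (2 * n + 1) = b n := by
  unfold ilv
  simp only [AddEquiv.trans_apply, Finsupp.domCongr_apply, Finsupp.equivMapDomain_apply]
  have : Equiv.natSumNatEquivNat.symm (2 * n + 1) = Sum.inr n := by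
    rw [Equiv.symm_apply_eq]; rfl
  rw [this]
  rfl

/-- Even part. -/
noncomputable def evF (c : ℕ →₀ ZMod 2) : ℕ →₀ ZMod 2 := (ilv.symm c).1
/-- Odd part. -/
noncomputable def odF (c : ℕ →₀ ZMod 2) : ℕ →₀ ZMod 2 := (ilv.symm c).2

lemma ilv_ev_od (c : ℕ →₀ ZMod 2) : ilv (evF c, odF c) = c := ilv.apply_symm_apply c

lemma evF_ilv (a b : ℕ →₀ ZMod 2) : evF (ilv (a, b)) = a := by
  unfold evF; rw [ilv.symm_apply_apply]
lemma odF_ilv (a b : ℕ →₀ ZMod 2) : odF (ilv (a, b)) = b := by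
  unfold odF; rw [ilv.symm_apply_apply]

lemma evF_apply (c : ℕ →₀ ZMod 2) (n : ℕ) : evF c n = c (2 * n) := by
  conv_rhs => rw [← ilv_ev_od c]
  rw [ilv_even]

lemma odF_apply (c : ℕ →₀ ZMod 2) (n : ℕ) : odF c n = c (2 * n + 1) := by
  conv_rhs => rw [← ilv_ev_od c]
  rw [ilv_odd]

lemma ilv_add (a b a' b' : ℕ →₀ ZMod 2) : ilv (a + a', b + b') = ilv (a, b) + ilv (a', b') := by
  rw [← ilv.map_add]; rfl

lemma ilv_single_left (n : ℕ) (v : ZMod 2) :
    ilv (Finsupp.single n v, 0) = Finsupp.single (2 * n) v := by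
  ext k
  rcases Nat.even_or_odd' k with ⟨m, rfl | rfl⟩
  · rw [ilv_even, Finsupp.single_apply, Finsupp.single_apply]
    congr 1
    simp
  · rw [ilv_odd, Finsupp.single_apply, if_neg (by omega)]; rfl

lemma ilv_single_right (n : ℕ) (v : ZMod 2) :
    ilv (0, Finsupp.single n v) = Finsupp.single (2 * n + 1) v := by
  ext k
  rcases Nat.even_or_odd' k with ⟨m, rfl | rfl⟩
  · rw [ilv_even, Finsupp.single_apply, if_neg (by omega)]; rfl
  · rw [ilv_odd, Finsupp.single_apply, Finsupp.single_apply]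
    congr 1
    simp

lemma dot_ilv_left (b c : ℕ →₀ ZMod 2) : dot (ilv (b, 0)) c = dot b (evF c) := by
  induction b using Finsupp.induction_linear with
  | zero => rw [show ((0, 0) : (ℕ →₀ ZMod 2) × (ℕ →₀ ZMod 2)) = 0 from rfl, map_zero,
      dot_zero_left, dot_zero_left]
  | add f g hf hg =>
    have : ilv (f + g, 0) = ilv (f, 0) + ilv (g, 0) := by
      rw [← ilv_add, add_zero]
    rw [this, dot_add_left, dot_add_left, hf, hg]
  | single n v => rw [ilv_single_left, dot_single_left, dot_single_left, evF_apply]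

lemma dot_ilv_right (b c : ℕ →₀ ZMod 2) : dot (ilv (0, b)) c = dot b (odF c) := by
  induction b using Finsupp.induction_linear with
  | zero => rw [show ((0, 0) : (ℕ →₀ ZMod 2) × (ℕ →₀ ZMod 2)) = 0 from rfl, map_zero,
      dot_zero_left, dot_zero_left]
  | add f g hf hg =>
    have : ilv (0, f + g) = ilv (0, f) + ilv (0, g) := by
      rw [← ilv_add, add_zero]
    rw [this, dot_add_left, dot_add_left, hf, hg]
  | single n v => rw [ilv_single_right, dot_single_left, dot_single_left, odF_apply]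

/-- Interleaving of pairs: even part `j`, odd part `i`. -/
noncomputable def cmb (j i : PIdx) : PIdx := (ilv (j.1, i.1), ilv (j.2, i.2))
/-- Even part of a pair. -/
noncomputable def evP (k : PIdx) : PIdx := (evF k.1, evF k.2)
/-- Odd part of a pair. -/
noncomputable def odP (k : PIdx) : PIdx := (odF k.1, odF k.2)

lemma cmb_ev_od (k : PIdx) : cmb (evP k) (odP k) = k := by
  unfold cmb evP odP
  rw [ilv_ev_od, ilv_ev_od]

lemma evP_cmb (j i : PIdx) : evP (cmb j i) = j := by
  unfold cmb evP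
  rw [evF_ilv, evF_ilv]

lemma odP_cmb (j i : PIdx) : odP (cmb j i) = i := by
  unfold cmb odP
  rw [odF_ilv, odF_ilv]

lemma cmb_add (j i j' i' : PIdx) : cmb (j + j') (i + i') = cmb j i + cmb j' i' := by
  unfold cmb
  rw [Prod.fst_add, Prod.fst_add, Prod.snd_add, Prod.snd_add, ilv_add, ilv_add]; rfl

lemma cmb_zero : cmb 0 0 = 0 := by
  unfold cmb
  simp only [Prod.fst_zero, Prod.snd_zero]
  rw [show ((0, 0) : (ℕ →₀ ZMod 2) × (ℕ →₀ ZMod 2)) = 0 from rfl, map_zero]; rfl

/-! ## The Hilbert space isomorphism -/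

open Classical in
/-- The basis. -/
noncomputable def bvec (q : Gam) : Amp HS := lp.single 2 (odP q.2) (dl (q.1, evP q.2) : HS)

lemma inner_bvec (q : Gam) (F : Amp HS) : ⟪bvec q, F⟫_ℂ = F (odP q.2) (q.1, evP q.2) := by
  classical
  unfold bvec
  have := lp.inner_single_left (𝕜 := ℂ) (odP q.2) (dl (q.1, evP q.2) : HS) F
  rw [show (lp.single 2 (odP q.2) (dl (q.1, evP q.2) : HS) : Amp HS) =
    lp.single 2 (odP q.2) (dl (q.1, evP q.2) : HS) from rfl] at this
  convert this using 1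
  rw [inner_dl]

lemma bvec_apply_same (i : PIdx) (h : Lam) (j : PIdx) : bvec (h, cmb j i) i = dl (h, j) := by
  classical
  unfold bvec
  simp only
  rw [evP_cmb, odP_cmb]
  exact lp.single_apply_self (E := fun _ : PIdx => HS) 2 i _

lemma bvec_apply_ne (q : Gam) (i : PIdx) (h : i ≠ odP q.2) : bvec q i = 0 := by
  classical
  unfold bvec
  exact lp.single_apply_ne (E := fun _ : PIdx => HS) 2 (odP q.2) _ h

lemma bvec_orthonormal : Orthonormal ℂ bvec := by
  classical
  rw [orthonormal_iff_ite]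
  intro q q'
  rw [inner_bvec]
  by_cases h : q = q'
  · subst h
    rw [if_pos rfl]
    have : bvec q (odP q.2) = dl (q.1, evP q.2) := by
      have := bvec_apply_same (odP q.2) q.1 (evP q.2)
      rw [cmb_ev_od] at this
      exact this
    rw [this, dl_same]
  · rw [if_neg h]
    by_cases h2 : odP q.2 = odP q'.2
    · have e : bvec q' (odP q.2) = dl (q'.1, evP q'.2) := by
        have := bvec_apply_same (odP q'.2) q'.1 (evP q'.2)
        rw [cmb_ev_od] at this
        rw [h2]; exact this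
      rw [e, dl_ne]
      intro h3
      apply h
      simp only [Prod.mk.injEq] at h3
      refine Prod.ext h3.1 ?_
      rw [← cmb_ev_od q.2, ← cmb_ev_od q'.2, h2, h3.2]
    · rw [bvec_apply_ne q' _ h2]; rfl

lemma bvec_total : (Submodule.span ℂ (Set.range bvec))ᗮ = ⊥ := by
  rw [Submodule.eq_bot_iff]
  intro F hF
  ext i q
  have h1 := hF (bvec (q.1, cmb q.2 i)) (Submodule.subset_span ⟨_, rfl⟩)
  rw [inner_bvec] at h1
  simp only at h1
  rw [evP_cmb, odP_cmb] at h1
  exact h1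

/-- The isomorphism `H ⊗ L^2(R) ≅ H`. -/
noncomputable def Th : Amp HS ≃ₗᵢ[ℂ] HS :=
  (HilbertBasis.mkOfOrthogonalEqBot bvec_orthonormal bvec_total).repr

lemma Th_apply (F : Amp HS) (q : Gam) : Th F q = F (odP q.2) (q.1, evP q.2) := by
  unfold Th
  rw [HilbertBasis.repr_apply_apply, HilbertBasis.coe_mkOfOrthogonalEqBot, inner_bvec]

lemma Th_symm_apply (f : HS) (i : PIdx) (q : Gam) : Th.symm f i q = f (q.1, cmb q.2 i) := by
  have h := Th_apply (Th.symm f) (q.1, cmb q.2 i)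
  rw [LinearIsometryEquiv.apply_symm_apply] at h
  simp only at h
  rw [evP_cmb, odP_cmb] at h
  exact h.symm

/-- Conjugation by the isomorphism. -/
noncomputable def Ph : (Amp HS →L[ℂ] Amp HS) ≃⋆ₐ[ℂ] (HS →L[ℂ] HS) := Th.conjStarAlgEquiv

lemma Ph_apply (T : Amp HS →L[ℂ] Amp HS) (f : HS) : Ph T f = Th (T (Th.symm f)) := rfl

lemma Ph_tensorOne (g : Lam) (j : PIdx) : Ph (tensorOne (Lop g j)) = Lop g (cmb j 0) := by
  refine ContinuousLinearMap.ext fun f => l2_ext fun q => ?_
  rw [Ph_apply, Th_apply]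
  have e1 : (tensorOne (Lop g j) (Th.symm f)) (odP q.2) = Lop g j ((Th.symm f) (odP q.2)) := rfl
  rw [e1, Lop_apply, Lop_apply, Th_symm_apply]
  simp only
  have e2 : cmb (evP q.2 + j) (odP q.2) = q.2 + cmb j 0 := by
    conv_rhs => rw [← cmb_ev_od q.2]
    rw [← cmb_add, add_zero]
  rw [e2]
  congr 2
  have e3 : (cmb j 0).2 = ilv (j.2, 0) := rfl
  have e4 : (cmb j 0).1 = ilv (j.1, 0) := rfl
  rw [e3, e4, dot_ilv_left]
  congr 1
  have e5 : evF (q.2.1 + ilv (j.1, 0)) = evF q.2.1 + j.1 := by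
    conv_lhs => rw [← ilv_ev_od q.2.1, ← ilv_add, evF_ilv]
  rw [e5]; rfl

lemma Ph_pauliX (n : ℕ) : Ph (pauliX n) = Lop 1 (cmb 0 (Finsupp.single n 1, 0)) := by
  refine ContinuousLinearMap.ext fun f => l2_ext fun q => ?_
  rw [Ph_apply, Th_apply]
  have e1 : (pauliX n (Th.symm f)) (odP q.2) = (Th.symm f) (addX n (odP q.2)) := rfl
  rw [e1, Lop_apply, Th_symm_apply]
  simp only
  have e2 : cmb (evP q.2) (addX n (odP q.2)) = q.2 + cmb 0 (Finsupp.single n 1, 0) := by
    conv_rhs => rw [← cmb_ev_od q.2]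
    rw [← cmb_add, add_zero]
    congr 1
    unfold addX
    ext k <;> simp
  have e3 : (cmb 0 (Finsupp.single n 1, 0)).2 = 0 := by
    change ilv (0, 0) = 0
    rw [show ((0, 0) : (ℕ →₀ ZMod 2) × (ℕ →₀ ZMod 2)) = 0 from rfl, map_zero]
  rw [e2, e3, dot_zero_left, sgn_zero, one_mul, inv_one, one_mul]

lemma Ph_pauliZ (n : ℕ) : Ph (pauliZ n) = Lop 1 (cmb 0 (0, Finsupp.single n 1)) := by
  refine ContinuousLinearMap.ext fun f => l2_ext fun q => ?_
  rw [Ph_apply, Th_apply]
  have e1 : (pauliZ n (Th.symm f)) (odP q.2) (q.1, evP q.2) =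
    sgn ((odP q.2).1 n) * (Th.symm f) (addZ n (odP q.2)) (q.1, evP q.2) := rfl
  rw [e1, Lop_apply, Th_symm_apply]
  simp only
  have e2 : cmb (evP q.2) (addZ n (odP q.2)) = q.2 + cmb 0 (0, Finsupp.single n 1) := by
    conv_rhs => rw [← cmb_ev_od q.2]
    rw [← cmb_add, add_zero]
    congr 1
    unfold addZ
    ext k <;> simp
  have e3 : (cmb 0 (0, Finsupp.single n 1)).1 = 0 := by
    change ilv (0, 0) = 0
    rw [show ((0, 0) : (ℕ →₀ ZMod 2) × (ℕ →₀ ZMod 2)) = 0 from rfl, map_zero]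
  have e4 : (cmb 0 (0, Finsupp.single n 1)).2 = ilv (0, Finsupp.single n 1) := rfl
  rw [e2, e3, e4, add_zero, dot_ilv_right, dot_single_left, one_mul, inv_one, one_mul]
  rfl

/-! ## The isomorphism of von Neumann algebras -/

open Classical in
/-- The vector `η ⊗ j`. -/
noncomputable def sg (j : PIdx) (η : HS) : Amp HS := lp.single 2 j η

lemma sg_same (j : PIdx) (η : HS) : sg j η j = η := by
  classical
  exact lp.single_apply_self (E := fun _ : PIdx => HS) 2 j η

lemma sg_ne {j i : PIdx} (h : i ≠ j) (η : HS) : sg j η i = 0 := by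
  classical
  exact lp.single_apply_ne (E := fun _ : PIdx => HS) 2 j η h

lemma norm_sg (j : PIdx) (η : HS) : ‖sg j η‖ = ‖η‖ := by
  classical
  unfold sg
  rw [lp.norm_single (by norm_num)]

lemma tensorOne_sg (x : HS →L[ℂ] HS) (j : PIdx) (η : HS) :
    tensorOne x (sg j η) = sg j (x η) := by
  ext i : 2
  have e : (tensorOne x (sg j η)) i = x (sg j η i) := rfl
  rw [e]
  by_cases h : i = j
  · subst h; rw [sg_same, sg_same]
  · rw [sg_ne h, sg_ne h, map_zero]

lemma amp_ext_sg {S T : Amp HS →L[ℂ] Amp HS} (h : ∀ j η, S (sg j η) = T (sg j η)) : S = T := by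
  classical
  refine lp.ext_continuousLinearMap (by norm_num) fun j => ?_
  refine ContinuousLinearMap.ext fun η => ?_
  have := h j η
  unfold sg at this
  rw [ContinuousLinearMap.comp_apply, ContinuousLinearMap.comp_apply,
    lp.singleContinuousLinearMap_apply]
  exact this

open Classical in
/-- Matrix coefficients. -/
noncomputable def mco (T : Amp HS →L[ℂ] Amp HS) (i j : PIdx) : HS →L[ℂ] HS :=
  (lp.evalCLM ℂ (fun _ : PIdx => HS) 2 i).comp (T.comp (lp.singleContinuousLinearMap ℂ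
    (fun _ : PIdx => HS) 2 j))

lemma mco_apply (T : Amp HS →L[ℂ] Amp HS) (i j : PIdx) (η : HS) :
    mco T i j η = (T (sg j η)) i := rfl

lemma mco_comm {T : Amp HS →L[ℂ] Amp HS} {x : HS →L[ℂ] HS}
    (h : T * tensorOne x = tensorOne x * T) (i j : PIdx) : x * mco T i j = mco T i j * x := by
  refine ContinuousLinearMap.ext fun η => ?_
  rw [mul_apply_eq_comp, mul_apply_eq_comp, mco_apply, mco_apply, ← tensorOne_sg]
  have := DFunLike.congr_fun h (sg j η)
  rw [mul_apply_eq_comp, mul_apply_eq_comp] at this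
  rw [this]
  rfl

lemma comm_of_mco {T : Amp HS →L[ℂ] Amp HS} {x : HS →L[ℂ] HS}
    (h : ∀ i j, x * mco T i j = mco T i j * x) : T * tensorOne x = tensorOne x * T := by
  apply amp_ext_sg
  intro j η
  ext i : 2
  rw [mul_apply_eq_comp, mul_apply_eq_comp, tensorOne_sg]
  have e : (tensorOne x (T (sg j η))) i = x (T (sg j η) i) := rfl
  rw [e, ← mco_apply, ← mco_apply, ← mul_apply_eq_comp, ← mul_apply_eq_comp, h]

lemma Ph_symm_comm {y : HS →L[ℂ] HS} (hy : y ∈ Mdl.commutant) :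
    ∀ s ∈ ({T | ∃ x ∈ Mdl, T = tensorOne x} ∪ {T | ∃ n, T = pauliX n ∨ T = pauliZ n} :
      Set (Amp HS →L[ℂ] Amp HS)), s * Ph.symm y = Ph.symm y * s := by
  have base : ∀ s : Amp HS →L[ℂ] Amp HS, Ph s ∈ Mdl → s * Ph.symm y = Ph.symm y * s := by
    intro s hs
    apply EquivLike.injective Ph
    rw [map_mul, map_mul, StarAlgEquiv.apply_symm_apply]
    exact comm_commutant hs hy
  rintro s (⟨x, hx, rfl⟩ | ⟨n, rfl | rfl⟩)
  · symm
    apply comm_of_mco
    intro i j
    symm
    refine mem_gen_iff.1 hx _ ?_ ?_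
    · rintro _ ⟨g, k, rfl⟩
      apply mco_comm
      symm
      apply base
      rw [Ph_tensorOne]
      exact Lop_mem _ _
    · rintro _ ⟨g, k, rfl⟩
      apply mco_comm
      symm
      apply base
      rw [Lop_star, tensorOne_smul, map_smul, Ph_tensorOne]
      exact smul_memM _ (Lop_mem _ _)
  · apply base
    rw [Ph_pauliX]
    exact Lop_mem _ _
  · apply base
    rw [Ph_pauliZ]
    exact Lop_mem _ _

lemma Ph_mem {T : Amp HS →L[ℂ] Amp HS} (hT : T ∈ ampR Mdl) : Ph T ∈ Mdl := by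
  apply mem_of_commutant
  intro y hy
  have h1 : Ph.symm y * T = T * Ph.symm y := by
    refine mem_gen_iff.1 hT _ (Ph_symm_comm hy) ?_
    intro s hs
    have h2 := Ph_symm_comm (star_mem hy) s hs
    have h3 := congrArg star h2
    rw [star_mul, star_mul, map_star, star_star] at h3
    exact h3.symm
  have h4 := congrArg Ph h1
  rwa [map_mul, map_mul, StarAlgEquiv.apply_symm_apply] at h4

lemma Lop_odd_mem : ∀ i : PIdx, Ph.symm (Lop 1 (cmb 0 i)) ∈ ampR Mdl := by
  have hadd : ∀ i i' : PIdx, Ph.symm (Lop 1 (cmb 0 i)) ∈ ampR Mdl →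
      Ph.symm (Lop 1 (cmb 0 i')) ∈ ampR Mdl → Ph.symm (Lop 1 (cmb 0 (i + i'))) ∈ ampR Mdl := by
    intro i i' h h'
    have e : Lop 1 (cmb 0 (i + i')) = sgn (dot (cmb 0 i).2 (cmb 0 i').1) •
        (Lop 1 (cmb 0 i) * Lop 1 (cmb 0 i')) := by
      rw [Lop_mul, sgn_smul_smul, one_mul, ← cmb_add, add_zero]
    rw [e, map_smul, map_mul]
    exact smul_memM _ (mul_mem h h')
  have hzero : Ph.symm (Lop 1 (cmb 0 0)) ∈ ampR Mdl := by
    rw [cmb_zero, Lop_one, map_one]
    exact one_mem _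
  have hX : ∀ a : ℕ →₀ ZMod 2, Ph.symm (Lop 1 (cmb 0 (a, 0))) ∈ ampR Mdl := by
    intro a
    induction a using Finsupp.induction_linear with
    | zero => exact hzero
    | add f g hf hg =>
      have := hadd _ _ hf hg
      rwa [Prod.mk_add_mk, add_zero] at this
    | single n v =>
      rcases z2_cases v with rfl | rfl
      · rw [Finsupp.single_zero]; exact hzero
      · rw [← Ph_pauliX, StarAlgEquiv.symm_apply_apply]
        exact oneR_le (pauliX_mem n)
  have hZ : ∀ a : ℕ →₀ ZMod 2, Ph.symm (Lop 1 (cmb 0 (0, a))) ∈ ampR Mdl := by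
    intro a
    induction a using Finsupp.induction_linear with
    | zero => exact hzero
    | add f g hf hg =>
      have := hadd _ _ hf hg
      rwa [Prod.mk_add_mk, add_zero] at this
    | single n v =>
      rcases z2_cases v with rfl | rfl
      · rw [Finsupp.single_zero]; exact hzero
      · rw [← Ph_pauliZ, StarAlgEquiv.symm_apply_apply]
        exact oneR_le (pauliZ_mem n)
  intro i
  have := hadd _ _ (hX i.1) (hZ i.2)
  rwa [Prod.mk_add_mk, add_zero, zero_add] at this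

lemma Ph_symm_mem {y : HS →L[ℂ] HS} (hy : y ∈ Mdl) : Ph.symm y ∈ ampR Mdl := by
  have hL : ∀ g k, Ph.symm (Lop g k) ∈ ampR Mdl := by
    intro g k
    have e : Lop g k = sgn (dot (cmb (evP k) 0).2 (cmb 0 (odP k)).1) •
        (Lop g (cmb (evP k) 0) * Lop 1 (cmb 0 (odP k))) := by
      rw [Lop_mul, sgn_smul_smul, mul_one, ← cmb_add, add_zero, zero_add, cmb_ev_od]
    rw [e, map_smul, map_mul]
    refine smul_memM _ (mul_mem ?_ (Lop_odd_mem _))
    rw [← Ph_tensorOne, StarAlgEquiv.symm_apply_apply]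
    exact tensorOne_mem (Lop_mem _ _)
  apply mem_of_commutant
  intro z hz
  have h1 : Ph z * y = y * Ph z := by
    refine mem_gen_iff.1 hy _ ?_ ?_
    · rintro _ ⟨g, k, rfl⟩
      have := congrArg Ph (comm_commutant (hL g k) hz)
      rwa [map_mul, map_mul, StarAlgEquiv.apply_symm_apply] at this
    · rintro _ ⟨g, k, rfl⟩
      have := congrArg Ph (comm_commutant (star_mem (hL g k)) hz)
      rwa [map_mul, map_mul, map_star, StarAlgEquiv.apply_symm_apply] at this
  apply EquivLike.injective Ph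
  rw [map_mul, map_mul, StarAlgEquiv.apply_symm_apply]
  exact h1

/-- The isomorphism `M ⊗ R ≅ M`. -/
noncomputable def sig : (ampR Mdl).toStarSubalgebra ≃⋆ₐ[ℂ] Mdl.toStarSubalgebra where
  toFun x := ⟨Ph x, Ph_mem x.2⟩
  invFun y := ⟨Ph.symm y, Ph_symm_mem y.2⟩
  left_inv _ := Subtype.ext (Ph.symm_apply_apply _)
  right_inv _ := Subtype.ext (Ph.apply_symm_apply _)
  map_mul' _ _ := Subtype.ext (map_mul Ph _ _)
  map_add' _ _ := Subtype.ext (map_add Ph _ _)
  map_star' _ := Subtype.ext (map_star Ph _)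
  map_smul' c _ := Subtype.ext (map_smul Ph c _)

lemma sig_coe (x : (ampR Mdl).toStarSubalgebra) :
    ((sig x : Mdl.toStarSubalgebra) : HS →L[ℂ] HS) = Ph x := rfl

theorem Mdl_mcDuff : IsMcDuff Mdl := ⟨sig⟩

/-! ## Admissibility -/

lemma Th_symm_Om : Th.symm Om = sg 0 Om := by
  ext i q
  rw [Th_symm_apply]
  by_cases h : i = 0
  · subst h
    rw [sg_same]
    unfold Om
    by_cases hq : q = (1, 0)
    · subst hq
      simp only
      rw [cmb_zero, dl_same]
    · rw [dl_ne hq, dl_ne]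
      intro h2
      apply hq
      simp only [Prod.mk.injEq] at h2
      refine Prod.ext h2.1 ?_
      have h3 := congrArg evP h2.2
      have h4 := evP_cmb 0 0
      rw [evP_cmb] at h3
      rw [cmb_zero] at h4
      rw [h3, h4]
  · rw [sg_ne h]
    unfold Om
    rw [dl_ne]
    · rfl
    · intro h2
      apply h
      simp only [Prod.mk.injEq] at h2
      have h3 := congrArg odP h2.2
      have h4 := odP_cmb 0 0
      rw [odP_cmb] at h3
      rw [cmb_zero] at h4
      rw [h3, h4]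

lemma norm_Ph_tensorOne (x : HS →L[ℂ] HS) : ‖Ph (tensorOne x) Om‖ = ‖x Om‖ := by
  rw [Ph_apply, LinearIsometryEquiv.norm_map, Th_symm_Om, tensorOne_sg, norm_sg]

lemma pact2_eq_cmb {π : Equiv.Perm ℕ} {N : ℕ} (hπ : ∀ m < N, π m = 2 * m) (j : PIdx)
    (hj : ∀ n, N ≤ n → j.1 n = 0 ∧ j.2 n = 0) : pact2 π j = cmb j 0 := by
  have key : ∀ a : ℕ →₀ ZMod 2, (∀ n, N ≤ n → a n = 0) → pact π a = ilv (a, 0) := by
    intro a ha
    ext k
    rw [pact_apply]
    obtain ⟨m, rfl⟩ := π.surjective k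
    rw [Equiv.symm_apply_apply]
    by_cases hm : m < N
    · rw [hπ m hm, ilv_even]
    · rw [ha m (not_lt.1 hm)]
      rcases Nat.even_or_odd' (π m) with ⟨l, hl | hl⟩
      · rw [hl, ilv_even]
        symm
        apply ha
        by_contra hcon
        push Not at hcon
        have h1 := hπ l hcon
        rw [← hl] at h1
        have := π.injective h1
        omega
      · rw [hl, ilv_odd]; rfl
  unfold pact2 cmb
  rw [key j.1 (fun n hn => (hj n hn).1), key j.2 (fun n hn => (hj n hn).2)]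
  rfl

theorem exists_admissible : Admissible Mdl Om sig := by
  refine ⟨fun x => ⟨tensorOne x, tensorOne_mem x.2⟩, fun _ => rfl, ?_⟩
  choose u hu huu π hπ hrel using exists_unitary
  refine ⟨u, fun n => ⟨hu n, huu n⟩, ?_⟩
  intro x
  change Tendsto (fun n => ‖(Ph (tensorOne (x : HS →L[ℂ] HS)) -
    u n * (x : HS →L[ℂ] HS) * star (u n)) Om‖) atTop (𝓝 0)
  -- good elements
  let good : Set (HS →L[ℂ] HS) := {y | y ∈ Mdl ∧ ∀ᶠ n in atTop,
    Ph (tensorOne y) = u n * y * star (u n)}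
  have hL : ∀ g j, Lop g j ∈ good := by
    intro g j
    refine ⟨Lop_mem _ _, ?_⟩
    have hfin : ∃ N, ∀ n, N ≤ n → j.1 n = 0 ∧ j.2 n = 0 := by
      refine ⟨(j.1.support ∪ j.2.support).sup id + 1, fun n hn => ?_⟩
      have hnot : n ∉ j.1.support ∪ j.2.support := by
        intro hmem
        have := Finset.le_sup (f := id) hmem
        simp only [id] at this
        omega
      rw [Finset.mem_union, not_or, Finsupp.notMem_support_iff, Finsupp.notMem_support_iff] at hnot
      exact hnot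
    obtain ⟨N, hN⟩ := hfin
    filter_upwards [eventually_ge_atTop N] with n hn
    rw [Ph_tensorOne, hrel n, mul_assoc, Unitary.mul_star_self_of_mem (huu n), mul_one,
      pact2_eq_cmb (hπ n) j (fun m hm => hN m (le_trans hn hm))]
  have hdense : Dense {ξ : HS | ∃ y ∈ good, y Om = ξ} := by
    apply dense_span_dl.mono
    intro ξ hξ
    induction hξ using Submodule.span_induction with
    | mem x hx =>
      obtain ⟨q, rfl⟩ := hx
      exact ⟨Lop q.1 q.2, hL _ _, Lop_Om _ _⟩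
    | zero =>
      refine ⟨0, ⟨zero_mem Mdl, Eventually.of_forall fun n => ?_⟩, rfl⟩
      rw [mul_zero, zero_mul]
      have : tensorOne (0 : HS →L[ℂ] HS) = 0 := amp_ext fun _ _ => rfl
      rw [this, map_zero]
    | add x y _ _ hx hy =>
      obtain ⟨a, ha, rfl⟩ := hx
      obtain ⟨b, hb, rfl⟩ := hy
      refine ⟨a + b, ⟨add_mem ha.1 hb.1, ?_⟩, rfl⟩
      filter_upwards [ha.2, hb.2] with n h1 h2
      rw [tensorOne_add, map_add, h1, h2, mul_add, add_mul]
    | smul c x _ hx =>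
      obtain ⟨a, ha, rfl⟩ := hx
      refine ⟨c • a, ⟨smul_memM c ha.1, ?_⟩, rfl⟩
      filter_upwards [ha.2] with n h1
      rw [tensorOne_smul, map_smul, h1, mul_smul_comm, smul_mul_assoc]
  rw [Metric.tendsto_atTop]
  intro ε hε
  obtain ⟨_, ⟨y, hy, rfl⟩, hd⟩ := hdense.exists_dist_lt ((x : HS →L[ℂ] HS) Om)
    (show 0 < ε / 4 by positivity)
  rw [dist_eq_norm] at hd
  obtain ⟨N, hN⟩ := eventually_atTop.1 hy.2
  refine ⟨N, fun n hn => ?_⟩
  rw [Real.dist_0_eq_abs, abs_norm]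
  have e : Ph (tensorOne (x : HS →L[ℂ] HS)) - u n * (x : HS →L[ℂ] HS) * star (u n) =
      Ph (tensorOne ((x : HS →L[ℂ] HS) - y)) - u n * ((x : HS →L[ℂ] HS) - y) * star (u n) := by
    have h1 : tensorOne ((x : HS →L[ℂ] HS) - y) = tensorOne (x : HS →L[ℂ] HS) - tensorOne y := by
      apply amp_ext
      intro f i
      rfl
    rw [h1, map_sub, hN n hn, mul_sub, sub_mul]
    abel
  rw [e, sub_apply]
  have b1 : ‖Ph (tensorOne ((x : HS →L[ℂ] HS) - y)) Om‖ < ε / 4 := by
    rw [norm_Ph_tensorOne]; exact hd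
  have b2 : ‖(u n * ((x : HS →L[ℂ] HS) - y) * star (u n)) Om‖ < ε / 4 := by
    rw [Mdl_std.norm_conj (sub_mem x.2 hy.1) (hu n) (huu n)]; exact hd
  have b3 := norm_sub_le (Ph (tensorOne ((x : HS →L[ℂ] HS) - y)) Om)
    ((u n * ((x : HS →L[ℂ] HS) - y) * star (u n)) Om)
  linarith

end Pool.Agent.Lib.MP_41f445_an
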