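import Pool.Agent.Lib.MP_41f445_an.Ell2
import Pool.Agent.Lib.MP_41f445_an.Grp

/-!
# The model factor: a twisted group von Neumann algebra
-/

open Filter Topology
open scoped InnerProductSpace ENNReal

namespace Pool.Agent.Lib.MP_41f445_an

/-! ## Signs -/

lemma z2_cases (a : ZMod 2) : a = 0 ∨ a = 1 := by
  revert a; decide

lemma sgn_zero : sgn 0 = 1 := by simp [sgn]

lemma sgn_one : sgn 1 = -1 := by simp [sgn]

lemma sgn_add (a b : ZMod 2) : sgn (a + b) = sgn a * sgn b := by
  have h11 : (1 : ZMod 2) + 1 = 0 := by decide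
  rcases z2_cases a with rfl | rfl <;> rcases z2_cases b with rfl | rfl <;>
    simp [h11, sgn_zero, sgn_one]

lemma sgn_sq (a : ZMod 2) : sgn a * sgn a = 1 := by
  rcases z2_cases a with rfl | rfl <;> simp [sgn_zero, sgn_one]

lemma sgn_ne (a : ZMod 2) : sgn a ≠ 0 := by
  rcases z2_cases a with rfl | rfl <;> simp [sgn_zero, sgn_one]

lemma star_sgn (a : ZMod 2) : star (sgn a) = sgn a := by
  rcases z2_cases a with rfl | rfl <;> simp [sgn_zero, sgn_one]

/-- The pairing `∑ b_n a_n`. -/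
noncomputable def dot (b a : ℕ →₀ ZMod 2) : ZMod 2 := b.sum fun n v => v * a n

lemma dot_add_left (b b' a : ℕ →₀ ZMod 2) : dot (b + b') a = dot b a + dot b' a := by
  unfold dot
  rw [Finsupp.sum_add_index']
  · intro i; simp
  · intro i x y; ring

lemma dot_add_right (b a a' : ℕ →₀ ZMod 2) : dot b (a + a') = dot b a + dot b a' := by
  unfold dot
  rw [← Finsupp.sum_add]
  congr 1
  funext n v
  rw [Finsupp.add_apply]; ring

lemma dot_zero_left (a : ℕ →₀ ZMod 2) : dot 0 a = 0 := by simp [dot]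

lemma dot_zero_right (b : ℕ →₀ ZMod 2) : dot b 0 = 0 := by simp [dot]

lemma dot_single_left (n : ℕ) (v : ZMod 2) (a : ℕ →₀ ZMod 2) :
    dot (Finsupp.single n v) a = v * a n := by
  unfold dot
  rw [Finsupp.sum_single_index]; simp

lemma dot_single_right (n : ℕ) (v : ZMod 2) (b : ℕ →₀ ZMod 2) :
    dot b (Finsupp.single n v) = b n * v := by
  induction b using Finsupp.induction_linear with
  | zero => simp [dot_zero_left]
  | add f g hf hg => rw [dot_add_left, hf, hg, Finsupp.add_apply]; ring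
  | single m w =>
    rw [dot_single_left]
    by_cases h : n = m
    · subst h; simp
    · rw [Finsupp.single_apply, if_neg h, Finsupp.single_apply, if_neg (Ne.symm h)]
      simp

lemma zadd (a : ZMod 2) : a + a = 0 := by
  fin_cases a <;> decide

lemma fadd (a : ℕ →₀ ZMod 2) : a + a = 0 := by
  ext n
  rw [Finsupp.add_apply, zadd]; rfl

lemma padd (i : PIdx) : i + i = 0 := by
  ext1
  · exact fadd _
  · exact fadd _

lemma padd_cancel (i j : PIdx) : i + j + j = i := by rw [add_assoc, padd, add_zero]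

/-! ## The operators -/

/-- The index set. -/
abbrev Gam : Type := Lam × PIdx

/-- The Hilbert space of the model. -/
abbrev HS : Type := EL2 Gam

lemma lτ_inj (g : Lam) (j : PIdx) :
    Function.Injective (fun q : Gam => ((g⁻¹ * q.1, q.2 + j) : Gam)) := by
  rintro ⟨h, i⟩ ⟨h', i'⟩ e
  simp only [Prod.mk.injEq, mul_right_inj, add_left_inj] at e
  exact Prod.ext e.1 e.2

lemma rτ_inj (g : Lam) (j : PIdx) :
    Function.Injective (fun q : Gam => ((q.1 * g, q.2 + j) : Gam)) := by
  rintro ⟨h, i⟩ ⟨h', i'⟩ e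
  simp only [Prod.mk.injEq, mul_left_inj, add_left_inj] at e
  exact Prod.ext e.1 e.2

/-- Left multiplication operators. -/
noncomputable def Lop (g : Lam) (j : PIdx) : HS →L[ℂ] HS :=
  mop (fun q : Gam => (g⁻¹ * q.1, q.2 + j)) (lτ_inj g j)
    (fun q => sgn (dot j.2 (q.2.1 + j.1))) (fun _ => norm_sgn _)

/-- Right multiplication operators. -/
noncomputable def Rop (g : Lam) (j : PIdx) : HS →L[ℂ] HS :=
  mop (fun q : Gam => (q.1 * g, q.2 + j)) (rτ_inj g j)
    (fun q => sgn (dot (q.2.2 + j.2) j.1)) (fun _ => norm_sgn _)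

lemma Lop_apply (g : Lam) (j : PIdx) (f : HS) (q : Gam) :
    Lop g j f q = sgn (dot j.2 (q.2.1 + j.1)) * f (g⁻¹ * q.1, q.2 + j) := rfl

lemma Rop_apply (g : Lam) (j : PIdx) (f : HS) (q : Gam) :
    Rop g j f q = sgn (dot (q.2.2 + j.2) j.1) * f (q.1 * g, q.2 + j) := rfl

lemma Lop_norm_le (g : Lam) (j : PIdx) : ‖Lop g j‖ ≤ 1 := mop_norm_le _ _ _ _

lemma Lop_one : Lop 1 0 = 1 := by
  refine ContinuousLinearMap.ext fun f => l2_ext fun q => ?_
  rw [Lop_apply]
  simp [dot_zero_left, sgn_zero]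

lemma Lop_mul (g g' : Lam) (j j' : PIdx) :
    Lop g j * Lop g' j' = sgn (dot j.2 j'.1) • Lop (g * g') (j + j') := by
  refine ContinuousLinearMap.ext fun f => l2_ext fun q => ?_
  rw [mul_apply_eq_comp, Lop_apply, Lop_apply, smul_apply, lp.coeFn_smul,
    Pi.smul_apply, Lop_apply, smul_eq_mul]
  have e1 : ((g'⁻¹ * (g⁻¹ * q.1), q.2 + j + j') : Gam) = ((g * g')⁻¹ * q.1, q.2 + (j + j')) := by
    rw [mul_inv_rev, mul_assoc, add_assoc]
  simp only
  rw [e1, ← mul_assoc, ← mul_assoc, ← sgn_add, ← sgn_add]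
  congr 2
  simp only [Prod.snd_add, Prod.fst_add, dot_add_left, dot_add_right]
  have h := zadd (dot j.2 j'.1)
  linear_combination (-1 : ZMod 2) * h

lemma sgn_smul_smul (a : ZMod 2) (x : HS →L[ℂ] HS) : sgn a • (sgn a • x) = x := by
  rw [smul_smul, sgn_sq, one_smul]

lemma Lop_star (g : Lam) (j : PIdx) : star (Lop g j) = sgn (dot j.2 j.1) • Lop g⁻¹ j := by
  apply star_eq_of_contr
  · rw [mul_smul_comm, Lop_mul, mul_inv_cancel, padd, sgn_smul_smul, Lop_one]
  · rw [smul_mul_assoc, Lop_mul, inv_mul_cancel, padd, sgn_smul_smul, Lop_one]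
  · exact Lop_norm_le _ _
  · rw [norm_smul, norm_sgn, one_mul]; exact Lop_norm_le _ _

lemma Lop_unitary (g : Lam) (j : PIdx) : Lop g j ∈ unitary (HS →L[ℂ] HS) := by
  rw [Unitary.mem_iff, Lop_star]
  constructor
  · rw [smul_mul_assoc, Lop_mul, inv_mul_cancel, padd, sgn_smul_smul, Lop_one]
  · rw [mul_smul_comm, Lop_mul, mul_inv_cancel, padd, sgn_smul_smul, Lop_one]

lemma Lop_Rop (g g' : Lam) (j j' : PIdx) : Lop g j * Rop g' j' = Rop g' j' * Lop g j := by
  refine ContinuousLinearMap.ext fun f => l2_ext fun q => ?_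
  rw [mul_apply_eq_comp, Lop_apply, Rop_apply, mul_apply_eq_comp, Rop_apply, Lop_apply]
  have e1 : ((g⁻¹ * q.1 * g', q.2 + j + j') : Gam) = (g⁻¹ * (q.1 * g'), q.2 + j' + j) := by
    rw [mul_assoc, add_right_comm]
  simp only
  rw [e1]
  generalize f (g⁻¹ * (q.1 * g'), q.2 + j' + j) = z
  rw [← mul_assoc, ← mul_assoc, ← sgn_add, ← sgn_add]
  congr 2
  simp only [Prod.snd_add, Prod.fst_add, dot_add_left, dot_add_right]
  ring

/-- The trace vector. -/
noncomputable def Om : HS := dl (1, 0)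

lemma Lop_Om (g : Lam) (j : PIdx) : Lop g j Om = dl (g, j) := by
  apply l2_ext
  intro q
  rw [Lop_apply]
  by_cases h : q = (g, j)
  · subst h
    rw [dl_same]
    have e : ((g⁻¹ * g, j + j) : Gam) = (1, 0) := by rw [inv_mul_cancel, padd]
    simp only
    rw [e]
    unfold Om
    rw [dl_same, fadd, dot_zero_right, sgn_zero, one_mul]
  · rw [dl_ne h]
    unfold Om
    rw [dl_ne, mul_zero]
    intro h2
    apply h
    simp only [Prod.mk.injEq] at h2
    have h3 : q.1 = g := by
      have := h2.1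
      rw [inv_mul_eq_one] at this
      exact this.symm
    have h4 : q.2 = j := by
      have := congrArg (fun z => z + j) h2.2
      rw [padd_cancel, zero_add] at this
      exact this
    exact Prod.ext h3 h4

lemma Rop_Om (g : Lam) (j : PIdx) : Rop g j Om = dl (g⁻¹, j) := by
  apply l2_ext
  intro q
  rw [Rop_apply]
  by_cases h : q = (g⁻¹, j)
  · subst h
    rw [dl_same]
    have e : ((g⁻¹ * g, j + j) : Gam) = (1, 0) := by rw [inv_mul_cancel, padd]
    simp only
    rw [e]
    unfold Om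
    rw [dl_same, fadd, dot_zero_left, sgn_zero, one_mul]
  · rw [dl_ne h]
    unfold Om
    rw [dl_ne, mul_zero]
    intro h2
    apply h
    simp only [Prod.mk.injEq] at h2
    have h3 : q.1 = g⁻¹ := eq_inv_of_mul_eq_one_left h2.1
    have h4 : q.2 = j := by
      have := congrArg (fun z => z + j) h2.2
      rw [padd_cancel, zero_add] at this
      exact this
    exact Prod.ext h3 h4

/-- The model factor. -/
noncomputable def Mdl : VonNeumannAlgebra HS := gen {T | ∃ g j, T = Lop g j}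

lemma Lop_mem (g : Lam) (j : PIdx) : Lop g j ∈ Mdl := mem_gen_of ⟨g, j, rfl⟩

lemma Rop_mem (g : Lam) (j : PIdx) : Rop g j ∈ Mdl.commutant := by
  apply mem_gen_commutant
  · rintro _ ⟨g', j', rfl⟩
    exact Lop_Rop _ _ _ _
  · rintro _ ⟨g', j', rfl⟩
    rw [Lop_star, smul_mul_assoc, mul_smul_comm, Lop_Rop]

lemma Rop_comm {x : HS →L[ℂ] HS} (hx : x ∈ Mdl) (g : Lam) (j : PIdx) (f : HS) :
    x (Rop g j f) = Rop g j (x f) :=
  DFunLike.congr_fun (comm_commutant hx (Rop_mem g j)) f

/-- Coefficients of the adjoint. -/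
lemma star_coeff {x : HS →L[ℂ] HS} (hx : x ∈ Mdl) (g : Lam) (j : PIdx) :
    star (((star x) Om) (g, j)) = sgn (dot j.2 j.1) * (x Om) (g⁻¹, j) := by
  rw [← inner_dl (g, j) ((star x) Om)]
  have e1 : dl (g, j) = Rop g⁻¹ j Om := by rw [Rop_Om, inv_inv]
  rw [e1, ← star_apply_inner', Rop_comm hx]
  have e2 : star ⟪Rop g⁻¹ j (x Om), Om⟫_ℂ = ⟪Om, Rop g⁻¹ j (x Om)⟫_ℂ := by
    rw [← inner_conj_symm Om]; rfl
  rw [e2]
  unfold Om
  rw [inner_dl, Rop_apply]
  simp

lemma trace_formula {x y : HS →L[ℂ] HS} (hx : x ∈ Mdl) :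
    ⟪Om, x (y Om)⟫_ℂ =
      ∑' q : Gam, sgn (dot q.2.2 q.2.1) * (x Om) (q.1⁻¹, q.2) * (y Om) q := by
  rw [star_apply_inner, lp.inner_eq_tsum]
  congr 1
  funext q
  rw [← star_coeff hx q.1 q.2]
  have : ⟪((star x) Om) q, (y Om) q⟫_ℂ = (y Om) q * star (((star x) Om) q) := rfl
  rw [this, mul_comm]

lemma Mdl_cyclic : Dense {ξ : HS | ∃ x ∈ Mdl, x Om = ξ} := by
  apply dense_span_dl.mono
  intro ξ hξ
  induction hξ using Submodule.span_induction with
  | mem x hx =>
    obtain ⟨q, rfl⟩ := hx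
    exact ⟨Lop q.1 q.2, Lop_mem _ _, Lop_Om _ _⟩
  | zero => exact ⟨0, zero_mem Mdl, rfl⟩
  | add x y _ _ hx hy =>
    obtain ⟨a, ha, rfl⟩ := hx
    obtain ⟨b, hb, rfl⟩ := hy
    exact ⟨a + b, add_mem ha hb, rfl⟩
  | smul c x _ hx =>
    obtain ⟨a, ha, rfl⟩ := hx
    exact ⟨c • a, smul_memM c ha, rfl⟩

lemma Mdl_std : Std Mdl Om where
  norm_one := norm_dl _
  cyclic := Mdl_cyclic
  trace := by
    intro x hx y hy
    rw [trace_formula hx, trace_formula hy]
    let e : Gam ≃ Gam := (Equiv.inv Lam).prodCongr (Equiv.refl PIdx)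
    rw [← e.tsum_eq]
    congr 1
    funext q
    have e1 : e q = (q.1⁻¹, q.2) := rfl
    rw [e1]
    simp only
    rw [inv_inv]
    ring

lemma Mdl_factor : ∀ z ∈ Mdl, z ∈ Mdl.commutant → ∃ c : ℂ, z = c • (1 : HS →L[ℂ] HS) := by
  intro z hz hz'
  set f := z Om with hf
  have hL : ∀ g j η, z (Lop g j η) = Lop g j (z η) := by
    intro g j η
    exact (DFunLike.congr_fun (comm_commutant (Lop_mem g j) hz') η).symm
  have key : ∀ (g : Lam) (j : PIdx) (q : Gam),
      sgn (dot j.2 q.2.1 + dot q.2.2 j.1) * f (g⁻¹ * q.1 * g, q.2) = f q := by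
    intro g j q
    have h1 : Lop g j (Rop g j f) = sgn (dot j.2 j.1) • f := by
      rw [hf, ← Rop_comm hz, ← hL]
      have : Lop g j (Rop g j Om) = sgn (dot j.2 j.1) • Om := by
        rw [Rop_Om]
        have : (dl (g⁻¹, j) : HS) = Lop g⁻¹ j Om := (Lop_Om _ _).symm
        rw [this, ← mul_apply_eq_comp, Lop_mul, mul_inv_cancel, padd, Lop_one]
        rfl
      rw [this, map_smul]
    have h2 := congrArg (fun v : HS => (v : Gam → ℂ) q) h1
    simp only at h2
    rw [Lop_apply, Rop_apply, lp.coeFn_smul, Pi.smul_apply, smul_eq_mul] at h2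
    simp only at h2
    rw [padd_cancel, ← mul_assoc, ← sgn_add] at h2
    have h3 : sgn (dot j.2 j.1) * (sgn (dot j.2 (q.2.1 + j.1) + dot ((q.2 + j).2 + j.2) j.1) *
        f (g⁻¹ * q.1 * g, q.2)) = f q := by
      rw [h2, ← mul_assoc, sgn_sq, one_mul]
    rw [← h3, ← mul_assoc, ← sgn_add]
    congr 2
    simp only [Prod.snd_add, dot_add_left, dot_add_right]
    have h := zadd (dot j.2 j.1)
    linear_combination (-2 : ZMod 2) * h
  have hoff : ∀ q : Gam, q ≠ (1, 0) → f q = 0 := by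
    rintro ⟨g, i⟩ hq
    by_cases hg : g = 1
    · subst hg
      have hi : i ≠ 0 := by
        intro h; apply hq; rw [h]
      have hcase : (∃ n, i.1 n ≠ 0) ∨ (∃ n, i.2 n ≠ 0) := by
        by_contra hcon
        push Not at hcon
        apply hi
        ext n
        · exact hcon.1 n
        · exact hcon.2 n
      have two : ∀ a : ZMod 2, a ≠ 0 → a = 1 := by decide
      rcases hcase with ⟨n, hn⟩ | ⟨n, hn⟩
      · have := key 1 (0, Finsupp.single n 1) (1, i)
        simp only [inv_one, mul_one] at this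
        rw [dot_single_left, dot_zero_right, two _ hn, mul_one, add_zero, sgn_one] at this
        linear_combination (-1 / 2 : ℂ) * this
      · have := key 1 (Finsupp.single n 1, 0) (1, i)
        simp only [inv_one, mul_one] at this
        rw [dot_single_right, dot_zero_left, two _ hn, mul_one, zero_add, sgn_one] at this
        linear_combination (-1 / 2 : ℂ) * this
    · refine l2_const_zero f ((fun k : Lam => ((k, i) : Gam)) ''
        (Set.range fun h : Lam => h * g * h⁻¹)) ?_ (f (g, i)) ?_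
      · apply Set.Infinite.image _ (icc g hg)
        intro a _ b _ hab
        simpa using hab
      · rintro _ ⟨_, ⟨h, rfl⟩, rfl⟩
        have := key h⁻¹ 0 (g, i)
        simp only [Prod.snd_zero, Prod.fst_zero, dot_zero_left, dot_zero_right, add_zero,
          sgn_zero, one_mul, inv_inv] at this
        exact this
  refine ⟨f (1, 0), ?_⟩
  apply Mdl_std.eq_of hz (smul_memM _ (one_mem Mdl))
  rw [← hf]
  apply l2_ext
  intro q
  have e : ((f (1, 0) • (1 : HS →L[ℂ] HS)) Om) q = f (1, 0) * Om q := rfl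
  rw [e]
  by_cases h : q = (1, 0)
  · subst h
    unfold Om
    rw [dl_same, mul_one]
  · unfold Om
    rw [hoff q h, dl_ne h, mul_zero]

lemma Gam_infinite : Infinite Gam := by
  have : Infinite Lam := by
    apply Infinite.of_injective (fun n : ℤ => eW ^ n)
    intro n m h
    simp only at h
    by_contra hne
    have h2 : eW ^ (n - m) = 1 := by rw [zpow_sub, h, mul_inv_cancel]
    exact eW_zpow_ne (sub_ne_zero.2 hne) h2
  infer_instance

lemma Mdl_infinite : ¬ FiniteDimensional ℂ Mdl.toStarSubalgebra := by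
  intro hfin
  have hf : Infinite Gam := Gam_infinite
  have hr : FiniteDimensional ℂ (LinearMap.range (evΩ Mdl Om)) := inferInstance
  let v : Gam → LinearMap.range (evΩ Mdl Om) := fun q =>
    ⟨dl q, ⟨⟨Lop q.1 q.2, Lop_mem _ _⟩, Lop_Om _ _⟩⟩
  have hli : LinearIndependent ℂ v := by
    apply LinearIndependent.of_comp (LinearMap.range (evΩ Mdl Om)).subtype
    exact dl_linearIndependent
  have := hli.finite_of_isNoetherian
  exact not_finite Gam

/-- The model is a `II_1` factor. -/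
theorem Mdl_II1 : IsII1Factor Mdl Om where
  separable := l2_separable
  infinite := Mdl_infinite
  factor := Mdl_factor
  norm_one := Mdl_std.norm_one
  cyclic := Mdl_std.cyclic
  trace := Mdl_std.trace

end Pool.Agent.Lib.MP_41f445_an
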