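import Pool.Agent.Lib.MP_41f445_an.Bridge
import Pool.Agent.Lib.MP_41f445_an.Amp
import Pool.Agent.Lib.MP_41f445_an.Core

/-!
# A central element without atoms forbids extreme points
-/

set_option linter.unusedSectionVars false

open Topology Filter
open scoped ComplexOrder InnerProductSpace

namespace Pool.Agent.Lib.MP_41f445_an

section
variable {H : Type} [NormedAddCommGroup H] [InnerProductSpace ℂ H]

/-- The projection of trace one half in `R`. -/
noncomputable def pHalf : Amp H →L[ℂ] Amp H := (1 / 2 : ℂ) • (1 + pauliZ 0)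

lemma one_sub_pHalf : (1 : Amp H →L[ℂ] Amp H) - pHalf = (1 / 2 : ℂ) • (1 - pauliZ 0) := by
  rw [pHalf, smul_add, smul_sub, ← sub_sub]
  congr 1
  have : (1 : Amp H →L[ℂ] Amp H) = (1 / 2 : ℂ) • 1 + (1 / 2 : ℂ) • 1 := by
    rw [← add_smul]; norm_num
  nth_rewrite 1 [this]
  abel

variable [CompleteSpace H]

lemma pHalf_proj : IsStarProjection (pHalf : Amp H →L[ℂ] Amp H) := by
  constructor
  · rw [IsIdempotentElem, pHalf, smul_mul_smul_comm, add_mul, mul_add, mul_add, pauliZ_sq, one_mul,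
      mul_one, one_mul]
    have : (1 + pauliZ 0 + (pauliZ 0 + 1) : Amp H →L[ℂ] Amp H) = (2 : ℂ) • (1 + pauliZ 0) := by
      rw [two_smul]; abel
    rw [this, smul_smul]; norm_num
  · rw [isSelfAdjoint_iff, pHalf, star_smul, star_add, star_one, pauliZ_star]
    congr 1
    simp

lemma pHalf_mem : pHalf ∈ (oneR : VonNeumannAlgebra (Amp H)) :=
  smul_mem_vn (by
    exact add_mem (one_mem _) (pauliZ_mem 0))
where
  smul_mem_vn {c : ℂ} {x : Amp H →L[ℂ] Amp H} (hx : x ∈ (oneR : VonNeumannAlgebra (Amp H))) :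
      c • x ∈ (oneR : VonNeumannAlgebra (Amp H)) :=
    (oneR : VonNeumannAlgebra (Amp H)).toStarSubalgebra.smul_mem hx c

lemma X_mul_one_sub_pHalf : (pauliX 0 : Amp H →L[ℂ] Amp H) * (1 - pHalf) = pHalf * pauliX 0 := by
  rw [one_sub_pHalf, pHalf, mul_smul_comm, smul_mul_assoc, mul_sub, add_mul, pauli_anti, mul_one,
    one_mul, sub_neg_eq_add]

/-- The partial isometry from `1 - p` to `p` in `R`. -/
noncomputable def sHalf : Amp H →L[ℂ] Amp H := pauliX 0 * (1 - pHalf)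

lemma sHalf_mem : sHalf ∈ (oneR : VonNeumannAlgebra (Amp H)) :=
  mul_mem (pauliX_mem 0) (sub_mem (one_mem _) pHalf_mem)

lemma sHalf_star_mul : star (sHalf : Amp H →L[ℂ] Amp H) * sHalf = 1 - pHalf := by
  have hp := (pHalf_proj (H := H)).one_sub
  rw [sHalf, star_mul, hp.isSelfAdjoint.star_eq, pauliX_star]
  calc (1 - pHalf) * pauliX 0 * (pauliX 0 * (1 - pHalf))
      = (1 - pHalf) * ((pauliX 0 * pauliX 0) * (1 - pHalf)) := by simp only [mul_assoc]
    _ = 1 - pHalf := by rw [pauliX_sq, one_mul]; exact hp.isIdempotentElem.eq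

lemma sHalf_mul_star : sHalf * star (sHalf : Amp H →L[ℂ] Amp H) = pHalf := by
  have hp := (pHalf_proj (H := H)).one_sub
  rw [sHalf, star_mul, hp.isSelfAdjoint.star_eq, pauliX_star]
  calc pauliX 0 * (1 - pHalf) * ((1 - pHalf) * pauliX 0)
      = pauliX 0 * ((1 - pHalf) * (1 - pHalf)) * pauliX 0 := by simp only [mul_assoc]
    _ = pauliX 0 * (1 - pHalf) * pauliX 0 := by
      have h2 : ((1 - pHalf : Amp H →L[ℂ] Amp H)) * (1 - pHalf) = 1 - pHalf :=
        hp.isIdempotentElem.eq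
      rw [h2]
    _ = pHalf := by rw [X_mul_one_sub_pHalf, mul_assoc, pauliX_sq, mul_one]

lemma sHalf_pi : sHalf * star (sHalf : Amp H →L[ℂ] Amp H) * sHalf = sHalf := by
  rw [mul_assoc, sHalf_star_mul, sHalf, mul_assoc]
  congr 1
  exact (pHalf_proj (H := H)).one_sub.isIdempotentElem.eq

lemma pHalf_trace {Ω : H} (hΩ : ‖Ω‖ = 1) :
    ⟪ampVec Ω, pHalf (ampVec Ω)⟫_ℂ = (((1 / 2 : ℝ)) : ℂ) := by
  rw [ampVec, lp.inner_single_left]
  have e1 : (pHalf (lp.single 2 (0 : PIdx) Ω : Amp H)) (0 : PIdx) = (1 / 2 : ℂ) • Ω := by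
    have e2 : (pHalf (lp.single 2 (0 : PIdx) Ω : Amp H)) (0 : PIdx) =
        (1 / 2 : ℂ) • ((lp.single 2 (0 : PIdx) Ω : Amp H) 0 +
          sgn ((0 : PIdx).1 0) • (lp.single 2 (0 : PIdx) Ω : Amp H) (addZ 0 0)) := rfl
    rw [e2]
    have e3 : addZ 0 (0 : PIdx) ≠ 0 := by
      intro h0
      have := congrArg (fun i : PIdx => i.2 0) h0
      simp [addZ] at this
    have e4 : (lp.single 2 (0 : PIdx) Ω : Amp H) (addZ 0 0) = 0 := by
      rw [lp.single_apply, Pi.single_eq_of_ne e3]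
    have e5 : (lp.single 2 (0 : PIdx) Ω : Amp H) 0 = Ω := by
      rw [lp.single_apply, Pi.single_eq_same]
    rw [e4, e5, smul_zero, add_zero]
  rw [e1, inner_smul_right, inner_self_eq_norm_sq_to_K, hΩ]
  norm_num

variable {M : VonNeumannAlgebra H} {Ω : H}

lemma WAE.approx {A : Type} [CStarAlgebra A] {f g : A →⋆ₐ[ℂ] M.toStarSubalgebra}
    (hw : WAE M Ω (fun a => (f a : H →L[ℂ] H)) (fun a => (g a : H →L[ℂ] H))) :
    ApproxEquiv (trM M Ω) f g := by
  obtain ⟨u, hu, hlim⟩ := hw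
  refine ⟨fun n => ⟨u n, (hu n).1⟩, fun n => ?_, fun a => ?_⟩
  · rw [Unitary.mem_iff]
    exact ⟨Subtype.ext (Unitary.mem_iff.1 (hu n).2).1, Subtype.ext (Unitary.mem_iff.1 (hu n).2).2⟩
  · refine (hlim a).congr fun n => ?_
    rw [n2_trM]; rfl

/-- **Splitting**: a projection of trace one half in the commutant of a representation splits
its class. -/
theorem exists_split (h : IsII1Factor M Ω)
    (σ : (ampR M).toStarSubalgebra ≃⋆ₐ[ℂ] M.toStarSubalgebra) (hσ : Admissible M Ω σ)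
    {A : Type} [CStarAlgebra A] (π : A →⋆ₐ[ℂ] M.toStarSubalgebra) {q : H →L[ℂ] H} (hqM : q ∈ M)
    (hq : IsStarProjection q) (hqc : ∀ a, q * (π a : H →L[ℂ] H) = (π a : H →L[ℂ] H) * q)
    (hqt : ⟪Ω, q Ω⟫_ℂ = 1 / 2) :
    ∃ π₁ π₂ : A →⋆ₐ[ℂ] M.toStarSubalgebra, IsComb M Ω σ (1 / 2) π₁ π₂ π ∧
      (∀ a, trM M Ω (π₁ a) = 2 * ⟪Ω, ((π a : H →L[ℂ] H) * q) Ω⟫_ℂ) ∧
      ∀ a, trM M Ω (π₂ a) = 2 * ⟪Ω, ((π a : H →L[ℂ] H) * (1 - q)) Ω⟫_ℂ := by
  have hF := h.std.isFiniteVN
  set Q : M.toStarSubalgebra := ⟨q, hqM⟩ with hQ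
  have hQp : IsStarProjection Q := ⟨Subtype.ext hq.isIdempotentElem.eq,
    Subtype.ext hq.isSelfAdjoint.star_eq⟩
  have hQt : trM M Ω Q = 1 / 2 := hqt
  obtain ⟨v, hv1, hv2⟩ := Pool.Agent.Lib.MP_41f445_an.exists_equiv hF h.isFactor hQp hQp.one_sub
    (by rw [map_sub, hF.map_one, hQt]; norm_num)
  have hQc : ∀ a, Commute Q (π a) := fun a => Subtype.ext (hqc a)
  have hQc' : ∀ a, Commute (1 - Q) (π a) := fun a => (Commute.one_left _).sub_left (hQc a)
  have hw1 : star (star v) * star v = 1 - Q := by rw [star_star, hv2]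
  have hw2 : star v * star (star v) = 1 - (1 - Q) := by rw [star_star, hv1]; abel
  refine ⟨halfHom π hQp hQc hv1 hv2, halfHom π hQp.one_sub hQc' hw1 hw2, ?_,
    fun a => halfHom_trace hF π _ _ _ _ a, fun a => halfHom_trace hF π _ _ _ _ a⟩
  -- the flip unitary
  set p : (oneR : VonNeumannAlgebra (Amp H)).toStarSubalgebra := ⟨pHalf, pHalf_mem⟩ with hp
  set s : (oneR : VonNeumannAlgebra (Amp H)).toStarSubalgebra := ⟨sHalf, sHalf_mem⟩ with hs
  have hpp : IsStarProjection p := ⟨Subtype.ext (pHalf_proj (H := H)).isIdempotentElem.eq,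
    Subtype.ext (pHalf_proj (H := H)).isSelfAdjoint.star_eq⟩
  obtain ⟨W, hW1, hW2, hW3⟩ := flip (tHom M) (rHom M)
    (fun x y => Subtype.ext (oneR_comm (x : H →L[ℂ] H) y.2)) hQp hv1 hv2
    (pi_of_proj (by rw [hv1]; exact hQp)) hpp (s := s) (Subtype.ext sHalf_star_mul)
    (Subtype.ext sHalf_mul_star) (Subtype.ext sHalf_pi)
  obtain ⟨j, hj, u, hu, hlim⟩ := hσ
  have hj' : ∀ x, j x = tHom M x := fun x => Subtype.ext (hj x)
  set w : H →L[ℂ] H := (σ W : H →L[ℂ] H) with hw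
  have hwM : w ∈ M := (σ W).2
  have hws : star w = w := by
    have : star (σ W) = σ W := by rw [← map_star, hW1]
    exact congrArg Subtype.val this
  have hww : w * w = 1 := by
    have : σ W * σ W = 1 := by rw [← map_mul, hW2, map_one]
    exact congrArg Subtype.val this
  have hwu : w ∈ unitary (H →L[ℂ] H) := Unitary.mem_iff.2 ⟨by rw [hws, hww], by rw [hws, hww]⟩
  set c : A → (ampR M).toStarSubalgebra := fun a =>
    tHom M (halfHom π hQp hQc hv1 hv2 a) * rHom M p +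
      tHom M (halfHom π hQp.one_sub hQc' hw1 hw2 a) * rHom M (1 - p) with hc
  have hcomb : ∀ a, c a = W * tHom M (π a) * W := by
    intro a
    have h1 := hW3 (π a) (hQc a).eq
    have h3 : tHom M (π a) = W * c a * W := by
      rw [h1]
      simp only [hc, halfHom_apply, star_star]
    rw [h3]
    calc c a = (W * W) * c a * (W * W) := by rw [hW2, one_mul, mul_one]
      _ = W * (W * c a * W) * W := by simp only [mul_assoc]
  refine ⟨pHalf, c, pHalf_proj, pHalf_mem, pHalf_trace h.norm_one, fun a => rfl,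
    fun n => w * u n, fun n => ⟨mul_mem hwM (hu n).1, mul_mem hwu (hu n).2⟩, fun a => ?_⟩
  refine (hlim (π a)).congr fun n => ?_
  have h4 : (σ (c a) : H →L[ℂ] H) = w * (σ (j (π a)) : H →L[ℂ] H) * w := by
    have e1 : σ (c a) = σ W * σ (j (π a)) * σ W := by rw [hcomb, hj', map_mul, map_mul]
    exact congrArg Subtype.val e1
  have h5 : (σ (c a) : H →L[ℂ] H) - w * u n * (π a : H →L[ℂ] H) * star (w * u n) =
      w * ((σ (j (π a)) : H →L[ℂ] H) - u n * (π a : H →L[ℂ] H) * star (u n)) * star w := by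
    rw [h4, star_mul, hws, mul_sub, sub_mul]
    simp only [mul_assoc]
  beta_reduce
  rw [h5]
  refine (h.std.norm_conj ?_ hwM hwu).symm
  exact sub_mem (σ (j (π a))).2 (mul_mem (mul_mem (hu n).1 (π a).2) (star_mem (hu n).1))

/-- **Core theorem**: if the range of `π : A → M` contains a self-adjoint image of a central
element `b` of `A` without atoms then `[π]` is not an extreme point. -/
theorem not_isExtremePt (h : IsII1Factor M Ω)
    (σ : (ampR M).toStarSubalgebra ≃⋆ₐ[ℂ] M.toStarSubalgebra) (hσ : Admissible M Ω σ)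
    {A : Type} [CStarAlgebra A] (π : A →⋆ₐ[ℂ] M.toStarSubalgebra)
    (b : A) (hb : IsSelfAdjoint b) (hbc : ∀ a, b * a = a * b)
    (hat : ∀ (t : ℝ) (e : H →L[ℂ] H), e ∈ M → IsStarProjection e →
      (∀ a, e * (π a : H →L[ℂ] H) = (π a : H →L[ℂ] H) * e) →
      (π b : H →L[ℂ] H) * e = (t : ℂ) • e → e = 0) :
    ¬ IsExtremePt M Ω σ π := by
  intro hext
  have hb' : IsSelfAdjoint (π b : H →L[ℂ] H) := congrArg Subtype.val (hb.map π)
  have hbc' : ∀ a, (π b : H →L[ℂ] H) * (π a : H →L[ℂ] H) = (π a : H →L[ℂ] H) * (π b) := by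
    intro a
    have : π b * π a = π a * π b := by rw [← map_mul, ← map_mul, hbc]
    exact congrArg Subtype.val this
  obtain ⟨q, hqM, hq, hqc, hqt, hne⟩ := h.std.exists_half (π b).2 hb' (fun t e heM he hec hee =>
    hat t e heM he (fun a => hec _ (π a).2 (hbc' a)) hee)
  obtain ⟨π₁, π₂, h1, h2, h3⟩ := exists_split h σ hσ π hqM hq
    (fun a => hqc _ (π a).2 (hbc' a)) hqt
  obtain ⟨h4, h5⟩ := hext (1 / 2) π₁ π₂ (by norm_num) (by norm_num) h1
  have h6 := (WAE.approx h4).trace_eq h.std.isFiniteVN b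
  have h7 := (WAE.approx h5).trace_eq h.std.isFiniteVN b
  rw [h2] at h6
  rw [h3] at h7
  exact hne (mul_left_cancel₀ two_ne_zero (h6.trans h7.symm))

end

end Pool.Agent.Lib.MP_41f445_an
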