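import Pool.Agent.Lib.MP_41f445_an.Sector

/-!
# Relative property (T) for the plane and the free group, quantitative form
-/

open Topology Filter
open scoped InnerProductSpace CStarAlgebra

namespace Pool.Agent.Lib.MP_41f445_an

/-- A real function viewed as a complex function. -/
noncomputable def toC (f : C(Tor, ℝ)) : C(Tor, ℂ) := ⟨fun p => ((f p : ℝ) : ℂ), by fun_prop⟩

@[simp] lemma toC_apply (f : C(Tor, ℝ)) (p : Tor) : toC f p = ((f p : ℝ) : ℂ) := rfl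

section
variable {V : Type*} [NormedAddCommGroup V] [InnerProductSpace ℂ V] [CompleteSpace V]

/-- Vector state on real functions. -/
noncomputable def lam (Ψ : C(Tor, ℂ) →⋆ₐ[ℂ] (V →L[ℂ] V)) (η : V) (f : C(Tor, ℝ)) : ℝ :=
  (⟪η, Ψ (toC f) η⟫_ℂ).re

variable (Ψ : C(Tor, ℂ) →⋆ₐ[ℂ] (V →L[ℂ] V)) (η : V)

lemma toC_add (f g : C(Tor, ℝ)) : toC (f + g) = toC f + toC g := by
  ext p; simp
lemma toC_sub (f g : C(Tor, ℝ)) : toC (f - g) = toC f - toC g := by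
  ext p; simp
lemma toC_smul (c : ℝ) (f : C(Tor, ℝ)) : toC (c • f) = (c : ℂ) • toC f := by
  ext p; simp
lemma toC_one : toC 1 = 1 := by
  ext p; simp

lemma lam_add (f g : C(Tor, ℝ)) : lam Ψ η (f + g) = lam Ψ η f + lam Ψ η g := by
  simp [lam, toC_add]
lemma lam_sub (f g : C(Tor, ℝ)) : lam Ψ η (f - g) = lam Ψ η f - lam Ψ η g := by
  simp [lam, toC_sub]
lemma lam_smul (c : ℝ) (f : C(Tor, ℝ)) : lam Ψ η (c • f) = c * lam Ψ η f := by
  rw [lam, toC_smul, map_smul, smul_apply, inner_smul_right, lam]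
  simp
lemma lam_one : lam Ψ η 1 = ‖η‖ ^ 2 := by
  have : Ψ (toC 1) η = η := by rw [toC_one, map_one]; rfl
  rw [lam, this, ← inner_self_eq_norm_sq (𝕜 := ℂ)]; rfl

/-- The norm of a vector as a value of the state. -/
lemma norm_sq_eq (F : C(Tor, ℂ)) (f : C(Tor, ℝ)) (h : ∀ p, ‖F p‖ ^ 2 = f p) :
    ‖Ψ F η‖ ^ 2 = lam Ψ η f := by
  have h1 : toC f = star F * F := by
    ext p
    have h2 : ((f p : ℝ) : ℂ) = star (F p) * F p := by
      rw [← h p]
      have := Complex.conj_mul' (F p)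
      simp only [RCLike.star_def]
      rw [this]; push_cast; rfl
    simpa using h2
  rw [lam, h1, map_mul, map_star]
  rw [← inner_self_eq_norm_sq (𝕜 := ℂ)]
  have : ⟪η, (star (Ψ F) * Ψ F) η⟫_ℂ = ⟪Ψ F η, Ψ F η⟫_ℂ := by
    rw [mul_apply_eq_comp, ContinuousLinearMap.star_eq_adjoint,
      ContinuousLinearMap.adjoint_inner_right]
  rw [this]; rfl

lemma lam_nonneg (f : C(Tor, ℝ)) (h : ∀ p, 0 ≤ f p) : 0 ≤ lam Ψ η f := by
  have := norm_sq_eq Ψ η (toC ⟨fun p => Real.sqrt (f p), by fun_prop⟩) f (by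
    intro p
    simp [Real.sq_sqrt (h p)])
  rw [← this]; positivity

lemma lam_mono (f g : C(Tor, ℝ)) (h : ∀ p, f p ≤ g p) : lam Ψ η f ≤ lam Ψ η g := by
  have := lam_nonneg Ψ η (g - f) (fun p => by simpa using h p)
  rw [lam_sub] at this; linarith

/-- Norm bound for functions with values in the unit interval. -/
lemma norm_toC_le (f : C(Tor, ℝ)) (h0 : ∀ p, 0 ≤ f p) (h1 : ∀ p, f p ≤ 1) (v : V) :
    ‖Ψ (toC f) v‖ ≤ ‖v‖ := by
  have e1 := norm_sq_eq Ψ v (toC f) (f * f) (by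
    intro p; simp [sq])
  have e2 := lam_mono Ψ v (f * f) 1 (fun p => by
    simpa using mul_le_one₀ (h1 p) (h0 p) (h1 p))
  rw [lam_one] at e2
  have : ‖Ψ (toC f) v‖ ^ 2 ≤ ‖v‖ ^ 2 := by rw [e1]; exact e2
  exact le_of_sq_le_sq this (norm_nonneg _)

/-- Almost invariance of the state under a change of variables implemented by a unitary. -/
lemma lam_shift (u : V →L[ℂ] V) (hu : u ∈ unitary (V →L[ℂ] V)) (γ : C(Tor, Tor))
    (hγ : ∀ F : C(Tor, ℂ), Ψ (F.comp γ) = u * Ψ F * star u)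
    (f : C(Tor, ℝ)) (h0 : ∀ p, 0 ≤ f p) (h1 : ∀ p, f p ≤ 1) (hη : ‖η‖ = 1) (δ : ℝ)
    (hδ : ‖u η - η‖ ≤ δ) : lam Ψ η f - 2 * δ ≤ lam Ψ η (f.comp γ) := by
  have hs : star u * u = 1 := Unitary.star_mul_self_of_mem hu
  set ζ := star u η with hζ
  have hzn : ‖ζ‖ = 1 := by
    have h := ContinuousLinearMap.norm_map_of_mem_unitary (Unitary.star_mem hu) η
    rw [hζ, h, hη]
  have hzd : ‖ζ - η‖ ≤ δ := by
    have e : ζ - η = - star u (u η - η) := by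
      rw [map_sub, ← mul_apply_eq_comp, hs]
      simp [hζ]
    rw [e, norm_neg, ContinuousLinearMap.norm_map_of_mem_unitary (Unitary.star_mem hu)]
    exact hδ
  have e1 : lam Ψ η (f.comp γ) = (⟪ζ, Ψ (toC f) ζ⟫_ℂ).re := by
    have : toC (f.comp γ) = (toC f).comp γ := by ext p; rfl
    rw [lam, this, hγ, mul_apply_eq_comp, mul_apply_eq_comp]
    rw [← ContinuousLinearMap.adjoint_inner_left, ← ContinuousLinearMap.star_eq_adjoint]
  rw [e1, lam]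
  have e2 : ⟪η, Ψ (toC f) η⟫_ℂ - ⟪ζ, Ψ (toC f) ζ⟫_ℂ =
      ⟪η - ζ, Ψ (toC f) η⟫_ℂ + ⟪ζ, Ψ (toC f) (η - ζ)⟫_ℂ := by
    rw [map_sub, inner_sub_left, inner_sub_right]; ring
  have b1 : ‖⟪η - ζ, Ψ (toC f) η⟫_ℂ‖ ≤ δ := by
    calc _ ≤ ‖η - ζ‖ * ‖Ψ (toC f) η‖ := norm_inner_le_norm _ _
      _ ≤ δ * 1 := by
        apply mul_le_mul
        · rw [norm_sub_rev]; exact hzd
        · rw [← hη]; exact norm_toC_le Ψ f h0 h1 η
        · positivity
        · exact le_trans (norm_nonneg _) hzd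
      _ = δ := mul_one δ
  have b2 : ‖⟪ζ, Ψ (toC f) (η - ζ)⟫_ℂ‖ ≤ δ := by
    calc _ ≤ ‖ζ‖ * ‖Ψ (toC f) (η - ζ)‖ := norm_inner_le_norm _ _
      _ ≤ 1 * δ := by
        apply mul_le_mul (le_of_eq hzn) _ (norm_nonneg _) zero_le_one
        exact le_trans (norm_toC_le Ψ f h0 h1 _) (by rw [norm_sub_rev]; exact hzd)
      _ = δ := one_mul δ
  have b3 : (⟪η, Ψ (toC f) η⟫_ℂ).re - (⟪ζ, Ψ (toC f) ζ⟫_ℂ).re ≤ 2 * δ := by
    rw [← Complex.sub_re, e2, Complex.add_re]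
    have := Complex.re_le_norm ⟪η - ζ, Ψ (toC f) η⟫_ℂ
    have := Complex.re_le_norm ⟪ζ, Ψ (toC f) (η - ζ)⟫_ℂ
    linarith
  linarith

end

/-- The change of variables `(z,w) ↦ (z, z^3 w)`. -/
noncomputable def gA : C(Tor, Tor) := ⟨fun p => (p.1, p.1 ^ 3 * p.2), by fun_prop⟩
/-- The inverse change of variables. -/
noncomputable def gA' : C(Tor, Tor) := ⟨fun p => (p.1, (p.1 ^ 3)⁻¹ * p.2), by fun_prop⟩
/-- The change of variables `(z,w) ↦ (w^3 z, w)`. -/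
noncomputable def gB : C(Tor, Tor) := ⟨fun p => (p.2 ^ 3 * p.1, p.2), by fun_prop⟩
/-- The inverse change of variables. -/
noncomputable def gB' : C(Tor, Tor) := ⟨fun p => ((p.2 ^ 3)⁻¹ * p.1, p.2), by fun_prop⟩

section
variable {V : Type*} [NormedAddCommGroup V] [InnerProductSpace ℂ V] [CompleteSpace V]

lemma cov_of_coord (Ψ : C(Tor, ℂ) →⋆ₐ[ℂ] (V →L[ℂ] V)) (u : V →L[ℂ] V)
    (hu : u ∈ unitary (V →L[ℂ] V)) (γ : C(Tor, Tor))
    (h1 : Ψ (cz1.comp γ) = u * Ψ cz1 * star u) (h2 : Ψ (cz2.comp γ) = u * Ψ cz2 * star u) :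
    ∀ F : C(Tor, ℂ), Ψ (F.comp γ) = u * Ψ F * star u := by
  let uu : unitary (V →L[ℂ] V) := ⟨u, hu⟩
  let φ : C(Tor, ℂ) →⋆ₐ[ℂ] (V →L[ℂ] V) := Ψ.comp (ContinuousMap.compStarAlgHom' ℂ ℂ γ)
  let ψ : C(Tor, ℂ) →⋆ₐ[ℂ] (V →L[ℂ] V) :=
    ((Unitary.conjStarAlgAut ℂ (V →L[ℂ] V) uu : (V →L[ℂ] V) ≃⋆ₐ[ℂ] (V →L[ℂ] V)) :
      (V →L[ℂ] V) →⋆ₐ[ℂ] (V →L[ℂ] V)).comp Ψ
  have : φ = ψ := starHom_ext φ ψ h1 h2
  intro F
  exact DFunLike.congr_fun this F

lemma cz1_gA : cz1.comp gA = cz1 := by ext p; rfl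
lemma cz2_gA : cz2.comp gA = cz1 ^ 3 * cz2 := by ext p; simp [gA, cz1, cz2]
lemma cz1_gB : cz1.comp gB = cz2 ^ 3 * cz1 := by ext p; simp [gB, cz1, cz2]
lemma cz2_gB : cz2.comp gB = cz2 := by ext p; rfl

lemma gA_gA' : gA.comp gA' = ContinuousMap.id _ := by
  ext p <;> simp [gA, gA']
lemma gB_gB' : gB.comp gB' = ContinuousMap.id _ := by
  ext p <;> simp [gB, gB']

/-- Covariance for the inverse change of variables. -/
lemma cov_inv (Ψ : C(Tor, ℂ) →⋆ₐ[ℂ] (V →L[ℂ] V)) (u : V →L[ℂ] V)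
    (hu : u ∈ unitary (V →L[ℂ] V)) (γ γ' : C(Tor, Tor)) (hγ : γ'.comp γ = ContinuousMap.id _)
    (h : ∀ F : C(Tor, ℂ), Ψ (F.comp γ) = u * Ψ F * star u) :
    ∀ F : C(Tor, ℂ), Ψ (F.comp γ') = star u * Ψ F * star (star u) := by
  intro F
  have h1 := h (F.comp γ')
  rw [ContinuousMap.comp_assoc, hγ, ContinuousMap.comp_id] at h1
  rw [h1, star_star]
  have hs := Unitary.star_mul_self_of_mem hu
  calc Ψ (F.comp γ') = (star u * u) * Ψ (F.comp γ') * (star u * u) := by rw [hs]; simp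
    _ = star u * (u * Ψ (F.comp γ') * star u) * u := by simp only [mul_assoc]

lemma gA'_gA : gA'.comp gA = ContinuousMap.id _ := by
  ext p <;> simp [gA, gA']
lemma gB'_gB : gB'.comp gB = ContinuousMap.id _ := by
  ext p <;> simp [gB, gB']

lemma norm_pow_sub_le (u : V →L[ℂ] V) (hu : u ∈ unitary (V →L[ℂ] V)) (η : V) (ε : ℝ)
    (h : ‖u η - η‖ ≤ ε) (k : ℕ) : ‖(u ^ k) η - η‖ ≤ k * ε := by
  induction k with
  | zero => simp
  | succ k ih =>
    have e : (u ^ (k + 1)) η - η = (u ^ k) (u η - η) + ((u ^ k) η - η) := by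
      rw [pow_succ, mul_apply_eq_comp, map_sub]; abel
    rw [e]
    calc _ ≤ ‖(u ^ k) (u η - η)‖ + ‖(u ^ k) η - η‖ := norm_add_le _ _
      _ ≤ ε + k * ε := by
        rw [ContinuousLinearMap.norm_map_of_mem_unitary (pow_mem hu k)]
        linarith
      _ = ((k + 1 : ℕ) : ℝ) * ε := by push_cast; ring

/-- Quantitative relative property (T). -/
theorem relT (r₁ r₂ A B : V →L[ℂ] V) (hr₁ : r₁ ∈ unitary (V →L[ℂ] V))
    (hr₂ : r₂ ∈ unitary (V →L[ℂ] V)) (hA : A ∈ unitary (V →L[ℂ] V))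
    (hB : B ∈ unitary (V →L[ℂ] V)) (hc : r₁ * r₂ = r₂ * r₁)
    (hA1 : A * r₁ = r₁ * A) (hA2 : A * r₂ = r₁ * r₂ * A)
    (hB2 : B * r₂ = r₂ * B) (hB1 : B * r₁ = r₁ * r₂ * B)
    (η : V) (hη : ‖η‖ = 1) (ε : ℝ) (h1 : ‖r₁ η - η‖ ≤ ε) (h2 : ‖r₂ η - η‖ ≤ ε)
    (h3 : ‖A η - η‖ ≤ ε) (h4 : ‖B η - η‖ ≤ ε) (k : ℕ) :
    ‖(r₁ ^ k) η - η‖ ≤ 2 * Real.sqrt (24 * ε + 40 * ε ^ 2) := by
  obtain ⟨Ψ, hΨ1, hΨ2⟩ := exists_joint r₁ r₂ hr₁ hr₂ hc
  have hε : 0 ≤ ε := le_trans (norm_nonneg _) h1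
  -- covariance
  have hA3 : A ^ 3 * r₂ = r₁ ^ 3 * r₂ * A ^ 3 := by
    have c : Commute A r₁ := hA1
    have c2 : Commute A (r₁ ^ 2) := c.pow_right 2
    calc A ^ 3 * r₂ = A * A * (A * r₂) := by rw [pow_succ, pow_two]; simp only [mul_assoc]
      _ = A * (A * r₁) * r₂ * A := by rw [hA2]; simp only [mul_assoc]
      _ = A * (r₁ * A) * r₂ * A := by rw [hA1]
      _ = A * r₁ * (A * r₂) * A := by simp only [mul_assoc]
      _ = (A * (r₁ ^ 2)) * r₂ * A ^ 2 := by rw [hA2]; simp only [pow_succ, pow_zero, one_mul, mul_assoc]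
      _ = r₁ ^ 2 * (A * r₂) * A ^ 2 := by rw [c2.eq]; simp only [pow_succ, pow_zero, one_mul, mul_assoc]
      _ = r₁ ^ 3 * r₂ * A ^ 3 := by rw [hA2]; simp only [pow_succ, pow_zero, one_mul, mul_assoc]
  have hB3 : B ^ 3 * r₁ = r₂ ^ 3 * r₁ * B ^ 3 := by
    have hB1' : B * r₁ = r₂ * r₁ * B := by rw [hB1, hc]
    have c : Commute B r₂ := hB2
    have c2 : Commute B (r₂ ^ 2) := c.pow_right 2
    calc B ^ 3 * r₁ = B * B * (B * r₁) := by rw [pow_succ, pow_two]; simp only [mul_assoc]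
      _ = B * (B * r₂) * r₁ * B := by rw [hB1']; simp only [mul_assoc]
      _ = B * (r₂ * B) * r₁ * B := by rw [hB2]
      _ = B * r₂ * (B * r₁) * B := by simp only [mul_assoc]
      _ = (B * (r₂ ^ 2)) * r₁ * B ^ 2 := by rw [hB1']; simp only [pow_succ, pow_zero, one_mul, mul_assoc]
      _ = r₂ ^ 2 * (B * r₁) * B ^ 2 := by rw [c2.eq]; simp only [pow_succ, pow_zero, one_mul, mul_assoc]
      _ = r₂ ^ 3 * r₁ * B ^ 3 := by rw [hB1']; simp only [pow_succ, pow_zero, one_mul, mul_assoc]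
  have hA3u : A ^ 3 ∈ unitary (V →L[ℂ] V) := pow_mem hA 3
  have hB3u : B ^ 3 ∈ unitary (V →L[ℂ] V) := pow_mem hB 3
  have hA31 : A ^ 3 * r₁ = r₁ * A ^ 3 := (Commute.pow_left (show Commute A r₁ from hA1) 3).eq
  have hB32 : B ^ 3 * r₂ = r₂ * B ^ 3 := (Commute.pow_left (show Commute B r₂ from hB2) 3).eq
  have covA : ∀ F : C(Tor, ℂ), Ψ (F.comp gA) = A ^ 3 * Ψ F * star (A ^ 3) := by
    apply cov_of_coord Ψ _ hA3u
    · rw [cz1_gA, hΨ1, hA31, mul_assoc, Unitary.mul_star_self_of_mem hA3u, mul_one]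
    · rw [cz2_gA, map_mul, map_pow, hΨ1, hΨ2, hA3, mul_assoc,
        Unitary.mul_star_self_of_mem hA3u, mul_one]
  have covB : ∀ F : C(Tor, ℂ), Ψ (F.comp gB) = B ^ 3 * Ψ F * star (B ^ 3) := by
    apply cov_of_coord Ψ _ hB3u
    · rw [cz1_gB, map_mul, map_pow, hΨ1, hΨ2, hB3, mul_assoc,
        Unitary.mul_star_self_of_mem hB3u, mul_one]
    · rw [cz2_gB, hΨ2, hB32, mul_assoc, Unitary.mul_star_self_of_mem hB3u, mul_one]
  have covA' := cov_inv Ψ _ hA3u gA gA' gA'_gA covA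
  have covB' := cov_inv Ψ _ hB3u gB gB' gB'_gB covB
  have dA : ‖(A ^ 3) η - η‖ ≤ 3 * ε := by
    have := norm_pow_sub_le A hA η ε h3 3; exact_mod_cast this
  have dB : ‖(B ^ 3) η - η‖ ≤ 3 * ε := by
    have := norm_pow_sub_le B hB η ε h4 3; exact_mod_cast this
  have inv_d : ∀ u : V →L[ℂ] V, u ∈ unitary (V →L[ℂ] V) → ‖u η - η‖ ≤ 3 * ε →
      ‖(star u) η - η‖ ≤ 3 * ε := by
    intro u hu hd
    have e : (star u) η - η = - (star u) (u η - η) := by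
      rw [map_sub, ← mul_apply_eq_comp, Unitary.star_mul_self_of_mem hu]
      simp
    rw [e, norm_neg, ContinuousLinearMap.norm_map_of_mem_unitary (Unitary.star_mem hu)]
    exact hd
  have dA' := inv_d _ hA3u dA
  have dB' := inv_d _ hB3u dB
  -- the error term
  have hef : lam Ψ η ef ≤ 2 * ε ^ 2 := by
    have e1 := norm_sq_eq Ψ η (cz1 - 1) ⟨fun p => ‖((p.1 : Circle) : ℂ) - 1‖ ^ 2, by fun_prop⟩
      (fun p => by simp [cz1])
    have e2 := norm_sq_eq Ψ η (cz2 - 1) ⟨fun p => ‖((p.2 : Circle) : ℂ) - 1‖ ^ 2, by fun_prop⟩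
      (fun p => by simp [cz2])
    have e3 : (ef : C(Tor, ℝ)) = (⟨fun p => ‖((p.1 : Circle) : ℂ) - 1‖ ^ 2, by fun_prop⟩ : C(Tor, ℝ)) +
      ⟨fun p => ‖((p.2 : Circle) : ℂ) - 1‖ ^ 2, by fun_prop⟩ := by ext p; rfl
    rw [e3, lam_add, ← e1, ← e2, map_sub, map_sub, map_one, hΨ1, hΨ2]
    have n1 : ‖(r₁ - 1) η‖ ≤ ε := by simpa using h1
    have n2 : ‖(r₂ - 1) η‖ ≤ ε := by simpa using h2
    nlinarith [norm_nonneg ((r₁ - 1) η), norm_nonneg ((r₂ - 1) η)]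
  -- the limit
  set L : ℕ → ℝ := fun j => lam Ψ η (gf (2 ^ j)) with hL
  have hLanti : Antitone L := by
    apply antitone_nat_of_succ_le
    intro j
    apply lam_mono
    intro p
    apply gf_anti
    exact pow_le_pow_right₀ (by norm_num) (Nat.le_succ j)
  have hLnn : ∀ j, 0 ≤ L j := fun j => lam_nonneg Ψ η _ (gf_nonneg _)
  obtain ⟨l, hl⟩ : ∃ l, Tendsto L atTop (𝓝 l) :=
    ⟨_, tendsto_atTop_ciInf hLanti ⟨0, by rintro _ ⟨j, rfl⟩; exact hLnn j⟩⟩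
  have hdiff : Tendsto (fun j => L (j + 2) - L (j + 6)) atTop (𝓝 0) := by
    have a := hl.comp (tendsto_add_atTop_nat 2)
    have b := hl.comp (tendsto_add_atTop_nat 6)
    simpa using a.sub b
  have main : ∀ j : ℕ, 1 - L (j + 3) ≤ 24 * ε + 4 * (L (j + 2) - L (j + 6)) + 40 * ε ^ 2 := by
    intro j
    have hn : (0 : ℝ) < 2 ^ (j + 3) := by positivity
    have hn8 : (8 : ℝ) ≤ 2 ^ (j + 3) := by
      rw [pow_add]; norm_num
      have : (1 : ℝ) ≤ 2 ^ j := one_le_pow₀ (by norm_num)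
      linarith
    have en1 : (2 : ℝ) ^ (j + 3) / 2 = 2 ^ (j + 2) := by
      rw [pow_succ]; ring
    have en2 : 8 * (2 : ℝ) ^ (j + 3) = 2 ^ (j + 6) := by
      rw [show j + 6 = (j + 3) + 3 by ring, pow_add _ (j + 3) 3]; ring
    have pA := lam_mono Ψ η ((bf _ hn).comp gA + (bf _ hn).comp gA')
      (af _ hn + (2 : ℝ) • (gf (2 ^ (j + 2)) - gf (2 ^ (j + 6))) + (10 : ℝ) • ef) (by
        intro p
        have := pointwise_A _ hn hn8 p
        rw [en1, en2] at this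
        exact this)
    have pB := lam_mono Ψ η ((af _ hn).comp gB + (af _ hn).comp gB')
      (bf _ hn + (2 : ℝ) • (gf (2 ^ (j + 2)) - gf (2 ^ (j + 6))) + (10 : ℝ) • ef) (by
        intro p
        have := pointwise_B _ hn hn8 p
        rw [en1, en2] at this
        exact this)
    rw [lam_add, lam_add, lam_add, lam_smul, lam_smul, lam_sub] at pA pB
    have s1 := lam_shift Ψ η (A ^ 3) hA3u gA covA (bf _ hn) (bf_nonneg _ hn) (bf_le_one _ hn) hη _ dA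
    have s2 := lam_shift Ψ η (star (A ^ 3)) (Unitary.star_mem hA3u) gA' covA' (bf _ hn)
      (bf_nonneg _ hn) (bf_le_one _ hn) hη _ dA'
    have s3 := lam_shift Ψ η (B ^ 3) hB3u gB covB (af _ hn) (af_nonneg _ hn) (af_le_one _ hn) hη _ dB
    have s4 := lam_shift Ψ η (star (B ^ 3)) (Unitary.star_mem hB3u) gB' covB' (af _ hn)
      (af_nonneg _ hn) (af_le_one _ hn) hη _ dB'
    have c := lam_mono Ψ η (1 - gf (2 ^ (j + 3))) (af _ hn + bf _ hn) (cover _ hn)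
    rw [lam_sub, lam_add, lam_one, hη] at c
    simp only [hL]
    linarith
  have hlim : 1 - l ≤ 24 * ε + 40 * ε ^ 2 := by
    have t1 : Tendsto (fun j : ℕ => 1 - L (j + 3)) atTop (𝓝 (1 - l)) :=
      (tendsto_const_nhds).sub (hl.comp (tendsto_add_atTop_nat 3))
    have t2 : Tendsto (fun j : ℕ => 24 * ε + 4 * (L (j + 2) - L (j + 6)) + 40 * ε ^ 2) atTop
        (𝓝 (24 * ε + 4 * 0 + 40 * ε ^ 2)) :=
      ((tendsto_const_nhds.add (hdiff.const_mul 4))).add tendsto_const_nhds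
    have := le_of_tendsto_of_tendsto' t1 t2 main
    linarith
  -- conclusion
  have bound : ∀ j : ℕ, ‖(r₁ ^ k) η - η‖ ≤ 2 * Real.sqrt (1 - L j) + k * (2 / 2 ^ j) := by
    intro j
    set ζ := Ψ (toC (gf (2 ^ j))) η with hζ
    have hz1 : ‖η - ζ‖ ≤ Real.sqrt (1 - L j) := by
      apply Real.le_sqrt_of_sq_le
      have e := norm_sq_eq Ψ η (1 - toC (gf (2 ^ j)))
        ((1 - gf (2 ^ j)) * (1 - gf (2 ^ j))) (by
          intro p
          have : (1 - toC (gf (2 ^ j))) p = (((1 - gf (2 ^ j) p : ℝ)) : ℂ) := by simp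
          rw [this, Complex.norm_real, Real.norm_eq_abs, sq_abs]
          simp [sq])
      have e' : Ψ (1 - toC (gf (2 ^ j))) η = η - ζ := by
        have h9 : Ψ (1 - toC (gf (2 ^ j))) = 1 - Ψ (toC (gf (2 ^ j))) := by rw [map_sub, map_one]
        rw [h9]; rfl
      rw [e'] at e
      rw [e]
      have m := lam_mono Ψ η ((1 - gf (2 ^ j)) * (1 - gf (2 ^ j))) (1 - gf (2 ^ j)) (fun p => by
        have g0 := gf_nonneg (2 ^ j) p
        have g1 := gf_le_one (2 ^ j) p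
        change (1 - gf (2 ^ j) p) * (1 - gf (2 ^ j) p) ≤ 1 - gf (2 ^ j) p
        nlinarith)
      rw [lam_sub Ψ η 1, lam_one, hη] at m
      simpa [hL] using m
    have hz2 : ‖r₁ ζ - ζ‖ ≤ 2 / 2 ^ j := by
      have e : r₁ ζ - ζ = Ψ ((cz1 - 1) * toC (gf (2 ^ j))) η := by
        rw [map_mul, map_sub, map_one, hΨ1, mul_apply_eq_comp]
        rfl
      have hn : (0 : ℝ) < 2 ^ j := by positivity
      have e2 := norm_sq_eq Ψ η ((cz1 - 1) * toC (gf (2 ^ j)))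
        ⟨fun p => (‖((p.1 : Circle) : ℂ) - 1‖ * gf (2 ^ j) p) ^ 2, by fun_prop⟩ (by
          intro p
          have g0 := gf_nonneg (2 ^ j) p
          simp [cz1, abs_of_nonneg g0])
      have e3 := lam_mono Ψ η
        ⟨fun p => (‖((p.1 : Circle) : ℂ) - 1‖ * gf (2 ^ j) p) ^ 2, by fun_prop⟩
        ((((2 / 2 ^ j) ^ 2 : ℝ)) • (1 : C(Tor, ℝ))) (by
          intro p
          change (‖((p.1 : Circle) : ℂ) - 1‖ * gf (2 ^ j) p) ^ 2 ≤ (2 / 2 ^ j) ^ 2 * 1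
          rw [mul_one]
          apply pow_le_pow_left₀ (mul_nonneg (norm_nonneg _) (gf_nonneg _ _))
          have hang : ‖((p.1 : Circle) : ℂ) - 1‖ ≤ ang p.1 := by
            obtain ⟨x, hx, hxe⟩ : ∃ x : ℝ, |x| ≤ Real.pi ∧ p.1 = Circle.exp x :=
              ⟨Complex.arg (p.1 : ℂ), Complex.abs_arg_le_pi _, (Circle.exp_arg p.1).symm⟩
            rw [hxe, ang_exp hx]
            have h5 := normSq_exp_sub_one x
            have h6 := Real.one_sub_sq_div_two_le_cos (x := x)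
            have h7 : ‖((Circle.exp x : Circle) : ℂ) - 1‖ ^ 2 ≤ |x| ^ 2 := by
              rw [h5, sq_abs]; linarith
            exact le_of_sq_le_sq h7 (abs_nonneg _)
          by_cases hm : 2 / 2 ^ j ≤ msz p
          · have g0 : gf (2 ^ j) p = 0 := by
              change cl (2 - 2 ^ j * msz p) = 0
              apply cl_of_nonpos
              rw [div_le_iff₀ hn] at hm; linarith [mul_comm (2 ^ j) (msz p)]
            rw [g0, mul_zero]; positivity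
          · push Not at hm
            have g1 := gf_le_one (2 ^ j) p
            have g0 := gf_nonneg (2 ^ j) p
            calc ‖((p.1 : Circle) : ℂ) - 1‖ * gf (2 ^ j) p
                ≤ ‖((p.1 : Circle) : ℂ) - 1‖ * 1 := mul_le_mul_of_nonneg_left g1 (norm_nonneg _)
              _ ≤ ang p.1 := by rw [mul_one]; exact hang
              _ ≤ msz p := le_max_left _ _
              _ ≤ 2 / 2 ^ j := hm.le)
      rw [← e2, lam_smul, lam_one, hη, ← e] at e3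
      have : ‖r₁ ζ - ζ‖ ^ 2 ≤ (2 / 2 ^ j) ^ 2 := by linarith
      exact le_of_sq_le_sq this (by positivity)
    have hz3 := norm_pow_sub_le r₁ hr₁ ζ _ hz2 k
    have e : (r₁ ^ k) η - η = (r₁ ^ k) (η - ζ) + ((r₁ ^ k) ζ - ζ) + (ζ - η) := by
      rw [map_sub]; abel
    rw [e]
    calc _ ≤ ‖(r₁ ^ k) (η - ζ)‖ + ‖(r₁ ^ k) ζ - ζ‖ + ‖ζ - η‖ := norm_add₃_le
      _ ≤ Real.sqrt (1 - L j) + k * (2 / 2 ^ j) + Real.sqrt (1 - L j) := by
        rw [ContinuousLinearMap.norm_map_of_mem_unitary (pow_mem hr₁ k), norm_sub_rev ζ η]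
        linarith
      _ = _ := by ring
  have t1 : Tendsto (fun j : ℕ => 2 * Real.sqrt (1 - L j) + k * (2 / 2 ^ j)) atTop
      (𝓝 (2 * Real.sqrt (1 - l) + k * 0)) := by
    apply Tendsto.add
    · apply Tendsto.const_mul
      exact (Real.continuous_sqrt.tendsto _).comp (tendsto_const_nhds.sub hl)
    · apply Tendsto.const_mul
      have : Tendsto (fun j : ℕ => (2 : ℝ) * ((1 / 2) ^ j)) atTop (𝓝 (2 * 0)) :=
        (tendsto_pow_atTop_nhds_zero_of_lt_one (by norm_num) (by norm_num)).const_mul 2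
      simpa [div_eq_mul_inv] using this
  have t2 := ge_of_tendsto' t1 bound
  rw [mul_zero, add_zero] at t2
  refine le_trans t2 ?_
  have := Real.sqrt_le_sqrt hlim
  linarith

end

end Pool.Agent.Lib.MP_41f445_an
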