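import Pool.Agent.Lib.MP_41f445_an.Joint

/-!
# Sector functions on the torus

Two families of continuous functions on the torus which show that no probability
measure on the torus without atom at the origin is almost invariant under the
linear action of the free group.
-/

open Topology Filter

namespace Pool.Agent.Lib.MP_41f445_an

/-- Truncation to `[0,1]`. -/
noncomputable def cl (t : ℝ) : ℝ := max 0 (min 1 t)

lemma cl_nonneg (t : ℝ) : 0 ≤ cl t := le_max_left _ _
lemma cl_le_one (t : ℝ) : cl t ≤ 1 := max_le zero_le_one (min_le_left _ _)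
lemma cl_mono {s t : ℝ} (h : s ≤ t) : cl s ≤ cl t :=
  max_le_max le_rfl (min_le_min le_rfl h)
lemma cl_of_nonpos {t : ℝ} (h : t ≤ 0) : cl t = 0 := by
  unfold cl; rw [min_eq_right (by linarith), max_eq_left h]
lemma cl_of_one_le {t : ℝ} (h : 1 ≤ t) : cl t = 1 := by
  unfold cl; rw [min_eq_left h]; simp
lemma cl_of_mem {t : ℝ} (h0 : 0 ≤ t) (h1 : t ≤ 1) : cl t = t := by
  unfold cl; rw [min_eq_right h1, max_eq_right h0]
lemma cl_compl (t : ℝ) : cl (1 - t) = 1 - cl t := by
  rcases le_total t 0 with h | h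
  · rw [cl_of_nonpos h, cl_of_one_le (by linarith)]; ring
  rcases le_total t 1 with h1 | h1
  · rw [cl_of_mem h h1, cl_of_mem (by linarith) (by linarith)]
  · rw [cl_of_one_le h1, cl_of_nonpos (by linarith)]; ring
@[fun_prop] lemma cl_continuous : Continuous cl := by unfold cl; fun_prop

/-- Unsigned angle of a point of the circle. -/
noncomputable def ang (z : Circle) : ℝ := Real.arccos (z : ℂ).re

lemma ang_nonneg (z : Circle) : 0 ≤ ang z := Real.arccos_nonneg _
lemma ang_le_pi (z : Circle) : ang z ≤ Real.pi := Real.arccos_le_pi _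
@[fun_prop] lemma ang_continuous : Continuous ang := by unfold ang; fun_prop

lemma ang_exp {t : ℝ} (ht : |t| ≤ Real.pi) : ang (Circle.exp t) = |t| := by
  unfold ang
  rw [Circle.coe_exp, Complex.exp_ofReal_mul_I_re, ← Real.cos_abs,
    Real.arccos_cos (abs_nonneg _) ht]

/-- Sector function, real variable version. -/
noncomputable def sec (x y : ℝ) : ℝ := cl ((2 * |x| - |y|) / max |x| |y|)

lemma sec_nonneg (x y : ℝ) : 0 ≤ sec x y := cl_nonneg _
lemma sec_le_one (x y : ℝ) : sec x y ≤ 1 := cl_le_one _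

lemma sec_eq_one {x y : ℝ} (hx : x ≠ 0) (h : |y| ≤ |x|) : sec x y = 1 := by
  have hx' : 0 < |x| := abs_pos.2 hx
  unfold sec
  rw [max_eq_left h]
  apply cl_of_one_le
  rw [le_div_iff₀ hx']; linarith

lemma sec_eq_zero {x y : ℝ} (h : 2 * |x| ≤ |y|) : sec x y = 0 := by
  unfold sec
  apply cl_of_nonpos
  apply div_nonpos_of_nonpos_of_nonneg (by linarith)
  exact le_max_of_le_left (abs_nonneg _)

/-- The sectors cover the punctured plane. -/
lemma sec_add_ge {x y : ℝ} (h : 0 < max |x| |y|) : 1 ≤ sec x y + sec y x := by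
  rcases le_total |y| |x| with h1 | h1
  · have hx : x ≠ 0 := by
      rintro rfl
      simp at h1; subst h1; simp at h
    rw [sec_eq_one hx h1]
    linarith [sec_nonneg y x]
  · have hy : y ≠ 0 := by
      rintro rfl
      simp at h1; subst h1; simp at h
    rw [sec_eq_one hy h1]
    linarith [sec_nonneg x y]

/-- Ping-pong inequality. -/
lemma sec_pingpong {x y : ℝ} (h : 0 < max |x| |y|) :
    sec x (y + 3 * x) + sec x (y - 3 * x) ≤ sec y x := by
  by_cases h1 : |y - 3 * x| < 2 * |x|
  · have hx : x ≠ 0 := by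
      rintro rfl; simp at h1
      exact absurd h1 (not_lt.2 (abs_nonneg _))
    have hxy : |x| < |y| := by
      have := abs_sub_abs_le_abs_sub (3 * x) y
      rw [abs_sub_comm (3 * x) y, abs_mul, abs_of_pos (by norm_num : (0:ℝ) < 3)] at this
      linarith
    have hy : y ≠ 0 := by
      rintro rfl
      simp at hxy
      exact absurd hxy (not_lt.2 (abs_nonneg _))
    have h2 : 2 * |x| ≤ |y + 3 * x| := by
      have h3 : |y + 3 * x| = |6 * x + (y - 3 * x)| := by ring_nf
      have h4 : |6 * x| - |y - 3 * x| ≤ |6 * x + (y - 3 * x)| := by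
        have := abs_sub_abs_le_abs_sub (6 * x) (-(y - 3 * x))
        rw [abs_neg, sub_neg_eq_add] at this
        exact this
      rw [abs_mul, abs_of_pos (by norm_num : (0:ℝ) < 6)] at h4
      rw [h3]
      linarith [abs_nonneg x]
    rw [sec_eq_zero h2, sec_eq_one hy hxy.le]
    linarith [sec_le_one x (y - 3 * x)]
  · push Not at h1
    rw [sec_eq_zero h1, add_zero]
    by_cases h2 : |y + 3 * x| < 2 * |x|
    · have hxy : |x| < |y| := by
        have := abs_sub_abs_le_abs_sub (3 * x) (-y)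
        rw [sub_neg_eq_add, abs_neg, add_comm (3 * x) y, abs_mul,
          abs_of_pos (by norm_num : (0:ℝ) < 3)] at this
        linarith
      have hy : y ≠ 0 := by
        rintro rfl
        simp at hxy
        exact absurd hxy (not_lt.2 (abs_nonneg _))
      rw [sec_eq_one hy hxy.le]
      exact sec_le_one _ _
    · push Not at h2
      rw [sec_eq_zero h2]
      exact sec_nonneg _ _

/-- Size of a point of the torus. -/
noncomputable def msz (p : Tor) : ℝ := max (ang p.1) (ang p.2)

lemma msz_nonneg (p : Tor) : 0 ≤ msz p := le_max_of_le_left (ang_nonneg _)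
@[fun_prop] lemma msz_continuous : Continuous msz := by unfold msz; fun_prop

/-- Cut-off function at the origin. -/
noncomputable def gf (n : ℝ) : C(Tor, ℝ) := ⟨fun p => cl (2 - n * msz p), by fun_prop⟩

/-- Truncated sector function. -/
noncomputable def bf (n : ℝ) (hn : 0 < n) : C(Tor, ℝ) :=
  ⟨fun p => cl ((2 * ang p.1 - ang p.2) / max (msz p) (1 / n)) * cl (n * msz p - 1), by
    have h0 : ∀ p : Tor, max (msz p) (1 / n) ≠ 0 := fun p =>
      ne_of_gt (lt_of_lt_of_le (by positivity) (le_max_right _ _))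
    fun_prop (disch := exact h0)⟩

/-- Truncated sector function. -/
noncomputable def af (n : ℝ) (hn : 0 < n) : C(Tor, ℝ) :=
  ⟨fun p => cl ((2 * ang p.2 - ang p.1) / max (msz p) (1 / n)) * cl (n * msz p - 1), by
    have h0 : ∀ p : Tor, max (msz p) (1 / n) ≠ 0 := fun p =>
      ne_of_gt (lt_of_lt_of_le (by positivity) (le_max_right _ _))
    fun_prop (disch := exact h0)⟩

lemma af_swap (n : ℝ) (hn : 0 < n) (p : Tor) : af n hn p = bf n hn p.swap := by
  simp [af, bf, msz, max_comm]

lemma gf_swap (n : ℝ) (p : Tor) : gf n p.swap = gf n p := by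
  simp [gf, msz, max_comm]

lemma bf_nonneg (n : ℝ) (hn : 0 < n) (p : Tor) : 0 ≤ bf n hn p :=
  mul_nonneg (cl_nonneg _) (cl_nonneg _)
lemma bf_le_one (n : ℝ) (hn : 0 < n) (p : Tor) : bf n hn p ≤ 1 :=
  mul_le_one₀ (cl_le_one _) (cl_nonneg _) (cl_le_one _)
lemma af_nonneg (n : ℝ) (hn : 0 < n) (p : Tor) : 0 ≤ af n hn p :=
  mul_nonneg (cl_nonneg _) (cl_nonneg _)
lemma af_le_one (n : ℝ) (hn : 0 < n) (p : Tor) : af n hn p ≤ 1 :=
  mul_le_one₀ (cl_le_one _) (cl_nonneg _) (cl_le_one _)

lemma gf_nonneg (n : ℝ) (p : Tor) : 0 ≤ gf n p := cl_nonneg _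
lemma gf_le_one (n : ℝ) (p : Tor) : gf n p ≤ 1 := cl_le_one _
lemma gf_anti {m n : ℝ} (h : m ≤ n) (p : Tor) : gf n p ≤ gf m p := by
  apply cl_mono
  nlinarith [msz_nonneg p]

/-- Value of `bf` at a point in exponential coordinates. -/
lemma bf_exp (n : ℝ) (hn : 0 < n) {x y : ℝ} (hx : |x| ≤ Real.pi) (hy : |y| ≤ Real.pi)
    (hpos : 0 < max |x| |y|) : bf n hn (Circle.exp x, Circle.exp y) ≤ sec x y := by
  change cl ((2 * ang (Circle.exp x) - ang (Circle.exp y)) /
    max (max (ang (Circle.exp x)) (ang (Circle.exp y))) (1 / n)) *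
    cl (n * (max (ang (Circle.exp x)) (ang (Circle.exp y))) - 1) ≤ sec x y
  rw [ang_exp hx, ang_exp hy]
  have h1 : cl ((2 * |x| - |y|) / max (max |x| |y|) (1 / n)) ≤ sec x y := by
    unfold sec
    rcases le_total 0 (2 * |x| - |y|) with h | h
    · apply cl_mono
      exact div_le_div_of_nonneg_left h hpos (le_max_left _ _)
    · rw [cl_of_nonpos]
      · exact cl_nonneg _
      · exact div_nonpos_of_nonpos_of_nonneg h (le_trans (le_of_lt hpos) (le_max_left _ _))
  calc _ ≤ cl ((2 * |x| - |y|) / max (max |x| |y|) (1 / n)) * 1 :=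
        mul_le_mul_of_nonneg_left (cl_le_one _) (cl_nonneg _)
    _ ≤ sec x y := by rw [mul_one]; exact h1

lemma bf_exp_zero (n : ℝ) (hn : 0 < n) {x y : ℝ} (hx : |x| ≤ Real.pi) (hy : |y| ≤ Real.pi)
    (h : n * max |x| |y| ≤ 1) : bf n hn (Circle.exp x, Circle.exp y) = 0 := by
  change cl ((2 * ang (Circle.exp x) - ang (Circle.exp y)) /
    max (max (ang (Circle.exp x)) (ang (Circle.exp y))) (1 / n)) *
    cl (n * (max (ang (Circle.exp x)) (ang (Circle.exp y))) - 1) = 0
  rw [ang_exp hx, ang_exp hy, cl_of_nonpos (t := n * max |x| |y| - 1) (by linarith), mul_zero]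

lemma af_exp (n : ℝ) (hn : 0 < n) {x y : ℝ} (hx : |x| ≤ Real.pi) (hy : |y| ≤ Real.pi)
    (h2 : 2 ≤ n * max |x| |y|) : af n hn (Circle.exp x, Circle.exp y) = sec y x := by
  change cl ((2 * ang (Circle.exp y) - ang (Circle.exp x)) /
    max (max (ang (Circle.exp x)) (ang (Circle.exp y))) (1 / n)) *
    cl (n * (max (ang (Circle.exp x)) (ang (Circle.exp y))) - 1) = sec y x
  rw [ang_exp hx, ang_exp hy, cl_of_one_le (t := n * max |x| |y| - 1) (by linarith), mul_one]
  have h3 : 1 / n ≤ max |x| |y| := by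
    rw [div_le_iff₀ hn]; linarith [mul_comm n (max |x| |y|)]
  rw [max_eq_left h3]
  unfold sec
  rw [max_comm |x| |y|]

lemma one_sub_cos_ge {t : ℝ} (h1 : 3 / 4 ≤ |t|) (h2 : |t| ≤ Real.pi) :
    1 / 5 ≤ 2 - 2 * Real.cos t := by
  have h3 : Real.cos t ≤ Real.cos (3 / 4) := by
    rw [← Real.cos_abs t]
    exact Real.cos_le_cos_of_nonneg_of_le_pi (by norm_num) h2 h1
  have h4 := (abs_le.1 (Real.cos_bound (x := 3 / 4) (by rw [abs_of_pos] <;> norm_num))).2
  rw [abs_of_pos (by norm_num : (0:ℝ) < 3 / 4)] at h4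
  norm_num at h4
  linarith

lemma normSq_exp_sub_one (t : ℝ) :
    ‖((Circle.exp t : Circle) : ℂ) - 1‖ ^ 2 = 2 - 2 * Real.cos t := by
  rw [← Complex.normSq_eq_norm_sq, Circle.coe_exp, Complex.normSq_apply]
  simp only [Complex.sub_re, Complex.sub_im, Complex.exp_ofReal_mul_I_re,
    Complex.exp_ofReal_mul_I_im, Complex.one_re, Complex.one_im]
  nlinarith [Real.sin_sq_add_cos_sq t]

/-- Error term. -/
noncomputable def ef : C(Tor, ℝ) :=
  ⟨fun p => ‖((p.1 : Circle) : ℂ) - 1‖ ^ 2 + ‖((p.2 : Circle) : ℂ) - 1‖ ^ 2, by fun_prop⟩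

lemma ef_nonneg (p : Tor) : 0 ≤ ef p := by
  change 0 ≤ ‖((p.1 : Circle) : ℂ) - 1‖ ^ 2 + ‖((p.2 : Circle) : ℂ) - 1‖ ^ 2
  positivity

/-- The main pointwise inequality. -/
lemma pointwise_A (n : ℝ) (hn : 0 < n) (hn8 : 8 ≤ n) (p : Tor) :
    bf n hn (p.1, p.1 ^ 3 * p.2) + bf n hn (p.1, (p.1 ^ 3)⁻¹ * p.2) ≤
      af n hn p + 2 * (gf (n / 2) p - gf (8 * n) p) + 10 * ef p := by
  obtain ⟨x, hx, hxe⟩ : ∃ x : ℝ, |x| ≤ Real.pi ∧ p.1 = Circle.exp x :=
    ⟨Complex.arg (p.1 : ℂ), Complex.abs_arg_le_pi _, (Circle.exp_arg p.1).symm⟩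
  obtain ⟨y, hy, hye⟩ : ∃ y : ℝ, |y| ≤ Real.pi ∧ p.2 = Circle.exp y :=
    ⟨Complex.arg (p.2 : ℂ), Complex.abs_arg_le_pi _, (Circle.exp_arg p.2).symm⟩
  obtain ⟨p1, p2⟩ := p
  simp only at hxe hye
  subst hxe hye
  simp only
  have e1 : Circle.exp x ^ 3 * Circle.exp y = Circle.exp (y + 3 * x) := by
    rw [Circle.exp_add, mul_comm]
    congr 1
    have := Circle.exp_nsmul x 3
    rw [nsmul_eq_mul] at this
    exact this.symm
  have e2 : (Circle.exp x ^ 3)⁻¹ * Circle.exp y = Circle.exp (y - 3 * x) := by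
    rw [sub_eq_add_neg, Circle.exp_add, Circle.exp_neg, mul_comm]
    congr 2
    have := Circle.exp_nsmul x 3
    rw [nsmul_eq_mul] at this
    exact this.symm
  rw [e1, e2]
  have hg : 0 ≤ gf (n / 2) (Circle.exp x, Circle.exp y) - gf (8 * n) (Circle.exp x, Circle.exp y) := by
    have := gf_anti (m := n / 2) (n := 8 * n) (by linarith) (Circle.exp x, Circle.exp y)
    linarith
  have hef : ef (Circle.exp x, Circle.exp y) = (2 - 2 * Real.cos x) + (2 - 2 * Real.cos y) := by
    change ‖((Circle.exp x : Circle) : ℂ) - 1‖ ^ 2 + ‖((Circle.exp y : Circle) : ℂ) - 1‖ ^ 2 = _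
    rw [normSq_exp_sub_one, normSq_exp_sub_one]
  have ha0 := af_nonneg n hn (Circle.exp x, Circle.exp y)
  have he0 := ef_nonneg (Circle.exp x, Circle.exp y)
  have hb1 := bf_le_one n hn (Circle.exp x, Circle.exp (y + 3 * x))
  have hb2 := bf_le_one n hn (Circle.exp x, Circle.exp (y - 3 * x))
  have hcx : 0 ≤ 2 - 2 * Real.cos x := by linarith [Real.cos_le_one x]
  have hcy : 0 ≤ 2 - 2 * Real.cos y := by linarith [Real.cos_le_one y]
  by_cases hbig : 3 / 4 ≤ max |x| |y|
  · have : 1 / 5 ≤ ef (Circle.exp x, Circle.exp y) := by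
      rw [hef]
      rcases le_max_iff.1 hbig with h | h
      · linarith [one_sub_cos_ge h hx]
      · linarith [one_sub_cos_ge h hy]
    linarith
  · push Not at hbig
    have hx34 : |x| < 3 / 4 := lt_of_le_of_lt (le_max_left _ _) hbig
    have hy34 : |y| < 3 / 4 := lt_of_le_of_lt (le_max_right _ _) hbig
    have hp : (3 : ℝ) < Real.pi := Real.pi_gt_three
    have hx' := abs_lt.1 hx34
    have hy' := abs_lt.1 hy34
    have h3 : |y + 3 * x| ≤ Real.pi := by
      rw [abs_le]; constructor <;> linarith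
    have h4 : |y - 3 * x| ≤ Real.pi := by
      rw [abs_le]; constructor <;> linarith
    by_cases hmid : 2 ≤ n * max |x| |y|
    · have hpos : 0 < max |x| |y| := by
        by_contra hcon
        push Not at hcon
        nlinarith
      have hpos' : ∀ s : ℝ, (s = 3 ∨ s = -3) → 0 < max |x| |y + s * x| := by
        intro s hs
        by_contra hcon
        push Not at hcon
        have hx0 : |x| ≤ 0 := le_trans (le_max_left _ _) hcon
        have hx00 : x = 0 := abs_nonpos_iff.1 hx0
        have hy0 : |y + s * x| ≤ 0 := le_trans (le_max_right _ _) hcon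
        rw [hx00, mul_zero, add_zero] at hy0
        have hy00 : y = 0 := abs_nonpos_iff.1 hy0
        rw [hx00, hy00] at hpos
        simp at hpos
      have q1 := hpos' 3 (Or.inl rfl)
      have q2 := hpos' (-3) (Or.inr rfl)
      have q2' : 0 < max |x| |y - 3 * x| := by
        have : y - 3 * x = y + (-3) * x := by ring
        rw [this]; exact q2
      have b1 := bf_exp n hn hx h3 q1
      have b2 := bf_exp n hn hx h4 q2'
      have a1 := af_exp n hn hx hy hmid
      have pp := sec_pingpong hpos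
      rw [a1]
      linarith
    · push Not at hmid
      by_cases hsm : 4 * (n * max |x| |y|) ≤ 1
      · have k1 : n * max |x| |y + 3 * x| ≤ 1 := by
          have : max |x| |y + 3 * x| ≤ 4 * max |x| |y| := by
            apply max_le
            · linarith [le_max_left |x| |y|, le_max_of_le_left (b := |x|) (c := |y|) (abs_nonneg x)]
            · have := abs_add_le y (3 * x)
              rw [abs_mul, abs_of_pos (by norm_num : (0:ℝ) < 3)] at this
              linarith [le_max_left |x| |y|, le_max_right |x| |y|]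
          nlinarith
        have k2 : n * max |x| |y - 3 * x| ≤ 1 := by
          have : max |x| |y - 3 * x| ≤ 4 * max |x| |y| := by
            apply max_le
            · linarith [le_max_left |x| |y|, le_max_of_le_left (b := |x|) (c := |y|) (abs_nonneg x)]
            · have := abs_sub y (3 * x)
              rw [abs_mul, abs_of_pos (by norm_num : (0:ℝ) < 3)] at this
              linarith [le_max_left |x| |y|, le_max_right |x| |y|]
          nlinarith
        rw [bf_exp_zero n hn hx h3 k1, bf_exp_zero n hn hx h4 k2]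
        linarith
      · push Not at hsm
        have g1 : gf (n / 2) (Circle.exp x, Circle.exp y) = 1 := by
          change cl (2 - n / 2 * (max (ang (Circle.exp x)) (ang (Circle.exp y)))) = 1
          rw [ang_exp hx, ang_exp hy]
          apply cl_of_one_le
          linarith
        have g2 : gf (8 * n) (Circle.exp x, Circle.exp y) = 0 := by
          change cl (2 - 8 * n * (max (ang (Circle.exp x)) (ang (Circle.exp y)))) = 0
          rw [ang_exp hx, ang_exp hy]
          apply cl_of_nonpos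
          linarith
        rw [g1, g2]
        linarith

/-- Symmetric version. -/
lemma pointwise_B (n : ℝ) (hn : 0 < n) (hn8 : 8 ≤ n) (p : Tor) :
    af n hn (p.2 ^ 3 * p.1, p.2) + af n hn ((p.2 ^ 3)⁻¹ * p.1, p.2) ≤
      bf n hn p + 2 * (gf (n / 2) p - gf (8 * n) p) + 10 * ef p := by
  have h := pointwise_A n hn hn8 p.swap
  have h1 : af n hn p.swap = bf n hn p := by rw [af_swap]; simp
  have h2 : ef p.swap = ef p := by
    change ‖((p.2 : Circle) : ℂ) - 1‖ ^ 2 + ‖((p.1 : Circle) : ℂ) - 1‖ ^ 2 =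
      ‖((p.1 : Circle) : ℂ) - 1‖ ^ 2 + ‖((p.2 : Circle) : ℂ) - 1‖ ^ 2
    ring
  rw [h1, gf_swap, gf_swap, h2] at h
  rw [af_swap, af_swap]
  exact h

/-- The truncated sector functions cover the complement of the origin. -/
lemma cover (n : ℝ) (hn : 0 < n) (p : Tor) : 1 - gf n p ≤ af n hn p + bf n hn p := by
  obtain ⟨x, hx, hxe⟩ : ∃ x : ℝ, |x| ≤ Real.pi ∧ p.1 = Circle.exp x :=
    ⟨Complex.arg (p.1 : ℂ), Complex.abs_arg_le_pi _, (Circle.exp_arg p.1).symm⟩
  obtain ⟨y, hy, hye⟩ : ∃ y : ℝ, |y| ≤ Real.pi ∧ p.2 = Circle.exp y :=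
    ⟨Complex.arg (p.2 : ℂ), Complex.abs_arg_le_pi _, (Circle.exp_arg p.2).symm⟩
  obtain ⟨p1, p2⟩ := p
  simp only at hxe hye
  subst hxe hye
  have hg : 1 - gf n (Circle.exp x, Circle.exp y) = cl (n * max |x| |y| - 1) := by
    change 1 - cl (2 - n * (max (ang (Circle.exp x)) (ang (Circle.exp y)))) = _
    rw [ang_exp hx, ang_exp hy, ← cl_compl]
    congr 1; ring
  rw [hg]
  rcases le_or_gt (n * max |x| |y|) 1 with h | h
  · rw [cl_of_nonpos (by linarith)]
    linarith [af_nonneg n hn (Circle.exp x, Circle.exp y), bf_nonneg n hn (Circle.exp x, Circle.exp y)]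
  · have hpos : 0 < max |x| |y| := by
      by_contra hcon
      push Not at hcon
      nlinarith
    have h3 : 1 / n ≤ max |x| |y| := by
      rw [div_le_iff₀ hn]; linarith [mul_comm n (max |x| |y|)]
    have ea : af n hn (Circle.exp x, Circle.exp y) = sec y x * cl (n * max |x| |y| - 1) := by
      change cl ((2 * ang (Circle.exp y) - ang (Circle.exp x)) /
        max (max (ang (Circle.exp x)) (ang (Circle.exp y))) (1 / n)) *
        cl (n * (max (ang (Circle.exp x)) (ang (Circle.exp y))) - 1) = _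
      rw [ang_exp hx, ang_exp hy, max_eq_left h3]
      unfold sec
      rw [max_comm |x| |y|]
    have eb : bf n hn (Circle.exp x, Circle.exp y) = sec x y * cl (n * max |x| |y| - 1) := by
      change cl ((2 * ang (Circle.exp x) - ang (Circle.exp y)) /
        max (max (ang (Circle.exp x)) (ang (Circle.exp y))) (1 / n)) *
        cl (n * (max (ang (Circle.exp x)) (ang (Circle.exp y))) - 1) = _
      rw [ang_exp hx, ang_exp hy, max_eq_left h3]
      rfl
    rw [ea, eb]
    nlinarith [sec_add_ge hpos, cl_nonneg (n * max |x| |y| - 1)]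

end Pool.Agent.Lib.MP_41f445_an
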