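import Pool.Agent.Lib.MP_41f445_an.CompStd

/-!
# Spectral projections of prescribed trace
-/

open Filter Topology
open scoped InnerProductSpace

namespace Pool.Agent.Lib.MP_41f445_an

variable {H : Type} [NormedAddCommGroup H] [InnerProductSpace ℂ H] [CompleteSpace H]

/-- `(s - c)_+`. -/
noncomputable def cutP (c : H →L[ℂ] H) (s : ℝ) : H →L[ℂ] H := cfc (fun x : ℝ => max (s - x) 0) c

/-- `(c - s)_+`. -/
noncomputable def cutN (c : H →L[ℂ] H) (s : ℝ) : H →L[ℂ] H := cfc (fun x : ℝ => max (x - s) 0) c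

section cut
variable {c : H →L[ℂ] H}

lemma contP (s : ℝ) : Continuous (fun x : ℝ => max (s - x) 0) := by fun_prop
lemma contN (s : ℝ) : Continuous (fun x : ℝ => max (x - s) 0) := by fun_prop

lemma cutP_sa (s : ℝ) : star (cutP c s) = cutP c s := IsSelfAdjoint.star_eq (cfc_predicate _ _)
lemma cutN_sa (s : ℝ) : star (cutN c s) = cutN c s := IsSelfAdjoint.star_eq (cfc_predicate _ _)

lemma cutP_comm {y : H →L[ℂ] H} (h : c * y = y * c) (s : ℝ) : cutP c s * y = y * cutP c s :=
  (show Commute c y from h).cfc_real _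
lemma cutN_comm {y : H →L[ℂ] H} (h : c * y = y * c) (s : ℝ) : cutN c s * y = y * cutN c s :=
  (show Commute c y from h).cfc_real _

lemma cutP_sub_le (s s' : ℝ) : ‖cutP c s - cutP c s'‖ ≤ |s - s'| := by
  unfold cutP
  rw [← cfc_sub _ _ c (contP s).continuousOn (contP s').continuousOn]
  apply norm_cfc_le (abs_nonneg _)
  intro x _
  rw [Real.norm_eq_abs]
  refine le_trans (abs_max_sub_max_le_abs _ _ _) ?_
  rw [show s - x - (s' - x) = s - s' by ring]

lemma cutN_sub_le (s s' : ℝ) : ‖cutN c s - cutN c s'‖ ≤ |s - s'| := by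
  unfold cutN
  rw [← cfc_sub _ _ c (contN s).continuousOn (contN s').continuousOn]
  apply norm_cfc_le (abs_nonneg _)
  intro x _
  rw [Real.norm_eq_abs]
  refine le_trans (abs_max_sub_max_le_abs _ _ _) ?_
  rw [show x - s - (x - s') = -(s - s') by ring, abs_neg]

lemma cutN_mul_cutP (s : ℝ) : cutN c s * cutP c s = 0 := by
  unfold cutN cutP
  rw [← cfc_mul _ _ c (contN s).continuousOn (contP s).continuousOn]
  have : (fun x : ℝ => max (x - s) 0 * max (s - x) 0) = fun _ => 0 := by
    funext x
    rcases le_total x s with h | h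
    · rw [max_eq_right (by linarith : x - s ≤ 0), zero_mul]
    · rw [max_eq_right (by linarith : s - x ≤ 0), mul_zero]
  rw [this]
  simp

lemma cut_sub (hc : IsSelfAdjoint c) (s : ℝ) :
    cutN c s - cutP c s = c - (s : ℂ) • (1 : H →L[ℂ] H) := by
  unfold cutN cutP
  rw [← cfc_sub _ _ c (contN s).continuousOn (contP s).continuousOn]
  have e : (fun x : ℝ => max (x - s) 0 - max (s - x) 0) = fun x => x - s := by
    funext x
    rcases le_total x s with h | h
    · rw [max_eq_right (by linarith : x - s ≤ 0), max_eq_left (by linarith : 0 ≤ s - x)]; ring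
    · rw [max_eq_right (by linarith : s - x ≤ 0), max_eq_left (by linarith : 0 ≤ x - s)]; ring
  rw [e, cfc_sub (fun x : ℝ => x) (fun _ => s) c, cfc_id' ℝ c, cfc_const s c,
    Algebra.algebraMap_eq_smul_one]
  congr 1

lemma cutP_factor {s s' : ℝ} (hs : s < s') : ∃ k : H →L[ℂ] H, cutP c s = cutP c s' * k ∧
    ∀ y : H →L[ℂ] H, c * y = y * c → k * y = y * k := by
  have cg : Continuous (fun x : ℝ => max (s - x) 0 / max (s' - x) (s' - s)) := by
    apply Continuous.div (contP s) (by fun_prop)
    intro x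
    have : 0 < max (s' - x) (s' - s) := lt_max_of_lt_right (by linarith)
    exact this.ne'
  refine ⟨cfc (fun x : ℝ => max (s - x) 0 / max (s' - x) (s' - s)) c, ?_, ?_⟩
  · unfold cutP
    rw [← cfc_mul _ _ c (contP s').continuousOn cg.continuousOn]
    congr 1
    funext x
    rcases le_total x s with h | h
    · rw [max_eq_left (by linarith : 0 ≤ s - x), max_eq_left (by linarith : 0 ≤ s' - x),
        max_eq_left (by linarith : s' - s ≤ s' - x)]
      have : s' - x ≠ 0 := by linarith
      field_simp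
    · rw [max_eq_right (by linarith : s - x ≤ 0), zero_div, mul_zero]
  · intro y hy
    exact (show Commute c y from hy).cfc_real _

end cut

/-- The closed range of `(s - c)_+ p`. -/
noncomputable def cutK (c p : H →L[ℂ] H) (s : ℝ) : Submodule ℂ H :=
  (LinearMap.range ((cutP c s * p : H →L[ℂ] H) : H →ₗ[ℂ] H)).topologicalClosure

instance cutK_proj (c p : H →L[ℂ] H) (s : ℝ) : (cutK c p s).HasOrthogonalProjection := by
  unfold cutK; infer_instance

lemma rp_eq_cutK (c p : H →L[ℂ] H) (s : ℝ) :
    rp (cutP c s * p) = (cutK c p s).starProjection := rfl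

section
variable {c p : H →L[ℂ] H} (hcp : c * p = p * c)
include hcp

lemma cutK_mono : Monotone (cutK c p) := by
  intro s s' hs
  rcases hs.eq_or_lt with rfl | hlt
  · exact le_rfl
  · apply Submodule.topologicalClosure_mono
    rintro _ ⟨ξ, rfl⟩
    obtain ⟨k, hk, hky⟩ := cutP_factor (c := c) hlt
    refine ⟨k ξ, ?_⟩
    change cutP c s' (p (k ξ)) = cutP c s (p ξ)
    rw [hk, mul_apply_eq_comp]
    congr 1
    exact (DFunLike.congr_fun (hky p hcp) ξ).symm

omit [CompleteSpace H] hcp in
lemma tendsto_of_norm {x : ℕ → H →L[ℂ] H} {y : H →L[ℂ] H} {a : ℕ → ℝ}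
    (h : ∀ n, ‖x n - y‖ ≤ a n) (ha : Tendsto a atTop (𝓝 0)) (ξ : H) :
    Tendsto (fun n => x n ξ) atTop (𝓝 (y ξ)) := by
  rw [tendsto_iff_norm_sub_tendsto_zero]
  apply squeeze_zero (fun _ => norm_nonneg _) (g := fun n => a n * ‖ξ‖)
  · intro n
    have : x n ξ - y ξ = (x n - y) ξ := rfl
    rw [this]
    exact (x n - y).le_of_opNorm_le (h n) _
  · simpa using ha.mul_const ‖ξ‖

lemma cutK_left (s : ℝ) :
    (⨆ n : ℕ, cutK c p (s - 1 / ((n : ℝ) + 1))).topologicalClosure = cutK c p s := by
  apply le_antisymm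
  · apply Submodule.topologicalClosure_minimal
    · apply iSup_le
      intro n
      apply cutK_mono hcp
      have : (0 : ℝ) < 1 / ((n : ℝ) + 1) := by positivity
      linarith
    · exact Submodule.isClosed_topologicalClosure _
  · apply Submodule.topologicalClosure_minimal
    · rintro _ ⟨ξ, rfl⟩
      have ht : Tendsto (fun n : ℕ => cutP c (s - 1 / ((n : ℝ) + 1)) (p ξ)) atTop
          (𝓝 (cutP c s (p ξ))) := by
        apply tendsto_of_norm (a := fun n : ℕ => 1 / ((n : ℝ) + 1))
        · intro n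
          refine le_trans (cutP_sub_le _ _) ?_
          have : (0 : ℝ) < 1 / ((n : ℝ) + 1) := by positivity
          rw [show s - 1 / ((n : ℝ) + 1) - s = -(1 / ((n : ℝ) + 1)) by ring, abs_neg,
            abs_of_pos this]
        · exact tendsto_one_div_add_atTop_nhds_zero_nat
      refine mem_closure_of_tendsto ht (Eventually.of_forall fun n => ?_)
      have : cutP c (s - 1 / ((n : ℝ) + 1)) (p ξ) ∈ cutK c p (s - 1 / ((n : ℝ) + 1)) :=
        Submodule.le_topologicalClosure _ ⟨ξ, rfl⟩
      exact (le_iSup (fun n : ℕ => cutK c p (s - 1 / ((n : ℝ) + 1))) n) this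
    · exact Submodule.isClosed_topologicalClosure _

lemma cutK_right (hc : IsSelfAdjoint c) (hp : IsStarProjection p) (s : ℝ)
    (hne : ∀ ξ : H, p ξ = ξ → c ξ = (s : ℂ) • ξ → ξ = 0) :
    (⨅ n : ℕ, cutK c p (s + 1 / ((n : ℝ) + 1))) = cutK c p s := by
  apply le_antisymm
  · intro ξ hξ
    have hξn : ∀ n : ℕ, ξ ∈ cutK c p (s + 1 / ((n : ℝ) + 1)) := by
      intro n
      exact (Submodule.mem_iInf _).1 hξ n
    set ζ := ξ - (cutK c p s).starProjection ξ with hζ
    have hcut : ∀ t, ∀ η ∈ cutK c p t, cutN c t η = 0 := by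
      intro t η hη
      have hle : cutK c p t ≤ LinearMap.ker ((cutN c t : H →L[ℂ] H) : H →ₗ[ℂ] H) := by
        apply Submodule.topologicalClosure_minimal
        · rintro _ ⟨ξ, rfl⟩
          exact DFunLike.congr_fun (cutN_mul_cutP (c := c) t) (p ξ)
        · exact (cutN c t).isClosed_ker
      exact hle hη
    have hpf : ∀ t, ∀ η ∈ cutK c p t, p η = η := by
      intro t η hη
      have hle : cutK c p t ≤ LinearMap.ker ((p - 1 : H →L[ℂ] H) : H →ₗ[ℂ] H) := by
        apply Submodule.topologicalClosure_minimal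
        · rintro _ ⟨ξ, rfl⟩
          change (p - 1) (cutP c t (p ξ)) = 0
          have : p * (cutP c t * p) = cutP c t * p := by
            rw [← mul_assoc, ← cutP_comm hcp, mul_assoc, hp.isIdempotentElem.eq]
          have h2 := DFunLike.congr_fun this ξ
          change p (cutP c t (p ξ)) = cutP c t (p ξ) at h2
          rw [sub_apply, h2]; simp
        · exact (p - 1).isClosed_ker
      have := hle hη
      change (p - 1) η = 0 at this
      rw [sub_apply, sub_eq_zero] at this
      exact this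
    have hζn : ∀ n : ℕ, ζ ∈ cutK c p (s + 1 / ((n : ℝ) + 1)) := by
      intro n
      apply Submodule.sub_mem _ (hξn n)
      apply cutK_mono hcp _ (Submodule.starProjection_apply_mem _ _)
      have : (0 : ℝ) < 1 / ((n : ℝ) + 1) := by positivity
      linarith
    have hN : cutN c s ζ = 0 := by
      have ht : Tendsto (fun n : ℕ => cutN c (s + 1 / ((n : ℝ) + 1)) ζ) atTop
          (𝓝 (cutN c s ζ)) := by
        apply tendsto_of_norm (a := fun n : ℕ => 1 / ((n : ℝ) + 1))
        · intro n
          refine le_trans (cutN_sub_le _ _) ?_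
          have : (0 : ℝ) < 1 / ((n : ℝ) + 1) := by positivity
          rw [show s + 1 / ((n : ℝ) + 1) - s = (1 / ((n : ℝ) + 1)) by ring,
            abs_of_pos this]
        · exact tendsto_one_div_add_atTop_nhds_zero_nat
      have h0 : (fun n : ℕ => cutN c (s + 1 / ((n : ℝ) + 1)) ζ) = fun _ => 0 := by
        funext n
        exact hcut _ _ (hζn n)
      rw [h0] at ht
      exact (tendsto_nhds_unique ht tendsto_const_nhds)
    have hpζ : p ζ = ζ := hpf _ _ (hζn 0)
    have hP : cutP c s ζ = 0 := by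
      rw [← inner_self_eq_zero (𝕜 := ℂ)]
      have e1 : cutP c s ζ = p (cutP c s ζ) := by
        have := DFunLike.congr_fun (cutP_comm hcp s) ζ
        change cutP c s (p ζ) = p (cutP c s ζ) at this
        rw [← this, hpζ]
      have e2 : ⟪cutP c s ζ, cutP c s ζ⟫_ℂ = ⟪ζ, cutP c s (p (cutP c s ζ))⟫_ℂ := by
        rw [← e1, star_apply_inner', cutP_sa]
      rw [e2, hζ]
      apply Submodule.starProjection_inner_eq_zero
      exact Submodule.le_topologicalClosure _ ⟨_, rfl⟩
    have hcζ : c ζ = (s : ℂ) • ζ := by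
      have := DFunLike.congr_fun (cut_sub hc s) ζ
      rw [sub_apply, hN, hP, sub_zero, sub_apply] at this
      exact (sub_eq_zero.1 this.symm)
    have hz := hne ζ hpζ hcζ
    rw [hζ, sub_eq_zero] at hz
    rw [hz]
    exact Submodule.starProjection_apply_mem _ _
  · apply le_iInf
    intro n
    apply cutK_mono hcp
    have : (0 : ℝ) < 1 / ((n : ℝ) + 1) := by positivity
    linarith

end

/-- **Spectral projections of prescribed trace.** -/
theorem spectral_cut {M : VonNeumannAlgebra H} {Ω : H} (h : Std M Ω) {c p : H →L[ℂ] H}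
    (hc : IsSelfAdjoint c) (hp : IsStarProjection p)
    (hcp : c * p = p * c)
    (hne : ∀ (t : ℝ) (ξ : H), p ξ = ξ → c ξ = (t : ℂ) • ξ → ξ = 0) (t : ℝ) (ht0 : 0 ≤ t)
    (ht : t ≤ (⟪Ω, p Ω⟫_ℂ).re) :
    ∃ s : ℝ, (⟪Ω, rp (cutP c s * p) Ω⟫_ℂ).re = t := by
  have hΩ := h.norm_one
  have : Nontrivial H := ⟨Ω, 0, by intro h0; rw [h0, norm_zero] at hΩ; norm_num at hΩ⟩
  have spec : ∀ x ∈ spectrum ℝ c, |x| ≤ ‖c‖ := fun x hx => by
    have := spectrum.norm_le_norm_of_mem hx
    simpa using this
  -- the distribution function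
  let F : ℝ → ℝ := fun s => ‖rp (cutP c s * p) Ω‖ ^ 2
  have hF : ∀ s, F s = (⟪Ω, rp (cutP c s * p) Ω⟫_ℂ).re := fun s => proj_norm_sq (rp_proj _) Ω
  have Fmono : Monotone F := by
    intro s s' hs
    have hle := cutK_mono hcp hs
    have h1 : rp (cutP c s * p) Ω = rp (cutP c s * p) (rp (cutP c s' * p) Ω) := by
      rw [rp_eq_cutK, rp_eq_cutK]
      have := Submodule.starProjection_comp_starProjection_of_le hle
      exact (DFunLike.congr_fun this Ω).symm
    have h2 : ‖rp (cutP c s * p) Ω‖ ≤ ‖rp (cutP c s' * p) Ω‖ := by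
      rw [h1]
      calc _ ≤ 1 * ‖rp (cutP c s' * p) Ω‖ := (rp (cutP c s * p)).le_of_opNorm_le
            (rp_proj _).norm_le _
        _ = _ := one_mul _
    exact pow_le_pow_left₀ (norm_nonneg _) h2 2
  have Flow : ∀ s, s ≤ -‖c‖ → F s = 0 := by
    intro s hs
    have e : cutP c s = 0 := by
      unfold cutP
      rw [cfc_congr (g := fun _ => 0)]
      · simp
      · intro x hx
        have := spec x hx
        have := neg_abs_le x
        simp only
        rw [max_eq_right]; linarith
    change ‖rp (cutP c s * p) Ω‖ ^ 2 = 0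
    have hr : rp (0 : H →L[ℂ] H) = 0 := by
      have := rp_ind (0 : H →L[ℂ] H) 1 0 (by simp)
      rwa [one_mul, zero_mul] at this
    rw [e, zero_mul, hr]; simp
  have Fhigh : F (‖c‖ + 1) = (⟪Ω, p Ω⟫_ℂ).re := by
    have ck : Continuous (fun x : ℝ => 1 / max (‖c‖ + 1 - x) 1) := by
      apply Continuous.div continuous_const (by fun_prop)
      intro x
      have : (0 : ℝ) < max (‖c‖ + 1 - x) 1 := lt_max_of_lt_right one_pos
      exact this.ne'
    have e1 : cutP c (‖c‖ + 1) * cfc (fun x : ℝ => 1 / max (‖c‖ + 1 - x) 1) c = 1 := by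
      unfold cutP
      rw [← cfc_mul _ _ c (contP _).continuousOn ck.continuousOn,
        cfc_congr (g := fun _ => 1), cfc_const_one ℝ c]
      intro x hx
      have h1 := spec x hx
      have h2 := le_abs_self x
      simp only
      rw [max_eq_left (by linarith : 0 ≤ ‖c‖ + 1 - x), max_eq_left (by linarith)]
      have : ‖c‖ + 1 - x ≠ 0 := by
        have : (0 : ℝ) < ‖c‖ + 1 - x := by linarith
        exact this.ne'
      field_simp
    set k := cfc (fun x : ℝ => 1 / max (‖c‖ + 1 - x) 1) c with hk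
    have kp : k * p = p * k := (show Commute c p from hcp).cfc_real _
    have e2 : cutP c (‖c‖ + 1) * p * k = p := by
      rw [mul_assoc, ← kp, ← mul_assoc, e1, one_mul]
    set T := cutP c (‖c‖ + 1) * p with hT
    have e3 : rp T * p = p := by
      calc rp T * p = rp T * (T * k) := by rw [e2]
        _ = T * k := by rw [← mul_assoc, rp_fix]
        _ = p := e2
    have e4 : p * T = T := by
      rw [hT, ← mul_assoc, ← cutP_comm hcp, mul_assoc, hp.isIdempotentElem.eq]
    have e5 : rp T * p = rp T := rp_le' hp e4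
    rw [hF, ← hT, ← e5, e3]
  -- one-sided continuity
  have hleft : ∀ s, Tendsto (fun n : ℕ => F (s - 1 / ((n : ℝ) + 1))) atTop (𝓝 (F s)) := by
    intro s
    have hmon : Monotone (fun n : ℕ => cutK c p (s - 1 / ((n : ℝ) + 1))) := by
      intro n m hnm
      apply cutK_mono hcp
      have : 1 / ((m : ℝ) + 1) ≤ 1 / ((n : ℝ) + 1) := by
        apply one_div_le_one_div_of_le (by positivity)
        have : (n : ℝ) ≤ m := by exact_mod_cast hnm
        linarith
      linarith
    have h1 := Submodule.starProjection_tendsto_closure_iSup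
      (fun n : ℕ => cutK c p (s - 1 / ((n : ℝ) + 1))) hmon Ω
    have h2 : (⨆ n : ℕ, cutK c p (s - 1 / ((n : ℝ) + 1))).topologicalClosure.starProjection Ω =
        rp (cutP c s * p) Ω := by
      rw [rp_eq_cutK]
      congr 2
      exact cutK_left hcp s
    rw [h2] at h1
    exact (h1.norm).pow 2
  have hright : ∀ s, Tendsto (fun n : ℕ => F (s + 1 / ((n : ℝ) + 1))) atTop (𝓝 (F s)) := by
    intro s
    have hmon : Monotone (fun n : ℕ => (cutK c p (s + 1 / ((n : ℝ) + 1)))ᗮ) := by
      intro n m hnm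
      apply Submodule.orthogonal_le
      apply cutK_mono hcp
      have : 1 / ((m : ℝ) + 1) ≤ 1 / ((n : ℝ) + 1) := by
        apply one_div_le_one_div_of_le (by positivity)
        have : (n : ℝ) ≤ m := by exact_mod_cast hnm
        linarith
      linarith
    have h1 := Submodule.starProjection_tendsto_closure_iSup
      (fun n : ℕ => (cutK c p (s + 1 / ((n : ℝ) + 1)))ᗮ) hmon Ω
    have h2 : (⨆ n : ℕ, (cutK c p (s + 1 / ((n : ℝ) + 1)))ᗮ).topologicalClosure =
        (cutK c p s)ᗮ := by
      rw [← Submodule.orthogonal_orthogonal_eq_closure, ← Submodule.iInf_orthogonal]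
      congr 1
      rw [← cutK_right hcp hc hp s (hne s)]
      apply iInf_congr
      intro n
      exact Submodule.orthogonal_orthogonal _
    have h3 : (⨆ n : ℕ, (cutK c p (s + 1 / ((n : ℝ) + 1)))ᗮ).topologicalClosure.starProjection Ω =
        Ω - rp (cutP c s * p) Ω := by
      rw [rp_eq_cutK]
      have : (⨆ n : ℕ, (cutK c p (s + 1 / ((n : ℝ) + 1)))ᗮ).topologicalClosure.starProjection =
          ((cutK c p s)ᗮ).starProjection := by
        congr 1
      rw [this, Submodule.starProjection_orthogonal]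
      rfl
    rw [h3] at h1
    have h4 : (fun n : ℕ => F (s + 1 / ((n : ℝ) + 1))) = fun n : ℕ =>
        ‖Ω - ((cutK c p (s + 1 / ((n : ℝ) + 1)))ᗮ).starProjection Ω‖ ^ 2 := by
      funext n
      rw [Submodule.starProjection_orthogonal]
      change ‖rp (cutP c (s + 1 / ((n : ℝ) + 1)) * p) Ω‖ ^ 2 = _
      rw [rp_eq_cutK]
      congr 2
      simp
    rw [h4]
    have h5 := ((tendsto_const_nhds (x := Ω)).sub h1).norm.pow 2
    have h6 : Ω - (Ω - rp (cutP c s * p) Ω) = rp (cutP c s * p) Ω := by abel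
    rw [h6] at h5
    exact h5
  rcases ht.eq_or_lt with hEq | hlt
  · exact ⟨‖c‖ + 1, by rw [← hF, Fhigh, hEq]⟩
  · let S : Set ℝ := {s | F s ≤ t}
    have hSne : S.Nonempty := ⟨-‖c‖, by
      change F (-‖c‖) ≤ t
      rw [Flow _ le_rfl]; exact ht0⟩
    have hSb : BddAbove S := by
      refine ⟨‖c‖ + 1, fun s hs => ?_⟩
      by_contra hcon
      push Not at hcon
      have := Fmono hcon.le
      rw [Fhigh] at this
      have : F s ≤ t := hs
      linarith
    refine ⟨sSup S, ?_⟩
    rw [← hF]
    apply le_antisymm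
    · apply le_of_tendsto' (hleft (sSup S))
      intro n
      have hpos : (0 : ℝ) < 1 / ((n : ℝ) + 1) := by positivity
      obtain ⟨s, hs, hlt'⟩ := exists_lt_of_lt_csSup hSne (show sSup S - 1 / ((n : ℝ) + 1) < sSup S
        by linarith)
      exact le_trans (Fmono hlt'.le) hs
    · apply ge_of_tendsto' (hright (sSup S))
      intro n
      have hpos : (0 : ℝ) < 1 / ((n : ℝ) + 1) := by positivity
      by_contra hcon
      push Not at hcon
      have : sSup S + 1 / ((n : ℝ) + 1) ≤ sSup S := le_csSup hSb hcon.le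
      linarith

end Pool.Agent.Lib.MP_41f445_an
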