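import Pool.Agent.Lib.MP_41f445_an.Tracial

/-!
# Spectral projections in a tracial von Neumann algebra
-/

set_option linter.unusedSectionVars false

open Topology Filter
open scoped ComplexOrder

namespace Pool.Agent.Lib.MP_41f445_an

/-- Clamping to the unit interval. -/
noncomputable def clp (t : ℝ) : ℝ := max 0 (min 1 t)

lemma clp_nonneg (t : ℝ) : 0 ≤ clp t := le_max_left _ _
lemma clp_le_one (t : ℝ) : clp t ≤ 1 := max_le zero_le_one (min_le_left _ _)
lemma clp_mono {s t : ℝ} (h : s ≤ t) : clp s ≤ clp t := max_le_max le_rfl (min_le_min le_rfl h)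
lemma clp_zero {t : ℝ} (h : t ≤ 0) : clp t = 0 := by
  unfold clp; rw [max_eq_left]; exact (min_le_right _ _).trans h
lemma clp_one {t : ℝ} (h : 1 ≤ t) : clp t = 1 := by
  unfold clp; rw [min_eq_left h, max_eq_right zero_le_one]
@[fun_prop] lemma clp_cont : Continuous clp := by unfold clp; fun_prop

/-- Approximants of the indicator of `(-∞, t)`. -/
noncomputable def lo (n : ℕ) (t x : ℝ) : ℝ := clp (2 ^ n * (t - x) - 1)

/-- Approximants of the indicator of `{t}`. -/
noncomputable def pt (n : ℕ) (t x : ℝ) : ℝ := clp (2 - 2 ^ n * |x - t|)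

@[fun_prop] lemma lo_cont (n : ℕ) (t : ℝ) : Continuous (lo n t) := by unfold lo; fun_prop
@[fun_prop] lemma pt_cont (n : ℕ) (t : ℝ) : Continuous (pt n t) := by unfold pt; fun_prop

lemma lo_nonneg (n : ℕ) (t x : ℝ) : 0 ≤ lo n t x := clp_nonneg _
lemma lo_le_one (n : ℕ) (t x : ℝ) : lo n t x ≤ 1 := clp_le_one _
lemma pt_nonneg (n : ℕ) (t x : ℝ) : 0 ≤ pt n t x := clp_nonneg _
lemma pt_le_one (n : ℕ) (t x : ℝ) : pt n t x ≤ 1 := clp_le_one _

lemma lo_mono (n : ℕ) {s t : ℝ} (h : s ≤ t) (x : ℝ) : lo n s x ≤ lo n t x := by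
  apply clp_mono
  have : (0 : ℝ) < 2 ^ n := by positivity
  nlinarith

lemma lo_zero (n : ℕ) {t x : ℝ} (h : t ≤ x) : lo n t x = 0 := by
  apply clp_zero
  have : (0 : ℝ) < 2 ^ n := by positivity
  nlinarith

lemma lo_one (n : ℕ) {t x : ℝ} (h : 2 ≤ 2 ^ n * (t - x)) : lo n t x = 1 := by
  apply clp_one; linarith

lemma lo_plateau (n : ℕ) (t x : ℝ) : lo (n + 1) t x * lo n t x = lo n t x := by
  by_cases h : 2 ^ n * (t - x) ≤ 1
  · rw [show lo n t x = 0 from clp_zero (by linarith), mul_zero]
  · rw [show lo (n + 1) t x = 1 from clp_one (by rw [pow_succ]; linarith), one_mul]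

lemma pt_plateau (n : ℕ) (t x : ℝ) : pt n t x * pt (n + 1) t x = pt (n + 1) t x := by
  by_cases h : 2 ^ n * |x - t| ≤ 1
  · rw [show pt n t x = 1 from clp_one (by linarith), one_mul]
  · rw [show pt (n + 1) t x = 0 from clp_zero (by rw [pow_succ]; linarith), mul_zero]

section
variable {M : Type*} [CStarAlgebra M] {τ : M →ₗ[ℂ] ℂ} (h : IsFiniteVN τ) {a : M}
  (ha : IsSelfAdjoint a)
include h ha

lemma cfc_trace_nonneg (f : ℝ → ℝ) (hf : Continuous f) (h0 : ∀ x ∈ spectrum ℝ a, 0 ≤ f x) :
    0 ≤ (τ (cfc f a)).re := by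
  have : cfc f a = star (cfc (fun x => Real.sqrt (f x)) a) * cfc (fun x => Real.sqrt (f x)) a := by
    rw [(cfc_predicate (fun x => Real.sqrt (f x)) a : IsSelfAdjoint _).star_eq,
      ← cfc_mul _ _ a (by fun_prop) (by fun_prop)]
    apply cfc_congr
    intro x hx
    exact (Real.mul_self_sqrt (h0 x hx)).symm
  exact h.trace_nonneg_of_eq this

lemma cfc_trace_mono (f g : ℝ → ℝ) (hf : Continuous f) (hg : Continuous g)
    (h0 : ∀ x ∈ spectrum ℝ a, f x ≤ g x) : (τ (cfc f a)).re ≤ (τ (cfc g a)).re := by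
  have := cfc_trace_nonneg h ha (fun x => g x - f x) (by fun_prop)
    (fun x hx => sub_nonneg.2 (h0 x hx))
  rw [cfc_sub _ _ a (by fun_prop) (by fun_prop), map_sub, Complex.sub_re] at this
  linarith

lemma cfc_n2_sq (f : ℝ → ℝ) (hf : Continuous f) :
    n2 τ (cfc f a) ^ 2 = (τ (cfc (fun x => f x * f x) a)).re := by
  rw [h.n2_sq, (cfc_predicate f a : IsSelfAdjoint _).star_eq,
    ← cfc_mul _ _ a (by fun_prop) (by fun_prop)]

lemma cfc_n2_le (f : ℝ → ℝ) (c : ℝ) (hc : 0 ≤ c) (h0 : ∀ x ∈ spectrum ℝ a, |f x| ≤ c) :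
    n2 τ (cfc f a) ≤ c :=
  (h.n2_le_norm _).trans (norm_cfc_le hc h0)

/-- Monotone plateau sequences converge to projections. -/
theorem exists_step (g : ℕ → ℝ → ℝ) (hc : ∀ n, Continuous (g n)) (h0 : ∀ n x, 0 ≤ g n x)
    (h1 : ∀ n x, g n x ≤ 1) (hp : ∀ n x, g (n + 1) x * g n x = g n x) :
    ∃ e : M, IsStarProjection e ∧ Tends τ (fun n => cfc (g n) a) e ∧
      ∀ y, Commute a y → Commute e y := by
  have hc' := hc
  have mono1 : ∀ n x, g n x ≤ g (n + 1) x := by
    intro n x
    rcases eq_or_ne (g n x) 0 with h2 | h2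
    · rw [h2]; exact h0 _ _
    · have := mul_right_cancel₀ h2 ((hp n x).trans (one_mul _).symm)
      rw [this]; exact h1 _ _
  have mono : ∀ x, Monotone (fun n => g n x) := fun x => monotone_nat_of_le_succ (fun n => mono1 n x)
  have plateau : ∀ n m, n < m → ∀ x, g m x * g n x = g n x := by
    intro n m hnm x
    rcases eq_or_ne (g n x) 0 with h2 | h2
    · rw [h2, mul_zero]
    · have h3 := mul_right_cancel₀ h2 ((hp n x).trans (one_mul _).symm)
      have h4 : g m x = 1 := le_antisymm (h1 _ _) (h3 ▸ mono x hnm)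
      rw [h4, one_mul]
  set F : ℕ → ℝ := fun n => (τ (cfc (g n) a)).re with hF
  have Fmono : Monotone F := fun n m hnm =>
    cfc_trace_mono h ha _ _ (hc n) (hc m) (fun x _ => mono x hnm)
  have Fle : ∀ n, F n ≤ 1 := by
    intro n
    have := cfc_trace_mono h ha (g n) (fun _ => 1) (hc n) continuous_const (fun x _ => h1 n x)
    rwa [cfc_const_one ℝ a, h.map_one, Complex.one_re] at this
  have Fc : CauchySeq F :=
    (tendsto_atTop_ciSup Fmono ⟨1, by rintro _ ⟨n, rfl⟩; exact Fle n⟩).cauchySeq
  have key : ∀ n m, n ≤ m → n2 τ (cfc (g m) a - cfc (g n) a) ^ 2 ≤ F m - F n := by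
    intro n m hnm
    rw [← cfc_sub _ _ a (hc m).continuousOn (hc n).continuousOn,
      cfc_n2_sq h ha (fun x => g m x - g n x) ((hc m).sub (hc n))]
    have e : F m - F n = (τ (cfc (fun x => g m x - g n x) a)).re := by
      rw [cfc_sub _ _ a (hc m).continuousOn (hc n).continuousOn, map_sub, Complex.sub_re]
    rw [e]
    apply cfc_trace_mono h ha _ _ (((hc m).sub (hc n)).mul ((hc m).sub (hc n)))
      ((hc m).sub (hc n))
    intro x _
    have a1 : 0 ≤ g m x - g n x := sub_nonneg.2 (mono x hnm)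
    have a2 : g m x - g n x ≤ 1 := by linarith [h1 m x, h0 n x]
    change (g m x - g n x) * (g m x - g n x) ≤ g m x - g n x
    nlinarith
  obtain ⟨e, -, he⟩ := h.exists_tends 1 (fun n => cfc (g n) a)
    (fun n => norm_cfc_le zero_le_one (fun x _ => by
      rw [Real.norm_eq_abs, abs_of_nonneg (h0 n x)]; exact h1 n x))
    (fun ε hε => by
      obtain ⟨N, hN⟩ := Metric.cauchySeq_iff.1 Fc (ε ^ 2) (by positivity)
      refine ⟨N, ?_⟩
      have main : ∀ n ≥ N, ∀ m ≥ n, n2 τ (cfc (g m) a - cfc (g n) a) < ε := by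
        intro n hn m hm
        have h5 := key n m hm
        have h6 := hN m (hn.trans hm) n hn
        rw [Real.dist_eq] at h6
        have h7 := (le_abs_self _).trans_lt h6
        exact lt_of_pow_lt_pow_left₀ 2 hε.le (h5.trans_lt h7)
      intro m hm n hn
      rcases le_total n m with h8 | h8
      · exact main n hn m h8
      · rw [h.n2_sub_comm]; exact main m hm n h8)
  have hfix : ∀ n, e * cfc (g n) a = cfc (g n) a := by
    intro n
    have t1 := h.tends_mul_right (cfc (g n) a) he
    refine h.tends_unique t1 ?_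
    refine Tendsto.congr' ?_ (h.tends_const (cfc (g n) a))
    filter_upwards [eventually_gt_atTop n] with m hm
    rw [← cfc_mul _ _ a (hc m).continuousOn (hc n).continuousOn]
    have : (fun x => g m x * g n x) = g n := by ext x; exact plateau n m hm x
    rw [this]
  refine ⟨e, ⟨?_, ?_⟩, he, ?_⟩
  · have t1 := h.tends_mul_left e he
    simp only [hfix] at t1
    exact (h.tends_unique t1 he)
  · have t1 := h.tends_star he
    have : (fun n => star (cfc (g n) a)) = fun n => cfc (g n) a := by
      ext n; exact (cfc_predicate (g n) a : IsSelfAdjoint _).star_eq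
    rw [this] at t1
    exact h.tends_unique t1 he
  · intro y hy
    have t1 := h.tends_mul_right y he
    have t2 := h.tends_mul_left y he
    have : (fun n => y * cfc (g n) a) = fun n => cfc (g n) a * y := by
      ext n; exact (hy.cfc_real (g n)).eq.symm
    rw [this] at t2
    exact h.tends_unique t1 t2

/-- The spectral projection of `(-∞, t)`. -/
noncomputable def sp (t : ℝ) : M :=
  (exists_step h ha (fun n => lo n t) (fun n => lo_cont n t) (fun n => lo_nonneg n t)
    (fun n => lo_le_one n t) (fun n => lo_plateau n t)).choose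

lemma sp_proj (t : ℝ) : IsStarProjection (sp h ha t) :=
  (exists_step h ha (fun n => lo n t) (fun n => lo_cont n t) (fun n => lo_nonneg n t)
    (fun n => lo_le_one n t) (fun n => lo_plateau n t)).choose_spec.1

lemma sp_tends (t : ℝ) : Tends τ (fun n => cfc (lo n t) a) (sp h ha t) :=
  (exists_step h ha (fun n => lo n t) (fun n => lo_cont n t) (fun n => lo_nonneg n t)
    (fun n => lo_le_one n t) (fun n => lo_plateau n t)).choose_spec.2.1

lemma sp_commute (t : ℝ) (y : M) (hy : Commute a y) : Commute (sp h ha t) y :=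
  (exists_step h ha (fun n => lo n t) (fun n => lo_cont n t) (fun n => lo_nonneg n t)
    (fun n => lo_le_one n t) (fun n => lo_plateau n t)).choose_spec.2.2 y hy

/-- Multiplying functions of `a` with the spectral projection. -/
lemma cfc_mul_sp_tends (t : ℝ) (f : ℝ → ℝ) (hf : Continuous f) :
    Tends τ (fun n => cfc (fun x => f x * lo n t x) a) (cfc f a * sp h ha t) := by
  have := h.tends_mul_left (cfc f a) (sp_tends h ha t)
  refine this.congr fun n => ?_
  beta_reduce
  rw [← cfc_mul _ _ a (by fun_prop) (by fun_prop)]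

lemma re_trace_sp_tends (t : ℝ) :
    Tendsto (fun n => (τ (cfc (lo n t) a)).re) atTop (𝓝 (τ (sp h ha t)).re) :=
  (Complex.continuous_re.tendsto _).comp (h.tends_trace (sp_tends h ha t))

lemma trace_sp_mono {s t : ℝ} (hst : s ≤ t) : (τ (sp h ha s)).re ≤ (τ (sp h ha t)).re :=
  le_of_tendsto_of_tendsto' (re_trace_sp_tends h ha s) (re_trace_sp_tends h ha t) fun n =>
    cfc_trace_mono h ha _ _ (by fun_prop) (by fun_prop) (fun x _ => lo_mono n hst x)

lemma sp_low {t : ℝ} (ht : ∀ x ∈ spectrum ℝ a, t ≤ x) : sp h ha t = 0 := by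
  refine h.tends_unique (sp_tends h ha t) ?_
  refine (h.tends_const 0).congr fun n => ?_
  rw [← cfc_const_zero ℝ a]
  congr 1
  congr 1
  apply cfc_congr
  intro x hx
  exact (lo_zero n (ht x hx)).symm

lemma sp_high {t δ : ℝ} (hδ : 0 < δ) (ht : ∀ x ∈ spectrum ℝ a, x + δ ≤ t) : sp h ha t = 1 := by
  refine h.tends_unique (sp_tends h ha t) ?_
  refine Tendsto.congr' ?_ (h.tends_const 1)
  obtain ⟨N, hN⟩ := pow_unbounded_of_one_lt (2 / δ) (show (1 : ℝ) < 2 by norm_num)
  filter_upwards [eventually_ge_atTop N] with n hn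
  rw [← cfc_const_one ℝ a]
  congr 1
  congr 1
  apply cfc_congr
  intro x hx
  refine (lo_one n ?_).symm
  have h1 : (2 : ℝ) ^ N ≤ 2 ^ n := pow_le_pow_right₀ (by norm_num) hn
  have h2 := ht x hx
  rw [div_lt_iff₀ hδ] at hN
  have h3 : 2 ^ n * δ ≤ 2 ^ n * (t - x) := mul_le_mul_of_nonneg_left (by linarith) (by positivity)
  have h4 : 2 ^ N * δ ≤ 2 ^ n * δ := mul_le_mul_of_nonneg_right h1 hδ.le
  linarith

/-- Without atoms the distribution function is continuous. -/
theorem trace_sp_continuous
    (hat : ∀ (t : ℝ) (e : M), IsStarProjection e → (∀ y, Commute a y → Commute e y) →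
      a * e = (t : ℂ) • e → e = 0) :
    Continuous (fun t => (τ (sp h ha t)).re) := by
  rw [continuous_iff_continuousAt]
  intro t
  -- the atom projection at `t`
  obtain ⟨e, he, het, hec⟩ := exists_step h ha (fun n x => 1 - pt n t x)
    (fun n => by fun_prop) (fun n x => by linarith [pt_le_one n t x])
    (fun n x => by linarith [pt_nonneg n t x])
    (fun n x => by nlinarith [pt_plateau n t x])
  have hzero : 1 - e = 0 := by
    apply hat t
    · exact he.one_sub
    · intro y hy
      exact (Commute.one_left y).sub_left (hec y hy)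
    · have t1 : Tends τ (fun n => cfc (pt n t) a) (1 - e) := by
        have := h.tends_sub (h.tends_const 1) het
        refine this.congr fun n => ?_
        beta_reduce
        rw [cfc_sub _ _ a (by fun_prop) (by fun_prop), cfc_const_one ℝ a]
        congr 1
        abel
      have t2 := h.tends_mul_left (a - (t : ℂ) • 1) t1
      have t3 : Tends τ (fun n => (a - (t : ℂ) • 1) * cfc (pt n t) a) 0 := by
        have lim : Tendsto (fun n : ℕ => 2 * (1 / 2 : ℝ) ^ n) atTop (𝓝 0) := by
          have := (tendsto_pow_atTop_nhds_zero_of_lt_one (r := (1 / 2 : ℝ)) (by norm_num)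
            (by norm_num)).const_mul 2
          simpa using this
        refine squeeze_zero (fun n => h.n2_nonneg _) (fun n => ?_) lim
        rw [sub_zero]
        have e1 : (a - (t : ℂ) • 1) * cfc (pt n t) a = cfc (fun x => (x - t) * pt n t x) a := by
          rw [cfc_mul _ _ a (by fun_prop) (by fun_prop), cfc_sub _ _ a (by fun_prop) (by fun_prop),
            cfc_id' ℝ a, cfc_const t a]
          congr 2
          rw [Algebra.algebraMap_eq_smul_one, Complex.coe_smul]
        beta_reduce
        rw [e1]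
        apply cfc_n2_le h ha _ _ (by positivity)
        intro x _
        rw [abs_mul, abs_of_nonneg (pt_nonneg n t x)]
        by_cases hx : 2 ≤ 2 ^ n * |x - t|
        · rw [show pt n t x = 0 from clp_zero (by linarith), mul_zero]; positivity
        · push Not at hx
          have h2n : (0 : ℝ) < 2 ^ n := by positivity
          have h3 : |x - t| ≤ 2 * (1 / 2 : ℝ) ^ n := by
            rw [one_div, inv_pow]
            rw [← div_eq_mul_inv, le_div_iff₀ h2n]; linarith
          calc |x - t| * pt n t x ≤ |x - t| * 1 :=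
                mul_le_mul_of_nonneg_left (pt_le_one n t x) (abs_nonneg _)
            _ ≤ _ := by rw [mul_one]; exact h3
      have t4 := h.tends_unique t2 t3
      rw [sub_mul, smul_mul_assoc, one_mul] at t4
      exact sub_eq_zero.1 t4
  have he1 : e = 1 := (sub_eq_zero.1 hzero).symm
  have lim : Tendsto (fun n => (τ (cfc (pt n t) a)).re) atTop (𝓝 0) := by
    have t1 := (Complex.continuous_re.tendsto _).comp (h.tends_trace het)
    rw [he1, h.map_one] at t1
    have t2 : Tendsto (fun n => 1 - (τ (cfc (fun x => 1 - pt n t x) a)).re) atTop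
        (𝓝 (1 - (1 : ℂ).re)) := tendsto_const_nhds.sub t1
    rw [Complex.one_re, sub_self] at t2
    refine t2.congr fun n => ?_
    rw [cfc_sub _ _ a (by fun_prop) (by fun_prop), cfc_const_one ℝ a, map_sub, h.map_one,
      Complex.sub_re, Complex.one_re]
    ring
  rw [Metric.continuousAt_iff]
  intro ε hε
  obtain ⟨n, hn⟩ := ((tendsto_order.1 lim).2 ε hε).exists
  have h2n : (0 : ℝ) < 2 ^ n := by positivity
  -- the estimate
  set δ : ℝ := (1 / 2) * (1 / 2 ^ n) with hδ
  have hδ0 : 0 < δ := by positivity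
  have hδn : 2 ^ n * δ = 1 / 2 := by rw [hδ]; field_simp
  have est : (τ (sp h ha (t + δ))).re - (τ (sp h ha (t - δ))).re ≤ (τ (cfc (pt n t) a)).re := by
    have t1 := (re_trace_sp_tends h ha (t + δ)).sub (re_trace_sp_tends h ha (t - δ))
    refine le_of_tendsto t1 ?_
    filter_upwards [eventually_ge_atTop (n + 2)] with m hm
    rw [← Complex.sub_re, ← map_sub, ← cfc_sub _ _ a (by fun_prop) (by fun_prop)]
    apply cfc_trace_mono h ha _ _ (by fun_prop) (by fun_prop)
    intro x _
    by_cases hx : 2 ^ n * |x - t| ≤ 1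
    · rw [show pt n t x = 1 from clp_one (by linarith)]
      linarith [lo_le_one m (t + δ) x, lo_nonneg m (t - δ) x]
    · push Not at hx
      have hx' : δ < |x - t| := by
        by_contra hcon
        push Not at hcon
        nlinarith
      have h4 : (2 : ℝ) ^ (n + 2) ≤ 2 ^ m := pow_le_pow_right₀ (by norm_num) hm
      rw [pow_add] at h4
      rcases lt_or_ge x t with hxt | hxt
      · rw [abs_of_neg (by linarith)] at hx hx'
        have h5 : 2 ≤ 2 ^ m * (t - δ - x) := by
          have : 1 / 2 ≤ 2 ^ n * (t - δ - x) := by nlinarith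
          nlinarith
        have h6 : 2 ≤ 2 ^ m * (t + δ - x) := by nlinarith
        rw [lo_one m h5, lo_one m h6, sub_self]; exact pt_nonneg _ _ _
      · rw [abs_of_nonneg (by linarith)] at hx hx'
        rw [lo_zero m (show t + δ ≤ x by linarith), lo_zero m (show t - δ ≤ x by linarith),
          sub_self]
        exact pt_nonneg _ _ _
  refine ⟨δ, hδ0, fun {x} hx => ?_⟩
  rw [Real.dist_eq] at hx ⊢
  rw [abs_lt] at hx
  have m1 := trace_sp_mono h ha (show x ≤ t + δ by linarith)
  have m2 := trace_sp_mono h ha (show t - δ ≤ x by linarith)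
  have m3 := trace_sp_mono h ha (show t ≤ t + δ by linarith)
  have m4 := trace_sp_mono h ha (show t - δ ≤ t by linarith)
  rw [abs_lt]
  constructor <;> linarith

/-- Without atoms there are spectral projections of any trace in `[0,1]`. -/
theorem exists_sp_trace
    (hat : ∀ (t : ℝ) (e : M), IsStarProjection e → (∀ y, Commute a y → Commute e y) →
      a * e = (t : ℂ) • e → e = 0) (c : ℝ) (hc0 : 0 ≤ c) (hc1 : c ≤ 1) :
    ∃ t, (τ (sp h ha t)).re = c := by
  have hb : ∀ x ∈ spectrum ℝ a, |x| ≤ ‖a‖ := by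
    intro x hx
    have hx' := spectrum.norm_le_norm_mul_of_mem hx
    rcases subsingleton_or_nontrivial M with hs | hs
    · exfalso
      have h1 := h.map_one
      rw [Subsingleton.elim (1 : M) 0, map_zero] at h1
      exact zero_ne_one h1
    · rwa [norm_one, mul_one, Real.norm_eq_abs] at hx'
  have hcont := trace_sp_continuous h ha hat
  have l0 : (τ (sp h ha (-‖a‖))).re = 0 := by
    rw [sp_low h ha (fun x hx => (abs_le.1 (hb x hx)).1), map_zero, Complex.zero_re]
  have l1 : (τ (sp h ha (‖a‖ + 1))).re = 1 := by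
    rw [sp_high h ha one_pos (fun x hx => by linarith [(abs_le.1 (hb x hx)).2]), h.map_one,
      Complex.one_re]
  obtain ⟨t, ht⟩ := mem_range_of_exists_le_of_exists_ge hcont
    ⟨-‖a‖, l0.le.trans hc0⟩ ⟨‖a‖ + 1, hc1.trans l1.ge⟩
  exact ⟨t, ht⟩

end

end Pool.Agent.Lib.MP_41f445_an
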