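import Pool.Agent.Lib.MP_41f445_an.Ell2
import Pool.Agent.Lib.MP_41f445_an.Amp

/-!
# Definitions for the statement on extreme points of `Hom_w(A, M)`

All Hilbert spaces are complex, von Neumann algebras are Mathlib's (concrete) ones, and inner
products are conjugate linear in the first variable.  *-homomorphisms and *-isomorphisms are
given as maps between the algebras of all bounded operators with the corresponding properties.
-/

open Filter Topology
open scoped InnerProductSpace ENNReal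

namespace Pool.Agent.Lib.MP_41f445_an.St

/-! ## Generalities on operators -/

/-- The bounded operators on a Hilbert space. -/
def Op (K : Type) [NormedAddCommGroup K] [InnerProductSpace ℂ K] : Type := K →L[ℂ] K

section gen
variable {K : Type} [NormedAddCommGroup K] [InnerProductSpace ℂ K]

/-- `T f`. -/
def act (T : K →L[ℂ] K) (f : K) : K := T f

/-- `S p + T (1 - p)`. -/
def mix (S T p : K →L[ℂ] K) : K →L[ℂ] K := S * p + T * (1 - p)

/-- The vector functional `⟪Ξ, T Ξ⟫`. -/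
noncomputable def vst (Ξ : K) (T : K →L[ℂ] K) : ℂ := ⟪Ξ, T Ξ⟫_ℂ

variable [CompleteSpace K]

/-- `p` is an orthogonal projection that belongs to `N`. -/
def IsProjOf (N : VonNeumannAlgebra K) (p : K →L[ℂ] K) : Prop := p ∈ N ∧ p * p = p ∧ star p = p

theorem exists_gen (S : Set (K →L[ℂ] K)) : ∃ N : VonNeumannAlgebra K, ∀ x, x ∈ N ↔
    ∀ y : K →L[ℂ] K, (∀ s ∈ S, s * y = y * s ∧ star s * y = y * star s) → y * x = x * y := by
  refine ⟨Pool.Agent.Lib.MP_41f445_an.gen S, fun x => ?_⟩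
  rw [mem_gen_iff]
  constructor
  · intro h y hy
    exact h y (fun s hs => (hy s hs).1) (fun s hs => (hy s hs).2)
  · intro h y h1 h2
    exact h y (fun s hs => ⟨h1 s hs, h2 s hs⟩)

/-- The von Neumann algebra generated by a set `S` of operators: the double commutant
of `S ∪ S^*`. -/
noncomputable def gen (S : Set (K →L[ℂ] K)) : VonNeumannAlgebra K := Classical.choose (exists_gen S)

end gen

/-! ## The Hilbert space `H ⊗ L^2(R)` and its basic operators -/

/-- The index set of the orthonormal basis `X^a Z^b` of `L^2` of the infinite tensor product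
`R = ⊗ M_2(ℂ)`: pairs `(a, b)` of finitely supported functions `ℕ → ℤ/2`. -/
def Ix : Type := (ℕ →₀ ZMod 2) × (ℕ →₀ ZMod 2)

/-- The Hilbert space `H ⊗ L^2(R) = ℓ^2(Ix; H)`. -/
def Tens (H : Type) [NormedAddCommGroup H] : Type := lp (fun _ : Ix => H) 2

section inst
variable (H : Type) [NormedAddCommGroup H]

noncomputable instance tensNACG : NormedAddCommGroup (Tens H) :=
  lp.normedAddCommGroup (E := fun _ : Ix => H) (p := 2)

noncomputable instance tensIPS [InnerProductSpace ℂ H] : InnerProductSpace ℂ (Tens H) :=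
  lp.instInnerProductSpace (ι := Ix) (𝕜 := ℂ) (G := fun _ : Ix => H)

theorem tensCS [CompleteSpace H] : CompleteSpace (Tens H) :=
  inferInstanceAs (CompleteSpace (lp (fun _ : Ix => H) 2))

end inst

attribute [instance] tensCS

section ops
variable {H : Type} [NormedAddCommGroup H]

/-- The coordinates of a vector of `ℓ^2(Ix; H)`. -/
def co (f : Tens H) (a b : ℕ →₀ ZMod 2) : H := f.1 (a, b)

theorem exists_vec (Ω : H) : ∃ v : Tens H, co v 0 0 = Ω ∧
    ∀ a b, (a ≠ 0 ∨ b ≠ 0) → co v a b = 0 := by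
  refine ⟨(ampVec Ω : Amp H), ?_, ?_⟩
  · exact lp.single_apply_self (E := fun _ : PIdx => H) 2 (0 : PIdx) Ω
  · intro a b h
    refine lp.single_apply_ne (E := fun _ : PIdx => H) 2 (0 : PIdx) Ω ?_
    intro h0
    rcases h with h | h
    · exact h (congrArg Prod.fst h0)
    · exact h (congrArg Prod.snd h0)

/-- The vector `Ω ⊗ 1`, with coordinate `Ω` at `(0, 0)` and all other coordinates zero. -/
noncomputable def vec (Ω : H) : Tens H := Classical.choose (exists_vec Ω)

variable [InnerProductSpace ℂ H]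

theorem exists_one (x : H →L[ℂ] H) : ∃ T : Op (Tens H),
    ∀ f a b, co (act T f) a b = x (co f a b) :=
  ⟨(tensorOne x : Amp H →L[ℂ] Amp H), fun _ _ _ => rfl⟩

/-- `x ⊗ 1`. -/
noncomputable def one (x : H →L[ℂ] H) : Op (Tens H) := Classical.choose (exists_one x)

theorem exists_X (n : ℕ) : ∃ T : Op (Tens H),
    ∀ f a b, co (act T f) a b = co f (a + Finsupp.single n 1) b :=
  ⟨(pauliX n : Amp H →L[ℂ] Amp H), fun _ _ _ => rfl⟩

/-- `1 ⊗ X_n`, where `X_n` is the Pauli matrix `X` of the `n`-th tensor factor of `R`: it maps the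
basis element `X^a Z^b` to `X_n X^a Z^b`. -/
noncomputable def X (n : ℕ) : Op (Tens H) := Classical.choose (exists_X n)

theorem exists_Z (n : ℕ) : ∃ T : Op (Tens H),
    ∀ f a b, co (act T f) a b =
      (if a n = 0 then (1 : ℂ) else -1) • co f a (b + Finsupp.single n 1) :=
  ⟨(pauliZ n : Amp H →L[ℂ] Amp H), fun _ _ _ => rfl⟩

/-- `1 ⊗ Z_n`, where `Z_n` is the Pauli matrix `Z` of the `n`-th tensor factor of `R`: it maps the
basis element `X^a Z^b` to `Z_n X^a Z^b = (-1)^{a_n} X^a Z^{b + e_n}`. -/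
noncomputable def Z (n : ℕ) : Op (Tens H) := Classical.choose (exists_Z n)

end ops

/-! ## `M ⊗ R` and `1 ⊗ R` -/

section vn
variable {H : Type} [NormedAddCommGroup H] [InnerProductSpace ℂ H]

/-- The generators of `1 ⊗ R`. -/
def gensR (H : Type) [NormedAddCommGroup H] [InnerProductSpace ℂ H] : Set (Op (Tens H)) :=
  {T | ∃ n, T = X n ∨ T = Z n}

variable [CompleteSpace H]

/-- The generators of `M ⊗ R`. -/
def gensM (M : VonNeumannAlgebra H) : Set (Op (Tens H)) :=
  {T | (∃ x ∈ M, T = one x) ∨ T ∈ gensR H}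

/-- `1 ⊗ R`, where `R = ⊗ M_2(ℂ)` is the hyperfinite `II_1` factor, generated by the `X_n` and
the `Z_n`. -/
noncomputable def oneR (H : Type) [NormedAddCommGroup H] [InnerProductSpace ℂ H]
    [CompleteSpace H] : VonNeumannAlgebra (Tens H) := gen (gensR H)

/-- `M ⊗ R`, the von Neumann algebra generated by `M ⊗ 1` and `1 ⊗ R`. -/
noncomputable def ampR (M : VonNeumannAlgebra H) : VonNeumannAlgebra (Tens H) := gen (gensM M)

/-! ## `II_1` factors and weak approximate unitary equivalence -/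

/-- A separable `II_1` factor in standard form: `M` is a von Neumann algebra on the separable
Hilbert space `H`, it is infinite dimensional, its centre is trivial, and `Ω` is a unit vector,
cyclic for `M`, for which `x ↦ ⟪Ω, x Ω⟫` is a trace (it is then the unique faithful normal
tracial state of `M`, and `‖x Ω‖` is the 2-norm of `x`). -/
structure IsII1Factor (M : VonNeumannAlgebra H) (Ω : H) : Prop where
  separable : TopologicalSpace.SeparableSpace H
  infinite : ∀ s : Finset (H →L[ℂ] H), ∃ x ∈ M, x ∉ Submodule.span ℂ (s : Set (H →L[ℂ] H))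
  factor : ∀ z ∈ M, (∀ x ∈ M, x * z = z * x) → ∃ c : ℂ, z = c • (1 : H →L[ℂ] H)
  norm_one : ‖Ω‖ = 1
  cyclic : ∀ ξ : H, ∀ ε : ℝ, 0 < ε → ∃ x ∈ M, ‖x Ω - ξ‖ < ε
  trace : ∀ x ∈ M, ∀ y ∈ M, ⟪Ω, x (y Ω)⟫_ℂ = ⟪Ω, y (x Ω)⟫_ℂ

/-- Weak approximate unitary equivalence, inside `M`, of two families `f, g` of operators:
there are unitaries `u n` of `M` with `‖f a - u n * g a * (u n)^*‖_2 → 0` for all `a`, the
2-norm being that of the trace vector `Ω`. -/
def WAE (M : VonNeumannAlgebra H) (Ω : H) {α : Type} (f g : α → H →L[ℂ] H) : Prop :=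
  ∃ u : ℕ → H →L[ℂ] H, (∀ n, u n ∈ M ∧ star (u n) * u n = 1 ∧ u n * star (u n) = 1) ∧
    ∀ a, Tendsto (fun n => ‖(f a - u n * g a * star (u n)) Ω‖) atTop (𝓝 0)

/-- `σ` restricts to a *-isomorphism from `N` onto `M`. -/
structure IsIso {K : Type} [NormedAddCommGroup K] [InnerProductSpace ℂ K] [CompleteSpace K]
    (N : VonNeumannAlgebra K) (M : VonNeumannAlgebra H) (σ : (K →L[ℂ] K) → (H →L[ℂ] H)) :
    Prop where
  mem : ∀ x ∈ N, σ x ∈ M
  inj : ∀ x ∈ N, ∀ y ∈ N, σ x = σ y → x = y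
  surj : ∀ y ∈ M, ∃ x ∈ N, σ x = y
  add : ∀ x ∈ N, ∀ y ∈ N, σ (x + y) = σ x + σ y
  mul : ∀ x ∈ N, ∀ y ∈ N, σ (x * y) = σ x * σ y
  smul : ∀ (c : ℂ), ∀ x ∈ N, σ (c • x) = c • σ x
  map_star : ∀ x ∈ N, σ (star x) = star (σ x)

/-- A McDuff factor: `M ⊗ R ≅ M`. -/
def IsMcDuff (M : VonNeumannAlgebra H) : Prop := ∃ σ : Op (Tens H) → Op H, IsIso (ampR M) M σ

/-- The admissible isomorphisms `σ : M ⊗ R → M`: those for which `x ↦ σ (x ⊗ 1)` is weakly
approximately unitarily equivalent to the identity of `M`. -/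
def Admissible (M : VonNeumannAlgebra H) (Ω : H) (σ : Op (Tens H) → Op H) : Prop :=
  IsIso (ampR M) M σ ∧ WAE M Ω (fun x : {x : H →L[ℂ] H // x ∈ M} => σ (one x.1)) (fun x => x.1)

/-- `π` is a unital *-homomorphism `A → M`. -/
structure IsHom {A : Type} [CStarAlgebra A] (M : VonNeumannAlgebra H) (π : A → H →L[ℂ] H) :
    Prop where
  mem : ∀ a, π a ∈ M
  map_one : π 1 = 1
  add : ∀ a b, π (a + b) = π a + π b
  mul : ∀ a b, π (a * b) = π a * π b
  smul : ∀ (c : ℂ) a, π (c • a) = c • π a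
  map_star : ∀ a, π (star a) = star (π a)

/-- `[π] = t [π₁] + (1 - t) [π₂]` in `Hom_w(A, M)`: for some projection `p` of `R` of trace `t`
the map `a ↦ σ (π₁ a ⊗ p + π₂ a ⊗ (1 - p))` is weakly approximately unitarily equivalent
to `π`. -/
def IsComb {A : Type} (M : VonNeumannAlgebra H) (Ω : H) (σ : Op (Tens H) → Op H) (t : ℝ)
    (π₁ π₂ π : A → H →L[ℂ] H) : Prop :=
  ∃ p : Op (Tens H), IsProjOf (oneR H) p ∧ vst (vec Ω) p = (t : ℂ) ∧
    WAE M Ω (fun a => σ (mix (one (π₁ a)) (one (π₂ a)) p)) π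

/-- `[π]` is an extreme point of `Hom_w(A, M)`: whenever `[π] = t [π₁] + (1 - t) [π₂]` with
`0 < t < 1`, one has `[π₁] = [π₂] = [π]`. -/
def IsExtremePt {A : Type} [CStarAlgebra A] (M : VonNeumannAlgebra H) (Ω : H)
    (σ : Op (Tens H) → Op H) (π : A → H →L[ℂ] H) : Prop :=
  ∀ (t : ℝ) (π₁ π₂ : A → H →L[ℂ] H), IsHom M π₁ → IsHom M π₂ → 0 < t → t < 1 →
    IsComb M Ω σ t π₁ π₂ π → WAE M Ω π₁ π ∧ WAE M Ω π₂ π

/-- `A` and `M` form a counterexample: `A` is a separable unital C*-algebra, `M` is a separable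
McDuff `II_1` factor with trace vector `Ω`, there are admissible isomorphisms `M ⊗ R → M`,
`Hom_w(A, M)` is nonempty, and (for every admissible isomorphism) it has no extreme point. -/
def NoExtreme (A : Type) [CStarAlgebra A] (M : VonNeumannAlgebra H) (Ω : H) : Prop :=
  TopologicalSpace.SeparableSpace A ∧ IsII1Factor M Ω ∧ IsMcDuff M ∧
  (∃ σ, Admissible M Ω σ) ∧ (∃ π : A → H →L[ℂ] H, IsHom M π) ∧
  ∀ σ, Admissible M Ω σ → ∀ π : A → H →L[ℂ] H, IsHom M π → ¬ IsExtremePt M Ω σ π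

end vn

end Pool.Agent.Lib.MP_41f445_an.St
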