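import Pool.Agent.Lib.MP_41f445_an.Model

/-!
# Unitaries of the model implementing permutations of the tensor factors
-/

open Filter Topology
open scoped InnerProductSpace ENNReal

namespace Pool.Agent.Lib.MP_41f445_an

/-- Permutation of coordinates. -/
noncomputable def pact (π : Equiv.Perm ℕ) (a : ℕ →₀ ZMod 2) : ℕ →₀ ZMod 2 :=
  Finsupp.equivMapDomain π a

lemma pact_apply (π : Equiv.Perm ℕ) (a : ℕ →₀ ZMod 2) (n : ℕ) : pact π a n = a (π.symm n) := rfl

/-- Permutation of coordinates on pairs. -/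
noncomputable def pact2 (π : Equiv.Perm ℕ) (i : PIdx) : PIdx := (pact π i.1, pact π i.2)

lemma pact2_one (i : PIdx) : pact2 1 i = i := by
  ext n <;> rfl

lemma pact2_mul (π π' : Equiv.Perm ℕ) (i : PIdx) : pact2 (π * π') i = pact2 π (pact2 π' i) := by
  ext n <;> rfl

/-- The vector `e_m + e_n`. -/
noncomputable def ev2 (m n : ℕ) : ℕ →₀ ZMod 2 := Finsupp.single m 1 + Finsupp.single n 1

lemma dot_ev2_left (m n : ℕ) (a : ℕ →₀ ZMod 2) : dot (ev2 m n) a = a m + a n := by
  unfold ev2
  rw [dot_add_left, dot_single_left, dot_single_left, one_mul, one_mul]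

lemma dot_ev2_right (m n : ℕ) (a : ℕ →₀ ZMod 2) : dot a (ev2 m n) = a m + a n := by
  unfold ev2
  rw [dot_add_right, dot_single_right, dot_single_right, mul_one, mul_one]

lemma dot_ev2_ev2 {m n : ℕ} (h : m ≠ n) : dot (ev2 m n) (ev2 m n) = 0 := by
  rw [dot_ev2_left]
  unfold ev2
  rw [Finsupp.add_apply, Finsupp.add_apply, Finsupp.single_eq_same, Finsupp.single_eq_same,
    Finsupp.single_apply, Finsupp.single_apply, if_neg h, if_neg h.symm]
  decide

lemma pact_swap {m n : ℕ} (h : m ≠ n) (a : ℕ →₀ ZMod 2) :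
    pact (Equiv.swap m n) a = a + (a m + a n) • ev2 m n := by
  ext k
  rw [pact_apply, Equiv.symm_swap, Finsupp.add_apply, Finsupp.smul_apply, ev2, Finsupp.add_apply,
    Finsupp.single_apply, Finsupp.single_apply, smul_eq_mul]
  by_cases h1 : k = m
  · subst h1
    rw [Equiv.swap_apply_left, if_pos rfl, if_neg h.symm, add_zero, mul_one, ← add_assoc, zadd,
      zero_add]
  · by_cases h2 : k = n
    · subst h2
      rw [Equiv.swap_apply_right, if_neg (Ne.symm h1), if_pos rfl, zero_add, mul_one,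
        add_comm (a m), ← add_assoc, zadd, zero_add]
    · rw [Equiv.swap_apply_of_ne_of_ne h1 h2, if_neg (Ne.symm h1), if_neg (Ne.symm h2), add_zero,
        mul_zero, add_zero]

section swapalg
variable {R : Type} [Ring R] [Algebra ℂ R]

lemma swap_sq {A B : R} (hA : A * A = 1) (hB : B * B = 1) (hAB : A * B = B * A) :
    (1 + A + B - A * B) * (1 + A + B - A * B) = (4 : ℂ) • (1 : R) := by
  have e1 : A * B * A = B := by rw [hAB, mul_assoc, hA, mul_one]
  have e2 : A * B * B = A := by rw [mul_assoc, hB, mul_one]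
  have e3 : A * B * (A * B) = 1 := by
    calc A * B * (A * B) = (A * B * A) * B := by simp only [mul_assoc]
      _ = 1 := by rw [e1, hB]
  have e4 : A * (A * B) = B := by rw [← mul_assoc, hA, one_mul]
  have e5 : B * (A * B) = A := by rw [hAB, ← mul_assoc, hB, one_mul]
  have h4 : (4 : ℂ) • (1 : R) = 1 + 1 + 1 + 1 := by
    have : (4 : ℂ) = 1 + 1 + 1 + 1 := by norm_num
    rw [this, add_smul, add_smul, add_smul, one_smul]
  rw [h4]
  calc (1 + A + B - A * B) * (1 + A + B - A * B)
      = 1 + A * A + B * B + A * B * (A * B) + (A + A) + (B + B) - (A * B + A * B)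
        + (A * B + B * A) - A * (A * B) - A * B * A - B * (A * B) - A * B * B := by noncomm_ring
    _ = _ := by rw [e1, e2, e3, e4, e5, hA, hB, ← hAB]; abel

lemma swap_rel {A B L : R} (hA : A * A = 1) (hB : B * B = 1) (hAB : A * B = B * A)
    (α β : ZMod 2) (h1 : A * L = sgn β • (L * A)) (h2 : B * L = sgn α • (L * B)) :
    (1 + A + B - A * B) * L =
      ((if α = 0 then (if β = 0 then L else L * B) else
        (if β = 0 then L * A else -(L * A * B)))) * (1 + A + B - A * B) := by
  have h10 : (1 : ZMod 2) ≠ 0 := by decide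
  have e0 : (1 + A + B - A * B) * L = L + A * L + B * L - A * (B * L) := by noncomm_ring
  have e1 : ∀ c : ℂ, A * (c • (L * B)) = (c * sgn β) • (L * A * B) := by
    intro c
    rw [mul_smul_comm, ← mul_assoc, h1, smul_mul_assoc, smul_smul]
  rw [e0, h2, e1, h1]
  have f1 : L * A * A = L := by rw [mul_assoc, hA, mul_one]
  have f2 : L * B * B = L := by rw [mul_assoc, hB, mul_one]
  have f3 : L * B * A = L * A * B := by rw [mul_assoc, ← hAB, ← mul_assoc]
  have f4 : L * A * (A * B) = L * B := by rw [← mul_assoc, f1]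
  have f5 : L * B * (A * B) = L * A := by
    rw [hAB, ← mul_assoc, f2]
  have f6 : L * A * B * A = L * B := by
    rw [mul_assoc (L * A), ← hAB, f4]
  have f7 : L * A * B * B = L * A := by rw [mul_assoc (L * A), hB, mul_one]
  have f8 : L * A * B * (A * B) = L := by
    rw [← mul_assoc, f6, f2]
  rcases z2_cases α with rfl | rfl <;> rcases z2_cases β with rfl | rfl
  · rw [if_pos rfl, if_pos rfl]
    simp only [sgn_zero, one_smul, one_mul]
    noncomm_ring
  · rw [if_pos rfl, if_neg h10]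
    simp only [sgn_zero, sgn_one, one_smul, one_mul]
    calc _ = L + L * B + L * A * B - L * A := by simp only [neg_smul, one_smul]; abel
      _ = L * B + L * B * A + L * B * B - L * B * (A * B) := by rw [f3, f2, f5]; abel
      _ = _ := by noncomm_ring
  · rw [if_neg h10, if_pos rfl]
    simp only [sgn_zero, sgn_one, one_smul, mul_one]
    calc _ = L + L * A + L * A * B - L * B := by simp only [neg_smul, one_smul]; abel
      _ = L * A + L * A * A + L * A * B - L * A * (A * B) := by rw [f1, f4]; abel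
      _ = _ := by noncomm_ring
  · rw [if_neg h10, if_neg h10]
    simp only [sgn_one]
    calc _ = L - L * A - L * B - L * A * B := by
          simp only [neg_smul, one_smul, mul_neg, mul_one, neg_neg]; abel
      _ = -(L * A * B) - L * A * B * A - L * A * B * B + L * A * B * (A * B) := by
          rw [f6, f7, f8]; abel
      _ = _ := by noncomm_ring

end swapalg

/-- `X_m X_n`. -/
noncomputable def XX (m n : ℕ) : HS →L[ℂ] HS := Lop 1 (ev2 m n, 0)

/-- `Z_m Z_n`. -/
noncomputable def ZZ (m n : ℕ) : HS →L[ℂ] HS := Lop 1 (0, ev2 m n)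

lemma XX_sq (m n : ℕ) : XX m n * XX m n = 1 := by
  unfold XX
  rw [Lop_mul, dot_zero_left, sgn_zero, one_smul, padd, one_mul, Lop_one]

lemma ZZ_sq (m n : ℕ) : ZZ m n * ZZ m n = 1 := by
  unfold ZZ
  rw [Lop_mul, dot_zero_right, sgn_zero, one_smul, padd, one_mul, Lop_one]

lemma XX_ZZ {m n : ℕ} (h : m ≠ n) : XX m n * ZZ m n = ZZ m n * XX m n := by
  unfold XX ZZ
  rw [Lop_mul, Lop_mul, dot_zero_left, dot_ev2_ev2 h, add_comm]

lemma XX_star (m n : ℕ) : star (XX m n) = XX m n := by
  unfold XX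
  rw [Lop_star, dot_zero_left, sgn_zero, one_smul, inv_one]

lemma ZZ_star (m n : ℕ) : star (ZZ m n) = ZZ m n := by
  unfold ZZ
  rw [Lop_star, dot_zero_right, sgn_zero, one_smul, inv_one]

/-- The swap unitary. -/
noncomputable def SW (m n : ℕ) : HS →L[ℂ] HS :=
  (1 / 2 : ℂ) • (1 + XX m n + ZZ m n - XX m n * ZZ m n)

lemma SW_mem (m n : ℕ) : SW m n ∈ Mdl :=
  smul_memM _ (sub_mem (add_mem (add_mem (one_mem Mdl) (Lop_mem _ _)) (Lop_mem _ _))
    (mul_mem (Lop_mem _ _) (Lop_mem _ _)))

lemma SW_sq {m n : ℕ} (h : m ≠ n) : SW m n * SW m n = 1 := by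
  unfold SW
  rw [smul_mul_assoc, mul_smul_comm, swap_sq (XX_sq m n) (ZZ_sq m n) (XX_ZZ h), smul_smul,
    smul_smul]
  norm_num

lemma SW_star {m n : ℕ} (h : m ≠ n) : star (SW m n) = SW m n := by
  unfold SW
  rw [star_smul, star_sub, star_add, star_add, star_mul, XX_star, ZZ_star, star_one, XX_ZZ h]
  congr 1
  simp

lemma SW_unitary {m n : ℕ} (h : m ≠ n) : SW m n ∈ unitary (HS →L[ℂ] HS) := by
  rw [Unitary.mem_iff, SW_star h, SW_sq h]
  exact ⟨rfl, rfl⟩

lemma SW_rel {m n : ℕ} (h : m ≠ n) (g : Lam) (j : PIdx) :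
    SW m n * Lop g j = Lop g (pact2 (Equiv.swap m n) j) * SW m n := by
  have h10 : (1 : ZMod 2) ≠ 0 := by decide
  have r1 : XX m n * Lop g j = sgn (j.2 m + j.2 n) • (Lop g j * XX m n) := by
    unfold XX
    rw [Lop_mul, Lop_mul, dot_zero_left, sgn_zero, one_smul, one_mul, mul_one,
      dot_ev2_right, sgn_smul_smul, add_comm]
  have r2 : ZZ m n * Lop g j = sgn (j.1 m + j.1 n) • (Lop g j * ZZ m n) := by
    unfold ZZ
    rw [Lop_mul, Lop_mul, dot_zero_right, sgn_zero, one_smul, one_mul, mul_one,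
      dot_ev2_left, add_comm (0, ev2 m n) j]
  have key := swap_rel (XX_sq m n) (ZZ_sq m n) (XX_ZZ h) (j.1 m + j.1 n) (j.2 m + j.2 n) r1 r2
  unfold SW
  rw [smul_mul_assoc, mul_smul_comm, key]
  congr 2
  have e0 : pact2 (Equiv.swap m n) j =
      j + ((j.1 m + j.1 n) • ev2 m n, (j.2 m + j.2 n) • ev2 m n) := by
    unfold pact2
    rw [pact_swap h, pact_swap h]; rfl
  rw [e0]
  have LX : Lop g j * XX m n = sgn (j.2 m + j.2 n) • Lop g (j + (ev2 m n, 0)) := by
    unfold XX
    rw [Lop_mul, dot_ev2_right, mul_one]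
  have LZ : ∀ i : PIdx, Lop g i * ZZ m n = Lop g (i + (0, ev2 m n)) := by
    intro i
    unfold ZZ
    rw [Lop_mul, dot_zero_right, mul_one, sgn_zero, one_smul]
  rcases z2_cases (j.1 m + j.1 n) with ha | ha <;> rcases z2_cases (j.2 m + j.2 n) with hb | hb
  · rw [ha, hb, if_pos rfl, if_pos rfl, zero_smul]
    congr 1
    ext k <;> simp
  · rw [ha, hb, if_pos rfl, if_neg h10, zero_smul, one_smul, LZ]
  · rw [ha, hb, if_neg h10, if_pos rfl, zero_smul, one_smul, LX, hb, sgn_zero, one_smul]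
  · rw [ha, hb, if_neg h10, if_neg h10, one_smul, LX, hb, sgn_one, smul_mul_assoc, LZ,
      neg_smul, one_smul, neg_neg, add_assoc]
    congr 2
    ext k <;> simp

/-- Unitaries moving the first `N` tensor factors to the even positions. -/
theorem exists_unitary (N : ℕ) : ∃ u ∈ Mdl, u ∈ unitary (HS →L[ℂ] HS) ∧
    ∃ π : Equiv.Perm ℕ, (∀ m < N, π m = 2 * m) ∧
      ∀ g j, u * Lop g j = Lop g (pact2 π j) * u := by
  induction N with
  | zero =>
    refine ⟨1, one_mem _, one_mem _, 1, fun m hm => absurd hm (Nat.not_lt_zero m), ?_⟩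
    intro g j
    rw [pact2_one, one_mul, mul_one]
  | succ N ih =>
    obtain ⟨u, hu, huu, π, hπ, hrel⟩ := ih
    by_cases hN : π N = 2 * N
    · refine ⟨u, hu, huu, π, ?_, hrel⟩
      intro m hm
      rcases Nat.lt_succ_iff_lt_or_eq.1 hm with h | h
      · exact hπ m h
      · rw [h]; exact hN
    · refine ⟨SW (π N) (2 * N) * u, mul_mem (SW_mem _ _) hu, mul_mem (SW_unitary hN) huu,
        Equiv.swap (π N) (2 * N) * π, ?_, ?_⟩
      · intro m hm
        rw [Equiv.Perm.mul_apply]
        rcases Nat.lt_succ_iff_lt_or_eq.1 hm with h | h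
        · rw [hπ m h]
          apply Equiv.swap_apply_of_ne_of_ne
          · intro he
            rw [← hπ m h] at he
            exact (ne_of_lt h) (π.injective he)
          · omega
        · rw [h, Equiv.swap_apply_left]
      · intro g j
        rw [mul_assoc, hrel, ← mul_assoc, SW_rel hN, pact2_mul, mul_assoc]

end Pool.Agent.Lib.MP_41f445_an
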