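import Mathlib

/-!
# Tracial von Neumann algebras, abstractly

A unital C*-algebra with a faithful tracial state whose closed unit ball is complete for the
2-norm.  This file develops the 2-norm calculus.
-/

set_option linter.unusedSectionVars false

open Topology Filter
open scoped ComplexOrder

namespace Pool.Agent.Lib.MP_41f445_an

variable {M : Type*} [CStarAlgebra M]

/-- The 2-norm of a linear functional. -/
noncomputable def n2 (τ : M →ₗ[ℂ] ℂ) (x : M) : ℝ := Real.sqrt (τ (star x * x)).re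

/-- `τ` is a faithful tracial state on the unital C*-algebra `M` and the closed unit ball of `M`
is complete for the 2-norm. Equivalently, `M` is a (finite) von Neumann algebra and `τ` is a
faithful normal tracial state on it. -/
structure IsFiniteVN (τ : M →ₗ[ℂ] ℂ) : Prop where
  map_one : τ 1 = 1
  pos : ∀ x, 0 ≤ τ (star x * x)
  faithful : ∀ x, τ (star x * x) = 0 → x = 0
  comm : ∀ x y, τ (x * y) = τ (y * x)
  complete : ∀ x : ℕ → M, (∀ n, ‖x n‖ ≤ 1) →
    (∀ ε > 0, ∃ N, ∀ m ≥ N, ∀ n ≥ N, n2 τ (x m - x n) < ε) →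
    ∃ y, ‖y‖ ≤ 1 ∧ Tendsto (fun n => n2 τ (x n - y)) atTop (𝓝 0)

/-- The pre-Hilbert space `M` with inner product `τ(x*y)`. -/
def L2 {τ : M →ₗ[ℂ] ℂ} (_h : IsFiniteVN τ) := M

namespace IsFiniteVN

variable {τ : M →ₗ[ℂ] ℂ} (h : IsFiniteVN τ)

include h in
lemma star_map (x : M) : τ (star x) = star (τ x) := by
  have hsa : ∀ y : M, (τ (star y * y)).im = 0 := fun y => (Complex.nonneg_iff.1 (h.pos y)).2.symm
  have e1 := hsa (x + 1)
  have e2 := hsa (x + Complex.I • 1)
  simp only [star_add, star_one, add_mul, mul_add, one_mul, mul_one, map_add,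
    Complex.add_im, hsa x, h.map_one, Complex.one_im, star_smul, smul_mul_assoc, mul_smul_comm,
    map_smul, smul_eq_mul, Complex.mul_im, Complex.I_re, Complex.I_im, zero_mul,
    Complex.star_def, Complex.conj_I, Complex.neg_re, Complex.neg_im, neg_zero,
    zero_add, add_zero] at e1 e2
  apply Complex.ext
  · simp only [Complex.star_def, Complex.conj_re]; linarith
  · simp only [Complex.star_def, Complex.conj_im]; linarith

instance : AddCommGroup (L2 h) := inferInstanceAs (AddCommGroup M)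
instance : Module ℂ (L2 h) := inferInstanceAs (Module ℂ M)

/-- The inner product. -/
noncomputable abbrev core : InnerProductSpace.Core ℂ (L2 h) where
  inner a b := τ (star (show M from a) * (show M from b))
  conj_inner_symm a b := by
    change star (τ (star (show M from b) * (show M from a))) = _
    rw [← h.star_map, star_mul, star_star]
  re_inner_nonneg a := (Complex.nonneg_iff.1 (h.pos a)).1
  add_left a b c := by
    change τ (star ((show M from a) + (show M from b)) * _) = _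
    rw [star_add, add_mul, map_add]
  smul_left a b r := by
    change τ (star (r • (show M from a)) * _) = _
    rw [star_smul, smul_mul_assoc, map_smul]; rfl
  definite a ha := h.faithful a ha

noncomputable instance : NormedAddCommGroup (L2 h) :=
  InnerProductSpace.Core.toNormedAddCommGroup (cd := h.core)
noncomputable instance : InnerProductSpace ℂ (L2 h) :=
  InnerProductSpace.ofCore h.core.toCore

/-- The identity map. -/
noncomputable def toL2 : M ≃ₗ[ℂ] L2 h := LinearEquiv.refl ℂ M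

lemma inner_toL2 (x y : M) : inner ℂ (h.toL2 x) (h.toL2 y) = τ (star x * y) := rfl

lemma norm_toL2 (x : M) : ‖h.toL2 x‖ = n2 τ x := rfl

include h

lemma n2_nonneg (x : M) : 0 ≤ n2 τ x := Real.sqrt_nonneg _

lemma n2_sq (x : M) : n2 τ x ^ 2 = (τ (star x * x)).re :=
  Real.sq_sqrt (Complex.nonneg_iff.1 (h.pos x)).1

lemma trace_star_mul_self (x : M) : τ (star x * x) = ((n2 τ x ^ 2 : ℝ) : ℂ) := by
  apply Complex.ext
  · rw [h.n2_sq]; simp
  · rw [Complex.ofReal_im]; exact (Complex.nonneg_iff.1 (h.pos x)).2.symm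

lemma n2_add_le (x y : M) : n2 τ (x + y) ≤ n2 τ x + n2 τ y := by
  have := norm_add_le (h.toL2 x) (h.toL2 y)
  rwa [← map_add, norm_toL2, norm_toL2, norm_toL2] at this

lemma n2_neg (x : M) : n2 τ (-x) = n2 τ x := by simp [n2]

lemma n2_sub_le (x y : M) : n2 τ (x - y) ≤ n2 τ x + n2 τ y := by
  rw [sub_eq_add_neg, ← h.n2_neg y]; exact h.n2_add_le _ _

lemma n2_sub_comm (x y : M) : n2 τ (x - y) = n2 τ (y - x) := by
  rw [← neg_sub, h.n2_neg]

lemma n2_triangle (x y z : M) : n2 τ (x - z) ≤ n2 τ (x - y) + n2 τ (y - z) := by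
  have := h.n2_add_le (x - y) (y - z)
  simpa using this

lemma n2_smul (c : ℂ) (x : M) : n2 τ (c • x) = ‖c‖ * n2 τ x := by
  have := norm_smul c (h.toL2 x)
  rwa [← map_smul, norm_toL2, norm_toL2] at this

lemma n2_zero : n2 τ (0 : M) = 0 := by simp [n2]

lemma n2_one : n2 τ (1 : M) = 1 := by simp [n2, h.map_one]

lemma n2_eq_zero {x : M} : n2 τ x = 0 ↔ x = 0 := by
  constructor
  · intro hx
    apply h.faithful
    rw [h.trace_star_mul_self, hx]; simp
  · rintro rfl; exact h.n2_zero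

lemma norm_trace_star_mul_le (x y : M) : ‖τ (star x * y)‖ ≤ n2 τ x * n2 τ y := by
  have := norm_inner_le_norm (𝕜 := ℂ) (h.toL2 x) (h.toL2 y)
  rwa [inner_toL2, norm_toL2, norm_toL2] at this

lemma n2_star (x : M) : n2 τ (star x) = n2 τ x := by
  rw [n2, n2, star_star, h.comm]

lemma norm_trace_mul_le (x y : M) : ‖τ (x * y)‖ ≤ n2 τ x * n2 τ y := by
  have := h.norm_trace_star_mul_le (star x) y
  rwa [star_star, h.n2_star] at this

lemma norm_trace_le_n2 (x : M) : ‖τ x‖ ≤ n2 τ x := by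
  have := h.norm_trace_mul_le 1 x
  rwa [one_mul, h.n2_one, one_mul] at this

/-- Positivity of the trace. -/
lemma trace_nonneg_of_eq {a z : M} (hz : a = star z * z) : 0 ≤ (τ a).re := by
  rw [hz]; exact (Complex.nonneg_iff.1 (h.pos z)).1

lemma n2_mul_le (x y : M) : n2 τ (x * y) ≤ ‖x‖ * n2 τ y := by
  let _ := CStarAlgebra.spectralOrder M
  have := CStarAlgebra.spectralOrderedRing M
  rw [← sq_le_sq₀ (h.n2_nonneg _) (mul_nonneg (norm_nonneg _) (h.n2_nonneg _)), mul_pow,
    h.n2_sq, h.n2_sq]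
  have h1 : star y * (star x * x) * y ≤ ‖star x * x‖ • (star y * y) :=
    CStarAlgebra.star_left_conjugate_le_norm_smul (IsSelfAdjoint.star_mul_self x)
  have h2 : 0 ≤ ‖star x * x‖ • (star y * y) - star y * (star x * x) * y := sub_nonneg.2 h1
  rw [CStarAlgebra.nonneg_iff_eq_star_mul_self] at h2
  obtain ⟨z, hz⟩ := h2
  have h3 := h.trace_nonneg_of_eq hz
  rw [map_sub, Complex.sub_re, CStarRing.norm_star_mul_self] at h3
  have h4 : ((‖x‖ * ‖x‖) • (star y * y) : M) = ((‖x‖ * ‖x‖ : ℝ) : ℂ) • (star y * y) := by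
    rw [Complex.coe_smul]
  rw [h4, map_smul, smul_eq_mul, Complex.re_ofReal_mul] at h3
  have h5 : star (x * y) * (x * y) = star y * (star x * x) * y := by
    rw [star_mul]; simp only [mul_assoc]
  rw [h5]; nlinarith

lemma n2_mul_le' (x y : M) : n2 τ (x * y) ≤ n2 τ x * ‖y‖ := by
  rw [← h.n2_star, star_mul]
  refine (h.n2_mul_le _ _).trans ?_
  rw [norm_star, h.n2_star, mul_comm]

lemma n2_le_norm (x : M) : n2 τ x ≤ ‖x‖ := by
  have := h.n2_mul_le x 1
  rwa [mul_one, h.n2_one, mul_one] at this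

lemma norm_trace_le (x : M) : ‖τ x‖ ≤ ‖x‖ := (h.norm_trace_le_n2 x).trans (h.n2_le_norm x)

end IsFiniteVN

/-- Convergence in the 2-norm. -/
def Tends (τ : M →ₗ[ℂ] ℂ) (x : ℕ → M) (y : M) : Prop :=
  Tendsto (fun n => n2 τ (x n - y)) atTop (𝓝 0)

namespace IsFiniteVN

variable {τ : M →ₗ[ℂ] ℂ} (h : IsFiniteVN τ)
include h

lemma tends_const (x : M) : Tends τ (fun _ => x) x := by
  simp only [Tends, sub_self, h.n2_zero]; exact tendsto_const_nhds

lemma tends_of_norm {x : ℕ → M} {y : M} (hx : Tendsto x atTop (𝓝 y)) : Tends τ x y := by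
  refine squeeze_zero (fun n => h.n2_nonneg _) (fun n => h.n2_le_norm _) ?_
  have : Tendsto (fun n => ‖x n - y‖) atTop (𝓝 ‖y - y‖) := (hx.sub_const y).norm
  simpa using this

lemma tends_unique {x : ℕ → M} {y z : M} (h1 : Tends τ x y) (h2 : Tends τ x z) : y = z := by
  have : Tendsto (fun n => n2 τ (x n - y) + n2 τ (x n - z)) atTop (𝓝 (0 + 0)) := h1.add h2
  rw [add_zero] at this
  have h3 : n2 τ (y - z) ≤ 0 := by
    refine ge_of_tendsto this (Eventually.of_forall fun n => ?_)
    have := h.n2_triangle y (x n) z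
    rwa [h.n2_sub_comm y (x n)] at this
  have h4 := (h.n2_eq_zero).1 (le_antisymm h3 (h.n2_nonneg _))
  exact sub_eq_zero.1 h4

lemma tends_add {x x' : ℕ → M} {y y' : M} (h1 : Tends τ x y) (h2 : Tends τ x' y') :
    Tends τ (fun n => x n + x' n) (y + y') := by
  have : Tendsto (fun n => n2 τ (x n - y) + n2 τ (x' n - y')) atTop (𝓝 (0 + 0)) := h1.add h2
  rw [add_zero] at this
  refine squeeze_zero (fun n => h.n2_nonneg _) (fun n => ?_) this
  have := h.n2_add_le (x n - y) (x' n - y')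
  rwa [show x n - y + (x' n - y') = x n + x' n - (y + y') by abel] at this

lemma tends_neg {x : ℕ → M} {y : M} (h1 : Tends τ x y) : Tends τ (fun n => - x n) (-y) := by
  have : (fun n => n2 τ (-x n - -y)) = fun n => n2 τ (x n - y) := by
    ext n; rw [← h.n2_neg]; congr 1; abel
  rw [Tends, this]; exact h1

lemma tends_sub {x x' : ℕ → M} {y y' : M} (h1 : Tends τ x y) (h2 : Tends τ x' y') :
    Tends τ (fun n => x n - x' n) (y - y') := by
  have := h.tends_add h1 (h.tends_neg h2)
  simpa [sub_eq_add_neg] using this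

lemma tends_star {x : ℕ → M} {y : M} (h1 : Tends τ x y) : Tends τ (fun n => star (x n)) (star y) := by
  have : (fun n => n2 τ (star (x n) - star y)) = fun n => n2 τ (x n - y) := by
    ext n; rw [← star_sub, h.n2_star]
  rw [Tends, this]; exact h1

lemma tends_mul_left (a : M) {x : ℕ → M} {y : M} (h1 : Tends τ x y) :
    Tends τ (fun n => a * x n) (a * y) := by
  have : Tendsto (fun n => ‖a‖ * n2 τ (x n - y)) atTop (𝓝 (‖a‖ * 0)) := h1.const_mul _
  rw [mul_zero] at this
  refine squeeze_zero (fun n => h.n2_nonneg _) (fun n => ?_) this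
  rw [← mul_sub]; exact h.n2_mul_le _ _

lemma tends_mul_right (a : M) {x : ℕ → M} {y : M} (h1 : Tends τ x y) :
    Tends τ (fun n => x n * a) (y * a) := by
  have : Tendsto (fun n => n2 τ (x n - y) * ‖a‖) atTop (𝓝 (0 * ‖a‖)) := h1.mul_const _
  rw [zero_mul] at this
  refine squeeze_zero (fun n => h.n2_nonneg _) (fun n => ?_) this
  rw [← sub_mul]; exact h.n2_mul_le' _ _

lemma tends_smul (c : ℂ) {x : ℕ → M} {y : M} (h1 : Tends τ x y) :
    Tends τ (fun n => c • x n) (c • y) := by
  have : Tendsto (fun n => ‖c‖ * n2 τ (x n - y)) atTop (𝓝 (‖c‖ * 0)) := h1.const_mul _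
  rw [mul_zero] at this
  refine squeeze_zero (fun n => h.n2_nonneg _) (fun n => ?_) this
  rw [← smul_sub, h.n2_smul]

lemma tends_mul {x x' : ℕ → M} {y y' : M} (C : ℝ) (hC : ∀ n, ‖x n‖ ≤ C) (h1 : Tends τ x y)
    (h2 : Tends τ x' y') : Tends τ (fun n => x n * x' n) (y * y') := by
  have : Tendsto (fun n => C * n2 τ (x' n - y') + n2 τ (x n - y) * ‖y'‖) atTop
      (𝓝 (C * 0 + 0 * ‖y'‖)) := (h2.const_mul _).add (h1.mul_const _)
  rw [mul_zero, zero_mul, add_zero] at this
  refine squeeze_zero (fun n => h.n2_nonneg _) (fun n => ?_) this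
  have e : x n * x' n - y * y' = x n * (x' n - y') + (x n - y) * y' := by noncomm_ring
  rw [e]
  refine (h.n2_add_le _ _).trans (add_le_add ((h.n2_mul_le _ _).trans ?_) (h.n2_mul_le' _ _))
  exact mul_le_mul_of_nonneg_right (hC n) (h.n2_nonneg _)

lemma tends_trace {x : ℕ → M} {y : M} (h1 : Tends τ x y) :
    Tendsto (fun n => τ (x n)) atTop (𝓝 (τ y)) := by
  rw [tendsto_iff_norm_sub_tendsto_zero]
  refine squeeze_zero (fun n => norm_nonneg _) (fun n => ?_) h1
  rw [← map_sub]; exact h.norm_trace_le_n2 _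

lemma tends_n2 {x : ℕ → M} {y : M} (h1 : Tends τ x y) :
    Tendsto (fun n => n2 τ (x n)) atTop (𝓝 (n2 τ y)) := by
  rw [tendsto_iff_norm_sub_tendsto_zero]
  refine squeeze_zero (fun n => norm_nonneg _) (fun n => ?_) h1
  rw [Real.norm_eq_abs, abs_le]
  constructor
  · have := h.n2_add_le (x n) (y - x n)
    rw [add_sub_cancel, h.n2_sub_comm] at this; linarith
  · have := h.n2_add_le (x n - y) y
    rw [sub_add_cancel] at this; linarith

lemma tends_comp {x : ℕ → M} {y : M} (h1 : Tends τ x y) {φ : ℕ → ℕ} (hφ : Tendsto φ atTop atTop) :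
    Tends τ (fun n => x (φ n)) y := h1.comp hφ

/-- Completeness of bounded balls. -/
lemma exists_tends (C : ℝ) (x : ℕ → M) (hx : ∀ n, ‖x n‖ ≤ C)
    (hc : ∀ ε > 0, ∃ N, ∀ m ≥ N, ∀ n ≥ N, n2 τ (x m - x n) < ε) :
    ∃ y, ‖y‖ ≤ C ∧ Tends τ x y := by
  have hC0 : 0 ≤ C := (norm_nonneg _).trans (hx 0)
  rcases hC0.eq_or_lt with rfl | hC
  · refine ⟨0, by simp, ?_⟩
    have : x = fun _ => 0 := by ext n; simpa using hx n
    rw [this]; exact h.tends_const 0
  have hCC : (C : ℂ) ≠ 0 := by exact_mod_cast hC.ne'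
  obtain ⟨y, hy, hy'⟩ := h.complete (fun n => ((C : ℂ)⁻¹) • x n) (fun n => by
    rw [norm_smul, norm_inv, Complex.norm_real, Real.norm_eq_abs, abs_of_pos hC, inv_mul_le_iff₀ hC,
      mul_one]
    exact hx n) (fun ε hε => by
      obtain ⟨N, hN⟩ := hc (C * ε) (by positivity)
      refine ⟨N, fun m hm n hn => ?_⟩
      rw [← smul_sub, h.n2_smul, norm_inv, Complex.norm_real, Real.norm_eq_abs, abs_of_pos hC,
        inv_mul_lt_iff₀ hC]
      exact hN m hm n hn)
  refine ⟨(C : ℂ) • y, ?_, ?_⟩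
  · rw [norm_smul, Complex.norm_real, Real.norm_eq_abs, abs_of_pos hC]
    nlinarith
  · have := h.tends_smul (C : ℂ) hy'
    refine this.congr fun n => ?_
    simp only [smul_smul, mul_inv_cancel₀ hCC, one_smul]

end IsFiniteVN

end Pool.Agent.Lib.MP_41f445_an
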