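import Pool.Agent.Lib.MP_41f445_an.Circle
import Pool.Agent.Lib.MP_41f445_an.Bridge
import Pool.Agent.Lib.MP_41f445_an.Core
import Pool.Agent.Lib.MP_41f445_an.Model
import Pool.Agent.Lib.MP_41f445_an.Spec
import Pool.Agent.Lib.MP_41f445_an.Count

/-!
# The generating tuple of the algebra `A`
-/

set_option linter.unusedSectionVars false

open Topology Filter
open scoped ComplexOrder InnerProductSpace

namespace Pool.Agent.Lib.MP_41f445_an

section general
variable {H : Type} [NormedAddCommGroup H] [InnerProductSpace ℂ H] [CompleteSpace H]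

/-- Functional calculus in `M` agrees with that of `B(H)`. -/
lemma coe_cfc (M : VonNeumannAlgebra H) (f : ℂ → ℂ) (hf : Continuous f) (x : M.toStarSubalgebra)
    (hx : IsStarNormal x) :
    ((cfc f x : M.toStarSubalgebra) : H →L[ℂ] H) = cfc f (x : H →L[ℂ] H) := by
  have hx' : IsStarNormal (x : H →L[ℂ] H) := ⟨congrArg Subtype.val hx.star_comm_self⟩
  have h1 := StarAlgHom.map_cfc (S := ℂ) (M.toStarSubalgebra.subtype) f x (by fun_prop)
    (by exact continuous_subtype_val) hx hx'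
  exact h1

end general

/-- The shift has no eigenvectors. -/
lemma no_eig (z : ℂ) (ξ : HS) (h : Lop eW 0 ξ = z • ξ) : ξ = 0 := by
  have hval : ∀ q : Gam, ξ (eW⁻¹ * q.1, q.2) = z * ξ q := by
    intro q
    have h1 := congrArg (fun v : HS => (v : Gam → ℂ) q) h
    simp only at h1
    rw [Lop_apply, lp.coeFn_smul, Pi.smul_apply, smul_eq_mul] at h1
    simpa [dot_zero_left, sgn_zero] using h1
  have hnorm : ‖z‖ * ‖ξ‖ = ‖ξ‖ := by
    have h1 : ‖Lop eW 0 ξ‖ = ‖ξ‖ := ContinuousLinearMap.norm_map_of_mem_unitary (Lop_unitary _ _) ξ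
    rw [h, norm_smul] at h1
    exact h1
  by_contra hne
  have hz : ‖z‖ = 1 := by
    have : ‖ξ‖ ≠ 0 := norm_ne_zero_iff.2 hne
    exact mul_right_cancel₀ this (by rw [hnorm, one_mul])
  apply hne
  apply l2_ext
  rintro ⟨g, i⟩
  change ξ (g, i) = 0
  -- the modulus is constant along the orbit
  have horb : ∀ n : ℕ, ‖ξ ((eW⁻¹) ^ n * g, i)‖ = ‖ξ (g, i)‖ := by
    intro n
    induction n with
    | zero => simp
    | succ n ih =>
      have := hval ((eW⁻¹) ^ n * g, i)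
      rw [pow_succ', mul_assoc]
      simp only at this
      rw [this, norm_mul, hz, one_mul, ih]
  by_contra hc
  have hpos : 0 < ‖ξ (g, i)‖ ^ 2 := by
    have : 0 < ‖ξ (g, i)‖ := norm_pos_iff.2 hc
    positivity
  have hev := (l2_summable ξ).tendsto_cofinite_zero.eventually (gt_mem_nhds hpos)
  rw [Filter.eventually_cofinite] at hev
  have hinj : Function.Injective (fun n : ℕ => (((eW⁻¹) ^ n * g, i) : Gam)) := by
    intro a b hab
    simp only [Prod.mk.injEq, mul_left_inj, and_true] at hab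
    by_contra hne2
    have h3 : eW ^ ((a : ℤ) - b) = 1 := by
      rw [zpow_sub, zpow_natCast, zpow_natCast]
      have h4 : eW ^ a = eW ^ b := by
        have := congrArg (fun x => x⁻¹) hab
        simpa [inv_pow] using this
      rw [h4, mul_inv_cancel]
    exact eW_zpow_ne (sub_ne_zero.2 (by exact_mod_cast hne2)) h3
  refine Set.infinite_range_of_injective hinj (hev.subset ?_)
  rintro _ ⟨n, rfl⟩
  change ¬ (‖ξ ((eW⁻¹) ^ n * g, i)‖ ^ 2 < ‖ξ (g, i)‖ ^ 2)
  rw [horb n]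
  exact lt_irrefl _

/-- The real part of the shift has no eigenvectors. -/
lemma no_eig_re (t : ℝ) (ξ : HS) (h : (Lop eW 0 + star (Lop eW 0)) ξ = ((2 * t : ℝ) : ℂ) • ξ) :
    ξ = 0 := by
  set w := Lop eW 0 with hw
  have hu : w * star w = 1 := (Unitary.mem_iff.1 (Lop_unitary eW 0)).2
  have h1 : w (w ξ) + ξ = ((2 * t : ℝ) : ℂ) • w ξ := by
    have h2 := congrArg (fun v => w v) h
    beta_reduce at h2
    rw [map_smul, add_apply, map_add] at h2
    have h3 : w ((star w) ξ) = ξ := DFunLike.congr_fun hu ξ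
    rw [h3] at h2
    exact h2
  obtain ⟨s, hs⟩ := IsAlgClosed.exists_pow_nat_eq (((t : ℝ) : ℂ) ^ 2 - 1) (n := 2) (by norm_num)
  set z1 : ℂ := t + s with hz1
  set z2 : ℂ := t - s with hz2
  have hsum : z1 + z2 = ((2 * t : ℝ) : ℂ) := by rw [hz1, hz2]; push_cast; ring
  have hprod : z1 * z2 = 1 := by
    rw [hz1, hz2]
    linear_combination (-1 : ℂ) * hs
  have h4 : w (w ξ - z2 • ξ) = z1 • (w ξ - z2 • ξ) := by
    rw [map_sub, map_smul, smul_sub, smul_smul, hprod, one_smul]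
    have h5 : w (w ξ) = (z1 + z2) • w ξ - ξ := by
      rw [hsum, ← h1]; abel
    rw [h5, add_smul]; abel
  have h6 := no_eig z1 _ h4
  exact no_eig z2 ξ (sub_eq_zero.1 h6)

/-- **The tuple.** -/
theorem exists_tuple : ∃ K : Set ℂ, IsCompact K ∧ K.Nonempty ∧ Disjoint K (Dset Mdl) ∧
    ∃ U V W a b : HS →L[ℂ] HS, (U ∈ Mdl ∧ U ∈ unitary (HS →L[ℂ] HS)) ∧
      (V ∈ Mdl ∧ V ∈ unitary (HS →L[ℂ] HS)) ∧ (W ∈ Mdl ∧ W ∈ unitary (HS →L[ℂ] HS)) ∧
      (a ∈ Mdl ∧ a ∈ unitary (HS →L[ℂ] HS)) ∧ (b ∈ Mdl ∧ b ∈ unitary (HS →L[ℂ] HS)) ∧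
      U * V = W * (V * U) ∧ a * U = U * a ∧ a * V = U * V * a ∧ b * V = V * b ∧
      b * U = U * V * b ∧ W * U = U * W ∧ W * V = V * W ∧ W * a = a * W ∧ W * b = b * W ∧
      cfc (fun z : ℂ => ((Metric.infDist z K : ℝ) : ℂ)) W = 0 := by
  have hII := Mdl_II1
  have hstd := hII.std
  have hF := hstd.isFiniteVN
  have : TopologicalSpace.SeparableSpace HS := hII.separable
  -- the shift in the algebra
  set wN : Mdl.toStarSubalgebra := ⟨Lop eW 0, Lop_mem _ _⟩ with hwN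
  have hwu : wN ∈ unitary Mdl.toStarSubalgebra := by
    rw [Unitary.mem_iff]
    exact ⟨Subtype.ext (Unitary.mem_iff.1 (Lop_unitary eW 0)).1,
      Subtype.ext (Unitary.mem_iff.1 (Lop_unitary eW 0)).2⟩
  have hwn := unitary_normal hwu
  obtain ⟨K, hK, hKne, hKD, hK1, p0, hp0, hp0d, hp0c, hp0t⟩ := exists_compact hF hwu
    (fun z e he hwe => by
      apply Subtype.ext
      apply hstd.eq_zero e.2
      have h1 := congrArg Subtype.val hwe
      exact no_eig z _ (DFunLike.congr_fun h1 Om)) (Dset Mdl) (Dset_countable hstd)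
  set dN := uf wN (fun z => Metric.infDist z K) with hdN
  have hdc : Continuous fun z : ℂ => Metric.infDist z K := Metric.continuous_infDist_pt K
  have hdsa : IsSelfAdjoint dN := uf_sa _
  -- commutation with everything commuting with the shift and its adjoint
  have hcomm_d : ∀ y : Mdl.toStarSubalgebra, Commute wN y → Commute (star wN) y → Commute dN y :=
    fun y h1 h2 => h1.cfc h2 _
  have hcomm_p0 : ∀ y : Mdl.toStarSubalgebra, Commute wN y → Commute (star wN) y →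
      Commute p0 y := fun y h1 h2 => hp0c y (hcomm_d y h1 h2)
  -- the real part of the shift
  set w : HS →L[ℂ] HS := Lop eW 0 with hw
  set c : HS →L[ℂ] HS := ((1 / 2 : ℝ) : ℂ) • (w + star w) with hc
  have hcsa : IsSelfAdjoint c := by
    rw [isSelfAdjoint_iff, hc, star_smul, star_add, star_star, add_comm (star w)]
    congr 1
    exact Complex.conj_ofReal _
  set P0 : HS →L[ℂ] HS := (p0 : HS →L[ℂ] HS) with hP0
  have hP0p : IsStarProjection P0 := ⟨congrArg Subtype.val hp0.isIdempotentElem,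
    congrArg Subtype.val hp0.isSelfAdjoint⟩
  have hww1 : star w * w = 1 := (Unitary.mem_iff.1 (Lop_unitary eW 0)).1
  have hww2 : w * star w = 1 := (Unitary.mem_iff.1 (Lop_unitary eW 0)).2
  have hP0w : P0 * w = w * P0 :=
    congrArg Subtype.val (hcomm_p0 wN (Commute.refl _) hwn.star_comm_self)
  have hP0w' : P0 * star w = star w * P0 :=
    congrArg Subtype.val (hcomm_p0 (star wN) hwn.star_comm_self.symm (Commute.refl _))
  have hcP0 : c * P0 = P0 * c := by
    rw [hc, smul_mul_assoc, mul_smul_comm, add_mul, mul_add, hP0w, hP0w']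
  have hcM : c ∈ Mdl := smul_memM _ (add_mem (Lop_mem _ _) (star_mem (Lop_mem _ _)))
  obtain ⟨s, hs⟩ := spectral_cut hstd hcsa hP0p hcP0 (fun t ξ _ hξ => by
    apply no_eig_re t ξ
    have h1 : (w + star w) ξ = (2 : ℂ) • c ξ := by
      rw [hc, smul_apply, smul_smul]; norm_num
    rw [h1, hξ, smul_smul]
    congr 1
    push_cast; ring) (1 / 2) (by norm_num) hp0t
  set T : HS →L[ℂ] HS := cutP c s * P0 with hT
  set p : HS →L[ℂ] HS := rp T with hp
  have hcutM : cutP c s ∈ Mdl := cfc_mem hcM _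
  have hTM : T ∈ Mdl := mul_mem hcutM p0.2
  have hpM : p ∈ Mdl := rp_mem hTM
  have hpp : IsStarProjection p := rp_proj T
  have hP0cut : cutP c s * P0 = P0 * cutP c s := cutP_comm hcP0 s
  have hP0T : P0 * T = T := by
    rw [hT, ← mul_assoc, ← hP0cut, mul_assoc, hP0p.isIdempotentElem.eq]
  have hP0p' : P0 * p = p := rp_le hP0T
  have hpt : ⟪Om, p Om⟫_ℂ = 1 / 2 := by
    have h1 := trace_proj_re hF (e := (⟨p, hpM⟩ : Mdl.toStarSubalgebra))
      ⟨Subtype.ext hpp.isIdempotentElem.eq, Subtype.ext hpp.isSelfAdjoint.star_eq⟩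
    have h2 : trM Mdl Om (⟨p, hpM⟩ : Mdl.toStarSubalgebra) = ⟪Om, p Om⟫_ℂ := rfl
    rw [h2] at h1
    rw [h1, hs]; norm_num
  -- commutation of `p`
  have hpcomm : ∀ y : HS →L[ℂ] HS, y ∈ Mdl → w * y = y * w → star w * y = y * star w →
      w * star y = star y * w → star w * star y = star y * star w → p * y = y * p := by
    intro y hy h1 h2 h3 h4
    have aux : ∀ x : HS →L[ℂ] HS, x ∈ Mdl → w * x = x * w → star w * x = x * star w →
        x * T = T * x := by
      intro x hx g1 g2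
      have g3 : P0 * x = x * P0 := congrArg Subtype.val (hcomm_p0 ⟨x, hx⟩ (Subtype.ext g1)
        (Subtype.ext g2))
      have g4 : c * x = x * c := by
        rw [hc, smul_mul_assoc, mul_smul_comm, add_mul, mul_add, g1, g2]
      have g5 : cutP c s * x = x * cutP c s := cutP_comm g4 s
      rw [hT, ← mul_assoc, ← g5, mul_assoc, ← g3, ← mul_assoc]
    exact (rp_commute' T y (aux y hy h1 h2) (aux (star y) (star_mem hy) h3 h4)).symm
  -- the partial isometry
  obtain ⟨v, hvM, hv1, hv2⟩ := hII.exists_equiv hpp hpM hpp.one_sub (sub_mem (one_mem Mdl) hpM)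
    (by
      have h1 : ⟪Om, (1 - p : HS →L[ℂ] HS) Om⟫_ℂ = ⟪Om, Om⟫_ℂ - ⟪Om, p Om⟫_ℂ := by
        rw [sub_apply, inner_sub_right]; rfl
      rw [h1, hpt, inner_self_eq_norm_sq_to_K, hstd.norm_one]; norm_num)
  set pN : Mdl.toStarSubalgebra := ⟨p, hpM⟩ with hpN
  set vN : Mdl.toStarSubalgebra := ⟨v, hvM⟩ with hvN
  have hpNp : IsStarProjection pN := ⟨Subtype.ext hpp.isIdempotentElem.eq,
    Subtype.ext hpp.isSelfAdjoint.star_eq⟩
  have hv1N : star vN * vN = pN := Subtype.ext hv1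
  have hv2N : vN * star vN = 1 - pN := Subtype.ext hv2
  -- the relative commutant
  let C : StarSubalgebra ℂ Mdl.toStarSubalgebra := StarSubalgebra.centralizer ℂ {pN}
  have hCcl : IsClosed (C : Set Mdl.toStarSubalgebra) := by
    rw [StarSubalgebra.coe_centralizer]
    exact Set.isClosed_centralizer _
  let _ : CStarAlgebra C := StarSubalgebra.cstarAlgebra C (h_closed := hCcl)
  have memC : ∀ x : Mdl.toStarSubalgebra, x ∈ C ↔ pN * x = x * pN := by
    intro x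
    change x ∈ StarSubalgebra.centralizer ℂ {pN} ↔ _
    rw [StarSubalgebra.mem_centralizer_iff]
    constructor
    · intro h
      exact (h pN rfl).1
    · rintro h g hg
      rw [Set.mem_singleton_iff.1 hg]
      exact ⟨h, by rw [hpNp.isSelfAdjoint.star_eq]; exact h⟩
  let ι : C →⋆ₐ[ℂ] Mdl.toStarSubalgebra := C.subtype
  have hιc : ∀ x : C, Commute pN (ι x) := fun x => (memC x).1 x.2
  let Φ : C →⋆ₐ[ℂ] Mdl.toStarSubalgebra := halfHom ι hpNp hιc hv1N hv2N
  -- elements of the relative commutant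
  have hLcomm : ∀ g : Lam, eW * g = g * eW → pN * (⟨Lop g 0, Lop_mem _ _⟩ : Mdl.toStarSubalgebra) =
      ⟨Lop g 0, Lop_mem _ _⟩ * pN := by
    intro g hg
    have hmul : ∀ g₁ g₂ : Lam, Lop g₁ 0 * Lop g₂ 0 = Lop (g₁ * g₂) 0 := by
      intro g₁ g₂
      rw [Lop_mul]
      have : dot (0 : PIdx).2 (0 : PIdx).1 = 0 := dot_zero_left _
      rw [this, sgn_zero, one_smul, add_zero]
    have hst : ∀ g₁ : Lam, star (Lop g₁ 0) = Lop g₁⁻¹ 0 := by
      intro g₁
      rw [Lop_star]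
      have : dot (0 : PIdx).2 (0 : PIdx).1 = 0 := dot_zero_left _
      rw [this, sgn_zero, one_smul]
    have hg1 : eW⁻¹ * g = g * eW⁻¹ := by
      rw [inv_mul_eq_iff_eq_mul, ← mul_assoc, hg, mul_assoc, mul_inv_cancel, mul_one]
    have hg2 : eW * g⁻¹ = g⁻¹ * eW := by
      rw [eq_inv_mul_iff_mul_eq, ← mul_assoc, ← hg, mul_assoc, mul_inv_cancel, mul_one]
    have hg3 : eW⁻¹ * g⁻¹ = g⁻¹ * eW⁻¹ := by
      rw [← mul_inv_rev, ← mul_inv_rev, hg]
    apply Subtype.ext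
    apply hpcomm _ (Lop_mem _ _)
    · rw [hw, hmul, hmul, hg]
    · rw [hw, hst, hmul, hmul, hg1]
    · rw [hw, hst, hmul, hmul, hg2]
    · rw [hw, hst, hst, hmul, hmul, hg3]
  have hmulN : ∀ g₁ g₂ : Lam, (⟨Lop g₁ 0, Lop_mem _ _⟩ : Mdl.toStarSubalgebra) *
      ⟨Lop g₂ 0, Lop_mem _ _⟩ = ⟨Lop (g₁ * g₂) 0, Lop_mem _ _⟩ := by
    intro g₁ g₂
    apply Subtype.ext
    change Lop g₁ 0 * Lop g₂ 0 = Lop (g₁ * g₂) 0
    rw [Lop_mul]
    have : dot (0 : PIdx).2 (0 : PIdx).1 = 0 := dot_zero_left _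
    rw [this, sgn_zero, one_smul, add_zero]
  let el : (g : Lam) → eW * g = g * eW → C := fun g hg =>
    ⟨⟨Lop g 0, Lop_mem _ _⟩, (memC _).2 (hLcomm g hg)⟩
  have hel : ∀ g₁ g₂ h1 h2 h3, el g₁ h1 * el g₂ h2 = el (g₁ * g₂) h3 := by
    intro g₁ g₂ h1 h2 h3
    exact Subtype.ext (hmulN g₁ g₂)
  have helu : ∀ g h, el g h ∈ unitary C := by
    intro g hg
    rw [Unitary.mem_iff]
    exact ⟨Subtype.ext (Subtype.ext (Unitary.mem_iff.1 (Lop_unitary g 0)).1),
      Subtype.ext (Subtype.ext (Unitary.mem_iff.1 (Lop_unitary g 0)).2)⟩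
  have hΦu : ∀ x : C, x ∈ unitary C → ((Φ x : Mdl.toStarSubalgebra) : HS →L[ℂ] HS) ∈ Mdl ∧
      ((Φ x : Mdl.toStarSubalgebra) : HS →L[ℂ] HS) ∈ unitary (HS →L[ℂ] HS) := by
    intro x hx
    refine ⟨(Φ x).2, ?_⟩
    have h1 : star (Φ x) * Φ x = 1 := by
      rw [← map_star, ← map_mul, (Unitary.mem_iff.1 hx).1, map_one]
    have h2 : Φ x * star (Φ x) = 1 := by
      rw [← map_star, ← map_mul, (Unitary.mem_iff.1 hx).2, map_one]
    exact Unitary.mem_iff.2 ⟨congrArg Subtype.val h1, congrArg Subtype.val h2⟩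
  have hΦm : ∀ x y : C, ((Φ x : Mdl.toStarSubalgebra) : HS →L[ℂ] HS) * (Φ y) = (Φ (x * y)) := by
    intro x y
    rw [map_mul]; rfl
  have cU : eW * eU = eU * eW := g_WU
  have cV : eW * eV = eV * eW := g_WV
  have cA : eW * eA = eA * eW := g_WA
  have cB : eW * eB = eB * eW := g_WB
  have cW : eW * eW = eW * eW := rfl
  have cmul : ∀ g g' : Lam, eW * g = g * eW → eW * g' = g' * eW → eW * (g * g') = (g * g') * eW := by
    intro g g' h h'
    rw [← mul_assoc, h, mul_assoc, h', mul_assoc]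
  have hcong : ∀ (g g' : Lam) (h : eW * g = g * eW) (h' : eW * g' = g' * eW), g = g' →
      ((Φ (el g h) : Mdl.toStarSubalgebra) : HS →L[ℂ] HS) =
        ((Φ (el g' h') : Mdl.toStarSubalgebra) : HS →L[ℂ] HS) := by
    rintro g _ h h' rfl
    rfl
  -- the functional calculus of `W`
  have hcfc : cfc (fun z : ℂ => ((Metric.infDist z K : ℝ) : ℂ))
      ((Φ (el eW cW) : Mdl.toStarSubalgebra) : HS →L[ℂ] HS) = 0 := by
    have hWn : IsStarNormal (el eW cW) := ⟨(Unitary.mem_iff.1 (helu eW cW)).1.trans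
      (Unitary.mem_iff.1 (helu eW cW)).2.symm⟩
    have hΦn : IsStarNormal (Φ (el eW cW)) := ⟨by
      rw [commute_iff_eq, ← map_star, ← map_mul, ← map_mul, hWn.star_comm_self.eq]⟩
    have hfc : Continuous fun z : ℂ => ((Metric.infDist z K : ℝ) : ℂ) := by fun_prop
    rw [← coe_cfc Mdl _ hfc _ hΦn]
    have hΦcont : Continuous Φ := by
      have h0 : (Φ : C → Mdl.toStarSubalgebra) = fun x : C => pN * x.1 + vN * x.1 * star vN := rfl
      rw [h0]
      fun_prop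
    have h1 : Φ (cfc (fun z : ℂ => ((Metric.infDist z K : ℝ) : ℂ)) (el eW cW)) =
        cfc (fun z : ℂ => ((Metric.infDist z K : ℝ) : ℂ)) (Φ (el eW cW)) :=
      StarAlgHom.map_cfc (S := ℂ) Φ _ _ (by fun_prop) hΦcont hWn hΦn
    have h2 : ((cfc (fun z : ℂ => ((Metric.infDist z K : ℝ) : ℂ)) (el eW cW) : C) :
        Mdl.toStarSubalgebra) = dN := by
      have h3 := StarAlgHom.map_cfc (S := ℂ) ι (fun z : ℂ => ((Metric.infDist z K : ℝ) : ℂ))
        (el eW cW) (by fun_prop) continuous_subtype_val hWn hwn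
      exact h3
    rw [← h1]
    have h4 : Φ (cfc (fun z : ℂ => ((Metric.infDist z K : ℝ) : ℂ)) (el eW cW)) =
        pN * dN + vN * dN * star vN := by
      rw [← h2]; rfl
    rw [h4]
    have h5 : pN * dN = 0 := by
      have h6 : p0 * pN = pN := Subtype.ext hP0p'
      have h7 : dN * pN = 0 := by rw [← h6, ← mul_assoc, hp0d, zero_mul]
      have := congrArg star h7
      rwa [star_mul, hdsa.star_eq, hpNp.isSelfAdjoint.star_eq, star_zero] at this
    have h8 : vN * dN = 0 := by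
      have h9 : vN * pN = vN := by
        rw [← hv1N, ← mul_assoc]
        exact pi_of_proj (by rw [hv1N]; exact hpNp)
      rw [← h9, mul_assoc, h5, mul_zero]
    rw [h5, h8, zero_mul, add_zero]
    rfl
  refine ⟨K, hK, hKne, hKD, Φ (el eU cU), Φ (el eV cV), Φ (el eW cW), Φ (el eA cA), Φ (el eB cB),
    hΦu _ (helu eU cU), hΦu _ (helu eV cV), hΦu _ (helu eW cW), hΦu _ (helu eA cA),
    hΦu _ (helu eB cB),
    ?_, ?_, ?_, ?_, ?_, ?_, ?_, ?_, ?_, hcfc⟩
  · rw [hΦm, hΦm, hΦm, hel _ _ cU cV (cmul _ _ cU cV), hel _ _ cV cU (cmul _ _ cV cU),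
      hel _ _ cW (cmul _ _ cV cU) (cmul _ _ cW (cmul _ _ cV cU))]
    exact hcong _ _ (cmul _ _ cU cV) (cmul _ _ cW (cmul _ _ cV cU)) g_UV
  · rw [hΦm, hΦm, hel _ _ cA cU (cmul _ _ cA cU), hel _ _ cU cA (cmul _ _ cU cA)]
    exact hcong _ _ (cmul _ _ cA cU) (cmul _ _ cU cA) g_AU
  · rw [hΦm, hΦm, hΦm, hel _ _ cA cV (cmul _ _ cA cV), hel _ _ cU cV (cmul _ _ cU cV),
      hel _ _ (cmul _ _ cU cV) cA (cmul _ _ (cmul _ _ cU cV) cA)]
    exact hcong _ _ (cmul _ _ cA cV) (cmul _ _ (cmul _ _ cU cV) cA) g_AV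
  · rw [hΦm, hΦm, hel _ _ cB cV (cmul _ _ cB cV), hel _ _ cV cB (cmul _ _ cV cB)]
    exact hcong _ _ (cmul _ _ cB cV) (cmul _ _ cV cB) g_BV
  · rw [hΦm, hΦm, hΦm, hel _ _ cB cU (cmul _ _ cB cU), hel _ _ cU cV (cmul _ _ cU cV),
      hel _ _ (cmul _ _ cU cV) cB (cmul _ _ (cmul _ _ cU cV) cB)]
    exact hcong _ _ (cmul _ _ cB cU) (cmul _ _ (cmul _ _ cU cV) cB) g_BU
  · rw [hΦm, hΦm, hel _ _ cW cU (cmul _ _ cW cU), hel _ _ cU cW (cmul _ _ cU cW)]
    exact hcong _ _ (cmul _ _ cW cU) (cmul _ _ cU cW) g_WU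
  · rw [hΦm, hΦm, hel _ _ cW cV (cmul _ _ cW cV), hel _ _ cV cW (cmul _ _ cV cW)]
    exact hcong _ _ (cmul _ _ cW cV) (cmul _ _ cV cW) g_WV
  · rw [hΦm, hΦm, hel _ _ cW cA (cmul _ _ cW cA), hel _ _ cA cW (cmul _ _ cA cW)]
    exact hcong _ _ (cmul _ _ cW cA) (cmul _ _ cA cW) g_WA
  · rw [hΦm, hΦm, hel _ _ cW cB (cmul _ _ cW cB), hel _ _ cB cW (cmul _ _ cB cW)]
    exact hcong _ _ (cmul _ _ cW cB) (cmul _ _ cB cW) g_WB

end Pool.Agent.Lib.MP_41f445_an
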