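import Pool.Agent.Lib.MP_41f445_an.Stmt
import Pool.Agent.Lib.MP_41f445_an.McDuff
import Pool.Agent.Lib.MP_41f445_an.Final
import Pool.Agent.Lib.MP_41f445_an.Tuple

/-!
# Transfer of the conclusion to the definitions used in the statement
-/

open Filter Topology
open scoped InnerProductSpace ENNReal

namespace Pool.Agent.Lib.MP_41f445_an

section
variable {H : Type} [NormedAddCommGroup H] [InnerProductSpace ℂ H] [CompleteSpace H]
variable {M : VonNeumannAlgebra H} {Ω : H}

omit [InnerProductSpace ℂ H] [CompleteSpace H] in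
lemma tens_ext {f g : St.Tens H} (h : ∀ a b, St.co f a b = St.co g a b) : f = g := by
  have : (show lp (fun _ : PIdx => H) 2 from f) = (show lp (fun _ : PIdx => H) 2 from g) := by
    ext i
    exact h i.1 i.2
  exact this

omit [CompleteSpace H] in
lemma st_one (x : H →L[ℂ] H) : St.one x = (tensorOne x : Amp H →L[ℂ] Amp H) := by
  refine ContinuousLinearMap.ext fun f => tens_ext fun a b => ?_
  exact Classical.choose_spec (St.exists_one x) f a b

omit [CompleteSpace H] in
lemma st_X (n : ℕ) : (St.X n : St.Tens H →L[ℂ] St.Tens H) =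
    (pauliX n : Amp H →L[ℂ] Amp H) := by
  refine ContinuousLinearMap.ext fun f => tens_ext fun a b => ?_
  exact Classical.choose_spec (St.exists_X n) f a b

omit [CompleteSpace H] in
lemma st_Z (n : ℕ) : (St.Z n : St.Tens H →L[ℂ] St.Tens H) =
    (pauliZ n : Amp H →L[ℂ] Amp H) := by
  refine ContinuousLinearMap.ext fun f => tens_ext fun a b => ?_
  exact Classical.choose_spec (St.exists_Z n) f a b

omit [InnerProductSpace ℂ H] [CompleteSpace H] in
lemma st_vec (Ω : H) : St.vec Ω = (ampVec Ω : Amp H) := by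
  apply tens_ext
  intro a b
  obtain ⟨h1, h2⟩ := Classical.choose_spec (St.exists_vec Ω)
  by_cases h : a = 0 ∧ b = 0
  · obtain ⟨rfl, rfl⟩ := h
    refine h1.trans ?_
    exact (lp.single_apply_self (E := fun _ : PIdx => H) 2 (0 : PIdx) Ω).symm
  · have h' : a ≠ 0 ∨ b ≠ 0 := by
      by_contra hcon
      push Not at hcon
      exact h hcon
    refine (h2 a b h').trans ?_
    symm
    refine lp.single_apply_ne (E := fun _ : PIdx => H) 2 (0 : PIdx) Ω ?_
    intro h0
    rcases h' with h' | h'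
    · exact h' (congrArg Prod.fst h0)
    · exact h' (congrArg Prod.snd h0)

lemma mem_stgen {S : Set (H →L[ℂ] H)} {x : H →L[ℂ] H} : x ∈ St.gen S ↔ x ∈ gen S := by
  rw [mem_gen_iff]
  refine (Classical.choose_spec (St.exists_gen S) x).trans ?_
  constructor
  · intro h y h1 h2
    exact h y fun s hs => ⟨h1 s hs, h2 s hs⟩
  · intro h y hy
    exact h y (fun s hs => (hy s hs).1) (fun s hs => (hy s hs).2)

lemma mem_st_ampR {x : St.Tens H →L[ℂ] St.Tens H} :
    x ∈ St.ampR M ↔ (show Amp H →L[ℂ] Amp H from x) ∈ ampR M := by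
  refine mem_stgen.trans ?_
  have : (St.gensM M : Set (St.Tens H →L[ℂ] St.Tens H)) =
      (({T | ∃ x ∈ M, T = tensorOne x} ∪ {T | ∃ n, T = pauliX n ∨ T = pauliZ n} :
        Set (Amp H →L[ℂ] Amp H))) := by
    ext T
    constructor
    · rintro (⟨x, hx, rfl⟩ | ⟨n, rfl | rfl⟩)
      · exact Or.inl ⟨x, hx, st_one x⟩
      · exact Or.inr ⟨n, Or.inl (st_X n)⟩
      · exact Or.inr ⟨n, Or.inr (st_Z n)⟩
    · rintro (⟨x, hx, rfl⟩ | ⟨n, rfl | rfl⟩)
      · exact Or.inl ⟨x, hx, (st_one x).symm⟩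
      · exact Or.inr ⟨n, Or.inl (st_X n).symm⟩
      · exact Or.inr ⟨n, Or.inr (st_Z n).symm⟩
  rw [this]
  exact Iff.rfl

lemma mem_st_oneR {x : St.Tens H →L[ℂ] St.Tens H} :
    x ∈ St.oneR H ↔ (show Amp H →L[ℂ] Amp H from x) ∈ (oneR : VonNeumannAlgebra (Amp H)) := by
  refine mem_stgen.trans ?_
  have : (St.gensR H : Set (St.Tens H →L[ℂ] St.Tens H)) =
      ({T | ∃ n, T = pauliX n ∨ T = pauliZ n} : Set (Amp H →L[ℂ] Amp H)) := by
    ext T
    constructor
    · rintro ⟨n, rfl | rfl⟩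
      · exact ⟨n, Or.inl (st_X n)⟩
      · exact ⟨n, Or.inr (st_Z n)⟩
    · rintro ⟨n, rfl | rfl⟩
      · exact ⟨n, Or.inl (st_X n).symm⟩
      · exact ⟨n, Or.inr (st_Z n).symm⟩
  rw [this]
  exact Iff.rfl

lemma st_WAE {α : Type} {f g : α → H →L[ℂ] H} : St.WAE M Ω f g ↔ WAE M Ω f g := by
  constructor
  · rintro ⟨u, hu, h⟩
    exact ⟨u, fun n => ⟨(hu n).1, Unitary.mem_iff.2 (hu n).2⟩, h⟩
  · rintro ⟨u, hu, h⟩
    exact ⟨u, fun n => ⟨(hu n).1, Unitary.mem_iff.1 (hu n).2⟩, h⟩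

lemma st_II1 (h : IsII1Factor M Ω) : St.IsII1Factor M Ω where
  separable := h.separable
  infinite := by
    intro s
    by_contra hcon
    push Not at hcon
    apply h.infinite
    have hle : Subalgebra.toSubmodule M.toStarSubalgebra.toSubalgebra ≤
        Submodule.span ℂ (s : Set (H →L[ℂ] H)) := fun x hx => hcon x hx
    have : FiniteDimensional ℂ (Submodule.span ℂ (s : Set (H →L[ℂ] H))) :=
      FiniteDimensional.span_finset ℂ s
    exact Submodule.finiteDimensional_of_le hle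
  factor := by
    intro z hz hc
    exact h.factor z hz (VonNeumannAlgebra.mem_commutant_iff.2 hc)
  norm_one := h.norm_one
  cyclic := by
    intro ξ ε hε
    obtain ⟨_, ⟨x, hx, rfl⟩, hd⟩ := h.cyclic.exists_dist_lt ξ hε
    exact ⟨x, hx, by rwa [dist_comm, dist_eq_norm] at hd⟩
  trace := h.trace

/-- The *-isomorphism given by an isomorphism in the sense of the statement. -/
noncomputable def toIso {σ : (St.Tens H →L[ℂ] St.Tens H) → (H →L[ℂ] H)}
    (h : St.IsIso (St.ampR M) M σ) :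
    (ampR M).toStarSubalgebra ≃⋆ₐ[ℂ] M.toStarSubalgebra where
  toEquiv := Equiv.ofBijective
    (fun x : (ampR M).toStarSubalgebra =>
      (⟨σ x.1, h.mem x.1 (mem_st_ampR.2 x.2)⟩ : M.toStarSubalgebra)) (by
      constructor
      · intro x y hxy
        exact Subtype.ext (h.inj x.1 (mem_st_ampR.2 x.2) y.1 (mem_st_ampR.2 y.2)
          (congrArg Subtype.val hxy))
      · intro y
        obtain ⟨x, hx, hxy⟩ := h.surj y.1 y.2
        exact ⟨⟨x, mem_st_ampR.1 hx⟩, Subtype.ext hxy⟩)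
  map_mul' x y := Subtype.ext (h.mul x.1 (mem_st_ampR.2 x.2) y.1 (mem_st_ampR.2 y.2))
  map_add' x y := Subtype.ext (h.add x.1 (mem_st_ampR.2 x.2) y.1 (mem_st_ampR.2 y.2))
  map_star' x := Subtype.ext (h.map_star x.1 (mem_st_ampR.2 x.2))
  map_smul' c x := Subtype.ext (h.smul c x.1 (mem_st_ampR.2 x.2))

lemma toIso_coe {σ : (St.Tens H →L[ℂ] St.Tens H) → (H →L[ℂ] H)}
    (h : St.IsIso (St.ampR M) M σ) (x : (ampR M).toStarSubalgebra) :
    (toIso h x : H →L[ℂ] H) = σ (x : Amp H →L[ℂ] Amp H) := rfl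

lemma toIso_admissible {σ : (St.Tens H →L[ℂ] St.Tens H) → (H →L[ℂ] H)}
    (h : St.Admissible M Ω σ) : Admissible M Ω (toIso h.1) := by
  refine ⟨fun x => ⟨tensorOne x, tensorOne_mem x.2⟩, fun _ => rfl, ?_⟩
  have h2 := st_WAE.1 h.2
  obtain ⟨u, hu, hx⟩ := h2
  refine ⟨u, hu, fun x => ?_⟩
  have := hx ⟨x.1, x.2⟩
  have e : σ (St.one (x : H →L[ℂ] H)) = (toIso h.1 ⟨tensorOne (x : H →L[ℂ] H),
      tensorOne_mem x.2⟩ : H →L[ℂ] H) := by
    rw [toIso_coe, st_one]
  simp only at this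
  rw [e] at this
  exact this

/-- The *-homomorphism given by a homomorphism in the sense of the statement. -/
noncomputable def toHom {A : Type} [CStarAlgebra A] {π : A → H →L[ℂ] H} (h : St.IsHom M π) :
    A →⋆ₐ[ℂ] M.toStarSubalgebra where
  toFun a := ⟨π a, h.mem a⟩
  map_one' := Subtype.ext h.map_one
  map_mul' a b := Subtype.ext (h.mul a b)
  map_zero' := Subtype.ext (by
    have := h.smul 0 0
    rw [zero_smul, zero_smul] at this
    exact this)
  map_add' a b := Subtype.ext (h.add a b)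
  commutes' c := Subtype.ext (by
    change π (algebraMap ℂ A c) = algebraMap ℂ (H →L[ℂ] H) c
    rw [Algebra.algebraMap_eq_smul_one, Algebra.algebraMap_eq_smul_one, h.smul, h.map_one])
  map_star' a := Subtype.ext (h.map_star a)

lemma ofHom {A : Type} [CStarAlgebra A] (π : A →⋆ₐ[ℂ] M.toStarSubalgebra) :
    St.IsHom M (fun a => (π a : H →L[ℂ] H)) where
  mem a := (π a).2
  map_one := by rw [map_one]; rfl
  add a b := by rw [map_add]; rfl
  mul a b := by rw [map_mul]; rfl
  smul c a := by rw [map_smul]; rfl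
  map_star a := by rw [map_star]; rfl

/-- Transfer of non-extremality. -/
lemma transfer {σ : (St.Tens H →L[ℂ] St.Tens H) → (H →L[ℂ] H)} (hσ : St.Admissible M Ω σ)
    {A : Type} [CStarAlgebra A] {π : A → H →L[ℂ] H} (hπ : St.IsHom M π)
    (h : ¬ IsExtremePt M Ω (toIso hσ.1) (toHom hπ)) : ¬ St.IsExtremePt M Ω σ π := by
  intro hext
  apply h
  intro t π₁ π₂ ht0 ht1 hc
  obtain ⟨p, c, hp, hpR, htr, hc1, hw⟩ := hc
  have key := hext t (fun a => (π₁ a : H →L[ℂ] H)) (fun a => (π₂ a : H →L[ℂ] H)) (ofHom π₁)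
    (ofHom π₂) ht0 ht1 ⟨p, ⟨mem_st_oneR.2 hpR, hp.isIdempotentElem.eq,
      hp.isSelfAdjoint.star_eq⟩, by rw [st_vec]; exact htr, ?_⟩
  · exact ⟨st_WAE.1 key.1, st_WAE.1 key.2⟩
  · rw [st_WAE]
    have e : (fun a => σ (St.mix (K := St.Tens H) (St.one (π₁ a : H →L[ℂ] H))
        (St.one (π₂ a : H →L[ℂ] H)) p)) = fun a => (toIso hσ.1 (c a) : H →L[ℂ] H) := by
      funext a
      rw [toIso_coe, hc1, st_one, st_one]
      rfl
    rw [e]
    exact hw

end

/-- The model has an admissible isomorphism in the sense of the statement. -/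
theorem Mdl_adm : St.Admissible Mdl Om (fun T : St.Tens HS →L[ℂ] St.Tens HS =>
    Ph (show Amp HS →L[ℂ] Amp HS from T)) := by
  constructor
  · refine ⟨?_, ?_, ?_, ?_, ?_, ?_, ?_⟩
    · intro x hx
      exact Ph_mem (mem_st_ampR.1 hx)
    · intro x _ y _ hxy
      exact EquivLike.injective Ph hxy
    · intro y hy
      exact ⟨Ph.symm y, mem_st_ampR.2 (Ph_symm_mem hy), Ph.apply_symm_apply y⟩
    · intro x _ y _
      exact map_add Ph (show Amp HS →L[ℂ] Amp HS from x) (show Amp HS →L[ℂ] Amp HS from y)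
    · intro x _ y _
      exact map_mul Ph (show Amp HS →L[ℂ] Amp HS from x) (show Amp HS →L[ℂ] Amp HS from y)
    · intro c x _
      exact map_smul Ph c (show Amp HS →L[ℂ] Amp HS from x)
    · intro x _
      exact map_star Ph (show Amp HS →L[ℂ] Amp HS from x)
  · rw [st_WAE]
    obtain ⟨j, hj, u, hu, hx⟩ := exists_admissible
    refine ⟨u, hu, fun x => ?_⟩
    have := hx ⟨x.1, x.2⟩
    simp only [sig_coe] at this
    rw [hj] at this
    simp only [st_one]
    exact this

/-- **Main theorem, in the definitions of the statement.** -/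
theorem main_st : ∃ (A : Type) (_ : CStarAlgebra A), St.NoExtreme A Mdl Om := by
  obtain ⟨K, hK, hKne, hKD, U, V, W, a, b, hU, hV, hW, ha, hb, r1, r2, r3, r4, r5, c1, c2, c3,
    c4, hd⟩ := exists_tuple
  have hspec : Disjoint (spectrum ℂ W) (Dset Mdl) := by
    refine Set.disjoint_of_subset_left ?_ hKD
    intro z hz
    have hWn : IsStarNormal W := by
      refine ⟨?_⟩
      change star W * W = W * star W
      rw [Unitary.star_mul_self_of_mem hW.2, Unitary.mul_star_self_of_mem hW.2]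
    have hcont : Continuous (fun z : ℂ => ((Metric.infDist z K : ℝ) : ℂ)) :=
      Complex.continuous_ofReal.comp (Metric.continuous_infDist_pt K)
    have h1 : cfc (fun z : ℂ => ((Metric.infDist z K : ℝ) : ℂ)) W = cfc (fun _ : ℂ => (0 : ℂ)) W := by
      rw [hd]
      simp
    have h2 := eqOn_of_cfc_eq_cfc h1 hcont.continuousOn continuousOn_const hWn hz
    simp only [Complex.ofReal_eq_zero] at h2
    exact (hK.isClosed.mem_iff_infDist_zero hKne).2 h2
  obtain ⟨A, iA, hsep, hne, hfin⟩ := final Mdl_II1 hU hV hW ha hb c1 c2 c3 c4 r1 r2 r3 r4 r5 hspec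
  refine ⟨A, iA, hsep, st_II1 Mdl_II1, ⟨_, Mdl_adm.1⟩, ⟨_, Mdl_adm⟩, ?_, ?_⟩
  · obtain ⟨π⟩ := hne
    exact ⟨_, ofHom π⟩
  · intro σ hσ π hπ
    exact transfer hσ hπ (hfin (toIso hσ.1) (toIso_admissible hσ) (toHom hπ))

end Pool.Agent.Lib.MP_41f445_an
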